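import Pool.Agent.H85.OT.Ode

/-!
# Row FLD (project OT): the field version of the theta identities

`K` is a field in which `2 ≠ 0`.  `U K, V K` are the images of `th3^2, th4^2` (constant term `1`, so
invertible), `xx = V/U`, `ee = D U / U`, `zz = ee / U²`.  Everything follows from the images under
`PowerSeries.map (Int.castRingHom K)` of `two_dbl_U`, `dbl_th4_sq`, `wron`, `ode` (`map` commutes with
`Dq` and `dbl`: compare coefficients, `coeff_Dq`, `PowerSeries.coeff_expand..`) by field algebra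
(`PowerSeries.mul_inv_cancel` with nonzero constant coefficient):
* `D x = D V / U - V D U / U² = (U DV - V DU)/U² = -(1/2) U V (U² - V²)/U² = -(1/2) x (1 - x²) U²`;
* `4 D ε = 4 D²U/U - 4 (DU)²/U²`, and `4 U D²U = 8 (DU)² + U² V² (U² - V²)`, so
  `4 D ε = 4 ε² + V² (U² - V²) = 4 ε² + x² (1 - x²) U⁴`;
* `D z = D ε / U² - 2 ε² / U²`, so `4 D z = U² (x²(1-x²) - 4 z²)`;
* `2 U~ = U + V = U (1 + x)`; `x~ = V~/U~`, `V~² = U V`, so `(1+x)² x~² = 4 x`.
-/

open PowerSeries

namespace Pool.Agent.H85.OT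

variable (K : Type*) [Field K]

theorem fld_c3 : PowerSeries.constantCoeff th3 = 1 := by
  rw [← PowerSeries.coeff_zero_eq_constantCoeff_apply, th3, PowerSeries.coeff_mk, if_pos rfl]

theorem fld_c4 : PowerSeries.constantCoeff th4 = 1 := by
  rw [← PowerSeries.coeff_zero_eq_constantCoeff_apply, th4, PowerSeries.coeff_mk,
    PowerSeries.coeff_zero_eq_constantCoeff_apply, fld_c3, pow_zero, one_mul]

theorem fld_d3 : PowerSeries.coeff 1 th3 = 2 := by
  rw [th3, PowerSeries.coeff_mk, if_neg one_ne_zero, if_pos ⟨1, rfl⟩]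

theorem fld_d4 : PowerSeries.coeff 1 th4 = -2 := by
  rw [th4, PowerSeries.coeff_mk, fld_d3, pow_one, neg_one_mul]

theorem fld_map_Dq (R : Type*) [CommRing R] (f : ℤ⟦X⟧) : PowerSeries.map (Int.castRingHom R) (Dq ℤ f) =
    Dq R (PowerSeries.map (Int.castRingHom R) f) := by
  ext n
  rw [PowerSeries.coeff_map, coeff_Dq, coeff_Dq, PowerSeries.coeff_map, map_mul, map_natCast]

theorem fld_map_dbl (R : Type*) [CommRing R] (f : ℤ⟦X⟧) : PowerSeries.map (Int.castRingHom R) (dbl ℤ f) =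
    dbl R (PowerSeries.map (Int.castRingHom R) f) := by
  unfold dbl
  exact (PowerSeries.map_expand 2 two_ne_zero (Int.castRingHom R) f)

theorem constCoeff_U : PowerSeries.constantCoeff (U K) = 1 := by
  rw [U, ← PowerSeries.coeff_zero_eq_constantCoeff_apply, PowerSeries.coeff_map,
    PowerSeries.coeff_zero_eq_constantCoeff_apply, map_pow, fld_c3, one_pow, map_one]

theorem constCoeff_V : PowerSeries.constantCoeff (V K) = 1 := by
  rw [V, ← PowerSeries.coeff_zero_eq_constantCoeff_apply, PowerSeries.coeff_map,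
    PowerSeries.coeff_zero_eq_constantCoeff_apply, map_pow, fld_c4, one_pow, map_one]

theorem fld_dU : PowerSeries.coeff 1 (U K) = 4 := by
  rw [U, PowerSeries.coeff_map, pow_two, PowerSeries.coeff_one_mul, fld_c3, fld_d3]
  norm_num

theorem fld_dV : PowerSeries.coeff 1 (V K) = -4 := by
  rw [V, PowerSeries.coeff_map, pow_two, PowerSeries.coeff_one_mul, fld_c4, fld_d4]
  norm_num

theorem U_ne_zero : U K ≠ 0 := by
  intro h
  have h1 := constCoeff_U K
  rw [h, map_zero] at h1
  exact zero_ne_one h1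

theorem U_mul_inv : U K * (U K)⁻¹ = 1 := by
  apply PowerSeries.mul_inv_cancel
  rw [constCoeff_U]
  exact one_ne_zero

theorem xx_mul_U : xx K * U K = V K := by
  rw [xx, mul_assoc, mul_comm (U K)⁻¹, U_mul_inv, mul_one]

theorem constCoeff_xx : PowerSeries.constantCoeff (xx K) = 1 := by
  have h := congrArg PowerSeries.constantCoeff (xx_mul_U K)
  rwa [map_mul, constCoeff_U, constCoeff_V, mul_one] at h

theorem coeff_one_xx : PowerSeries.coeff 1 (xx K) = -8 := by
  have h := congrArg (PowerSeries.coeff 1) (xx_mul_U K)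
  rw [PowerSeries.coeff_one_mul, constCoeff_U, constCoeff_xx, fld_dU, fld_dV] at h
  linear_combination h

theorem Dq_U : Dq K (U K) = ee K * U K := by
  rw [ee, mul_assoc, mul_comm (U K)⁻¹, U_mul_inv, mul_one]

theorem constCoeff_zz : PowerSeries.constantCoeff (zz K) = 0 := by
  have h : PowerSeries.constantCoeff (Dq K (U K)) = 0 := by
    rw [← PowerSeries.coeff_zero_eq_constantCoeff_apply, coeff_Dq, Nat.cast_zero, zero_mul]
  rw [zz, ee, map_mul, map_mul, h, zero_mul, zero_mul]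

theorem fld_zz : zz K * U K ^ 2 = ee K := by
  rw [zz]
  linear_combination (ee K * U K * (U K)⁻¹ + ee K) * U_mul_inv K

theorem fld_wron : 2 * (U K * Dq K (V K) - V K * Dq K (U K)) = -(U K * V K * (U K ^ 2 - V K ^ 2)) := by
  have h := congrArg (PowerSeries.map (Int.castRingHom K)) wron
  simp only [map_mul, map_sub, map_neg, map_ofNat, fld_map_Dq] at h
  have e3 : (PowerSeries.map (Int.castRingHom K)) (th3 ^ 4) = U K ^ 2 := by
    rw [U, ← map_pow]
    congr 1
    ring
  have e4 : (PowerSeries.map (Int.castRingHom K)) (th4 ^ 4) = V K ^ 2 := by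
    rw [V, ← map_pow]
    congr 1
    ring
  rw [e3, e4] at h
  exact h

theorem fld_ode : 4 * (U K * Dq K (Dq K (U K))) - 8 * (Dq K (U K)) ^ 2 =
    U K ^ 2 * V K ^ 2 * (U K ^ 2 - V K ^ 2) := by
  have h := congrArg (PowerSeries.map (Int.castRingHom K)) ode
  simp only [map_mul, map_sub, map_ofNat, fld_map_Dq] at h
  have e3 : (PowerSeries.map (Int.castRingHom K)) (th3 ^ 4) = U K ^ 2 := by
    rw [U, ← map_pow]
    congr 1
    ring
  have e4 : (PowerSeries.map (Int.castRingHom K)) (th4 ^ 4) = V K ^ 2 := by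
    rw [V, ← map_pow]
    congr 1
    ring
  have e5 : (PowerSeries.map (Int.castRingHom K)) (Dq ℤ (th3 ^ 2) ^ 2) = (Dq K (U K)) ^ 2 := by
    rw [map_pow, fld_map_Dq]
    rfl
  rw [e3, e4, e5] at h
  exact h

theorem fld_dblU : 2 * dbl K (U K) = U K + V K := by
  have h := congrArg (PowerSeries.map (Int.castRingHom K)) two_dbl_U
  simp only [map_mul, map_add, map_ofNat, fld_map_dbl] at h
  exact h

theorem fld_dblV : dbl K (V K) ^ 2 = U K * V K := by
  have h := congrArg (PowerSeries.map (Int.castRingHom K)) dbl_th4_sq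
  rw [map_pow, map_mul, fld_map_dbl] at h
  have h1 : dbl K (V K) = (dbl K ((PowerSeries.map (Int.castRingHom K)) th4)) ^ 2 := by
    rw [V, map_pow, map_pow]
  rw [h1, h, U, V, map_pow, map_pow]
  ring

variable (h2 : (2 : K) ≠ 0)
include h2

theorem Dq_xx : 2 * Dq K (xx K) = -(xx K * (1 - xx K ^ 2) * U K ^ 2) := by
  have h := fld_wron K
  rw [← xx_mul_U, Derivation.leibniz, smul_eq_mul, smul_eq_mul] at h
  apply mul_left_cancel₀ (pow_ne_zero 2 (U_ne_zero K))
  linear_combination h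

theorem Dq_ee : 4 * Dq K (ee K) = 4 * ee K ^ 2 + xx K ^ 2 * (1 - xx K ^ 2) * U K ^ 4 := by
  have h := fld_ode K
  rw [← xx_mul_U, Dq_U, Derivation.leibniz, smul_eq_mul, smul_eq_mul, Dq_U] at h
  apply mul_left_cancel₀ (pow_ne_zero 2 (U_ne_zero K))
  linear_combination h

theorem Dq_zz : 4 * Dq K (zz K) = U K ^ 2 * (xx K ^ 2 * (1 - xx K ^ 2) - 4 * zz K ^ 2) := by
  have h := Dq_ee K h2
  have h1 := fld_zz K
  have h3 : Dq K (U K ^ 2) = 2 * U K * (ee K * U K) := by
    rw [pow_two, Derivation.leibniz, smul_eq_mul, Dq_U]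
    ring
  rw [← h1, Derivation.leibniz, smul_eq_mul, smul_eq_mul, h3, ← h1] at h
  apply mul_left_cancel₀ (pow_ne_zero 2 (U_ne_zero K))
  linear_combination h

theorem dbl_U : 2 * dbl K (U K) = U K * (1 + xx K) := by
  linear_combination fld_dblU K - xx_mul_U K

theorem dbl_xx : (1 + xx K) ^ 2 * dbl K (xx K) ^ 2 = 4 * xx K := by
  have h1 := dbl_U K h2
  have h3 := fld_dblV K
  rw [← xx_mul_U, map_mul] at h3
  apply mul_left_cancel₀ (pow_ne_zero 2 (U_ne_zero K))
  linear_combination 4 * h3 - (dbl K (xx K)) ^ 2 * (2 * dbl K (U K) + U K * (1 + xx K)) * h1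

/-- `a(q²) = ((1+x)/2)² U²`, in the form used for `θ₃⁴`, `θ₄⁴` -/
theorem dbl_U_sq : 4 * dbl K (U K ^ 2) = U K ^ 2 * (1 + xx K) ^ 2 := by
  rw [map_pow]
  linear_combination (2 * dbl K (U K) + U K * (1 + xx K)) * dbl_U K h2

/-- `b(q²) = x U²` -/
theorem dbl_V_sq : dbl K (V K ^ 2) = U K ^ 2 * xx K := by
  rw [map_pow, fld_dblV, ← xx_mul_U]
  ring

end Pool.Agent.H85.OT
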