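import Pool.Agent.H85.OT.Ha

/-!
# Row HD (project OT): the Hasse identity `U^(p-1) h(λ) = 1` in `F_p[[q]]`

`K = F_p`, `p` odd, `m = (p-1)/2`, `x = xx`, `λ = 1 - x²`, `ε = ee`, `u = U`, `D = Dq`.
`Dq_lam` (any field with `2 ≠ 0`): `D λ = - 2 x D x = x² (1-x²) u² = λ (1-λ) u²` (`Dq_xx`; use
`2 ≠ 0` to cancel).
Put `g = u^(2m) h(λ)`; write `B = Bh p = X(1-X)h'`.
* `D (u^(2m)) = 2 m ε u^(2m) = - ε u^(2m)` (`2m + 1 = p = 0`; `Dq_U`) and
  `D (h(λ)) = h'(λ) λ(1-λ) u²` (`Derivation.map_aeval`).  So `D g = - ε g + u^(2m+2) B(λ)`.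
* `D (u^(2m+2) B(λ)) = (2m+2) ε u^(2m+2) B(λ) + u^(2m+2) B'(λ) λ(1-λ)u²`
  `= ε u^(2m+2) B(λ) + (1/4) u^(2m+4) λ(1-λ) h(λ)` (`hh_ode`), `= ε u^(2m+2) B(λ) + (1/4) u⁴ λ(1-λ) g`.
* `D D g = - (Dε) g - ε D g + ε u^(2m+2)B(λ) + (1/4)u⁴λ(1-λ)g = (- Dε + ε² + (1/4)u⁴λ(1-λ)) g = 0` by
  `Dq_ee` (`λ(1-λ) = x²(1-x²)`).
* `n² g_n = 0` for all `n`, so `g_n = 0` unless `p ∣ n`.
* Let `g~ = dbl g`.  `4^m = 1` in `F_p` (Fermat: `4^m = 2^(p-1)`), `(2 u~)^(2m) = u^(2m)(1+x)^(2m)`, and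
  `(1+x)² λ~ = (1+x)² - 4x = (1-x)²`.  Hence
  `g~ = u^(2m) (1+x)^(2m) ∑ c_i λ~^i = u^(2m) ∑_{i ≤ m} c_i (1-x)^(2i) (1+x)^(2(m-i))`
  so `g - g~ = u^(2m) G(x)` with `G = h(1-X²) - ∑ c_i (1-X)^(2i)(1+X)^(2(m-i))`, `natDegree G ≤ 2m = p-1`.
* coefficient `0` of `g` is `h(0) = 1` (`x(0) = 1`, `λ(0) = 0`), also of `g~`; coefficients
  `1..p-1` of `g` and `g~` vanish.  So coefficients `≤ p-1` of `g - g~` vanish, hence `G = 0`
  (`ord_xx'`) and `g = g~`.
* so `g_N = 0` for `N` odd and `g_(2M) = g_M`; strong induction: `g_N = 0` for `N ≥ 1`.  So `g = 1`.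
-/

open PowerSeries

namespace Pool.Agent.H85.OT

theorem Dq_lam (K : Type*) [Field K] (h2 : (2 : K) ≠ 0) :
    Dq K (lam K) = lam K * (1 - lam K) * U K ^ 2 := by
  have h := Dq_xx K h2
  have h3 : Dq K (lam K) = -(xx K * (2 * Dq K (xx K))) := by
    rw [lam, map_sub, pow_two, Derivation.leibniz, smul_eq_mul, Derivation.map_one_eq_zero]
    ring
  rw [h3, h, lam]
  ring

theorem Hd_upow (K : Type*) [Field K] (k : ℕ) :
    Dq K (U K ^ k) = (k : K⟦X⟧) * ee K * U K ^ k := by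
  induction k with
  | zero =>
    rw [pow_zero, Derivation.map_one_eq_zero]
    push_cast
    ring
  | succ k ih =>
    rw [pow_succ, Derivation.leibniz, smul_eq_mul, smul_eq_mul, ih, Dq_U]
    push_cast
    ring

section

variable {p : ℕ} [hp : Fact p.Prime] (h2 : p ≠ 2)

include h2 in
theorem Hd_two_mm : (2 : (ZMod p)⟦X⟧) * ((mm p : ℕ) : (ZMod p)⟦X⟧) = -1 := by
  have h1 : ((2 * mm p + 1 : ℕ) : (ZMod p)⟦X⟧) = 0 := by
    rw [two_mm hp.out h2]
    have h3 : ((p : ZMod p) : ZMod p) = 0 := ZMod.natCast_self p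
    have h4 : ((p : ℕ) : (ZMod p)⟦X⟧) = algebraMap (ZMod p) (ZMod p)⟦X⟧ ((p : ℕ) : ZMod p) := by
      rw [map_natCast]
    rw [h4, h3, map_zero]
  push_cast at h1
  linear_combination h1

/-- `B(λ)` -/
theorem Hd_B : Polynomial.aeval (lam (ZMod p)) (Bh p) =
    lam (ZMod p) * (1 - lam (ZMod p)) *
      Polynomial.aeval (lam (ZMod p)) (Polynomial.derivative (hh p)) := by
  rw [Bh, map_mul, map_mul, map_sub, map_one, Polynomial.aeval_X]

include h2 in
theorem Hd_D1 : Dq (ZMod p) (U (ZMod p) ^ (2 * mm p) * Polynomial.aeval (lam (ZMod p)) (hh p)) =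
    -(ee (ZMod p) * (U (ZMod p) ^ (2 * mm p) * Polynomial.aeval (lam (ZMod p)) (hh p))) +
      U (ZMod p) ^ (2 * mm p + 2) * Polynomial.aeval (lam (ZMod p)) (Bh p) := by
  have h3 := Hd_two_mm h2
  rw [Derivation.leibniz, smul_eq_mul, smul_eq_mul, Hd_upow, Derivation.map_aeval, smul_eq_mul,
    Dq_lam _ (two_ne h2), Hd_B, pow_add]
  push_cast
  linear_combination (ee (ZMod p) * U (ZMod p) ^ (2 * mm p) *
    Polynomial.aeval (lam (ZMod p)) (hh p)) * h3

include h2 in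
theorem Hd_D2 : 4 * Dq (ZMod p) (U (ZMod p) ^ (2 * mm p + 2) *
      Polynomial.aeval (lam (ZMod p)) (Bh p)) =
    4 * (ee (ZMod p) * (U (ZMod p) ^ (2 * mm p + 2) * Polynomial.aeval (lam (ZMod p)) (Bh p))) +
      U (ZMod p) ^ 4 * (lam (ZMod p) * (1 - lam (ZMod p))) *
        (U (ZMod p) ^ (2 * mm p) * Polynomial.aeval (lam (ZMod p)) (hh p)) := by
  have h3 := Hd_two_mm h2
  have h4 : 4 * Polynomial.aeval (lam (ZMod p)) (Polynomial.derivative (Bh p)) =
      Polynomial.aeval (lam (ZMod p)) (hh p) := by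
    have h5 := congrArg (Polynomial.aeval (lam (ZMod p))) (hh_ode h2)
    rw [map_mul, map_ofNat] at h5
    exact h5
  rw [Derivation.leibniz, smul_eq_mul, smul_eq_mul, Hd_upow, Derivation.map_aeval, smul_eq_mul,
    Dq_lam _ (two_ne h2), pow_add]
  push_cast
  linear_combination (4 * ee (ZMod p) * U (ZMod p) ^ (2 * mm p) * U (ZMod p) ^ 2 *
    Polynomial.aeval (lam (ZMod p)) (Bh p)) * h3 + (U (ZMod p) ^ (2 * mm p) * U (ZMod p) ^ 2 *
      (lam (ZMod p) * (1 - lam (ZMod p)) * U (ZMod p) ^ 2)) * h4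

include h2 in
theorem Hd_DD : 4 * Dq (ZMod p) (Dq (ZMod p) (U (ZMod p) ^ (2 * mm p) *
      Polynomial.aeval (lam (ZMod p)) (hh p))) = 0 := by
  have h3 := Dq_ee (ZMod p) (two_ne h2)
  have h4 := Hd_D1 h2
  have h5 := Hd_D2 h2
  have h6 : xx (ZMod p) ^ 2 * (1 - xx (ZMod p) ^ 2) = lam (ZMod p) * (1 - lam (ZMod p)) := by
    rw [lam]; ring
  rw [h6] at h3
  generalize hg : U (ZMod p) ^ (2 * mm p) * Polynomial.aeval (lam (ZMod p)) (hh p) = g at *
  generalize hB : U (ZMod p) ^ (2 * mm p + 2) * Polynomial.aeval (lam (ZMod p)) (Bh p) = b at *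
  rw [h4, map_add, map_neg, Derivation.leibniz, smul_eq_mul, smul_eq_mul, h4]
  linear_combination h5 - g * h3

include h2 in
theorem Hd_coeff {n : ℕ} (hn : ¬ p ∣ n) : PowerSeries.coeff n (U (ZMod p) ^ (2 * mm p) *
      Polynomial.aeval (lam (ZMod p)) (hh p)) = 0 := by
  have h3 := congrArg (PowerSeries.coeff n) (Hd_DD h2)
  have h4 : (4 : (ZMod p)⟦X⟧) = PowerSeries.C (4 : ZMod p) := by
    rw [map_ofNat]
  rw [h4, PowerSeries.coeff_C_mul, coeff_Dq, coeff_Dq, map_zero] at h3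
  have h5 : (n : ZMod p) ≠ 0 := by
    rw [Ne, ZMod.natCast_eq_zero_iff]
    exact hn
  have h6 : (4 : ZMod p) ≠ 0 := by
    have h7 : (4 : ZMod p) = 2 ^ 2 := by norm_num
    rw [h7]
    exact pow_ne_zero 2 (two_ne h2)
  rcases mul_eq_zero.1 h3 with h7 | h7
  · exact absurd h7 h6
  · rcases mul_eq_zero.1 h7 with h8 | h8
    · exact absurd h8 h5
    · rcases mul_eq_zero.1 h8 with h9 | h9
      · exact absurd h9 h5
      · exact h9

theorem Hd_coeff_zero (h2 : p ≠ 2) : PowerSeries.coeff 0 (U (ZMod p) ^ (2 * mm p) *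
      Polynomial.aeval (lam (ZMod p)) (hh p)) = 1 := by
  have h3 : PowerSeries.constantCoeff (lam (ZMod p)) = 0 := by
    rw [lam, map_sub, map_one, map_pow, constCoeff_xx, one_pow, sub_self]
  rw [PowerSeries.coeff_zero_eq_constantCoeff_apply, map_mul, map_pow, constCoeff_U, one_pow,
    one_mul, Polynomial.aeval_def, Polynomial.hom_eval₂, h3]
  have h4 : (PowerSeries.constantCoeff (R := ZMod p)).comp (algebraMap (ZMod p) (ZMod p)⟦X⟧) =
      RingHom.id (ZMod p) := by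
    refine RingHom.ext fun x => ?_
    rw [RingHom.comp_apply, PowerSeries.algebraMap_apply, PowerSeries.constantCoeff_C]
    rfl
  rw [h4, Polynomial.eval₂_id, ← Polynomial.coeff_zero_eq_eval_zero, hh_coeff_zero h2]

/-- the polynomial of the duplicated form -/
noncomputable def Hd_G2 (p : ℕ) : Polynomial (ZMod p) :=
  ∑ i ∈ Finset.range (mm p + 1), Polynomial.C ((((mm p).choose i : ℕ) : ZMod p) ^ 2) *
    ((1 - Polynomial.X) ^ (2 * i) * (1 + Polynomial.X) ^ (2 * (mm p - i)))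

include h2 in
theorem Hd_dbl : dbl (ZMod p) (U (ZMod p) ^ (2 * mm p) *
      Polynomial.aeval (lam (ZMod p)) (hh p)) =
    U (ZMod p) ^ (2 * mm p) * Polynomial.aeval (xx (ZMod p)) (Hd_G2 p) := by
  have h3 := dbl_U (ZMod p) (two_ne h2)
  have h4 := dbl_xx (ZMod p) (two_ne h2)
  have h5 : (2 : (ZMod p)⟦X⟧) ^ (2 * mm p) = 1 := by
    have h6 : (2 : ZMod p) ^ (p - 1) = 1 := ZMod.pow_card_sub_one_eq_one (two_ne h2)
    have h7 : p - 1 = 2 * mm p := by
      have := two_mm hp.out h2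
      omega
    rw [h7] at h6
    have h8 : (2 : (ZMod p)⟦X⟧) = PowerSeries.C (2 : ZMod p) := by rw [map_ofNat]
    rw [h8, ← map_pow, h6, map_one]
  have h6 : dbl (ZMod p) (U (ZMod p)) ^ (2 * mm p) =
      U (ZMod p) ^ (2 * mm p) * (1 + xx (ZMod p)) ^ (2 * mm p) := by
    rw [← mul_pow, ← h3, mul_pow, h5, one_mul]
  have h7 : (1 + xx (ZMod p)) ^ 2 * dbl (ZMod p) (lam (ZMod p)) = (1 - xx (ZMod p)) ^ 2 := by
    rw [lam, map_sub, map_one, map_pow]
    linear_combination -h4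
  rw [map_mul, map_pow, h6, ← Polynomial.aeval_algHom_apply, hh, Hd_G2, map_sum, map_sum, mul_assoc,
    Finset.mul_sum]
  congr 1
  apply Finset.sum_congr rfl
  intro i hi
  have hi' : i ≤ mm p := Nat.lt_succ_iff.1 (Finset.mem_range.1 hi)
  obtain ⟨d, hd⟩ := Nat.exists_eq_add_of_le hi'
  have h8 : mm p - i = d := by omega
  rw [h8]
  simp only [map_mul, map_pow, map_sub, map_add, map_one, Polynomial.aeval_X, Polynomial.aeval_C]
  have h9 : (1 + xx (ZMod p)) ^ (2 * mm p) * dbl (ZMod p) (lam (ZMod p)) ^ i =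
      (1 - xx (ZMod p)) ^ (2 * i) * (1 + xx (ZMod p)) ^ (2 * d) := by
    rw [pow_mul (1 - xx (ZMod p)), ← h7, mul_pow, ← pow_mul, hd, mul_add, pow_add]
    ring
  linear_combination (algebraMap (ZMod p) (ZMod p)⟦X⟧ (((mm p).choose i : ℕ) : ZMod p)) ^ 2 * h9

include h2 in
theorem Hd_deg : ((hh p).comp (1 - Polynomial.X ^ 2) - Hd_G2 p).natDegree ≤ 2 * mm p := by
  apply (Polynomial.natDegree_sub_le _ _).trans
  apply max_le
  · apply Polynomial.natDegree_comp_le.trans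
    rw [hh_natDegree h2, mul_comm]
    apply Nat.mul_le_mul_right
    apply (Polynomial.natDegree_sub_le _ _).trans
    rw [Polynomial.natDegree_one, Polynomial.natDegree_X_pow]
    exact max_le (by norm_num) le_rfl
  · unfold Hd_G2
    apply Polynomial.natDegree_sum_le_of_forall_le
    intro i hi
    have hi' : i ≤ mm p := Nat.lt_succ_iff.1 (Finset.mem_range.1 hi)
    apply (Polynomial.natDegree_C_mul_le _ _).trans
    apply Polynomial.natDegree_mul_le.trans
    have h3 : ((1 - Polynomial.X : Polynomial (ZMod p)) ^ (2 * i)).natDegree ≤ 2 * i := by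
      apply Polynomial.natDegree_pow_le.trans
      have h4 : (1 - Polynomial.X : Polynomial (ZMod p)).natDegree ≤ 1 := by
        apply (Polynomial.natDegree_sub_le _ _).trans
        rw [Polynomial.natDegree_one, Polynomial.natDegree_X]
        exact max_le (by norm_num) le_rfl
      calc 2 * i * (1 - Polynomial.X : Polynomial (ZMod p)).natDegree ≤ 2 * i * 1 :=
            Nat.mul_le_mul_left _ h4
        _ = 2 * i := mul_one _
    have h5 : ((1 + Polynomial.X : Polynomial (ZMod p)) ^ (2 * (mm p - i))).natDegree ≤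
        2 * (mm p - i) := by
      apply Polynomial.natDegree_pow_le.trans
      have h4 : (1 + Polynomial.X : Polynomial (ZMod p)).natDegree ≤ 1 := by
        apply (Polynomial.natDegree_add_le _ _).trans
        rw [Polynomial.natDegree_one, Polynomial.natDegree_X]
        exact max_le (by norm_num) le_rfl
      calc 2 * (mm p - i) * (1 + Polynomial.X : Polynomial (ZMod p)).natDegree ≤
            2 * (mm p - i) * 1 := Nat.mul_le_mul_left _ h4
        _ = 2 * (mm p - i) := mul_one _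
    omega

include h2 in
theorem Hd_eq_dbl : dbl (ZMod p) (U (ZMod p) ^ (2 * mm p) *
      Polynomial.aeval (lam (ZMod p)) (hh p)) =
    U (ZMod p) ^ (2 * mm p) * Polynomial.aeval (lam (ZMod p)) (hh p) := by
  have h3 : Polynomial.aeval (lam (ZMod p)) (hh p) =
      Polynomial.aeval (xx (ZMod p)) ((hh p).comp (1 - Polynomial.X ^ 2)) := by
    rw [Polynomial.aeval_comp, map_sub, map_one, map_pow, Polynomial.aeval_X, lam]
  have h4 : U (ZMod p) ^ (2 * mm p) * Polynomial.aeval (xx (ZMod p))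
      ((hh p).comp (1 - Polynomial.X ^ 2) - Hd_G2 p) =
      U (ZMod p) ^ (2 * mm p) * Polynomial.aeval (lam (ZMod p)) (hh p) -
        dbl (ZMod p) (U (ZMod p) ^ (2 * mm p) * Polynomial.aeval (lam (ZMod p)) (hh p)) := by
    rw [Hd_dbl h2, map_sub, ← h3, mul_sub]
  have h5 : (hh p).comp (1 - Polynomial.X ^ 2) - Hd_G2 p = 0 := by
    apply ord_xx' (two_ne h2) (2 * mm p) _ (2 * mm p) (Hd_deg h2)
    intro l hl
    have hp2 := two_mm hp.out h2
    rw [h4, map_sub, dbl, PowerSeries.coeff_expand]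
    rcases Nat.eq_zero_or_pos l with rfl | hl0
    · rw [if_pos (dvd_zero 2), Nat.zero_div, sub_self]
    · rw [Hd_coeff h2 (Nat.not_dvd_of_pos_of_lt hl0 (by omega))]
      split_ifs with h6
      · obtain ⟨k, rfl⟩ := h6
        rw [Nat.mul_div_cancel_left _ two_pos,
          Hd_coeff h2 (Nat.not_dvd_of_pos_of_lt (by omega) (by omega)), sub_zero]
      · rw [sub_zero]
  rw [h5, map_zero, mul_zero] at h4
  exact (sub_eq_zero.1 h4.symm).symm

end

theorem hasse {p : ℕ} [hp : Fact p.Prime] (h2 : p ≠ 2) :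
    U (ZMod p) ^ (2 * mm p) * Polynomial.aeval (lam (ZMod p)) (hh p) = 1 := by
  have h3 : ∀ N : ℕ, 1 ≤ N → PowerSeries.coeff N (U (ZMod p) ^ (2 * mm p) *
      Polynomial.aeval (lam (ZMod p)) (hh p)) = 0 := by
    intro N
    induction N using Nat.strong_induction_on with
    | _ N ih =>
      intro hN
      rw [← Hd_eq_dbl h2, dbl, PowerSeries.coeff_expand]
      split_ifs with h6
      · obtain ⟨k, rfl⟩ := h6
        rw [Nat.mul_div_cancel_left _ two_pos]
        exact ih k (by omega) (by omega)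
      · rfl
  ext N
  rcases Nat.eq_zero_or_pos N with rfl | hN
  · rw [Hd_coeff_zero h2, PowerSeries.coeff_one, if_pos rfl]
  · rw [h3 N hN, PowerSeries.coeff_one, if_neg hN.ne']

/-- `ε = u^(p+1) B(λ)`: differentiate `hasse`:
`0 = 2 m ε u^(2m) h(λ) + u^(2m) h'(λ) λ (1-λ) u² = - ε + u^(2m+2) B(λ)`. -/
theorem ee_eq {p : ℕ} [hp : Fact p.Prime] (h2 : p ≠ 2) :
    ee (ZMod p) = U (ZMod p) ^ (2 * mm p + 2) * Polynomial.aeval (lam (ZMod p)) (Bh p) := by
  have h3 := Hd_D1 h2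
  rw [hasse h2, Derivation.map_one_eq_zero] at h3
  linear_combination h3

end Pool.Agent.H85.OT
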