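import Pool.Agent.H85.OT.CDef

/-!
# Row CBD (project OT): bounds for coefficients

`0 < ρ < 1`.
* `Bd.mul`: the partial sum of `|(gh)_n| ρ^n` over `n < N` is at most the product of the partial sums
  over `n < N` (`|∑ g_a h_b| ≤ ∑ |g_a||h_b|`, all pairs `a + b < N` have `a, b < N`); `Bd.pow`.
* `|coeff n th3| ≤ 2`, `|coeff n th4| ≤ 2`, so `th3, th4` have bound `2/(1-ρ)`, and `U, V` have bound
  `MR ρ = 4/(1-ρ)²`.
* a form `f` (`M f = ∑ c_j (th3^4)^(w-j) (th4^4)^j`): each monomial is bounded by `(2/(1-ρ))^(4w)`, so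
  `|a_n| ρ^n` has bounded partial sums; `|a_n/n| ≤ |a_n|`; `F2` has coefficients `F1_n` at `2n`
  and `ρ^(2n) ≤ ρ^n`.
* `GG_bd`: `GG` has bound `MR^(n+2κE) B^(2E)` (`MR ≥ 1`, `B ≥ 1`, total exponent of `U, V` is
  `n + κ(2E-i-j) ≤ n + 2κE`, of `F1, F2` is `i + j ≤ 2E`), and a single term of the sum is at most
  the sum: `|coeff l| ρ^l ≤ bound`.
-/

open PowerSeries

namespace Pool.Agent.H85.OT

theorem Cbd_anti (N : ℕ) (F : ℕ × ℕ → ℝ) :
    ∑ n ∈ Finset.range N, ∑ p ∈ Finset.HasAntidiagonal.antidiagonal n, F p =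
      ∑ p ∈ (Finset.range N ×ˢ Finset.range N).filter (fun p => p.1 + p.2 < N), F p := by
  rw [Finset.sum_sigma']
  refine Finset.sum_nbij' (fun x => x.2) (fun p => ⟨p.1 + p.2, p⟩) ?_ ?_ ?_ ?_ ?_
  · rintro ⟨n, a, b⟩ h
    simp only [Finset.mem_sigma, Finset.mem_range, Finset.HasAntidiagonal.mem_antidiagonal] at h
    simp only [Finset.mem_filter, Finset.mem_product, Finset.mem_range]
    omega
  · rintro ⟨a, b⟩ h
    simp only [Finset.mem_filter, Finset.mem_product, Finset.mem_range] at h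
    simp only [Finset.mem_sigma, Finset.mem_range, Finset.HasAntidiagonal.mem_antidiagonal]
    exact ⟨h.2, trivial⟩
  · rintro ⟨n, a, b⟩ h
    simp only [Finset.mem_sigma, Finset.mem_range, Finset.HasAntidiagonal.mem_antidiagonal] at h
    obtain ⟨-, rfl⟩ := h
    rfl
  · rintro ⟨a, b⟩ _
    rfl
  · rintro ⟨n, a, b⟩ _
    rfl

theorem Bd.nonneg {ρ A : ℝ} {g : ℚ⟦X⟧} (hg : Bd ρ A g) : 0 ≤ A := by
  simpa using hg 0

theorem Bd.mul {ρ A B : ℝ} (hρ : 0 < ρ) {g h : ℚ⟦X⟧} (hg : Bd ρ A g) (hh : Bd ρ B h) :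
    Bd ρ (A * B) (g * h) := by
  intro N
  set a : ℕ → ℝ := fun n => |((PowerSeries.coeff n g : ℚ) : ℝ)| * ρ ^ n with ha
  set b : ℕ → ℝ := fun n => |((PowerSeries.coeff n h : ℚ) : ℝ)| * ρ ^ n with hb
  have ha0 : ∀ n, 0 ≤ a n := fun n => by positivity
  have hb0 : ∀ n, 0 ≤ b n := fun n => by positivity
  have h1 : ∀ n, |((PowerSeries.coeff n (g * h) : ℚ) : ℝ)| * ρ ^ n ≤
      ∑ p ∈ Finset.HasAntidiagonal.antidiagonal n, a p.1 * b p.2 := by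
    intro n
    rw [PowerSeries.coeff_mul, Rat.cast_sum]
    calc |∑ p ∈ Finset.HasAntidiagonal.antidiagonal n, ((coeff p.1 g * coeff p.2 h : ℚ) : ℝ)| * ρ ^ n
        ≤ (∑ p ∈ Finset.HasAntidiagonal.antidiagonal n, |((coeff p.1 g * coeff p.2 h : ℚ) : ℝ)|) * ρ ^ n :=
          mul_le_mul_of_nonneg_right (Finset.abs_sum_le_sum_abs _ _) (by positivity)
      _ = ∑ p ∈ Finset.HasAntidiagonal.antidiagonal n, a p.1 * b p.2 := by
          rw [Finset.sum_mul]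
          refine Finset.sum_congr rfl fun p hp => ?_
          rw [← Finset.HasAntidiagonal.mem_antidiagonal.1 hp, Rat.cast_mul, abs_mul, pow_add, ha, hb]
          ring
  calc ∑ n ∈ Finset.range N, |((PowerSeries.coeff n (g * h) : ℚ) : ℝ)| * ρ ^ n
      ≤ ∑ n ∈ Finset.range N, ∑ p ∈ Finset.HasAntidiagonal.antidiagonal n, a p.1 * b p.2 :=
        Finset.sum_le_sum fun n _ => h1 n
    _ = ∑ p ∈ (Finset.range N ×ˢ Finset.range N).filter (fun p => p.1 + p.2 < N), a p.1 * b p.2 :=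
        Cbd_anti N (fun p => a p.1 * b p.2)
    _ ≤ ∑ p ∈ Finset.range N ×ˢ Finset.range N, a p.1 * b p.2 :=
        Finset.sum_le_sum_of_subset_of_nonneg (Finset.filter_subset _ _)
          fun p _ _ => mul_nonneg (ha0 _) (hb0 _)
    _ = (∑ n ∈ Finset.range N, a n) * ∑ n ∈ Finset.range N, b n := by
        rw [Finset.sum_product, Finset.sum_mul_sum]
    _ ≤ A * B := mul_le_mul (hg N) (hh N) (Finset.sum_nonneg fun n _ => hb0 n) hg.nonneg

theorem Cbd_C {ρ : ℝ} (c : ℚ) : Bd ρ |(c : ℝ)| (PowerSeries.C c) := by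
  intro N
  rcases N with _ | N
  · simp
  · rw [Finset.sum_range_succ']
    have h1 : ∑ n ∈ Finset.range N, |((PowerSeries.coeff (n + 1) (PowerSeries.C c) : ℚ) : ℝ)| *
        ρ ^ (n + 1) = 0 := by
      refine Finset.sum_eq_zero fun n _ => ?_
      rw [PowerSeries.coeff_C, if_neg (Nat.succ_ne_zero n)]
      simp
    rw [h1, PowerSeries.coeff_C, if_pos rfl]
    simp

theorem Cbd_one {ρ : ℝ} : Bd ρ 1 (1 : ℚ⟦X⟧) := by
  have h := Cbd_C (ρ := ρ) 1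
  rw [map_one] at h
  simpa using h

theorem Bd.pow {ρ A : ℝ} (hρ : 0 < ρ) {g : ℚ⟦X⟧} (hg : Bd ρ A g) (k : ℕ) :
    Bd ρ (A ^ k) (g ^ k) := by
  induction k with
  | zero =>
    rw [pow_zero, pow_zero]
    exact Cbd_one
  | succ k ih =>
    rw [pow_succ, pow_succ]
    exact ih.mul hρ hg

theorem Bd.add {ρ A B : ℝ} (hρ : 0 < ρ) {g h : ℚ⟦X⟧} (hg : Bd ρ A g) (hh : Bd ρ B h) :
    Bd ρ (A + B) (g + h) := by
  intro N
  refine le_trans ?_ (add_le_add (hg N) (hh N))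
  rw [← Finset.sum_add_distrib]
  refine Finset.sum_le_sum fun n _ => ?_
  rw [map_add, Rat.cast_add, ← add_mul]
  exact mul_le_mul_of_nonneg_right (abs_add_le _ _) (by positivity)

theorem Cbd_sum {ρ : ℝ} (hρ : 0 < ρ) {ι : Type*} (s : Finset ι) (g : ι → ℚ⟦X⟧)
    (h : ∀ i ∈ s, ∃ B, Bd ρ B (g i)) : ∃ B, Bd ρ B (∑ i ∈ s, g i) := by
  classical
  induction s using Finset.induction_on with
  | empty =>
    refine ⟨0, fun N => ?_⟩
    simp
  | insert i s hi ih =>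
    obtain ⟨B1, h1⟩ := h i (Finset.mem_insert_self i s)
    obtain ⟨B2, h2⟩ := ih (fun j hj => h j (Finset.mem_insert_of_mem hj))
    rw [Finset.sum_insert hi]
    exact ⟨_, h1.add hρ h2⟩

theorem Cbd_two {ρ : ℝ} (hρ : 0 < ρ) (hρ1 : ρ < 1) {g : ℚ⟦X⟧}
    (h : ∀ n, |((PowerSeries.coeff n g : ℚ) : ℝ)| ≤ 2) : Bd ρ (2 / (1 - ρ)) g := by
  intro N
  have h1 : ∑ n ∈ Finset.range N, |((PowerSeries.coeff n g : ℚ) : ℝ)| * ρ ^ n ≤
      ∑ n ∈ Finset.range N, 2 * ρ ^ n :=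
    Finset.sum_le_sum fun n _ => mul_le_mul_of_nonneg_right (h n) (by positivity)
  refine h1.trans ?_
  rw [← Finset.mul_sum, div_eq_mul_inv]
  refine mul_le_mul_of_nonneg_left ?_ (by norm_num)
  rw [← tsum_geometric_of_lt_one hρ.le hρ1]
  exact (summable_geometric_of_lt_one hρ.le hρ1).sum_le_tsum _ (fun n _ => by positivity)

/-- `θ₃` over the rationals -/
noncomputable def Cbd_q3 : ℚ⟦X⟧ := PowerSeries.map (Int.castRingHom ℚ) th3

/-- `θ₄` over the rationals -/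
noncomputable def Cbd_q4 : ℚ⟦X⟧ := PowerSeries.map (Int.castRingHom ℚ) th4

theorem Cbd_c3 (n : ℕ) : |PowerSeries.coeff n th3| ≤ 2 := by
  unfold th3
  rw [PowerSeries.coeff_mk]
  split_ifs <;> simp

theorem Cbd_c4 (n : ℕ) : |PowerSeries.coeff n th4| ≤ 2 := by
  unfold th4
  rw [PowerSeries.coeff_mk, abs_mul, abs_pow, abs_neg, abs_one, one_pow, one_mul]
  exact Cbd_c3 n

theorem Cbd_bq3 {ρ : ℝ} (hρ : 0 < ρ) (hρ1 : ρ < 1) : Bd ρ (2 / (1 - ρ)) Cbd_q3 := by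
  refine Cbd_two hρ hρ1 fun n => ?_
  unfold Cbd_q3
  rw [PowerSeries.coeff_map]
  have := Cbd_c3 n
  rw [eq_intCast, Rat.cast_intCast]
  exact_mod_cast this

theorem Cbd_bq4 {ρ : ℝ} (hρ : 0 < ρ) (hρ1 : ρ < 1) : Bd ρ (2 / (1 - ρ)) Cbd_q4 := by
  refine Cbd_two hρ hρ1 fun n => ?_
  unfold Cbd_q4
  rw [PowerSeries.coeff_map]
  have := Cbd_c4 n
  rw [eq_intCast, Rat.cast_intCast]
  exact_mod_cast this

theorem Cbd_MR (ρ : ℝ) : (2 / (1 - ρ)) ^ 2 = MR ρ := by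
  unfold MR
  rw [div_pow]
  norm_num

theorem Bd_U {ρ : ℝ} (hρ : 0 < ρ) (hρ1 : ρ < 1) : Bd ρ (MR ρ) (U ℚ) := by
  have h := (Cbd_bq3 hρ hρ1).pow hρ 2
  rw [Cbd_MR] at h
  unfold U
  rw [map_pow]
  exact h

theorem Bd_V {ρ : ℝ} (hρ : 0 < ρ) (hρ1 : ρ < 1) : Bd ρ (MR ρ) (V ℚ) := by
  have h := (Cbd_bq4 hρ hρ1).pow hρ 2
  rw [Cbd_MR] at h
  unfold V
  rw [map_pow]
  exact h

theorem Cbd_form {w : ℕ} {f : ℤ⟦X⟧} (hf : IsForm w f) {ρ : ℝ} (hρ : 0 < ρ) (hρ1 : ρ < 1) :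
    ∃ B : ℝ, ∀ N : ℕ, ∑ n ∈ Finset.range N, |((PowerSeries.coeff n f : ℤ) : ℝ)| * ρ ^ n ≤ B := by
  obtain ⟨M, c, hM, h⟩ := hf
  have h1 := congrArg (PowerSeries.map (Int.castRingHom ℚ)) h
  rw [map_mul, map_sum] at h1
  have h2 : ∃ B, Bd ρ B ((PowerSeries.map (Int.castRingHom ℚ)) (PowerSeries.C M) *
      (PowerSeries.map (Int.castRingHom ℚ)) f) := by
    rw [h1]
    refine Cbd_sum hρ _ _ fun j _ => ?_
    rw [map_mul, map_mul, map_pow, map_pow, map_pow, map_pow, PowerSeries.map_C]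
    exact ⟨_, ((Cbd_C (ρ := ρ) _).mul hρ (((Cbd_bq3 hρ hρ1).pow hρ 4).pow hρ (w - j))).mul hρ
      (((Cbd_bq4 hρ hρ1).pow hρ 4).pow hρ j)⟩
  obtain ⟨B, hB⟩ := h2
  refine ⟨B, fun N => le_trans (Finset.sum_le_sum fun n _ => ?_) (hB N)⟩
  refine mul_le_mul_of_nonneg_right ?_ (by positivity)
  rw [PowerSeries.map_C, PowerSeries.coeff_C_mul, PowerSeries.coeff_map, eq_intCast, eq_intCast,
    Rat.cast_mul, Rat.cast_intCast, Rat.cast_intCast, abs_mul]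
  have h3 : (1 : ℝ) ≤ |(M : ℝ)| := by
    have := Int.one_le_abs hM
    exact_mod_cast this
  exact le_mul_of_one_le_left (abs_nonneg _) h3

theorem Cbd_even (N : ℕ) (a : ℕ → ℝ) (ρ : ℝ) :
    ∑ m ∈ Finset.range (2 * N), (if 2 ∣ m then a (m / 2) else 0) * ρ ^ m =
      ∑ n ∈ Finset.range N, a n * ρ ^ (2 * n) := by
  induction N with
  | zero => simp
  | succ N ih =>
    rw [Nat.mul_succ, Finset.sum_range_succ, Finset.sum_range_succ, ih, Finset.sum_range_succ,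
      if_pos (Dvd.intro N rfl), if_neg (by omega), zero_mul, add_zero,
      Nat.mul_div_cancel_left N two_pos]

theorem exists_Bd_F {w : ℕ} {f : ℤ⟦X⟧} (hf : IsForm w f) {ρ : ℝ} (hρ : 0 < ρ) (hρ1 : ρ < 1) :
    ∃ B : ℝ, 1 ≤ B ∧ Bd ρ B (F1 f) ∧ Bd ρ B (F2 f) := by
  obtain ⟨B, hB⟩ := Cbd_form hf hρ hρ1
  have h1 : Bd ρ (max 1 B) (F1 f) := by
    intro N
    refine le_trans (Finset.sum_le_sum fun n _ => ?_) ((hB N).trans (le_max_right 1 B))
    refine mul_le_mul_of_nonneg_right ?_ (by positivity)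
    unfold F1
    rw [PowerSeries.coeff_mk, Rat.cast_div, Rat.cast_intCast, Rat.cast_natCast, abs_div,
      Nat.abs_cast]
    rcases Nat.eq_zero_or_pos n with h0 | h0
    · rw [h0, Nat.cast_zero, div_zero]
      exact abs_nonneg _
    · exact div_le_self (abs_nonneg _) (by exact_mod_cast h0)
  refine ⟨max 1 B, le_max_left _ _, h1, fun N => ?_⟩
  have h2 : ∀ m, |((PowerSeries.coeff m (F2 f) : ℚ) : ℝ)| =
      if 2 ∣ m then |((PowerSeries.coeff (m / 2) (F1 f) : ℚ) : ℝ)| else 0 := by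
    intro m
    unfold F2 dbl
    rw [PowerSeries.coeff_expand]
    split_ifs
    · rfl
    · simp
  simp only [h2]
  calc ∑ m ∈ Finset.range N, (if 2 ∣ m then |((PowerSeries.coeff (m / 2) (F1 f) : ℚ) : ℝ)| else 0) * ρ ^ m
      ≤ ∑ m ∈ Finset.range (2 * N), (if 2 ∣ m then |((PowerSeries.coeff (m / 2) (F1 f) : ℚ) : ℝ)| else 0) *
          ρ ^ m := by
        refine Finset.sum_le_sum_of_subset_of_nonneg (Finset.range_mono (by omega)) fun m _ _ => ?_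
        refine mul_nonneg ?_ (by positivity)
        split_ifs
        · exact abs_nonneg _
        · exact le_rfl
    _ = ∑ n ∈ Finset.range N, |((PowerSeries.coeff n (F1 f) : ℚ) : ℝ)| * ρ ^ (2 * n) :=
        Cbd_even N (fun n => |((PowerSeries.coeff n (F1 f) : ℚ) : ℝ)|) ρ
    _ ≤ ∑ n ∈ Finset.range N, |((PowerSeries.coeff n (F1 f) : ℚ) : ℝ)| * ρ ^ n := by
        refine Finset.sum_le_sum fun n _ => mul_le_mul_of_nonneg_left ?_ (abs_nonneg _)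
        exact pow_le_pow_of_le_one hρ.le hρ1.le (by omega)
    _ ≤ max 1 B := h1 N

theorem GG_bd (f : ℤ⟦X⟧) (κ E n : ℕ) (s : Fin E × Fin E × Fin (n + 1)) {ρ B : ℝ}
    (hρ : 0 < ρ) (hρ1 : ρ < 1) (hB : 1 ≤ B) (h1 : Bd ρ B (F1 f)) (h2 : Bd ρ B (F2 f)) (l : ℕ) :
    |((PowerSeries.coeff l (GG f κ E n s) : ℚ) : ℝ)| ≤
      MR ρ ^ (n + 2 * κ * E) * B ^ (2 * E) * (ρ⁻¹) ^ l := by
  obtain ⟨i, j, e⟩ := s
  have hMR : 1 ≤ MR ρ := by
    unfold MR
    rw [le_div_iff₀ (by nlinarith)]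
    nlinarith
  have h3 : Bd ρ (MR ρ ^ (n + κ * (2 * E - i - j) - e) * MR ρ ^ (e : ℕ) * B ^ (i : ℕ) * B ^ (j : ℕ))
      (GG f κ E n (i, j, e)) :=
    ((((Bd_U hρ hρ1).pow hρ _).mul hρ ((Bd_V hρ hρ1).pow hρ _)).mul hρ (h1.pow hρ _)).mul hρ
      (h2.pow hρ _)
  have h4 : |((PowerSeries.coeff l (GG f κ E n (i, j, e)) : ℚ) : ℝ)| * ρ ^ l ≤
      MR ρ ^ (n + κ * (2 * E - i - j) - e) * MR ρ ^ (e : ℕ) * B ^ (i : ℕ) * B ^ (j : ℕ) := by
    refine le_trans ?_ (h3 (l + 1))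
    rw [Finset.sum_range_succ]
    have : 0 ≤ ∑ m ∈ Finset.range l, |((PowerSeries.coeff m (GG f κ E n (i, j, e)) : ℚ) : ℝ)| * ρ ^ m :=
      Finset.sum_nonneg fun m _ => by positivity
    linarith
  have h5 : MR ρ ^ (n + κ * (2 * E - i - j) - e) * MR ρ ^ (e : ℕ) * B ^ (i : ℕ) * B ^ (j : ℕ) ≤
      MR ρ ^ (n + 2 * κ * E) * B ^ (2 * E) := by
    have e1 : MR ρ ^ (n + κ * (2 * E - i - j) - e) * MR ρ ^ (e : ℕ) * B ^ (i : ℕ) * B ^ (j : ℕ) =
        MR ρ ^ (n + κ * (2 * E - i - j) - e + e) * B ^ ((i : ℕ) + j) := by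
      rw [pow_add, pow_add]; ring
    rw [e1]
    have e2 : n + κ * (2 * E - i - j) - (e : ℕ) + e ≤ n + 2 * κ * E := by
      have he : (e : ℕ) ≤ n := Nat.lt_succ_iff.1 e.2
      have h6 : κ * (2 * E - i - j) ≤ κ * (2 * E) := Nat.mul_le_mul_left _ (by omega)
      have h7 : κ * (2 * E) = 2 * κ * E := by ring
      omega
    have e3 : (i : ℕ) + j ≤ 2 * E := by
      have := i.2
      have := j.2
      omega
    exact mul_le_mul (pow_le_pow_right₀ hMR e2) (pow_le_pow_right₀ hB e3) (by positivity)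
      (by positivity)
  have h6 : 0 < ρ ^ l := by positivity
  have h7 := h4.trans h5
  rw [← le_div_iff₀ h6] at h7
  rw [inv_pow, ← div_eq_mul_inv]
  exact h7

end Pool.Agent.H85.OT
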