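import Pool.Agent.H85.OT.OrdL

/-!
# Definitions for part II of the project OT (reduction mod `p`)

`mm p = (p-1)/2`; `hh p = ∑_{i ≤ m} C(m,i)² X^i` over `F_p` (Hasse polynomial);
`Bh p = X (1 - X) hh'`; `lam K = 1 - x²`;
`Mf p N F` : `F = U^(2N) P(lam)` with `natDegree P ≤ N`.
-/

open PowerSeries

namespace Pool.Agent.H85.OT

/-- `m = (p-1)/2` -/
def mm (p : ℕ) : ℕ := (p - 1) / 2

/-- `h = ∑_{i ≤ m} C(m,i)² X^i` over `F_p` -/
noncomputable def hh (p : ℕ) : Polynomial (ZMod p) :=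
  ∑ i ∈ Finset.range (mm p + 1),
    Polynomial.C ((((mm p).choose i : ℕ) : ZMod p) ^ 2) * Polynomial.X ^ i

/-- `X (1 - X) h'` -/
noncomputable def Bh (p : ℕ) : Polynomial (ZMod p) :=
  Polynomial.X * (1 - Polynomial.X) * Polynomial.derivative (hh p)

/-- `λ = 1 - x²` -/
noncomputable def lam (K : Type*) [Field K] : K⟦X⟧ := 1 - xx K ^ 2

/-- modular forms mod `p` of weight `2 N` on `Γ₀(4)` -/
def Mf (p : ℕ) [Fact p.Prime] (N : ℕ) (F : (ZMod p)⟦X⟧) : Prop :=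
  ∃ P : Polynomial (ZMod p), P.natDegree ≤ N ∧
    F = U (ZMod p) ^ (2 * N) * Polynomial.aeval (lam (ZMod p)) P

theorem two_mm {p : ℕ} (hp : p.Prime) (h2 : p ≠ 2) : 2 * mm p + 1 = p := by
  have := hp.eq_one_or_self_of_dvd 2
  have h3 : p % 2 = 1 := by
    rcases Nat.mod_two_eq_zero_or_one p with h | h
    · have := this (Nat.dvd_of_mod_eq_zero h)
      omega
    · exact h
  have := hp.two_le
  unfold mm
  omega

theorem two_ne {p : ℕ} [hp : Fact p.Prime] (h2 : p ≠ 2) : (2 : ZMod p) ≠ 0 := by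
  have h := (ZMod.natCast_eq_zero_iff 2 p)
  intro h0
  have h1 : ((2 : ℕ) : ZMod p) = 0 := by exact_mod_cast h0
  have h3 := h.1 h1
  have := Nat.le_of_dvd (by norm_num) h3
  have := hp.out.two_le
  omega

end Pool.Agent.H85.OT
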