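import Pool.Agent.H85.OT.CDef
import Pool.Agent.H85.OT.DefP

/-!
# Row CFORM (project OT): forms as polynomials in `x` over `ℚ` and in `λ` over `F_p`

`M f = ∑_{j ≤ w} c_j (th3^4)^(w-j) (th4^4)^j`.  Images in `K⟦X⟧` (`K` a field in which `M ≠ 0`):
`th3^4 ↦ U²`, `th4^4 ↦ V² = x² U²` (`xx_mul_U`), so `f ↦ U^(2w) φ(x)`, `φ = ∑ (c_j/M) X^(2j)`; and with
`x² = 1 - λ`: `f ↦ U^(2w) P(λ)`, `P = ∑ (c_j/M) (1-X)^j`, degree `≤ w`.
`dbl`: `dbl (U²) = U² (1+x)²/4` (`dbl_U_sq`), `dbl (V²) = U² x` (`dbl_V_sq`), so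
`dbl f ↦ U^(2w) ∑ (c_j/M) ((1+x)²/4)^(w-j) x^j`, degree `≤ 2w`.
-/

open PowerSeries

namespace Pool.Agent.H85.OT

private theorem CFORM_K (K : Type*) [Field K] {w : ℕ} {f : ℤ⟦X⟧} {M : ℤ} {c : ℕ → ℤ} (hM : (M : K) ≠ 0)
    (h : PowerSeries.C M * f =
      ∑ j ∈ Finset.range (w + 1), PowerSeries.C (c j) * (th3 ^ 4) ^ (w - j) * (th4 ^ 4) ^ j) :
    PowerSeries.map (Int.castRingHom K) f =
      ∑ j ∈ Finset.range (w + 1), PowerSeries.C ((c j : K) / (M : K)) * (U K ^ 2) ^ (w - j) *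
        (V K ^ 2) ^ j := by
  have e3 : U K ^ 2 = PowerSeries.map (Int.castRingHom K) (th3 ^ 4) := by
    rw [U, ← map_pow, ← pow_mul]
  have e4 : V K ^ 2 = PowerSeries.map (Int.castRingHom K) (th4 ^ 4) := by
    rw [V, ← map_pow, ← pow_mul]
  have h1 := congrArg (PowerSeries.map (Int.castRingHom K)) h
  rw [map_mul, PowerSeries.map_C, map_sum, Int.coe_castRingHom] at h1
  have hC : (PowerSeries.C (M : K) : K⟦X⟧) ≠ 0 := by
    intro h0
    apply hM
    have h2 := congrArg (PowerSeries.constantCoeff (R := K)) h0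
    simpa using h2
  apply mul_left_cancel₀ hC
  rw [h1, Finset.mul_sum]
  refine Finset.sum_congr rfl fun j _ => ?_
  rw [map_mul, map_mul, map_pow _ (th3 ^ 4) (w - j), map_pow _ (th4 ^ 4) j, PowerSeries.map_C, ← e3, ← e4,
    ← mul_assoc, ← mul_assoc, ← map_mul, mul_div_cancel₀ _ hM, Int.coe_castRingHom]

private theorem CFORM_V (K : Type*) [Field K] {w j : ℕ} (hj : j ≤ w) (a : K) :
    (PowerSeries.C a : K⟦X⟧) * (U K ^ 2) ^ (w - j) * (V K ^ 2) ^ j =
      U K ^ (2 * w) * (PowerSeries.C a * (xx K ^ 2) ^ j) := by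
  obtain ⟨k, rfl⟩ := Nat.exists_eq_add_of_le hj
  rw [← xx_mul_U, Nat.add_sub_cancel_left]
  ring

private theorem CFORM_C (K : Type*) [Field K] (a : K) (y : K⟦X⟧) (Q : Polynomial K) :
    Polynomial.aeval y (Polynomial.C a * Q) = PowerSeries.C a * Polynomial.aeval y Q := by
  rw [map_mul, Polynomial.aeval_C]
  rfl

theorem form_x {w : ℕ} {f : ℤ⟦X⟧} (hf : IsForm w f) :
    ∃ φ : Polynomial ℚ, φ.natDegree ≤ 2 * w ∧
      PowerSeries.map (Int.castRingHom ℚ) f = U ℚ ^ (2 * w) * Polynomial.aeval (xx ℚ) φ := by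
  obtain ⟨M, c, hM, h⟩ := hf
  have hM' : (M : ℚ) ≠ 0 := Int.cast_ne_zero.2 hM
  refine ⟨∑ j ∈ Finset.range (w + 1), Polynomial.C ((c j : ℚ) / M) * (Polynomial.X ^ 2) ^ j, ?_, ?_⟩
  · refine Polynomial.natDegree_sum_le_of_forall_le _ _ fun j hj => ?_
    rw [← pow_mul]
    refine (Polynomial.natDegree_C_mul_X_pow_le _ _).trans ?_
    have := Finset.mem_range.1 hj
    omega
  · rw [CFORM_K ℚ hM' h, map_sum, Finset.mul_sum]
    refine Finset.sum_congr rfl fun j hj => ?_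
    rw [CFORM_V ℚ (Nat.lt_succ_iff.1 (Finset.mem_range.1 hj)), CFORM_C, map_pow, map_pow,
      Polynomial.aeval_X]

theorem form_dbl_x {w : ℕ} {f : ℤ⟦X⟧} (hf : IsForm w f) :
    ∃ φ : Polynomial ℚ, φ.natDegree ≤ 2 * w ∧
      dbl ℚ (PowerSeries.map (Int.castRingHom ℚ) f) =
        U ℚ ^ (2 * w) * Polynomial.aeval (xx ℚ) φ := by
  obtain ⟨M, c, hM, h⟩ := hf
  have hM' : (M : ℚ) ≠ 0 := Int.cast_ne_zero.2 hM
  have hU : dbl ℚ (U ℚ ^ 2) = PowerSeries.C (1 / 4 : ℚ) * (U ℚ ^ 2 * (1 + xx ℚ) ^ 2) := by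
    rw [← dbl_U_sq ℚ (by norm_num), ← mul_assoc]
    have h4 : (4 : ℚ⟦X⟧) = PowerSeries.C (4 : ℚ) := (map_ofNat (PowerSeries.C (R := ℚ)) 4).symm
    rw [h4, ← map_mul]
    norm_num
  have hC : ∀ a : ℚ, dbl ℚ (PowerSeries.C a) = PowerSeries.C a := fun a => (dbl ℚ).commutes a
  refine ⟨∑ j ∈ Finset.range (w + 1), Polynomial.C ((c j : ℚ) / M) *
    (Polynomial.C (1 / 4) * (1 + Polynomial.X) ^ 2) ^ (w - j) * Polynomial.X ^ j, ?_, ?_⟩
  · refine Polynomial.natDegree_sum_le_of_forall_le _ _ fun j hj => ?_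
    have hj' := Finset.mem_range.1 hj
    have h1 : ((Polynomial.C (1 / 4 : ℚ) * (1 + Polynomial.X) ^ 2) ^ (w - j)).natDegree ≤
        (w - j) * 2 := by
      refine Polynomial.natDegree_pow_le_of_le _ ((Polynomial.natDegree_C_mul_le _ _).trans ?_)
      have h2 : (1 + Polynomial.X : Polynomial ℚ).natDegree ≤ 1 := by
        rw [add_comm, ← Polynomial.C_1]
        exact (Polynomial.natDegree_X_add_C _).le
      exact (Polynomial.natDegree_pow_le_of_le 2 h2).trans (by norm_num)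
    rw [mul_assoc]
    refine (Polynomial.natDegree_C_mul_le _ _).trans (Polynomial.natDegree_mul_le.trans ?_)
    rw [Polynomial.natDegree_X_pow]
    omega
  · rw [CFORM_K ℚ hM' h, map_sum, map_sum, Finset.mul_sum]
    refine Finset.sum_congr rfl fun j hj => ?_
    obtain ⟨k, hk⟩ := Nat.exists_eq_add_of_le (Nat.lt_succ_iff.1 (Finset.mem_range.1 hj))
    rw [map_mul, map_mul, map_pow _ (U ℚ ^ 2) (w - j), map_pow _ (V ℚ ^ 2) j, hC, hU, dbl_V_sq ℚ (by norm_num),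
      mul_assoc (Polynomial.C _), CFORM_C, map_mul,
      map_pow, map_pow, CFORM_C, map_pow, map_add, map_one, Polynomial.aeval_X, hk, Nat.add_sub_cancel_left,
      mul_left_comm (PowerSeries.C (1 / 4 : ℚ)) (U ℚ ^ 2), mul_pow (U ℚ ^ 2)]
    ring

/-- for all large primes `f mod p` is nonzero and a form in the sense of `Mf` -/
theorem form_lam {w : ℕ} {f : ℤ⟦X⟧} (hf : IsForm w f) (hne : f ≠ 0) :
    ∃ p0 : ℕ, 2 ≤ p0 ∧ ∀ (p : ℕ) [Fact p.Prime], p0 < p →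
      PowerSeries.map (Int.castRingHom (ZMod p)) f ≠ 0 ∧
      Mf p w (PowerSeries.map (Int.castRingHom (ZMod p)) f) := by
  obtain ⟨M, c, hM, h⟩ := hf
  obtain ⟨n, hn⟩ : ∃ n, PowerSeries.coeff n f ≠ 0 := by
    by_contra h0
    push Not at h0
    exact hne (PowerSeries.ext fun n => by rw [h0 n, map_zero])
  have key : ∀ (a : ℤ), a ≠ 0 → ∀ (p : ℕ) [Fact p.Prime], a.natAbs < p → (a : ZMod p) ≠ 0 := by
    intro a ha p _ hp h0
    rw [ZMod.intCast_zmod_eq_zero_iff_dvd] at h0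
    have h1 := Int.natCast_dvd.1 h0
    have h2 := Nat.le_of_dvd (Int.natAbs_pos.2 ha) h1
    omega
  refine ⟨2 + M.natAbs + (PowerSeries.coeff n f).natAbs, by omega, fun p _ hp => ⟨?_, ?_⟩⟩
  · intro h0
    have h1 := congrArg (PowerSeries.coeff n) h0
    rw [PowerSeries.coeff_map, map_zero] at h1
    exact key _ hn p (by omega) h1
  · have hM' : (M : ZMod p) ≠ 0 := key M hM p (by omega)
    refine ⟨∑ j ∈ Finset.range (w + 1), Polynomial.C ((c j : ZMod p) / (M : ZMod p)) *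
      (1 - Polynomial.X) ^ j, ?_, ?_⟩
    · refine Polynomial.natDegree_sum_le_of_forall_le _ _ fun j hj => ?_
      refine (Polynomial.natDegree_C_mul_le _ _).trans ?_
      have h2 : (1 - Polynomial.X : Polynomial (ZMod p)).natDegree ≤ 1 := by
        refine (Polynomial.natDegree_sub_le _ _).trans ?_
        rw [Polynomial.natDegree_one, Polynomial.natDegree_X]
        norm_num
      refine (Polynomial.natDegree_pow_le_of_le j h2).trans ?_
      rw [mul_one]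
      exact Nat.lt_succ_iff.1 (Finset.mem_range.1 hj)
    · rw [CFORM_K (ZMod p) hM' h, map_sum, Finset.mul_sum]
      refine Finset.sum_congr rfl fun j hj => ?_
      rw [CFORM_V (ZMod p) (Nat.lt_succ_iff.1 (Finset.mem_range.1 hj)), CFORM_C, map_pow, map_sub, map_one,
        Polynomial.aeval_X, lam, sub_sub_cancel]

end Pool.Agent.H85.OT
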