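import Pool.Agent.H85.OT.Hf

/-!
# Row HG (project OT): the mod `p` lemma (a `D`-primitive of a modular form, `p`-depleted, has
weight exactly `2 p (w-1)`)

`p` prime, `p > 2w+2`, `w ≥ 2`, `m = (p-1)/2`, so `m ≥ w+1`; `u = U`, `λ = lam`, `h = hh p`, `B = Bh p`,
`D = Dq`.  Let `f = u^(2w) Pf(λ)`, `deg Pf ≤ w`, `f ≠ 0`, `D F = f` and `F_n = 0` for `p ∣ n`.
1. `F = D^(p-2) f`: coefficient `n` of the right side is `n^(p-2) f_n = n^(p-1) F_n`, which is `F_n` for
   `p ∤ n` (Fermat) and `0 = F_n` for `p ∣ n`.  By `Mf_D'` (induction) `F ∈ Mf (w + (p-2)(m+1))`.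
   Note `w + (p-2)(m+1) = w - 1 + p m`.
2. Let `N0` be the least `N` with `Mf p N F` (`Nat.find`), `F = u^(2 N0) P(λ)`, `deg P ≤ N0`.
   `F ≠ 0` so `P ≠ 0`.  `h ∤ P`: if `P = h Q` then `deg Q = deg P - m` (`h` monic of degree `m`), so
   `N0 ≥ deg P ≥ m` and `F = u^(2(N0-m)) u^(2m) h(λ) Q(λ) = u^(2(N0-m)) Q(λ)` by `hasse`, `deg Q ≤ N0 - m`;
   as `m ≥ 1` this contradicts minimality.
3. `f = D F = u^(2(N0+m+1)) S(λ)`, `S = 2 N0 B P + h X(1-X) P'` (`Mf_D`).  Also `f = u^(2w) Pf(λ)`, `Pf ≠ 0`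
   and `w ≤ m + 1 ≤ N0 + m + 1`.  By `Mf_congr` `N0 + m + 1 = w + j m`, `S = h^j Pf`.  `j = 0` would
   give `N0 + m + 1 = w ≤ m - 1`, impossible.  So `j ≥ 1` and `h ∣ S`, so `h ∣ 2 N0 B P`; as `h` is coprime
   to `B`, `h ∣ 2 N0 P`.  If `p ∤ N0` then `2 N0` is a unit and `h ∣ P`, contradiction.  So `p ∣ N0`, `N0 = p s`.
4. `p s + m + 1 = w + j m`, `p = 2m+1`: `s = w - 1 + (j - 1 - 2 s) m` in `ℤ`, so `s ≡ w - 1 mod m`.
   And `p s = N0 ≤ w - 1 + p m`, `w - 1 < p` so `s ≤ m`.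
   `0 ≤ s ≤ m`, `1 ≤ w-1 < m`, `s ≡ w-1 mod m` force `s = w - 1` (`s = m` would give `m ∣ w-1`).
So `N0 = p (w-1)`.
-/

open PowerSeries

namespace Pool.Agent.H85.OT

theorem Mf_prim {p : ℕ} [hp : Fact p.Prime] (h2 : p ≠ 2) (w : ℕ) (f F : (ZMod p)⟦X⟧)
    (hf : Mf p w f) (hF : Dq (ZMod p) F = f) (hF0 : ∀ n, p ∣ n → PowerSeries.coeff n F = 0) :
    Mf p (w + (p - 2) * (mm p + 1)) F := by
  have hp2 := hp.out.two_le
  have h1 : ∀ k : ℕ, Mf p (w + k * (mm p + 1)) ((fun G => Dq (ZMod p) G)^[k] f) := by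
    intro k
    induction k with
    | zero => simpa using hf
    | succ k ih =>
      rw [Function.iterate_succ_apply']
      have h3 := Mf_D' h2 _ _ ih
      have h4 : w + k * (mm p + 1) + mm p + 1 = w + (k + 1) * (mm p + 1) := by ring
      rwa [h4] at h3
  have h5 : ∀ (k n : ℕ), PowerSeries.coeff n ((fun G => Dq (ZMod p) G)^[k] f) = (n : ZMod p) ^ k * PowerSeries.coeff n f := by
    intro k n
    induction k with
    | zero => simp
    | succ k ih =>
      rw [Function.iterate_succ_apply', coeff_Dq, ih, pow_succ]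
      ring
  have h6 : (fun G => Dq (ZMod p) G)^[p - 2] f = F := by
    ext n
    rw [h5, ← hF, coeff_Dq]
    by_cases hn : p ∣ n
    · rw [hF0 n hn, mul_zero, mul_zero]
    · have hn' : (n : ZMod p) ≠ 0 := fun h => hn ((ZMod.natCast_eq_zero_iff _ _).1 h)
      rw [← mul_assoc, ← pow_succ, show p - 2 + 1 = p - 1 by omega, ZMod.pow_card_sub_one_eq_one hn', one_mul]
  have h7 := h1 (p - 2)
  rwa [h6] at h7

theorem mp_lemma {p : ℕ} [hp : Fact p.Prime] (w : ℕ) (hw : 2 ≤ w) (hpw : 2 * w + 2 < p)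
    (f F : (ZMod p)⟦X⟧) (hf0 : f ≠ 0) (hf : Mf p w f)
    (hF : Dq (ZMod p) F = f) (hF0 : ∀ n, p ∣ n → PowerSeries.coeff n F = 0) :
    Mf p (p * (w - 1)) F := by
  classical
  have h2 : p ≠ 2 := by omega
  have hm := two_mm hp.out h2
  have hmw : w + 1 ≤ mm p := by omega
  have hprim := Mf_prim h2 w f F hf hF hF0
  have hex : ∃ N, Mf p N F := ⟨_, hprim⟩
  have hmin : ∀ N, Mf p N F → Nat.find hex ≤ N := fun N h => Nat.find_min' hex h
  have hspec := Nat.find_spec hex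
  generalize Nat.find hex = N0 at hmin hspec
  have hup := hmin _ hprim
  obtain ⟨P, hPd, hPF⟩ := hspec
  obtain ⟨Pf, hPfd, hPff⟩ := hf
  have hPf0 : Pf ≠ 0 := by
    rintro rfl
    rw [map_zero, mul_zero] at hPff
    exact hf0 hPff
  have hP0 : P ≠ 0 := by
    rintro rfl
    rw [map_zero, mul_zero] at hPF
    rw [hPF, map_zero] at hF
    exact hf0 hF.symm
  have hH := hasse (p := p) h2
  have hnd : ¬ hh p ∣ P := by
    rintro ⟨Q, rfl⟩
    have hQ0 : Q ≠ 0 := right_ne_zero_of_mul hP0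
    have h3 : (hh p * Q).natDegree = mm p + Q.natDegree := by
      rw [Polynomial.natDegree_mul (hh_monic h2).ne_zero hQ0, hh_natDegree h2]
    have h4 : Mf p (N0 - mm p) F := by
      refine ⟨Q, by omega, ?_⟩
      have h5 : 2 * N0 = 2 * (N0 - mm p) + 2 * mm p := by omega
      rw [hPF, map_mul, h5, pow_add]
      linear_combination (U (ZMod p) ^ (2 * (N0 - mm p)) * Polynomial.aeval (lam (ZMod p)) Q) * hH
    have h6 := hmin _ h4
    omega
  have hD := Mf_D h2 N0 P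
  rw [← hPF, hF, hPff] at hD
  obtain ⟨j, hj1, hj2⟩ := Mf_congr h2 w (N0 + mm p + 1) Pf _ hPf0 (by omega) hD
  have hj0 : j ≠ 0 := by
    rintro rfl
    omega
  have hdiv : hh p ∣ 2 * (N0 : Polynomial (ZMod p)) * Bh p * P := by
    have h7 : hh p ∣ hh p ^ j * Pf := Dvd.dvd.mul_right (dvd_pow_self _ hj0) _
    rw [← hj2] at h7
    have h8 : hh p ∣ hh p * Polynomial.X * (1 - Polynomial.X) * Polynomial.derivative P :=
      ⟨Polynomial.X * (1 - Polynomial.X) * Polynomial.derivative P, by ring⟩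
    exact (dvd_add_left h8).1 h7
  have hdiv2 : hh p ∣ Polynomial.C (2 * (N0 : ZMod p)) * P := by
    have h9 : hh p ∣ Bh p * (Polynomial.C (2 * (N0 : ZMod p)) * P) := by
      have h10 : Bh p * (Polynomial.C (2 * (N0 : ZMod p)) * P) = 2 * (N0 : Polynomial (ZMod p)) * Bh p * P := by
        rw [Polynomial.C_mul, Polynomial.C_ofNat, ← Polynomial.C_eq_natCast]
        ring
      rw [h10]
      exact hdiv
    exact (hh_coprime h2).dvd_of_dvd_mul_left h9
  have hpN : p ∣ N0 := by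
    by_contra hcon
    have hN' : (N0 : ZMod p) ≠ 0 := fun h => hcon ((ZMod.natCast_eq_zero_iff _ _).1 h)
    have h11 : (2 * (N0 : ZMod p)) ≠ 0 := mul_ne_zero (two_ne h2) hN'
    exact hnd ((Polynomial.dvd_C_mul h11).1 hdiv2)
  obtain ⟨s, hs⟩ := hpN
  have hsm : s ≤ mm p := by
    by_contra hcon
    have h12 : mm p + 1 ≤ s := by omega
    have h13 : p * (mm p + 1) ≤ p * s := Nat.mul_le_mul_left p h12
    have h14 : w + (p - 2) * (mm p + 1) + p + 1 = w + p * (mm p) + p := by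
      have h15 : p - 2 + 2 = p := by omega
      have h16 : (p - 2) * (mm p + 1) + 2 * (mm p + 1) = p * (mm p + 1) := by
        rw [← add_mul, h15]
      have h17 : p * (mm p + 1) = p * mm p + p := by ring
      omega
    have h18 : p * (mm p + 1) = p * mm p + p := by ring
    omega
  have hsw : s = w - 1 := by
    have h19 : (2 * mm p + 1) * s + mm p + 1 = w + j * mm p := by
      rw [hm, ← hs]
      exact hj1
    have h20 : ((s : ℤ) - (w - 1)) = ((j : ℤ) - 1 - 2 * s) * mm p := by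
      have h21 : ((2 * (mm p : ℤ) + 1) * s + mm p + 1) = w + j * mm p := by exact_mod_cast h19
      linear_combination h21
    have h22 : ((j : ℤ) - 1 - 2 * s) = 0 := by
      by_contra hcon
      rcases lt_or_gt_of_ne hcon with h23 | h23
      · have h24 : ((j : ℤ) - 1 - 2 * s) * mm p ≤ -1 * mm p :=
          mul_le_mul_of_nonneg_right (by omega) (by positivity)
        rw [← h20] at h24
        omega
      · have h24 : 1 * (mm p : ℤ) ≤ ((j : ℤ) - 1 - 2 * s) * mm p :=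
          mul_le_mul_of_nonneg_right (by omega) (by positivity)
        rw [← h20] at h24
        omega
    rw [h22, zero_mul] at h20
    omega
  refine ⟨P, ?_, ?_⟩
  · rw [← hsw, ← hs]
    exact hPd
  · rw [← hsw, ← hs]
    exact hPF

end Pool.Agent.H85.OT
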