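import Pool.Agent.H85.OT.DefP

/-!
# Row HX (project OT): forms as polynomials in `x`, before and after `q ↦ q²`

`F = u^(2N) R(λ)`, `deg R ≤ N`, `λ = 1 - x²`: `F = u^(2N) R(1-X²)(x)`, degree `≤ 2N`.
`dbl F = (u~)^(2N) R(λ~)` with `2 u~ = u (1+x)` and `(1+x)² λ~ = (1+x)² - 4x = (1-x)²` (`dbl_U`, `dbl_xx`), so
`dbl F = u^(2N) 2^(-2N) ∑_{i ≤ N} r_i (1-x)^(2i) (1+x)^(2(N-i))`, a polynomial of degree `≤ 2N` in `x`.
(`(1+x)^(2N) λ~^i = (1+x)^(2(N-i)) (1-x)^(2i)` for `i ≤ N`.)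
-/

open PowerSeries

namespace Pool.Agent.H85.OT

theorem Hx_lam {p : ℕ} [hp : Fact p.Prime] (h2 : p ≠ 2) :
    (1 + xx (ZMod p)) ^ 2 * dbl (ZMod p) (lam (ZMod p)) = (1 - xx (ZMod p)) ^ 2 := by
  have h1 := dbl_xx (ZMod p) (two_ne h2)
  have e : dbl (ZMod p) (lam (ZMod p)) = 1 - dbl (ZMod p) (xx (ZMod p)) ^ 2 := by
    rw [lam, map_sub, map_one, map_pow]
  rw [e]
  linear_combination -h1

theorem Mf_x {p : ℕ} [hp : Fact p.Prime] (h2 : p ≠ 2) (N : ℕ) (F : (ZMod p)⟦X⟧)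
    (hF : Mf p N F) :
    ∃ R : Polynomial (ZMod p), R.natDegree ≤ 2 * N ∧
      F = U (ZMod p) ^ (2 * N) * Polynomial.aeval (xx (ZMod p)) R := by
  obtain ⟨P, hP, rfl⟩ := hF
  refine ⟨P.comp (1 - Polynomial.X ^ 2), ?_, ?_⟩
  · refine Polynomial.natDegree_comp_le.trans ?_
    have h1 : (1 - Polynomial.X ^ 2 : Polynomial (ZMod p)).natDegree ≤ 2 := by compute_degree
    calc P.natDegree * (1 - Polynomial.X ^ 2 : Polynomial (ZMod p)).natDegree ≤ N * 2 :=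
          Nat.mul_le_mul hP h1
      _ = 2 * N := mul_comm _ _
  · rw [Polynomial.aeval_comp, map_sub, map_one, map_pow, Polynomial.aeval_X]
    rfl

theorem Mf_dbl_x {p : ℕ} [hp : Fact p.Prime] (h2 : p ≠ 2) (N : ℕ) (F : (ZMod p)⟦X⟧)
    (hF : Mf p N F) :
    ∃ R : Polynomial (ZMod p), R.natDegree ≤ 2 * N ∧
      dbl (ZMod p) F = U (ZMod p) ^ (2 * N) * Polynomial.aeval (xx (ZMod p)) R := by
  obtain ⟨P, hP, rfl⟩ := hF
  have h20 : (2 : ZMod p) ≠ 0 := two_ne h2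
  have hc0 : ((2 : ZMod p) ^ (2 * N)) ≠ 0 := pow_ne_zero _ h20
  refine ⟨Polynomial.C ((2 ^ (2 * N))⁻¹) * ∑ i ∈ Finset.range (N + 1),
    Polynomial.C (P.coeff i) * ((1 + Polynomial.X) ^ (2 * (N - i)) * (1 - Polynomial.X) ^ (2 * i)), ?_, ?_⟩
  · refine (Polynomial.natDegree_C_mul_le _ _).trans ?_
    refine Polynomial.natDegree_sum_le_of_forall_le _ _ fun i hi => ?_
    rw [Finset.mem_range] at hi
    refine (Polynomial.natDegree_C_mul_le _ _).trans ?_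
    refine Polynomial.natDegree_mul_le.trans ?_
    have h1 : ((1 + Polynomial.X : Polynomial (ZMod p)) ^ (2 * (N - i))).natDegree ≤ 2 * (N - i) * 1 :=
      Polynomial.natDegree_pow_le_of_le _ (by compute_degree)
    have h3 : ((1 - Polynomial.X : Polynomial (ZMod p)) ^ (2 * i)).natDegree ≤ 2 * i * 1 :=
      Polynomial.natDegree_pow_le_of_le _ (by compute_degree)
    omega
  · have e1 : dbl (ZMod p) (U (ZMod p) ^ (2 * N) * Polynomial.aeval (lam (ZMod p)) P) =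
        dbl (ZMod p) (U (ZMod p)) ^ (2 * N) *
          Polynomial.aeval (dbl (ZMod p) (lam (ZMod p))) P := by
      rw [map_mul, map_pow]
      congr 1
      exact (Polynomial.aeval_algHom_apply (dbl (ZMod p)) (lam (ZMod p)) P).symm
    have e2 : (2 : (ZMod p)⟦X⟧) ^ (2 * N) * dbl (ZMod p) (U (ZMod p)) ^ (2 * N) =
        U (ZMod p) ^ (2 * N) * (1 + xx (ZMod p)) ^ (2 * N) := by
      rw [← mul_pow, dbl_U (ZMod p) h20, mul_pow]
    have e3 : (1 + xx (ZMod p)) ^ (2 * N) * Polynomial.aeval (dbl (ZMod p) (lam (ZMod p))) P =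
        ∑ i ∈ Finset.range (N + 1), Polynomial.aeval (xx (ZMod p))
          (Polynomial.C (P.coeff i) * ((1 + Polynomial.X) ^ (2 * (N - i)) * (1 - Polynomial.X) ^ (2 * i))) := by
      rw [Polynomial.aeval_eq_sum_range' (Nat.lt_succ_of_le hP), Finset.mul_sum]
      refine Finset.sum_congr rfl fun i hi => ?_
      rw [Finset.mem_range] at hi
      have hi' : i ≤ N := Nat.lt_succ_iff.1 hi
      rw [map_mul, map_mul, map_pow, map_pow, map_add, map_sub, map_one, Polynomial.aeval_X,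
        Polynomial.aeval_C, Algebra.smul_def]
      have e4 : (1 + xx (ZMod p)) ^ (2 * N) =
          (1 + xx (ZMod p)) ^ (2 * (N - i)) * ((1 + xx (ZMod p)) ^ 2) ^ i := by
        rw [← pow_mul, ← pow_add]
        congr 1
        omega
      have e5 : ((1 + xx (ZMod p)) ^ 2) ^ i * dbl (ZMod p) (lam (ZMod p)) ^ i =
          (1 - xx (ZMod p)) ^ (2 * i) := by
        rw [← mul_pow, Hx_lam h2, ← pow_mul]
      rw [e4]
      linear_combination (algebraMap (ZMod p) (ZMod p)⟦X⟧ (P.coeff i) *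
        (1 + xx (ZMod p)) ^ (2 * (N - i))) * e5
    have e6 : algebraMap (ZMod p) (ZMod p)⟦X⟧ ((2 ^ (2 * N))⁻¹) * (2 : (ZMod p)⟦X⟧) ^ (2 * N) = 1 := by
      have e7 : (2 : (ZMod p)⟦X⟧) ^ (2 * N) = algebraMap (ZMod p) (ZMod p)⟦X⟧ (2 ^ (2 * N)) := by
        rw [map_pow, map_ofNat]
      rw [e7, ← map_mul, inv_mul_cancel₀ hc0, map_one]
    rw [e1, map_mul, Polynomial.aeval_C, map_sum, ← e3]
    linear_combination (-(dbl (ZMod p) (U (ZMod p)) ^ (2 * N) *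
      Polynomial.aeval (dbl (ZMod p) (lam (ZMod p))) P)) * e6 +
      (algebraMap (ZMod p) (ZMod p)⟦X⟧ ((2 ^ (2 * N))⁻¹) *
        Polynomial.aeval (dbl (ZMod p) (lam (ZMod p))) P) * e2

end Pool.Agent.H85.OT
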