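import Pool.Agent.H85.OT.CDef
import Pool.Agent.H85.OT.Hg
import Pool.Agent.H85.OT.Hx

/-!
# Row CRED (project OT): reduction mod `p` of the primitives, for `p ∈ Sl2`

`p` prime with `Sl2 f p`.  Then `p^(v_p(n)) ∣ a_n` for all `n ≥ 1` (for `p ∤ n` trivial), so `a_n/n ∈ ℚ` has
`p`-adic norm `≤ 1`.  `exists_F1p`: let `F1p : ℤ_[p]⟦X⟧` have coefficients `a_n/n`; the coefficients
with `p ∣ n`, `n ≥ 1`, have norm `< 1` (`p^(v_p(n)+1) ∣ a_n`), coefficient `0` is `0`.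
So its reduction `G1 = map toZMod F1p` satisfies `G1_n = 0` for `p ∣ n`, and `D G1 = f mod p` (`n * (a_n/n) = a_n`).
`mp_lemma` (`p > 2w+2`, `f mod p ≠ 0`, `Mf p w (f mod p)`) gives `Mf p (p(w-1)) G1`; `Mf_x`, `Mf_dbl_x`:
`G1 = U^(κp) R1(x)`, `dbl G1 = U^(κp) R2(x)`, degrees `≤ κ p`, `κ = 2w-2` (`2 (p (w-1)) = κ p`).
-/

open PowerSeries

namespace Pool.Agent.H85.OT

theorem Cred_norm_nat (p : ℕ) [hp : Fact p.Prime] {n : ℕ} (hn : n ≠ 0) :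
    ‖((n : ℚ) : ℚ_[p])‖ = (p : ℝ) ^ (-(padicValNat p n : ℤ)) := by
  rw [Padic.eq_padicNorm, padicNorm.eq_zpow_of_nonzero (Nat.cast_ne_zero.2 hn), padicValRat.of_nat]
  push_cast
  rfl

theorem Cred_norm (p : ℕ) [hp : Fact p.Prime] {n : ℕ} (hn : n ≠ 0) {a : ℤ} {k : ℕ}
    (h : (p : ℤ) ^ (padicValNat p n + k) ∣ a) :
    ‖(((a : ℚ) / n : ℚ) : ℚ_[p])‖ ≤ (p : ℝ) ^ (-(k : ℤ)) := by
  have hp0 : (0 : ℝ) < p := by exact_mod_cast hp.out.pos
  have h1 : ‖((a : ℤ) : ℚ_[p])‖ ≤ (p : ℝ) ^ (-((padicValNat p n + k : ℕ) : ℤ)) :=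
    (Padic.norm_int_le_pow_iff_dvd a _).2 (by exact_mod_cast h)
  have h2 := Cred_norm_nat p hn
  have h3 : (((a : ℚ) / n : ℚ) : ℚ_[p]) = ((a : ℤ) : ℚ_[p]) / ((n : ℚ) : ℚ_[p]) := by
    push_cast
    rfl
  rw [h3, norm_div, h2, div_le_iff₀ (zpow_pos hp0 _), ← zpow_add₀ hp0.ne']
  have e : -(k : ℤ) + -(padicValNat p n : ℤ) = -((padicValNat p n + k : ℕ) : ℤ) := by
    push_cast
    ring
  rw [e]
  exact h1

theorem exists_F1p (f : ℤ⟦X⟧) (h0 : PowerSeries.coeff 0 f = 0) (p : ℕ) [hp : Fact p.Prime]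
    (hS : Sl2 f p) :
    ∃ G : ℤ_[p]⟦X⟧,
      PowerSeries.map (PadicInt.Coe.ringHom (p := p)) G =
        PowerSeries.map (Rat.castHom ℚ_[p]) (F1 f) ∧
      Dq (ZMod p) (PowerSeries.map (PadicInt.toZMod (p := p)) G) =
        PowerSeries.map (Int.castRingHom (ZMod p)) f ∧
      ∀ n, p ∣ n → PowerSeries.coeff n (PowerSeries.map (PadicInt.toZMod (p := p)) G) = 0 := by
  have hp1 : (1 : ℝ) < p := by exact_mod_cast hp.out.one_lt
  have hle : ∀ n : ℕ, ‖((((PowerSeries.coeff n f : ℤ) : ℚ) / n : ℚ) : ℚ_[p])‖ ≤ 1 := by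
    intro n
    by_cases hn : n = 0
    · subst hn
      rw [h0]
      simp
    · have h1 : (p : ℤ) ^ (padicValNat p n + 0) ∣ PowerSeries.coeff n f := by
        by_cases hpn : p ∣ n
        · exact (pow_dvd_pow _ (by omega)).trans (hS n (Nat.one_le_iff_ne_zero.2 hn) hpn)
        · rw [padicValNat.eq_zero_of_not_dvd hpn]
          simp
      have h2 := Cred_norm p hn h1
      simpa using h2
  have hlt : ∀ n : ℕ, p ∣ n → ‖((((PowerSeries.coeff n f : ℤ) : ℚ) / n : ℚ) : ℚ_[p])‖ < 1 := by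
    intro n hpn
    by_cases hn : n = 0
    · subst hn
      rw [h0]
      simp
    · have h2 := Cred_norm p hn (hS n (Nat.one_le_iff_ne_zero.2 hn) hpn)
      refine h2.trans_lt ?_
      rw [Nat.cast_one, zpow_neg_one]
      exact inv_lt_one_of_one_lt₀ hp1
  obtain ⟨g, hg⟩ : ∃ g : ℕ → ℤ_[p], ∀ n, (g n : ℚ_[p]) =
      ((((PowerSeries.coeff n f : ℤ) : ℚ) / n : ℚ) : ℚ_[p]) := ⟨fun n => ⟨_, hle n⟩, fun n => rfl⟩
  refine ⟨PowerSeries.mk g, ?_, ?_, ?_⟩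
  · ext n
    rw [PowerSeries.coeff_map, PowerSeries.coeff_map, PowerSeries.coeff_mk, F1, PowerSeries.coeff_mk]
    exact hg n
  · ext n
    rw [coeff_Dq, PowerSeries.coeff_map, PowerSeries.coeff_map, PowerSeries.coeff_mk]
    have h1 : (n : ℤ_[p]) * g n = ((PowerSeries.coeff n f : ℤ) : ℤ_[p]) := by
      apply Subtype.ext
      rw [PadicInt.coe_mul, PadicInt.coe_natCast, PadicInt.coe_intCast, hg]
      by_cases hn : n = 0
      · subst hn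
        rw [h0]
        simp
      · have hn' : ((n : ℕ) : ℚ_[p]) ≠ 0 := Nat.cast_ne_zero.2 hn
        push_cast
        field_simp
    have h2 := congrArg (PadicInt.toZMod (p := p)) h1
    rw [map_mul, map_natCast, map_intCast] at h2
    exact h2
  · intro n hn
    rw [PowerSeries.coeff_map, PowerSeries.coeff_mk]
    have h1 : ‖g n‖ < 1 := by
      rw [PadicInt.norm_def, hg]
      exact hlt n hn
    obtain ⟨y, hy⟩ := (PadicInt.norm_lt_one_iff_dvd _).1 h1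
    rw [hy, map_mul, map_natCast, ZMod.natCast_self, zero_mul]

theorem exists_F1p_x (f : ℤ⟦X⟧) (h0 : PowerSeries.coeff 0 f = 0) (w : ℕ) (hw : 2 ≤ w)
    (p : ℕ) [hp : Fact p.Prime] (hpw : 2 * w + 2 < p) (hS : Sl2 f p)
    (hne : PowerSeries.map (Int.castRingHom (ZMod p)) f ≠ 0)
    (hMf : Mf p w (PowerSeries.map (Int.castRingHom (ZMod p)) f)) :
    ∃ (G : ℤ_[p]⟦X⟧) (R1 R2 : Polynomial (ZMod p)),
      PowerSeries.map (PadicInt.Coe.ringHom (p := p)) G =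
        PowerSeries.map (Rat.castHom ℚ_[p]) (F1 f) ∧
      R1.natDegree ≤ (2 * w - 2) * p ∧ R2.natDegree ≤ (2 * w - 2) * p ∧
      PowerSeries.map (PadicInt.toZMod (p := p)) G =
        U (ZMod p) ^ ((2 * w - 2) * p) * Polynomial.aeval (xx (ZMod p)) R1 ∧
      dbl (ZMod p) (PowerSeries.map (PadicInt.toZMod (p := p)) G) =
        U (ZMod p) ^ ((2 * w - 2) * p) * Polynomial.aeval (xx (ZMod p)) R2 := by
  obtain ⟨G, hG1, hG2, hG3⟩ := exists_F1p f h0 p hS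
  have h2 : p ≠ 2 := by omega
  have h3 := mp_lemma w hw hpw _ _ hne hMf hG2 hG3
  obtain ⟨R1, hd1, hR1⟩ := Mf_x h2 _ _ h3
  obtain ⟨R2, hd2, hR2⟩ := Mf_dbl_x h2 _ _ h3
  have e : 2 * (p * (w - 1)) = (2 * w - 2) * p := by
    obtain ⟨k, rfl⟩ := Nat.exists_eq_add_of_le hw
    have e1 : 2 + k - 1 = k + 1 := by omega
    have e2 : 2 * (2 + k) - 2 = 2 * (k + 1) := by omega
    rw [e1, e2]
    ring
  rw [e] at hd1 hd2 hR1 hR2
  exact ⟨G, R1, R2, hG1, hd1, hd2, hR1, hR2⟩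

end Pool.Agent.H85.OT
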