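import Pool.Agent.H85.OT.WDef

/-!
# Row WEIG (project OT): eigenforms with coefficients in a ring

Same as row VSL (file `Vsl.lean`) with a commutative ring `R` in place of `ℤ`.
`F ∈ R⟦X⟧`, `k ≥ 4`, `p` prime, `χ ∈ R` (value of the character), `a_(pn) = a_p a_n - χ p^(k-1) a_(n/p)` for all `n ≥ 1`
(`a_(n/p) = 0` if `p ∤ n`).
* `p² ∣ a_p` implies `p^(v+1) ∣ a_(p^v m)` for `v ≥ 1`, `p ∤ m`: `v = 1`: `a_(pm) = a_p a_m`; step:
  `a_(p^(v+1) m) = a_p a_(p^v m) - χ p^(k-1) a_(p^(v-1) m)`: the first term is divisible by `p^(v+3)`, the second by `p³` if `v = 1`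
  and by `p^(3+v)` if `v ≥ 2`.
* `p ∣ a_p` implies `p^v ∣ a_(p^v m)`.
-/

open PowerSeries

namespace Pool.Agent.H85.OT

theorem Weig_rec {R : Type*} [CommRing R] {F : R⟦X⟧} {k p : ℕ} (hp : p.Prime) {χ : R}
    (h : ∀ n : ℕ, 1 ≤ n → PowerSeries.coeff (p * n) F =
      PowerSeries.coeff p F * PowerSeries.coeff n F -
        χ * (p : R) ^ (k - 1) * (if p ∣ n then PowerSeries.coeff (n / p) F else 0))
    {m : ℕ} (hm : 1 ≤ m) (hpm : ¬ p ∣ m) :
    PowerSeries.coeff (p ^ 1 * m) F = PowerSeries.coeff p F * PowerSeries.coeff (p ^ 0 * m) F ∧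
      ∀ v : ℕ, PowerSeries.coeff (p ^ (v + 2) * m) F =
        PowerSeries.coeff p F * PowerSeries.coeff (p ^ (v + 1) * m) F -
          χ * (p : R) ^ (k - 1) * PowerSeries.coeff (p ^ v * m) F := by
  refine ⟨?_, fun v => ?_⟩
  · rw [pow_one, pow_zero, one_mul, h m hm, if_neg hpm, mul_zero, sub_zero]
  · have e1 : p ^ (v + 2) * m = p * (p ^ (v + 1) * m) := by ring
    have hpos : 1 ≤ p ^ (v + 1) * m := Nat.mul_pos (pow_pos hp.pos _) hm
    have e2 : p ^ (v + 1) * m = p * (p ^ v * m) := by ring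
    have hdv : p ∣ p ^ (v + 1) * m := ⟨p ^ v * m, e2⟩
    have e3 : p ^ (v + 1) * m / p = p ^ v * m := by
      rw [e2]
      exact Nat.mul_div_cancel_left _ hp.pos
    rw [e1, h _ hpos, if_pos hdv, e3]

theorem Weig_val {p : ℕ} (hp : p.Prime) {n : ℕ} (hn : 1 ≤ n) :
    ∃ m, 1 ≤ m ∧ ¬ p ∣ m ∧ n = p ^ padicValNat p n * m := by
  haveI : Fact p.Prime := ⟨hp⟩
  obtain ⟨e, m, hm, he⟩ := Nat.exists_eq_pow_mul_and_not_dvd (by omega : n ≠ 0) p hp.ne_one
  have hm1 : 1 ≤ m := by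
    rcases Nat.eq_zero_or_pos m with h0 | h0
    · rw [h0, mul_zero] at he
      omega
    · exact h0
  have hv : padicValNat p n = e := by
    rw [he, padicValNat.mul (pow_ne_zero _ hp.ne_zero) (by omega), padicValNat.prime_pow,
      padicValNat.eq_zero_of_not_dvd hm, add_zero]
  exact ⟨m, hm1, hm, by rw [hv]; exact he⟩

theorem sl2R_of_dvd {R : Type*} [CommRing R] (F : R⟦X⟧) (k p : ℕ) (hk : 4 ≤ k) (hp : p.Prime)
    (χ : R)
    (h : ∀ n : ℕ, 1 ≤ n → PowerSeries.coeff (p * n) F =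
      PowerSeries.coeff p F * PowerSeries.coeff n F -
        χ * (p : R) ^ (k - 1) * (if p ∣ n then PowerSeries.coeff (n / p) F else 0))
    (hd : (p : R) ^ 2 ∣ PowerSeries.coeff p F) : Sl2R F p := by
  have hk3 : (p : R) ^ 3 ∣ χ * (p : R) ^ (k - 1) :=
    (pow_dvd_pow _ (by omega)).mul_left χ
  intro n hn hpn
  obtain ⟨m, hm, hpm, hnm⟩ := Weig_val hp hn
  obtain ⟨r1, r2⟩ := Weig_rec hp h hm hpm
  have key : ∀ v : ℕ, (p : R) ^ (v + 2) ∣ PowerSeries.coeff (p ^ (v + 1) * m) F ∧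
      (p : R) ^ (v + 3) ∣ PowerSeries.coeff (p ^ (v + 2) * m) F := by
    intro v
    induction v with
    | zero =>
      have h0 : (p : R) ^ 2 ∣ PowerSeries.coeff (p ^ 1 * m) F := by
        rw [r1]
        exact hd.mul_right _
      refine ⟨h0, ?_⟩
      rw [r2 0]
      refine dvd_sub ?_ (hk3.mul_right _)
      have h1 := mul_dvd_mul hd h0
      rw [← pow_add] at h1
      exact (pow_dvd_pow _ (by norm_num)).trans h1
    | succ v ih =>
      refine ⟨ih.2, ?_⟩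
      have e := r2 (v + 1)
      rw [e]
      refine dvd_sub ?_ ?_
      · have h1 := mul_dvd_mul hd ih.2
        rw [← pow_add] at h1
        exact (pow_dvd_pow _ (by omega)).trans h1
      · have h1 := mul_dvd_mul hk3 ih.1
        rw [← pow_add] at h1
        exact (pow_dvd_pow _ (by omega)).trans h1
  have hv : padicValNat p n ≠ 0 := by
    intro h0
    rw [h0, pow_zero, one_mul] at hnm
    exact hpm (hnm ▸ hpn)
  obtain ⟨w, hw⟩ := Nat.exists_eq_succ_of_ne_zero hv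
  rw [hw] at hnm ⊢
  have h1 := (key w).1
  rw [← Nat.succ_eq_add_one w, ← hnm] at h1
  exact h1

theorem not_ord0R_of_dvd {R : Type*} [CommRing R] (F : R⟦X⟧) (k p : ℕ) (hk : 4 ≤ k)
    (hp : p.Prime) (χ : R)
    (h : ∀ n : ℕ, 1 ≤ n → PowerSeries.coeff (p * n) F =
      PowerSeries.coeff p F * PowerSeries.coeff n F -
        χ * (p : R) ^ (k - 1) * (if p ∣ n then PowerSeries.coeff (n / p) F else 0))
    (hd : (p : R) ∣ PowerSeries.coeff p F) : ¬ Ord0R F p := by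
  have hk3 : (p : R) ^ 3 ∣ χ * (p : R) ^ (k - 1) :=
    (pow_dvd_pow _ (by omega)).mul_left χ
  rintro ⟨n, hn, hnd⟩
  apply hnd
  obtain ⟨m, hm, hpm, hnm⟩ := Weig_val hp hn
  obtain ⟨r1, r2⟩ := Weig_rec hp h hm hpm
  have key : ∀ v : ℕ, (p : R) ^ v ∣ PowerSeries.coeff (p ^ v * m) F ∧
      (p : R) ^ (v + 1) ∣ PowerSeries.coeff (p ^ (v + 1) * m) F := by
    intro v
    induction v with
    | zero =>
      refine ⟨by rw [pow_zero]; exact one_dvd _, ?_⟩
      rw [zero_add, r1, pow_one]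
      exact hd.mul_right _
    | succ v ih =>
      refine ⟨ih.2, ?_⟩
      have e := r2 v
      rw [show v + 1 + 1 = v + 2 from rfl, e]
      refine dvd_sub ?_ ?_
      · have h1 := mul_dvd_mul hd ih.2
        rw [← pow_succ'] at h1
        exact h1
      · have h1 := mul_dvd_mul hk3 ih.1
        rw [← pow_add] at h1
        exact (pow_dvd_pow _ (by omega)).trans h1
  have h1 := (key (padicValNat p n)).1
  rw [← hnm] at h1
  exact h1

end Pool.Agent.H85.OT
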