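import Pool.Agent.H85.OT.Acheb

/-!
# Row WCONG (project OT): finitely many primes do not matter

`cnt P x ≤ cnt P' x + N` if `P p → P' p` for all `p ≥ N`; `Nat.primeCounting x → ∞`.
* `PosLower.congr`: `c π(x) ≤ cnt P x ≤ cnt P' x + N` and `N ≤ (c/2) π(x)` for large `x`.
* `Dich.congr`: given `ε`, take `K, δ, X0` of `Dich S O` for `ε/2`; if `ε π(x) ≤ cnt S' x ≤ cnt S x + N` and
  `N ≤ (ε/2) π(x)` (`x ≥ X ≥ X0'`) then `(ε/2) π(x) ≤ cnt S x`; and
  `δ π(KX) ≤ cnt O (KX) ≤ cnt O' (KX) + N` gives `(δ/2) π(KX) ≤ cnt O' (KX)` for large `X`.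
-/

namespace Pool.Agent.H85.OT

theorem Wcong_cnt {P P' : ℕ → Prop} (N : ℕ) (h : ∀ p ≥ N, P p → P' p) (x : ℕ) :
    cnt P x ≤ cnt P' x + N := by
  classical
  unfold cnt
  have hsub : (Finset.range (x + 1)).filter (fun p => p.Prime ∧ P p) ⊆
      (Finset.range (x + 1)).filter (fun p => p.Prime ∧ P' p) ∪ Finset.range N := by
    intro p hp
    rw [Finset.mem_filter] at hp
    rw [Finset.mem_union, Finset.mem_filter]
    rcases lt_or_ge p N with hlt | hge
    · exact Or.inr (Finset.mem_range.mpr hlt)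
    · exact Or.inl ⟨hp.1, hp.2.1, h p hge hp.2.2⟩
  have h1 := Finset.card_le_card hsub
  have h2 := Finset.card_union_le
    ((Finset.range (x + 1)).filter (fun p => p.Prime ∧ P' p)) (Finset.range N)
  rw [Finset.card_range] at h2
  exact h1.trans h2

theorem Wcong_cntR {P P' : ℕ → Prop} (N : ℕ) (h : ∀ p ≥ N, P p → P' p) (x : ℕ) :
    (cnt P x : ℝ) ≤ cnt P' x + N := by
  exact_mod_cast Wcong_cnt N h x

theorem Wcong_big (N : ℕ) (c : ℝ) (hc : 0 < c) :
    ∃ x0 : ℕ, ∀ x ≥ x0, (N : ℝ) ≤ c * (Nat.primeCounting x : ℝ) := by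
  obtain ⟨M, hM⟩ := exists_nat_gt ((N : ℝ) / c)
  have h1 := (Filter.tendsto_atTop.mp Nat.tendsto_primeCounting) M
  rw [Filter.eventually_atTop] at h1
  obtain ⟨x0, hx0⟩ := h1
  refine ⟨x0, fun x hx => ?_⟩
  have h2 : (M : ℝ) ≤ (Nat.primeCounting x : ℝ) := by exact_mod_cast hx0 x hx
  rw [div_lt_iff₀ hc] at hM
  nlinarith

theorem PosLower.congr {P P' : ℕ → Prop} (N : ℕ) (h : ∀ p ≥ N, P p → P' p) (hP : PosLower P) :
    PosLower P' := by
  obtain ⟨c, hc, x0, hx0⟩ := hP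
  obtain ⟨x1, hx1⟩ := Wcong_big N (c / 2) (by positivity)
  refine ⟨c / 2, by positivity, max x0 x1, fun x hx => ?_⟩
  have h1 := hx0 x (le_trans (le_max_left _ _) hx)
  have h2 := hx1 x (le_trans (le_max_right _ _) hx)
  have h3 := Wcong_cntR N h x
  linarith

theorem Dich.congr {S S' O O' : ℕ → Prop} (N : ℕ) (hS : ∀ p ≥ N, S' p → S p)
    (hO : ∀ p ≥ N, O p → O' p) (h : Dich S O) : Dich S' O' := by
  intro ε hε
  obtain ⟨K, hK, δ, hδ, X0, hX0⟩ := h (ε / 2) (by positivity)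
  obtain ⟨x1, hx1⟩ := Wcong_big N (ε / 2) (by positivity)
  obtain ⟨x2, hx2⟩ := Wcong_big N (δ / 2) (by positivity)
  refine ⟨K, hK, δ / 2, by positivity, max X0 (max x1 x2), fun X hX hyp => ?_⟩
  have hXa : X0 ≤ X := le_trans (le_max_left _ _) hX
  have hXb : x1 ≤ X := le_trans (le_trans (le_max_left _ _) (le_max_right _ _)) hX
  have hXc : x2 ≤ X := le_trans (le_trans (le_max_right _ _) (le_max_right _ _)) hX
  have hKX : X ≤ K * X := Nat.le_mul_of_pos_left X hK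
  have h1 := hX0 X hXa (fun x hx hx' => by
    have h2 := hyp x hx hx'
    have h3 := Wcong_cntR N hS x
    have h4 := hx1 x (hXb.trans hx)
    linarith)
  have h5 := Wcong_cntR N hO (K * X)
  have h6 := hx2 (K * X) (hXc.trans hKX)
  linarith

end Pool.Agent.H85.OT
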