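import Pool.Agent.H85.OT.Vtau

/-!
# Row VHEC (project OT): Mordell's relation `tau (p n) = tau p tau n - p^11 tau (n/p)`

`p` prime.  On the upper half plane put `g(z) = p^11 Δ(pz) + (1/p) ∑_{b < p} Δ((z+b)/p)`.
* `T`: `Δ(p(z+1)) = Δ(pz)`; the sum is permuted (`b ↦ b+1`, and `Δ((z+p)/p) = Δ(z/p + 1) = Δ(z/p)`).
* `S`: from `Δ(-1/w) = w^12 Δ(w)`: `p^11 Δ(-p/z) = p^11 (z/p)^12 Δ(z/p) = z^12 (1/p) Δ(z/p)` and
  `(1/p) Δ(-1/(pz)) = (1/p)(pz)^12 Δ(pz) = z^12 p^11 Δ(pz)` (term `b = 0`).  For `0 < b < p` let `0 < b' < p`,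
  `b b' = -1 mod p`; then `(-1/z + b)/p = (bz - 1)/(pz) = γ((z+b')/p)` with
  `γ = [[b, -(bb'+1)/p], [p, -b']]` in `SL₂(ℤ)`, whose cocycle at `(z+b')/p` is `p (z+b')/p - b' = z`, so
  `Δ((-1/z+b)/p) = z^12 Δ((z+b')/p)`; `b ↦ b'` is a bijection of `{1..p-1}`.
* `g` is holomorphic and `→ 0` at `i∞` (each term does), so it defines a `CuspForm 𝒮ℒ 12`, hence
  `g = c Δ` (`CuspForm.exists_smul_discriminant_of_weight_eq_twelve`).
* q-expansion, `q = exp(2π i z)`, `Δ(z) = ∑ tau(n) q^n` (`q_delta`, `hasSum_qExpansion`):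
  `(1/p) ∑_b Δ((z+b)/p) = ∑_n tau(pn) q^n` (`∑_b exp(2π i n b/p) = p` if `p ∣ n`, else `0`), and
  `p^11 Δ(pz) = ∑ p^11 tau(n) q^(pn)`.  Comparing coefficients (uniqueness of power series coefficients; `Cv.ext` of file
  `Vcv.lean` may be imported): `tau(pn) + p^11 tau(n/p) = c tau(n)`, and `n = 1`: `c = tau(p)` (`tau_one`).
-/

open PowerSeries UpperHalfPlane ModularForm MatrixGroups Filter Topology
open Matrix.SpecialLinearGroup (mapGL)

namespace Pool.Agent.H85.OT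

noncomputable def Vhec_Ai (p : ℕ) (hp : p ≠ 0) : GL (Fin 2) ℝ :=
  Matrix.GeneralLinearGroup.mkOfDetNeZero !![(p : ℝ), 0; 0, 1] (by simp [hp])

noncomputable def Vhec_A (p : ℕ) (hp : p ≠ 0) (b : ℤ) : GL (Fin 2) ℝ :=
  Matrix.GeneralLinearGroup.mkOfDetNeZero !![1, (b : ℝ); 0, (p : ℝ)] (by simp [hp])

theorem Vhec_Ai_val (p : ℕ) (hp : p ≠ 0) :
    (Vhec_Ai p hp : Matrix (Fin 2) (Fin 2) ℝ) = !![(p : ℝ), 0; 0, 1] := rfl

theorem Vhec_A_val (p : ℕ) (hp : p ≠ 0) (b : ℤ) :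
    (Vhec_A p hp b : Matrix (Fin 2) (Fin 2) ℝ) = !![1, (b : ℝ); 0, (p : ℝ)] := rfl

theorem Vhec_inv (γ : SL(2, ℤ)) :
    (ModularForm.discriminant ∣[(12 : ℤ)] (mapGL ℝ γ : GL (Fin 2) ℝ)) = ModularForm.discriminant :=
  SlashInvariantForm.slash_action_generators_SL2Z discriminant_S_invariant
    discriminant_T_invariant γ

theorem Vhec_key (γ : SL(2, ℤ)) (A B C : GL (Fin 2) ℝ) (h : A * B = mapGL ℝ γ * C) :
    (ModularForm.discriminant ∣[(12 : ℤ)] A) ∣[(12 : ℤ)] B =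
      (ModularForm.discriminant ∣[(12 : ℤ)] C) := by
  rw [← SlashAction.slash_mul, h, SlashAction.slash_mul, Vhec_inv]

theorem Vhec_mul2 (a b c d a' b' c' d' : ℝ) :
    (!![a, b; c, d] * !![a', b'; c', d'] : Matrix (Fin 2) (Fin 2) ℝ) =
      !![a * a' + b * c', a * b' + b * d'; c * a' + d * c', c * b' + d * d'] := by
  ext i j
  fin_cases i <;> fin_cases j <;> simp [Matrix.mul_apply, Fin.sum_univ_two]

theorem Vhec_gl (γ : SL(2, ℤ)) (a b c d : ℤ) (h : (γ : Matrix (Fin 2) (Fin 2) ℤ) = !![a, b; c, d]) :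
    ((mapGL ℝ γ : GL (Fin 2) ℝ) : Matrix (Fin 2) (Fin 2) ℝ) = !![(a : ℝ), b; c, d] := by
  rw [Matrix.SpecialLinearGroup.mapGL_coe_matrix, Matrix.SpecialLinearGroup.map_apply_coe, h]
  ext i j
  fin_cases i <;> fin_cases j <;> simp

theorem Vhec_m1 (p : ℕ) (hp : p ≠ 0) (b k : ℤ) :
    Vhec_A p hp (b + p * k) = mapGL ℝ (ModularGroup.T ^ k) * Vhec_A p hp b := by
  apply Units.ext
  rw [Units.val_mul, Vhec_A_val, Vhec_A_val, Vhec_gl _ _ _ _ _ (ModularGroup.coe_T_zpow k),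
    Vhec_mul2]
  push_cast
  ring_nf

theorem Vhec_m2 (p : ℕ) (hp : p ≠ 0) (b : ℤ) :
    Vhec_A p hp b * mapGL ℝ ModularGroup.T = mapGL ℝ (1 : SL(2, ℤ)) * Vhec_A p hp (b + 1) := by
  rw [map_one, one_mul]
  apply Units.ext
  rw [Units.val_mul, Vhec_A_val, Vhec_A_val, Vhec_gl _ _ _ _ _ ModularGroup.coe_T, Vhec_mul2]
  push_cast
  ring_nf

theorem Vhec_m3 (p : ℕ) (hp : p ≠ 0) :
    Vhec_Ai p hp * mapGL ℝ ModularGroup.T =
      mapGL ℝ (ModularGroup.T ^ (p : ℤ)) * Vhec_Ai p hp := by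
  apply Units.ext
  rw [Units.val_mul, Units.val_mul, Vhec_Ai_val, Vhec_gl _ _ _ _ _ (ModularGroup.coe_T_zpow p),
    Vhec_gl _ _ _ _ _ ModularGroup.coe_T, Vhec_mul2, Vhec_mul2]
  push_cast
  ring_nf

theorem Vhec_m4 (p : ℕ) (hp : p ≠ 0) :
    Vhec_Ai p hp * mapGL ℝ ModularGroup.S = mapGL ℝ ModularGroup.S * Vhec_A p hp 0 := by
  apply Units.ext
  rw [Units.val_mul, Units.val_mul, Vhec_Ai_val, Vhec_A_val,
    Vhec_gl _ _ _ _ _ ModularGroup.coe_S, Vhec_mul2, Vhec_mul2]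
  push_cast
  ring_nf

theorem Vhec_m5 (p : ℕ) (hp : p ≠ 0) :
    Vhec_A p hp 0 * mapGL ℝ ModularGroup.S = mapGL ℝ ModularGroup.S * Vhec_Ai p hp := by
  apply Units.ext
  rw [Units.val_mul, Units.val_mul, Vhec_Ai_val, Vhec_A_val,
    Vhec_gl _ _ _ _ _ ModularGroup.coe_S, Vhec_mul2, Vhec_mul2]
  push_cast
  ring_nf

theorem Vhec_m6 (p : ℕ) (hp : p ≠ 0) (b b' k : ℤ) (h : b * b' + 1 = p * k) :
    ∃ γ : SL(2, ℤ), Vhec_A p hp b * mapGL ℝ ModularGroup.S = mapGL ℝ γ * Vhec_A p hp b' := by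
  have h2 : (b : ℝ) * b' + 1 = p * k := by exact_mod_cast h
  obtain ⟨γ, hγ⟩ : ∃ γ : SL(2, ℤ), (γ : Matrix (Fin 2) (Fin 2) ℤ) = !![b, -k; (p : ℤ), -b'] :=
    ⟨⟨!![b, -k; (p : ℤ), -b'], by rw [Matrix.det_fin_two_of]; linear_combination -h⟩, rfl⟩
  refine ⟨γ, ?_⟩
  apply Units.ext
  rw [Units.val_mul, Units.val_mul, Vhec_A_val, Vhec_A_val,
    Vhec_gl _ _ _ _ _ ModularGroup.coe_S, Vhec_gl _ _ _ _ _ hγ, Vhec_mul2, Vhec_mul2]
  push_cast
  have h3 : (b : ℝ) * b' + -(k : ℝ) * p = -1 := by linear_combination h2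
  rw [h3]
  ring_nf


theorem Vhec_det (A : GL (Fin 2) ℝ) (a b d : ℝ)
    (hA : (A : Matrix (Fin 2) (Fin 2) ℝ) = !![a, b; 0, d]) : A.det.val = a * d := by
  rw [Matrix.GeneralLinearGroup.val_det_apply, hA, Matrix.det_fin_two_of]
  ring

theorem Vhec_coe (A : GL (Fin 2) ℝ) (a b d : ℝ) (ha : 0 < a) (hd : 0 < d)
    (hA : (A : Matrix (Fin 2) (Fin 2) ℝ) = !![a, b; 0, d]) (z : ℍ) :
    ((A • z : ℍ) : ℂ) = (a * z + b) / d := by
  rw [UpperHalfPlane.coe_smul_of_det_pos (by rw [Vhec_det A a b d hA]; positivity)]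
  unfold num denom
  rw [hA]
  simp

theorem Vhec_slash (A : GL (Fin 2) ℝ) (a b d : ℝ) (ha : 0 < a) (hd : 0 < d)
    (hA : (A : Matrix (Fin 2) (Fin 2) ℝ) = !![a, b; 0, d]) (f : ℍ → ℂ) (z : ℍ) :
    (f ∣[(12 : ℤ)] A) z = f (A • z) * ((a : ℂ) ^ 11 / d) := by
  have hdet := Vhec_det A a b d hA
  have hσ : σ A (f (A • z)) = f (A • z) := by
    unfold σ
    rw [if_pos (by rw [hdet]; positivity)]
    rfl
  have hden : denom A (z : ℂ) = d := by
    unfold denom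
    rw [hA]
    simp
  rw [ModularForm.slash_apply, hσ, hden, hdet, abs_of_pos (by positivity)]
  have hd' : (d : ℂ) ≠ 0 := by exact_mod_cast hd.ne'
  have h1 : (12 : ℤ) - 1 = ((11 : ℕ) : ℤ) := by norm_num
  have h2 : (-12 : ℤ) = -((12 : ℕ) : ℤ) := by norm_num
  rw [h1, h2, zpow_neg, zpow_natCast, zpow_natCast]
  push_cast
  field_simp

theorem Vhec_im (A : GL (Fin 2) ℝ) (a b d : ℝ) (ha : 0 < a) (hd : 0 < d)
    (hA : (A : Matrix (Fin 2) (Fin 2) ℝ) = !![a, b; 0, d]) (z : ℍ) :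
    (A • z : ℍ).im = a / d * z.im := by
  have h := congrArg Complex.im (Vhec_coe A a b d ha hd hA z)
  have h2 : ((a * z + b) / d : ℂ) = (((a / d : ℝ) : ℂ) * z + ((b / d : ℝ) : ℂ)) := by
    push_cast
    ring
  rw [h2, Complex.add_im, Complex.ofReal_im, Complex.im_ofReal_mul, add_zero] at h
  exact h

theorem Vhec_zero (A : GL (Fin 2) ℝ) (a b d : ℝ) (ha : 0 < a) (hd : 0 < d)
    (hA : (A : Matrix (Fin 2) (Fin 2) ℝ) = !![a, b; 0, d]) :
    Tendsto (ModularForm.discriminant ∣[(12 : ℤ)] A) atImInfty (𝓝 0) := by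
  have h1 : Tendsto (fun z : ℍ => A • z) atImInfty atImInfty := by
    unfold atImInfty
    rw [tendsto_comap_iff]
    have h2 : (UpperHalfPlane.im ∘ fun z : ℍ => A • z) = fun z : ℍ => a / d * z.im := by
      funext z
      exact Vhec_im A a b d ha hd hA z
    rw [h2]
    exact Tendsto.const_mul_atTop (by positivity) tendsto_comap
  have h3 : Tendsto (fun z : ℍ => ModularForm.discriminant (A • z) * ((a : ℂ) ^ 11 / d))
      atImInfty (𝓝 (0 * ((a : ℂ) ^ 11 / d))) :=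
    (Tendsto.comp discriminant_isZeroAtImInfty h1).mul tendsto_const_nhds
  rw [zero_mul] at h3
  refine h3.congr fun z => ?_
  rw [Vhec_slash A a b d ha hd hA]


noncomputable def Vhec_F (p : ℕ) (hp : p ≠ 0) (b : ℤ) : ℍ → ℂ :=
  ModularForm.discriminant ∣[(12 : ℤ)] (Vhec_A p hp b)

theorem Vhec_F_per (p : ℕ) (hp : p ≠ 0) (b k : ℤ) :
    Vhec_F p hp (b + p * k) = Vhec_F p hp b := by
  unfold Vhec_F
  rw [Vhec_m1, SlashAction.slash_mul, Vhec_inv]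

theorem Vhec_F_cast (p : ℕ) (hp : p ≠ 0) [NeZero p] (b : ℤ) :
    Vhec_F p hp (((b : ZMod p).val : ℕ) : ℤ) = Vhec_F p hp b := by
  have h1 : ((((b : ZMod p).val : ℕ) : ℤ) : ZMod p) = (b : ZMod p) := by
    rw [Int.cast_natCast, ZMod.natCast_zmod_val]
  rw [ZMod.intCast_eq_intCast_iff_dvd_sub] at h1
  obtain ⟨k, hk⟩ := h1
  rw [← Vhec_F_per p hp _ k, ← hk]
  congr 1
  ring

theorem Vhec_F_T (p : ℕ) (hp : p ≠ 0) (b : ℤ) :
    Vhec_F p hp b ∣[(12 : ℤ)] (ModularGroup.T : SL(2, ℤ)) = Vhec_F p hp (b + 1) :=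
  Vhec_key _ _ _ _ (Vhec_m2 p hp b)

theorem Vhec_F_S (p : ℕ) (hp : p ≠ 0) (b b' k : ℤ) (h : b * b' + 1 = p * k) :
    Vhec_F p hp b ∣[(12 : ℤ)] (ModularGroup.S : SL(2, ℤ)) = Vhec_F p hp b' := by
  obtain ⟨γ, hγ⟩ := Vhec_m6 p hp b b' k h
  exact Vhec_key _ _ _ _ hγ

noncomputable def Vhec_G (p : ℕ) (hp : p ≠ 0) [NeZero p] : ℍ → ℂ :=
  (ModularForm.discriminant ∣[(12 : ℤ)] (Vhec_Ai p hp)) +
    ∑ x : ZMod p, Vhec_F p hp ((x.val : ℕ) : ℤ)

theorem Vhec_G_T (p : ℕ) (hp : p ≠ 0) [NeZero p] :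
    Vhec_G p hp ∣[(12 : ℤ)] (ModularGroup.T : SL(2, ℤ)) = Vhec_G p hp := by
  unfold Vhec_G
  rw [SlashAction.add_slash, SlashAction.sum_slash]
  congr 1
  · have h := Vhec_key _ _ _ _ (Vhec_m3 p hp)
    exact h
  · rw [← Equiv.sum_comp (Equiv.addRight (1 : ZMod p))
      (fun x : ZMod p => Vhec_F p hp ((x.val : ℕ) : ℤ))]
    refine Finset.sum_congr rfl fun x _ => ?_
    rw [Vhec_F_T, Equiv.coe_addRight]
    change _ = Vhec_F p hp (((x + 1 : ZMod p).val : ℕ) : ℤ)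
    have h1 : (x + 1 : ZMod p) = (((x.val : ℤ) + 1 : ℤ) : ZMod p) := by
      rw [Int.cast_add, Int.cast_one, Int.cast_natCast, ZMod.natCast_zmod_val]
    rw [h1, Vhec_F_cast]

theorem Vhec_G_S (p : ℕ) (hp : p ≠ 0) [hpp : Fact p.Prime] :
    Vhec_G p hp ∣[(12 : ℤ)] (ModularGroup.S : SL(2, ℤ)) = Vhec_G p hp := by
  unfold Vhec_G
  rw [SlashAction.add_slash, SlashAction.sum_slash]
  have hA : (ModularForm.discriminant ∣[(12 : ℤ)] (Vhec_Ai p hp)) ∣[(12 : ℤ)]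
      (ModularGroup.S : SL(2, ℤ)) = Vhec_F p hp 0 := Vhec_key _ _ _ _ (Vhec_m4 p hp)
  have hB : Vhec_F p hp 0 ∣[(12 : ℤ)] (ModularGroup.S : SL(2, ℤ)) =
      (ModularForm.discriminant ∣[(12 : ℤ)] (Vhec_Ai p hp)) := Vhec_key _ _ _ _ (Vhec_m5 p hp)
  have hC : ∀ x : ZMod p, x ≠ 0 →
      Vhec_F p hp ((x.val : ℕ) : ℤ) ∣[(12 : ℤ)] (ModularGroup.S : SL(2, ℤ)) =
        Vhec_F p hp (((-x⁻¹ : ZMod p).val : ℕ) : ℤ) := by
    intro x hx
    have h1 : (((((x.val : ℕ) : ℤ) * (((-x⁻¹ : ZMod p).val : ℕ) : ℤ) + 1 : ℤ)) : ZMod p) = 0 := by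
      push_cast
      rw [ZMod.natCast_zmod_val, ZMod.natCast_zmod_val, mul_neg, mul_inv_cancel₀ hx]
      ring
    rw [ZMod.intCast_zmod_eq_zero_iff_dvd] at h1
    obtain ⟨k, hk⟩ := h1
    exact Vhec_F_S p hp _ _ k hk
  let e : ZMod p ≃ ZMod p := ⟨fun x => -x⁻¹, fun x => -x⁻¹, fun x => by
    change -(-x⁻¹)⁻¹ = x
    rw [inv_neg, inv_inv, neg_neg], fun x => by
    change -(-x⁻¹)⁻¹ = x
    rw [inv_neg, inv_inv, neg_neg]⟩
  rw [hA, ← Finset.add_sum_erase _ _ (Finset.mem_univ (0 : ZMod p)), ZMod.val_zero,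
    Nat.cast_zero, hB, ← Equiv.sum_comp e (fun x : ZMod p => Vhec_F p hp ((x.val : ℕ) : ℤ)),
    ← Finset.add_sum_erase _ (fun x : ZMod p => Vhec_F p hp (((e x).val : ℕ) : ℤ))
      (Finset.mem_univ (0 : ZMod p))]
  have he0 : e 0 = 0 := by
    change -(0 : ZMod p)⁻¹ = 0
    rw [inv_zero, neg_zero]
  rw [he0, ZMod.val_zero, Nat.cast_zero]
  have hD : ∑ x ∈ Finset.univ.erase (0 : ZMod p),
      Vhec_F p hp ((x.val : ℕ) : ℤ) ∣[(12 : ℤ)] (ModularGroup.S : SL(2, ℤ)) =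
      ∑ x ∈ Finset.univ.erase (0 : ZMod p), Vhec_F p hp (((e x).val : ℕ) : ℤ) :=
    Finset.sum_congr rfl fun x hx => hC x (Finset.ne_of_mem_erase hx)
  rw [hD]
  abel

theorem Vhec_G_zero (p : ℕ) (hp : p ≠ 0) [NeZero p] : IsZeroAtImInfty (Vhec_G p hp) := by
  have hp0 : (0 : ℝ) < p := by exact_mod_cast Nat.pos_of_ne_zero hp
  have h1 : Tendsto (fun z : ℍ => (ModularForm.discriminant ∣[(12 : ℤ)] (Vhec_Ai p hp)) z +
      ∑ x : ZMod p, Vhec_F p hp ((x.val : ℕ) : ℤ) z) atImInfty (𝓝 (0 + ∑ x : ZMod p, 0)) := by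
    refine Tendsto.add (Vhec_zero _ _ _ _ hp0 one_pos (Vhec_Ai_val p hp)) ?_
    exact tendsto_finsetSum _ fun x _ => Vhec_zero _ _ _ _ one_pos hp0 (Vhec_A_val p hp _)
  rw [Finset.sum_const_zero, add_zero] at h1
  refine h1.congr fun z => ?_
  unfold Vhec_G
  rw [Pi.add_apply, Finset.sum_apply]

noncomputable def Vhec_cusp (p : ℕ) (hp : p ≠ 0) [hpp : Fact p.Prime] : CuspForm 𝒮ℒ 12 where
  toFun := Vhec_G p hp
  slash_action_eq' A hA := by
    obtain ⟨A, rfl⟩ := hA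
    exact SlashInvariantForm.slash_action_generators_SL2Z (Vhec_G_S p hp) (Vhec_G_T p hp) A
  holo' := by
    have h1 := CuspForm.discriminant.holo'
    have h2 := h1.slash 12 (Vhec_Ai p hp)
    have h3 := MDifferentiable.sum (t := Finset.univ) fun (x : ZMod p) _ =>
      h1.slash 12 (Vhec_A p hp ((x.val : ℕ) : ℤ))
    exact h2.add h3
  zero_at_cusps' hc := by
    rw [Subgroup.IsArithmetic.isCusp_iff_isCusp_SL2Z] at hc
    rw [OnePoint.isZeroAt_iff_forall_SL2Z hc]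
    intro γ _
    rw [SlashInvariantForm.slash_action_generators_SL2Z (Vhec_G_S p hp) (Vhec_G_T p hp)]
    exact Vhec_G_zero p hp


theorem Vhec_congr {f g : ℕ → ℂ} {a : ℂ} (h : ∀ n, f n = g n) (hf : HasSum f a) : HasSum g a := by
  rw [← funext h]
  exact hf

theorem Vhec_disc_hasSum (z : ℍ) :
    HasSum (fun m : ℕ => (tau m : ℂ) * Function.Periodic.qParam 1 z ^ m)
      (ModularForm.discriminant z) := by
  have : Fact (IsCusp OnePoint.infty 𝒮ℒ) :=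
    ⟨Subgroup.isCusp_of_mem_strictPeriods one_pos one_mem_strictPeriods_SL⟩
  have h := ModularForm.hasSum_qExpansion (f := CuspForm.discriminant) (h := 1) one_pos
    one_mem_strictPeriods_SL z
  rw [CuspForm.coe_discriminant, q_delta] at h
  simpa [PowerSeries.coeff_map, PowerSeries.coeff_mk] using h

theorem Vhec_sum1 (p : ℕ) (hp : p ≠ 0) (z : ℍ) :
    HasSum (fun n : ℕ => (if p ∣ n then (p : ℂ) ^ 11 * (tau (n / p) : ℂ) else 0) *
      Function.Periodic.qParam 1 z ^ n)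
      ((ModularForm.discriminant ∣[(12 : ℤ)] (Vhec_Ai p hp)) z) := by
  have hp0 : (0 : ℝ) < p := by exact_mod_cast Nat.pos_of_ne_zero hp
  have h1 := (Vhec_disc_hasSum (Vhec_Ai p hp • z)).mul_right ((((p : ℝ) : ℂ)) ^ 11 / ((1 : ℝ) : ℂ))
  rw [← Vhec_slash (Vhec_Ai p hp) p 0 1 hp0 one_pos (Vhec_Ai_val p hp)] at h1
  have hq : Function.Periodic.qParam 1 ((Vhec_Ai p hp • z : ℍ) : ℂ) =
      Function.Periodic.qParam 1 z ^ p := by
    rw [Vhec_coe (Vhec_Ai p hp) p 0 1 hp0 one_pos (Vhec_Ai_val p hp)]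
    unfold Function.Periodic.qParam
    rw [← Complex.exp_nat_mul]
    congr 1
    push_cast
    ring
  have hinj : Function.Injective (fun n : ℕ => p * n) := fun a b hab =>
    Nat.eq_of_mul_eq_mul_left (Nat.pos_of_ne_zero hp) hab
  rw [← hinj.hasSum_iff]
  · refine Vhec_congr (fun m => ?_) h1
    change _ = (if p ∣ p * m then (p : ℂ) ^ 11 * (tau (p * m / p) : ℂ) else 0) *
      Function.Periodic.qParam 1 z ^ (p * m)
    rw [if_pos (dvd_mul_right p m), Nat.mul_div_cancel_left m (Nat.pos_of_ne_zero hp), hq,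
      pow_mul]
    push_cast
    ring
  · intro x hx
    rw [if_neg, zero_mul]
    rintro ⟨k, rfl⟩
    exact hx ⟨k, rfl⟩

theorem Vhec_geom (p : ℕ) [hpp : Fact p.Prime] (ω : ℂ) (h : ω ^ p = 1) :
    ∑ x : ZMod p, ω ^ x.val = if ω = 1 then (p : ℂ) else 0 := by
  split_ifs with h1
  · rw [h1]
    simp [ZMod.card]
  · have h2 : ∑ x : ZMod p, ω ^ x.val = ω * ∑ x : ZMod p, ω ^ x.val := by
      conv_lhs => rw [← Equiv.sum_comp (Equiv.addRight (1 : ZMod p)) (fun x : ZMod p => ω ^ x.val)]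
      rw [Finset.mul_sum]
      refine Finset.sum_congr rfl fun x _ => ?_
      change ω ^ (x + 1 : ZMod p).val = _
      rw [ZMod.val_add, ZMod.val_one, ← pow_eq_pow_mod _ h, pow_succ, mul_comm]
    have h3 : (ω - 1) * ∑ x : ZMod p, ω ^ x.val = 0 := by linear_combination -h2
    rcases mul_eq_zero.1 h3 with h4 | h4
    · exact absurd (sub_eq_zero.1 h4) h1
    · exact h4

theorem Vhec_sum2 (p : ℕ) (hp : p ≠ 0) [hpp : Fact p.Prime] (z : ℍ) :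
    HasSum (fun n : ℕ => (tau (p * n) : ℂ) * Function.Periodic.qParam 1 z ^ n)
      (∑ x : ZMod p, Vhec_F p hp ((x.val : ℕ) : ℤ) z) := by
  have hp0 : (0 : ℝ) < p := by exact_mod_cast Nat.pos_of_ne_zero hp
  have hpC : (p : ℂ) ≠ 0 := by exact_mod_cast hp
  obtain ⟨u, hu⟩ : ∃ u : ℂ, u = Complex.exp (2 * Real.pi * Complex.I * z / p) := ⟨_, rfl⟩
  obtain ⟨ζ, hζ⟩ : ∃ ζ : ℂ, ζ = Complex.exp (2 * Real.pi * Complex.I / p) := ⟨_, rfl⟩
  have hprim : IsPrimitiveRoot ζ p := by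
    rw [hζ]
    exact Complex.isPrimitiveRoot_exp p hp
  have huq : u ^ p = Function.Periodic.qParam 1 z := by
    unfold Function.Periodic.qParam
    rw [hu, ← Complex.exp_nat_mul]
    congr 1
    push_cast
    field_simp
  have hx : ∀ x : ZMod p, HasSum (fun m : ℕ => (tau m : ℂ) * (u * ζ ^ x.val) ^ m * (1 / (p : ℂ)))
      (Vhec_F p hp ((x.val : ℕ) : ℤ) z) := by
    intro x
    have h1 := (Vhec_disc_hasSum (Vhec_A p hp ((x.val : ℕ) : ℤ) • z)).mul_right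
      ((((1 : ℝ) : ℂ)) ^ 11 / ((p : ℝ) : ℂ))
    rw [← Vhec_slash (Vhec_A p hp ((x.val : ℕ) : ℤ)) 1 _ p one_pos hp0 (Vhec_A_val p hp _)] at h1
    have hq : Function.Periodic.qParam 1 ((Vhec_A p hp ((x.val : ℕ) : ℤ) • z : ℍ) : ℂ) =
        u * ζ ^ x.val := by
      rw [Vhec_coe (Vhec_A p hp ((x.val : ℕ) : ℤ)) 1 _ p one_pos hp0 (Vhec_A_val p hp _)]
      unfold Function.Periodic.qParam
      rw [hu, hζ, ← Complex.exp_nat_mul, ← Complex.exp_add]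
      congr 1
      push_cast
      field_simp
    rw [hq] at h1
    refine Vhec_congr (fun m => ?_) h1
    push_cast
    ring
  have hs := hasSum_sum (s := Finset.univ) fun (x : ZMod p) _ => hx x
  have hcoef : ∀ m : ℕ, ∑ x : ZMod p, (tau m : ℂ) * (u * ζ ^ x.val) ^ m * (1 / (p : ℂ)) =
      if p ∣ m then (tau m : ℂ) * u ^ m else 0 := by
    intro m
    have h1 : ∀ x : ZMod p, (tau m : ℂ) * (u * ζ ^ x.val) ^ m * (1 / (p : ℂ)) =
        ((tau m : ℂ) * u ^ m * (1 / (p : ℂ))) * (ζ ^ m) ^ x.val := by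
      intro x
      rw [mul_pow, ← pow_mul, ← pow_mul, mul_comm x.val m]
      ring
    rw [Finset.sum_congr rfl fun x _ => h1 x, ← Finset.mul_sum, Vhec_geom p (ζ ^ m)
      (by rw [← pow_mul, mul_comm, pow_mul, hprim.pow_eq_one, one_pow])]
    by_cases hd : p ∣ m
    · rw [if_pos ((hprim.pow_eq_one_iff_dvd m).2 hd), if_pos hd]
      field_simp
    · rw [if_neg (fun h => hd ((hprim.pow_eq_one_iff_dvd m).1 h)), if_neg hd, mul_zero]
  replace hs := Vhec_congr hcoef hs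
  have hinj : Function.Injective (fun n : ℕ => p * n) := fun a b hab =>
    Nat.eq_of_mul_eq_mul_left (Nat.pos_of_ne_zero hp) hab
  rw [← hinj.hasSum_iff] at hs
  · refine Vhec_congr (fun n => ?_) hs
    change (if p ∣ p * n then (tau (p * n) : ℂ) * u ^ (p * n) else 0) = _
    rw [if_pos (dvd_mul_right p n), pow_mul, huq]
  · intro x hx
    rw [if_neg]
    rintro ⟨k, rfl⟩
    exact hx ⟨k, rfl⟩

theorem mordell (p : ℕ) (hp : p.Prime) (n : ℕ) (hn : 1 ≤ n) :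
    tau (p * n) = tau p * tau n - (p : ℤ) ^ 11 * (if p ∣ n then tau (n / p) else 0) := by
  have hpp : Fact p.Prime := ⟨hp⟩
  have hp0 : p ≠ 0 := hp.ne_zero
  obtain ⟨c0, hc0⟩ := CuspForm.exists_smul_discriminant_of_weight_eq_twelve (Vhec_cusp p hp0)
  have hG : ∀ z : ℍ, (c0 • CuspForm.discriminant : CuspForm 𝒮ℒ 12) z = Vhec_G p hp0 z := by
    intro z
    rw [hc0]
    rfl
  have h1 : ∀ z : ℍ, HasSum (fun m : ℕ =>
      ((if p ∣ m then (p : ℂ) ^ 11 * (tau (m / p) : ℂ) else 0) + (tau (p * m) : ℂ)) •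
        Function.Periodic.qParam 1 z ^ m) ((c0 • CuspForm.discriminant : CuspForm 𝒮ℒ 12) z) := by
    intro z
    rw [hG z]
    unfold Vhec_G
    rw [Pi.add_apply, Finset.sum_apply]
    refine Vhec_congr (fun m => ?_) ((Vhec_sum1 p hp0 z).add (Vhec_sum2 p hp0 z))
    rw [smul_eq_mul, add_mul]
  have h2 : ∀ z : ℍ, HasSum (fun m : ℕ => (c0 * (tau m : ℂ)) •
        Function.Periodic.qParam 1 z ^ m) ((c0 • CuspForm.discriminant : CuspForm 𝒮ℒ 12) z) := by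
    intro z
    refine Vhec_congr (fun m => ?_) ((Vhec_disc_hasSum z).mul_left c0)
    rw [smul_eq_mul, mul_assoc]
  have h3 : ∀ m : ℕ, (if p ∣ m then (p : ℂ) ^ 11 * (tau (m / p) : ℂ) else 0) +
      (tau (p * m) : ℂ) = c0 * (tau m : ℂ) := by
    intro m
    rw [ModularFormClass.qExpansion_coeff_unique one_pos one_mem_strictPeriods_SL h1 m,
      ModularFormClass.qExpansion_coeff_unique one_pos one_mem_strictPeriods_SL h2 m]
  have h4 := h3 1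
  rw [if_neg (by rw [Nat.dvd_one]; exact hp.one_lt.ne'), zero_add, mul_one, tau_one, Int.cast_one,
    mul_one] at h4
  have h5 := h3 n
  rw [← h4] at h5
  have h6 : ((tau (p * n) : ℤ) : ℂ) =
      ((tau p * tau n - (p : ℤ) ^ 11 * (if p ∣ n then tau (n / p) else 0) : ℤ) : ℂ) := by
    split_ifs at h5 ⊢ with hd
    · push_cast
      linear_combination h5
    · push_cast
      linear_combination h5
  exact_mod_cast h6

end Pool.Agent.H85.OT
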