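import Pool.Agent.H85.OT.Fld

/-!
# Row ORD (project OT): polynomials in a power series of order one

Let `t : K⟦X⟧` have constant term `c` and nonzero coefficient of `q`.  If `P : K[X]` is nonzero with
`natDegree P ≤ N` then some coefficient `l ≤ N` of `P(t)` is nonzero.
Proof: write `P(t) = Q(t - c)` with `Q = taylor c P ≠ 0`, `natDegree Q ≤ N`.  Let `l` be the smallest
index with `Q_l ≠ 0` (`l ≤ N`); as `t - c = q s` with `s(0) ≠ 0`, `Q(t-c) = q^l (Q_l s^l + q ..)` and
coefficient `l` is `Q_l s(0)^l ≠ 0`.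
Applications: `xx` (`c = 1`, coefficient `-8`), `1 - xx²` (`c = 0`, coefficient `16`).
`ord_xx'` : the same after multiplication by the unit `U^k`
(if coefficients `≤ N` of `U^k P(x)` vanish, so do those of `P(x)`).
-/

open PowerSeries

namespace Pool.Agent.H85.OT

theorem ord_gen {K : Type*} [Field K] (t : K⟦X⟧) (ht : PowerSeries.coeff 1 t ≠ 0)
    (P : Polynomial K) (hP : P ≠ 0) (N : ℕ) (hN : P.natDegree ≤ N) :
    ∃ l ≤ N, PowerSeries.coeff l (Polynomial.aeval t P) ≠ 0 := by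
  set c := PowerSeries.constantCoeff t with hc
  set s : K⟦X⟧ := PowerSeries.mk fun n => PowerSeries.coeff (n + 1) t with hs
  have hts : t = PowerSeries.X * s + algebraMap K K⟦X⟧ c := by
    have := PowerSeries.eq_X_mul_shift_add_const t
    exact this
  set Q := Polynomial.taylor c P with hQ
  have hQ0 : Q ≠ 0 := by
    intro h
    exact hP ((Polynomial.taylor_eq_zero c P).1 h)
  have hPQ : Polynomial.aeval t P = Polynomial.aeval (PowerSeries.X * s) Q := by
    rw [hQ, Polynomial.taylor_apply, Polynomial.aeval_comp, map_add, Polynomial.aeval_X,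
      Polynomial.aeval_C, ← hts]
  have hs0 : PowerSeries.constantCoeff s ≠ 0 := by
    rw [hs, ← PowerSeries.coeff_zero_eq_constantCoeff_apply, PowerSeries.coeff_mk]
    exact ht
  refine ⟨Q.natTrailingDegree, ?_, ?_⟩
  · have h1 : Q.natTrailingDegree ≤ Q.natDegree := Polynomial.natTrailingDegree_le_natDegree Q
    rw [hQ, Polynomial.natDegree_taylor] at h1
    exact h1.trans hN
  · rw [hPQ, Polynomial.aeval_eq_sum_range, map_sum, Finset.sum_eq_single Q.natTrailingDegree]
    · rw [PowerSeries.coeff_smul, mul_pow, PowerSeries.coeff_X_pow_mul', if_pos le_rfl,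
        Nat.sub_self, PowerSeries.coeff_zero_eq_constantCoeff_apply, map_pow, smul_eq_mul]
      exact mul_ne_zero (Polynomial.trailingCoeff_nonzero_iff_nonzero.2 hQ0) (pow_ne_zero _ hs0)
    · intro i _ hi
      rw [PowerSeries.coeff_smul, smul_eq_mul]
      rcases lt_or_gt_of_ne hi with h1 | h1
      · rw [Polynomial.coeff_eq_zero_of_lt_natTrailingDegree h1, zero_mul]
      · rw [mul_pow, PowerSeries.coeff_X_pow_mul', if_neg (not_le.2 h1), mul_zero]
    · intro h1
      exfalso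
      apply h1
      rw [Finset.mem_range]
      exact Nat.lt_succ_of_le (Polynomial.natTrailingDegree_le_natDegree Q)

theorem ord_xx {K : Type*} [Field K] (h2 : (2 : K) ≠ 0)
    (P : Polynomial K) (hP : P ≠ 0) (N : ℕ) (hN : P.natDegree ≤ N) :
    ∃ l ≤ N, PowerSeries.coeff l (Polynomial.aeval (xx K) P) ≠ 0 := by
  refine ord_gen (xx K) ?_ P hP N hN
  rw [coeff_one_xx]
  have h8 : (-8 : K) = -(2 ^ 3) := by norm_num
  rw [h8]
  exact neg_ne_zero.2 (pow_ne_zero 3 h2)

theorem ord_xx' {K : Type*} [Field K] (h2 : (2 : K) ≠ 0) (k : ℕ)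
    (P : Polynomial K) (N : ℕ) (hN : P.natDegree ≤ N)
    (h : ∀ l ≤ N, PowerSeries.coeff l (U K ^ k * Polynomial.aeval (xx K) P) = 0) : P = 0 := by
  by_contra hP
  obtain ⟨l, hl, h1⟩ := ord_xx h2 P hP N hN
  apply h1
  have h3 : (PowerSeries.X : K⟦X⟧) ^ (N + 1) ∣ U K ^ k * Polynomial.aeval (xx K) P := by
    rw [PowerSeries.X_pow_dvd_iff]
    intro m hm
    exact h m (Nat.lt_succ_iff.1 hm)
  have h4 : Polynomial.aeval (xx K) P = (U K)⁻¹ ^ k * (U K ^ k * Polynomial.aeval (xx K) P) := by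
    rw [← mul_assoc, ← mul_pow, mul_comm ((U K)⁻¹), U_mul_inv, one_pow, one_mul]
  have h5 : (PowerSeries.X : K⟦X⟧) ^ (N + 1) ∣ Polynomial.aeval (xx K) P := by
    rw [h4]
    exact Dvd.dvd.mul_left h3 _
  rw [PowerSeries.X_pow_dvd_iff] at h5
  exact h5 l (Nat.lt_succ_of_le hl)

theorem ord_lam {K : Type*} [Field K] (h2 : (2 : K) ≠ 0)
    (P : Polynomial K) (hP : P ≠ 0) (N : ℕ) (hN : P.natDegree ≤ N) :
    ∃ l ≤ N, PowerSeries.coeff l (Polynomial.aeval (1 - xx K ^ 2) P) ≠ 0 := by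
  refine ord_gen (1 - xx K ^ 2) ?_ P hP N hN
  have h1 : PowerSeries.coeff 1 (1 - xx K ^ 2) = (2 : K) ^ 4 := by
    rw [map_sub, sq, PowerSeries.coeff_one_mul, coeff_one_xx, constCoeff_xx,
      PowerSeries.coeff_one, if_neg one_ne_zero]
    norm_num
  rw [h1]
  exact pow_ne_zero 4 h2

end Pool.Agent.H85.OT
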