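import Pool.Agent.H85.OT.ADef

/-!
# Row ACHEB (project OT): Chebyshev bounds in the form used

* `pi_up`: `π(x) log x ≤ C x` for `x ≥ 2` (for instance from `Chebyshev.pi_le_log4_mul_div` or
  `Chebyshev.eventually_primeCounting_le`; enlarge `C` for small `x`).
* `pi_ratio`: `π(K X) ≤ C π(X)` for large `X`: `π(KX) ≤ C K X / log (K X) ≤ C K X / log X` and
  `π(X) ≥ (X log 2 - log (X+1))/log X ≥ (1/2) X / log X` for large `X` (`Chebyshev.pi_ge`).
-/

namespace Pool.Agent.H85.OT

theorem pi_up : ∃ C : ℝ, 0 < C ∧ ∀ x : ℕ, 2 ≤ x →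
    (Nat.primeCounting x : ℝ) * Real.log x ≤ C * x := by
  refine ⟨2 * Real.log 4 + 2, by positivity, fun x hx => ?_⟩
  have hx2 : (2 : ℝ) ≤ x := by exact_mod_cast hx
  have hx0 : (0 : ℝ) < x := by linarith
  have h1 := Chebyshev.pi_le_log4_mul_div (x := (x : ℝ)) (by linarith)
  rw [Nat.floor_natCast] at h1
  have hs : Real.log (√(x : ℝ)) = Real.log x / 2 := Real.log_sqrt hx0.le
  have hl : 0 < Real.log (x : ℝ) := Real.log_pos (by linarith)
  have hs1 : Real.log x / 2 ≤ √(x : ℝ) := by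
    rw [← hs]
    exact (Real.log_le_sub_one_of_pos (Real.sqrt_pos.2 hx0)).trans (by linarith)
  have hsq : √(x : ℝ) * √(x : ℝ) = x := Real.mul_self_sqrt hx0.le
  calc (Nat.primeCounting x : ℝ) * Real.log x ≤
        (Real.log 4 * x / Real.log (√(x : ℝ)) + √(x : ℝ)) * Real.log x :=
        mul_le_mul_of_nonneg_right h1 hl.le
    _ = 2 * Real.log 4 * x + 2 * (√(x : ℝ) * (Real.log x / 2)) := by
        rw [hs]
        field_simp
    _ ≤ 2 * Real.log 4 * x + 2 * (√(x : ℝ) * √(x : ℝ)) := by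
        gcongr
    _ = (2 * Real.log 4 + 2) * x := by
        rw [hsq]
        ring

theorem pi_ratio (K : ℕ) (hK : 1 ≤ K) : ∃ C : ℝ, 0 < C ∧ ∃ X1 : ℕ, ∀ X ≥ X1,
    (Nat.primeCounting (K * X) : ℝ) ≤ C * Nat.primeCounting X := by
  obtain ⟨C, hC, hup⟩ := pi_up
  have hl2 : (0 : ℝ) < Real.log 2 := Real.log_pos one_lt_two
  have hKr : (1 : ℝ) ≤ K := by exact_mod_cast hK
  refine ⟨2 * C * K / Real.log 2, by positivity, 100, fun X hX => ?_⟩
  have hXr : (100 : ℝ) ≤ X := by exact_mod_cast hX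
  have hX0 : (0 : ℝ) < X := by linarith
  have hL : 0 < Real.log (X : ℝ) := Real.log_pos (by linarith)
  -- the lower bound
  have h1 := Chebyshev.pi_ge X
  rw [div_le_iff₀ hL] at h1
  have h2 : Real.log ((X : ℝ) + 1) ≤ X * Real.log 2 / 2 := by
    have h3 : Real.log ((X : ℝ) + 1) / 2 ≤ √((X : ℝ) + 1) := by
      rw [← Real.log_sqrt (by linarith)]
      exact (Real.log_le_sub_one_of_pos (Real.sqrt_pos.2 (by linarith))).trans (by linarith)
    have h4 : √((X : ℝ) + 1) ≤ X / 8 := by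
      rw [Real.sqrt_le_left (by linarith)]
      nlinarith
    have h5 := Real.log_two_gt_d9
    nlinarith
  have h3 : (X : ℝ) ≤ 2 / Real.log 2 * (Nat.primeCounting X * Real.log X) := by
    rw [div_mul_eq_mul_div, le_div_iff₀ hl2]
    linarith
  -- the upper bound
  have h4 := hup (K * X) (by nlinarith)
  have h5 : Real.log (X : ℝ) ≤ Real.log ((K * X : ℕ) : ℝ) := by
    apply Real.log_le_log hX0
    push_cast
    nlinarith
  have h6 : (Nat.primeCounting (K * X) : ℝ) * Real.log X ≤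
      2 * C * K / Real.log 2 * Nat.primeCounting X * Real.log X := by
    calc (Nat.primeCounting (K * X) : ℝ) * Real.log X ≤
          (Nat.primeCounting (K * X) : ℝ) * Real.log ((K * X : ℕ) : ℝ) :=
          mul_le_mul_of_nonneg_left h5 (Nat.cast_nonneg _)
      _ ≤ C * ((K * X : ℕ) : ℝ) := h4
      _ = C * K * X := by
          push_cast
          ring
      _ ≤ C * K * (2 / Real.log 2 * (Nat.primeCounting X * Real.log X)) := by
          gcongr
      _ = 2 * C * K / Real.log 2 * Nat.primeCounting X * Real.log X := by ring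
  exact le_of_mul_le_mul_right h6 hL

end Pool.Agent.H85.OT
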