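import Mathlib

/-!
# Row APAR (project OT): choice of the parameter `E`

`log (2(1 + 32 κ E / c)) = O(log E)`, while the right side is linear in `E`.
-/

namespace Pool.Agent.H85.OT

theorem Apar_log {x e : ℝ} (hx : 0 < x) (he : 0 < e) : Real.log x ≤ e * x - 1 - Real.log e := by
  have h1 := Real.log_le_sub_one_of_pos (mul_pos he hx)
  rw [Real.log_mul he.ne' hx.ne'] at h1
  linarith

theorem param (κ c : ℝ) (hκ : 0 < κ) (hc : 0 < c) :
    ∃ E : ℕ, 3 ≤ E ∧ 4 * Real.log (2 * (1 + 32 * κ * E / c)) ≤ c * E / (32 * κ) := by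
  set e : ℝ := c ^ 2 / (16384 * κ ^ 2) with he
  have he0 : 0 < e := by positivity
  obtain ⟨n, hn⟩ := exists_nat_ge ((8 * e - 4 - 4 * Real.log e) * (64 * κ / c))
  refine ⟨max 3 n, le_max_left _ _, ?_⟩
  have hE : (8 * e - 4 - 4 * Real.log e) * (64 * κ / c) ≤ ((max 3 n : ℕ) : ℝ) :=
    hn.trans (by exact_mod_cast le_max_right 3 n)
  have hE0 : (0 : ℝ) ≤ ((max 3 n : ℕ) : ℝ) := by positivity
  generalize ((max 3 n : ℕ) : ℝ) = E at hE hE0
  have h1 := Apar_log (x := 2 * (1 + 32 * κ * E / c)) (by positivity) he0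
  have h2 : e * (2 * (1 + 32 * κ * E / c)) = 2 * e + c * E / (256 * κ) := by
    rw [he]
    field_simp
    ring
  have h3 : 8 * e - 4 - 4 * Real.log e ≤ c * E / (64 * κ) := by
    have h4 : (8 * e - 4 - 4 * Real.log e) * (64 * κ / c) * (c / (64 * κ)) ≤ E * (c / (64 * κ)) :=
      mul_le_mul_of_nonneg_right hE (by positivity)
    have h5 : (8 * e - 4 - 4 * Real.log e) * (64 * κ / c) * (c / (64 * κ)) = 8 * e - 4 - 4 * Real.log e := by
      field_simp
    have h6 : E * (c / (64 * κ)) = c * E / (64 * κ) := by ring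
    rw [h5, h6] at h4
    exact h4
  have h7 : c * E / (32 * κ) = 4 * (c * E / (256 * κ)) + c * E / (64 * κ) := by
    field_simp
    ring
  rw [h2] at h1
  rw [h7]
  linarith

/-- for fixed constants, `a + 2 log (b (n+1)) ≤ c n` for large `n` -/
theorem rest_le (a b c : ℝ) (hb : 0 < b) (hc : 0 < c) :
    ∃ n1 : ℕ, ∀ n ≥ n1, a + 2 * Real.log (b * ((n : ℝ) + 1)) ≤ c * n := by
  set e : ℝ := c / (4 * b) with he
  have he0 : 0 < e := by positivity
  obtain ⟨n1, hn1⟩ := exists_nat_ge ((a + c / 2 - 2 - 2 * Real.log e) * (2 / c))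
  refine ⟨n1, fun n hn => ?_⟩
  have hn2 : (a + c / 2 - 2 - 2 * Real.log e) * (2 / c) ≤ (n : ℝ) := hn1.trans (by exact_mod_cast hn)
  have hn0 : (0 : ℝ) ≤ (n : ℝ) := Nat.cast_nonneg n
  have h1 := Apar_log (x := b * ((n : ℝ) + 1)) (by positivity) he0
  have h2 : e * (b * ((n : ℝ) + 1)) = c / 4 * ((n : ℝ) + 1) := by
    rw [he]
    field_simp
  have h3 : a + c / 2 - 2 - 2 * Real.log e ≤ c / 2 * n := by
    have h4 := mul_le_mul_of_nonneg_right hn2 (show (0 : ℝ) ≤ c / 2 by positivity)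
    have h5 : (a + c / 2 - 2 - 2 * Real.log e) * (2 / c) * (c / 2) = a + c / 2 - 2 - 2 * Real.log e := by
      field_simp
    rw [h5] at h4
    linarith
  rw [h2] at h1
  linarith

end Pool.Agent.H85.OT
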