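import Pool.Agent.H85.OT.Cred

/-!
# Row CDVD (project OT): the leading coefficient of `Phi` is divisible by `p`

`p ∈ Sl2`, `p > 2w+2`, good; `κ = 2w-2`; `n + 2κpE < T'`; the coefficients `l < T'` of `Phi` vanish; `Z` an
integer, `Z * coeff T' Phi = m ∈ ℤ`.  Claim `p ∣ m`.

Take `G, R1, R2` from `exists_F1p_x`.  In `ℤ_[p]⟦X⟧` put
`Ψ = ∑_s C (t_s) * Up^(n+κ(2E-i-j)-e) * Vp^e * G^i * (dbl G)^j` with `Up, Vp` the images of `th3^2, th4^2`.
Its image in `ℚ_[p]⟦X⟧` is the image of `Phi` (`map` commutes with `dbl`: compare coefficients), and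
`ℤ_[p] → ℚ_[p]` is injective, so its coefficients `l < T'` vanish and `Z * coeff T' Ψ = m` in `ℤ_[p]`.
Its reduction mod `p` is, by `exists_F1p_x` and `V = x U` (`xx_mul_U`),
`Ψ_p = ∑ t_s U^(n+κ(2E-i-j)-e) (xU)^e (U^(κp) R1(x))^i (U^(κp) R2(x))^j`
`    = ∑ t_s U^(n + κ(2E-i-j) + κp(i+j)) x^e R1(x)^i R2(x)^j`.
Multiply the term by `1 = (U^(2m) h(λ))^(κ(2E-i-j))` (`hasse`, `2m = p-1`, `m = mm p`): the exponent of `U` becomes
`n + κ(2E-i-j) + κp(i+j) + (p-1)κ(2E-i-j) = n + 2κEp =: W`, and `h(λ) = H(x)`, `H = (hh p)(1-X²)`, degree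
`≤ p - 1`.  So `Ψ_p = U^W Q(x)`, `Q = ∑ t_s X^e R1^i R2^j H^(κ(2E-i-j))`, degree
`≤ n + κp(i+j) + (p-1)κ(2E-i-j) ≤ n + 2κEp = W`.
Coefficients `≤ W < T'` of `Ψ_p` vanish, so `Q = 0` by `ord_xx'`; hence `Ψ_p = 0`, in particular coefficient
`T'` of `Ψ` reduces to `0`, and so does `m = Z * coeff T' Ψ`, i.e. `(m : ZMod p) = 0`
(`map_intCast`; `ZMod.intCast_zmod_eq_zero_iff_dvd` or `ZMod.intCast_eq_zero_iff`), `p ∣ m`.
-/

open PowerSeries

namespace Pool.Agent.H85.OT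

theorem Cdvd_map_U {R S : Type*} [CommRing R] [CommRing S] (φ : R →+* S) :
    PowerSeries.map φ (U R) = U S := by
  ext n
  rw [PowerSeries.coeff_map, U, U, PowerSeries.coeff_map, PowerSeries.coeff_map, eq_intCast,
    eq_intCast, map_intCast]

theorem Cdvd_map_V {R S : Type*} [CommRing R] [CommRing S] (φ : R →+* S) :
    PowerSeries.map φ (V R) = V S := by
  ext n
  rw [PowerSeries.coeff_map, V, V, PowerSeries.coeff_map, PowerSeries.coeff_map, eq_intCast,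
    eq_intCast, map_intCast]

theorem Cdvd_map_dbl {R S : Type*} [CommRing R] [CommRing S] (φ : R →+* S) (G : R⟦X⟧) :
    PowerSeries.map φ (dbl R G) = dbl S (PowerSeries.map φ G) :=
  PowerSeries.map_expand 2 two_ne_zero φ G

/-- the combination of `Phi` over a general ring -/
noncomputable def Cdvd_Psi (R : Type*) [CommRing R] (G : R⟦X⟧) (κ E n : ℕ)
    (t : Fin E × Fin E × Fin (n + 1) → ℤ) : R⟦X⟧ :=
  ∑ s, PowerSeries.C ((t s : ℤ) : R) *
    (U R ^ (n + κ * (2 * E - s.1 - s.2.1) - s.2.2) * V R ^ (s.2.2 : ℕ) *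
      G ^ (s.1 : ℕ) * dbl R G ^ (s.2.1 : ℕ))

theorem Cdvd_Psi_map {R S : Type*} [CommRing R] [CommRing S] (φ : R →+* S) (G : R⟦X⟧)
    (κ E n : ℕ) (t : Fin E × Fin E × Fin (n + 1) → ℤ) :
    PowerSeries.map φ (Cdvd_Psi R G κ E n t) =
      Cdvd_Psi S (PowerSeries.map φ G) κ E n t := by
  unfold Cdvd_Psi
  rw [map_sum]
  refine Finset.sum_congr rfl fun s _ => ?_
  simp only [map_mul, map_pow, Cdvd_map_U, Cdvd_map_V, Cdvd_map_dbl,
    map_intCast]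

theorem Cdvd_Q {p : ℕ} [hp : Fact p.Prime] (h2 : p ≠ 2) (κ E n : ℕ)
    (t : Fin E × Fin E × Fin (n + 1) → ℤ) (G1 : (ZMod p)⟦X⟧) (R1 R2 : Polynomial (ZMod p))
    (hR1 : R1.natDegree ≤ κ * p) (hR2 : R2.natDegree ≤ κ * p)
    (hG1 : G1 = U (ZMod p) ^ (κ * p) * Polynomial.aeval (xx (ZMod p)) R1)
    (hG2 : dbl (ZMod p) G1 = U (ZMod p) ^ (κ * p) * Polynomial.aeval (xx (ZMod p)) R2) :
    ∃ Q : Polynomial (ZMod p), Q.natDegree ≤ n + 2 * κ * p * E ∧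
      Cdvd_Psi (ZMod p) G1 κ E n t =
        U (ZMod p) ^ (n + 2 * κ * p * E) * Polynomial.aeval (xx (ZMod p)) Q := by
  obtain ⟨H, hH⟩ : ∃ H : Polynomial (ZMod p), H = (hh p).comp (1 - Polynomial.X ^ 2) := ⟨_, rfl⟩
  have hm := two_mm hp.out h2
  have hHx : Polynomial.aeval (xx (ZMod p)) H = Polynomial.aeval (lam (ZMod p)) (hh p) := by
    rw [hH, Polynomial.aeval_comp, map_sub, map_one, map_pow, Polynomial.aeval_X]
    rfl
  have hHd : H.natDegree ≤ 2 * mm p := by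
    rw [hH]
    refine Polynomial.natDegree_comp_le.trans ?_
    have h1 : (1 - Polynomial.X ^ 2 : Polynomial (ZMod p)).natDegree ≤ 2 := by compute_degree
    calc (hh p).natDegree * (1 - Polynomial.X ^ 2 : Polynomial (ZMod p)).natDegree ≤ mm p * 2 :=
          Nat.mul_le_mul (hh_natDegree h2).le h1
      _ = 2 * mm p := mul_comm _ _
  have hU : U (ZMod p) ^ (2 * mm p) * Polynomial.aeval (xx (ZMod p)) H = 1 := by
    rw [hHx]
    exact hasse h2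
  -- exponents
  have key : ∀ s : Fin E × Fin E × Fin (n + 1), n + 2 * κ * p * E =
      (n + κ * (2 * E - s.1 - s.2.1)) + κ * p * s.1 + κ * p * s.2.1 +
        2 * mm p * (κ * (2 * E - s.1 - s.2.1)) := by
    intro s
    have hi := s.1.2
    have hj := s.2.1.2
    obtain ⟨d, hd⟩ : ∃ d, 2 * E = s.1 + s.2.1 + d := ⟨2 * E - s.1 - s.2.1, by omega⟩
    have hd' : 2 * E - s.1 - s.2.1 = d := by omega
    rw [hd']
    have e1 : 2 * κ * p * E = κ * p * (2 * E) := by ring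
    rw [e1, hd]
    calc n + κ * p * (s.1 + s.2.1 + d) = n + κ * p * s.1 + κ * p * s.2.1 + κ * d * p := by ring
      _ = n + κ * p * s.1 + κ * p * s.2.1 + κ * d * (2 * mm p + 1) := by rw [hm]
      _ = _ := by ring
  refine ⟨∑ s, Polynomial.C ((t s : ℤ) : ZMod p) * (Polynomial.X ^ (s.2.2 : ℕ) *
    R1 ^ (s.1 : ℕ) * R2 ^ (s.2.1 : ℕ) * H ^ (κ * (2 * E - s.1 - s.2.1))), ?_, ?_⟩
  · refine Polynomial.natDegree_sum_le_of_forall_le _ _ fun s _ => ?_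
    refine (Polynomial.natDegree_C_mul_le _ _).trans ?_
    have h1 : (Polynomial.X ^ (s.2.2 : ℕ) : Polynomial (ZMod p)).natDegree ≤ n := by
      rw [Polynomial.natDegree_X_pow]
      exact Nat.lt_succ_iff.1 s.2.2.2
    have h3 : (R1 ^ (s.1 : ℕ)).natDegree ≤ s.1 * (κ * p) :=
      Polynomial.natDegree_pow_le_of_le _ hR1
    have h4 : (R2 ^ (s.2.1 : ℕ)).natDegree ≤ s.2.1 * (κ * p) :=
      Polynomial.natDegree_pow_le_of_le _ hR2
    have h5 : (H ^ (κ * (2 * E - s.1 - s.2.1))).natDegree ≤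
        (κ * (2 * E - s.1 - s.2.1)) * (2 * mm p) :=
      Polynomial.natDegree_pow_le_of_le _ hHd
    have h6 := (Polynomial.natDegree_mul_le_of_le (Polynomial.natDegree_mul_le_of_le
      (Polynomial.natDegree_mul_le_of_le h1 h3) h4) h5)
    refine h6.trans ?_
    rw [key s]
    have e2 : (s.1 : ℕ) * (κ * p) = κ * p * s.1 := by ring
    have e3 : (s.2.1 : ℕ) * (κ * p) = κ * p * s.2.1 := by ring
    have e4 : (κ * (2 * E - s.1 - s.2.1)) * (2 * mm p) =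
      2 * mm p * (κ * (2 * E - s.1 - s.2.1)) := by ring
    rw [e2, e3, e4]
    omega
  · unfold Cdvd_Psi
    rw [hG2, hG1, map_sum, Finset.mul_sum]
    refine Finset.sum_congr rfl fun s _ => ?_
    rw [key s]
    have hi := s.1.2
    have hj := s.2.1.2
    have he : (s.2.2 : ℕ) ≤ n := Nat.lt_succ_iff.1 s.2.2.2
    obtain ⟨M, hM⟩ : ∃ M, M = κ * (2 * E - s.1 - s.2.1) := ⟨_, rfl⟩
    rw [← hM]
    obtain ⟨a, ha⟩ : ∃ a, n + M = a + s.2.2 := ⟨n + M - s.2.2, by omega⟩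
    have ha' : n + M - s.2.2 = a := by omega
    rw [ha', ha]
    simp only [map_mul, map_pow, Polynomial.aeval_X, Polynomial.aeval_C]
    rw [← xx_mul_U (ZMod p)]
    have hUM : U (ZMod p) ^ (2 * mm p * M) * Polynomial.aeval (xx (ZMod p)) H ^ M = 1 := by
      rw [pow_mul, ← mul_pow, hU, one_pow]
    have hC : algebraMap (ZMod p) (ZMod p)⟦X⟧ ((t s : ℤ) : ZMod p) =
      PowerSeries.C ((t s : ℤ) : ZMod p) := rfl
    rw [hC, pow_add, pow_add, pow_add, pow_mul (U (ZMod p)) (κ * p) (s.1 : ℕ),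
      pow_mul (U (ZMod p)) (κ * p) (s.2.1 : ℕ)]
    simp only [mul_pow]
    linear_combination (-(PowerSeries.C ((t s : ℤ) : ZMod p) * (U (ZMod p) ^ a *
      (xx (ZMod p) ^ (s.2.2 : ℕ) * U (ZMod p) ^ (s.2.2 : ℕ)) *
      ((U (ZMod p) ^ (κ * p)) ^ (s.1 : ℕ) * Polynomial.aeval (xx (ZMod p)) R1 ^ (s.1 : ℕ)) *
      ((U (ZMod p) ^ (κ * p)) ^ (s.2.1 : ℕ) *
        Polynomial.aeval (xx (ZMod p)) R2 ^ (s.2.1 : ℕ))))) * hUM

theorem p_dvd (f : ℤ⟦X⟧) (h0 : PowerSeries.coeff 0 f = 0) (w : ℕ) (hw : 2 ≤ w)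
    (p : ℕ) [hp : Fact p.Prime] (hpw : 2 * w + 2 < p) (hS : Sl2 f p)
    (hne : PowerSeries.map (Int.castRingHom (ZMod p)) f ≠ 0)
    (hMf : Mf p w (PowerSeries.map (Int.castRingHom (ZMod p)) f))
    (E n T' : ℕ) (t : Fin E × Fin E × Fin (n + 1) → ℤ)
    (hT : n + 2 * (2 * w - 2) * p * E < T')
    (hvan : ∀ l < T', PowerSeries.coeff l (Phi f (2 * w - 2) E n t) = 0)
    (Z m : ℤ) (hm : (Z : ℚ) * PowerSeries.coeff T' (Phi f (2 * w - 2) E n t) = m) :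
    (p : ℤ) ∣ m := by
  have h2 : p ≠ 2 := by omega
  obtain ⟨G, R1, R2, hG, hR1, hR2, hG1, hG2⟩ := exists_F1p_x f h0 w hw p hpw hS hne hMf
  obtain ⟨κ, hκ⟩ : ∃ κ, κ = 2 * w - 2 := ⟨_, rfl⟩
  rw [← hκ] at hT hvan hm hR1 hR2 hG1 hG2
  have e1 : PowerSeries.map (PadicInt.Coe.ringHom (p := p)) (Cdvd_Psi ℤ_[p] G κ E n t) =
      PowerSeries.map (Rat.castHom ℚ_[p]) (Phi f κ E n t) := by
    have e0 : Phi f κ E n t = Cdvd_Psi ℚ (F1 f) κ E n t := rfl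
    rw [Cdvd_Psi_map, hG, ← Cdvd_Psi_map, e0]
  have e2 : ∀ l, PadicInt.Coe.ringHom (p := p)
      (PowerSeries.coeff l (Cdvd_Psi ℤ_[p] G κ E n t)) =
      Rat.castHom ℚ_[p] (PowerSeries.coeff l (Phi f κ E n t)) := fun l => by
    rw [← PowerSeries.coeff_map, e1, PowerSeries.coeff_map]
  have hinj : Function.Injective (PadicInt.Coe.ringHom (p := p)) := Subtype.coe_injective
  have hvan' : ∀ l < T', PowerSeries.coeff l (Cdvd_Psi ℤ_[p] G κ E n t) = 0 := fun l hl => by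
    apply hinj
    rw [e2, hvan l hl, map_zero, map_zero]
  have hm' : (Z : ℤ_[p]) * PowerSeries.coeff T' (Cdvd_Psi ℤ_[p] G κ E n t) = (m : ℤ_[p]) := by
    apply hinj
    rw [map_mul, e2, map_intCast, map_intCast]
    have h3 := congrArg (Rat.castHom ℚ_[p]) hm
    rw [map_mul, map_intCast, map_intCast] at h3
    exact h3
  have e3 : PowerSeries.map (PadicInt.toZMod (p := p)) (Cdvd_Psi ℤ_[p] G κ E n t) =
      Cdvd_Psi (ZMod p) (PowerSeries.map (PadicInt.toZMod (p := p)) G) κ E n t :=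
    Cdvd_Psi_map _ _ _ _ _ _
  obtain ⟨Q, hQd, hQ⟩ := Cdvd_Q h2 κ E n t _ R1 R2 hR1 hR2 hG1 hG2
  rw [← e3] at hQ
  have hQ0 : Q = 0 := by
    refine ord_xx' (two_ne h2) (n + 2 * κ * p * E) Q _ hQd fun l hl => ?_
    rw [← hQ, PowerSeries.coeff_map, hvan' l (by omega), map_zero]
  have e5 : PadicInt.toZMod (p := p) (PowerSeries.coeff T' (Cdvd_Psi ℤ_[p] G κ E n t)) = 0 := by
    rw [← PowerSeries.coeff_map, hQ, hQ0, map_zero, mul_zero, map_zero]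
  have e6 : (m : ZMod p) = 0 := by
    have h3 := congrArg (PadicInt.toZMod (p := p)) hm'
    rw [map_mul, e5, mul_zero, map_intCast] at h3
    exact h3.symm
  exact (ZMod.intCast_zmod_eq_zero_iff_dvd m p).1 e6

end Pool.Agent.H85.OT
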