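import Pool.Agent.H85.OT.Cden
import Pool.Agent.H85.OT.Cbd
import Mathlib.NumberTheory.SiegelsLemma

/-!
# Row CSIEG (project OT): Siegel's lemma

`N = E²(n+1)` unknowns `t_s`, `T = E²(n+1)/2` (natural division) equations `coeff l Phi = 0`, `l < T`,
with `T ≤ Y`.  The matrix `A_(l,s) = Z0^(2E) * coeff l GG_s` is integral (`den_GG`), with
`|A| ≤ Q := Z0^(2E) MR^(n+2κE) B^(2E) ρ^(-T)` (`GG_bd`, `ρ^(-l) ≤ ρ^(-T)`), and `Q ≥ 1`.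
`Int.Matrix.exists_ne_zero_int_vec_norm_le` (`T ≥ 1` as `E ≥ 2`, `T < N`) gives `t ≠ 0`, `A t = 0`,
`‖t‖ ≤ (N max(1,‖A‖))^(T/(N-T)) ≤ N Q` as `T/(N-T) ≤ 1` and the base is `≥ 1`.
`A t = 0` means `Z0^(2E) coeff l Phi = 0`, `Z0 ≠ 0`.
-/

open PowerSeries

namespace Pool.Agent.H85.OT

attribute [local instance] Matrix.seminormedAddCommGroup

theorem Csieg_abs (f : ℤ⟦X⟧) (κ E n Y : ℕ) {ρ B : ℝ}
    (hρ : 0 < ρ) (hρ1 : ρ < 1) (hB : 1 ≤ B) (h1 : Bd ρ B (F1 f)) (h2 : Bd ρ B (F2 f))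
    {T l : ℕ} (hl : l ≤ T) (s : Fin E × Fin E × Fin (n + 1)) (m : ℤ)
    (hm : (Z0 f Y : ℚ) ^ (2 * E) * PowerSeries.coeff l (GG f κ E n s) = m) :
    |(m : ℝ)| ≤ (Z0 f Y : ℝ) ^ (2 * E) * MR ρ ^ (n + 2 * κ * E) * B ^ (2 * E) * (ρ⁻¹) ^ T := by
  have h3 : (m : ℝ) = (Z0 f Y : ℝ) ^ (2 * E) * ((PowerSeries.coeff l (GG f κ E n s) : ℚ) : ℝ) := by
    have := congrArg (fun q : ℚ => (q : ℝ)) hm
    simp only [Rat.cast_mul, Rat.cast_pow, Rat.cast_natCast, Rat.cast_intCast] at this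
    exact this.symm
  have h4 := GG_bd f κ E n s hρ hρ1 hB h1 h2 l
  have hMR : 0 ≤ MR ρ := by
    unfold MR
    positivity
  have h5 : (1 : ℝ) ≤ ρ⁻¹ := (one_le_inv₀ hρ).2 hρ1.le
  have h6 : (ρ⁻¹) ^ l ≤ (ρ⁻¹) ^ T := pow_le_pow_right₀ h5 hl
  rw [h3, abs_mul, abs_pow, Nat.abs_cast]
  calc (Z0 f Y : ℝ) ^ (2 * E) * |((PowerSeries.coeff l (GG f κ E n s) : ℚ) : ℝ)|
      ≤ (Z0 f Y : ℝ) ^ (2 * E) * (MR ρ ^ (n + 2 * κ * E) * B ^ (2 * E) * (ρ⁻¹) ^ l) :=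
        mul_le_mul_of_nonneg_left h4 (by positivity)
    _ ≤ (Z0 f Y : ℝ) ^ (2 * E) * (MR ρ ^ (n + 2 * κ * E) * B ^ (2 * E) * (ρ⁻¹) ^ T) := by
        refine mul_le_mul_of_nonneg_left (mul_le_mul_of_nonneg_left h6 ?_) (by positivity)
        positivity
    _ = _ := by ring

theorem Csieg_one_le (f : ℤ⟦X⟧) (κ E n Y T : ℕ) {ρ B : ℝ}
    (hρ : 0 < ρ) (hρ1 : ρ < 1) (hB : 1 ≤ B) :
    1 ≤ (Z0 f Y : ℝ) ^ (2 * E) * MR ρ ^ (n + 2 * κ * E) * B ^ (2 * E) * (ρ⁻¹) ^ T := by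
  have hMR : 1 ≤ MR ρ := by
    unfold MR
    rw [le_div_iff₀ (by nlinarith)]
    nlinarith
  have h5 : (1 : ℝ) ≤ ρ⁻¹ := (one_le_inv₀ hρ).2 hρ1.le
  have hZ : (1 : ℝ) ≤ (Z0 f Y : ℝ) := by
    exact_mod_cast Z0_pos f Y
  exact one_le_mul_of_one_le_of_one_le (one_le_mul_of_one_le_of_one_le
    (one_le_mul_of_one_le_of_one_le (one_le_pow₀ hZ) (one_le_pow₀ hMR)) (one_le_pow₀ hB))
    (one_le_pow₀ h5)

theorem siegel_phi (f : ℤ⟦X⟧) (κ E n Y : ℕ) (hE : 2 ≤ E) {ρ B : ℝ}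
    (hρ : 0 < ρ) (hρ1 : ρ < 1) (hB : 1 ≤ B) (h1 : Bd ρ B (F1 f)) (h2 : Bd ρ B (F2 f))
    (hY : E ^ 2 * (n + 1) / 2 ≤ Y) :
    ∃ t : Fin E × Fin E × Fin (n + 1) → ℤ, t ≠ 0 ∧
      (∀ l < E ^ 2 * (n + 1) / 2, PowerSeries.coeff l (Phi f κ E n t) = 0) ∧
      ∀ s, |((t s : ℤ) : ℝ)| ≤ (E ^ 2 * (n + 1) : ℝ) *
        ((Z0 f Y : ℝ) ^ (2 * E) * MR ρ ^ (n + 2 * κ * E) * B ^ (2 * E) *
          (ρ⁻¹) ^ (E ^ 2 * (n + 1) / 2)) := by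
  classical
  set T : ℕ := E ^ 2 * (n + 1) / 2 with hT
  set Q : ℝ := (Z0 f Y : ℝ) ^ (2 * E) * MR ρ ^ (n + 2 * κ * E) * B ^ (2 * E) * (ρ⁻¹) ^ T with hQ
  have hQ1 : 1 ≤ Q := Csieg_one_le f κ E n Y T hρ hρ1 hB
  have hN4 : 4 ≤ E ^ 2 * (n + 1) := by nlinarith
  have hex : ∀ (l : Fin T) (s : Fin E × Fin E × Fin (n + 1)),
      ∃ m : ℤ, (Z0 f Y : ℚ) ^ (2 * E) * PowerSeries.coeff (l : ℕ) (GG f κ E n s) = m :=
    fun l s => den_GG f κ E n s Y l (l.2.le.trans hY)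
  choose A hA using hex
  have hcard : Fintype.card (Fin E × Fin E × Fin (n + 1)) = E ^ 2 * (n + 1) := by
    rw [Fintype.card_prod, Fintype.card_prod, Fintype.card_fin, Fintype.card_fin]
    ring
  have hcT : Fintype.card (Fin T) = T := Fintype.card_fin T
  obtain ⟨t, ht0, hAt, htn⟩ := Int.Matrix.exists_ne_zero_int_vec_norm_le (Matrix.of A)
    (by rw [hcard, hcT]; omega) (by rw [hcT]; omega)
  have hAn : ‖Matrix.of A‖ ≤ Q := by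
    rw [Matrix.norm_le_iff (by linarith)]
    intro l s
    rw [Int.norm_eq_abs]
    exact Csieg_abs f κ E n Y hρ hρ1 hB h1 h2 l.2.le s (A l s) (hA l s)
  refine ⟨t, ht0, ?_, ?_⟩
  · intro l hl
    have h3 := congrFun hAt ⟨l, hl⟩
    have h4 : (Z0 f Y : ℚ) ^ (2 * E) * PowerSeries.coeff l (Phi f κ E n t) = 0 := by
      rw [Phi, map_sum, Finset.mul_sum]
      have h5 : ((∑ s, A ⟨l, hl⟩ s * t s : ℤ) : ℚ) = 0 := by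
        have h6 : ∑ s, A ⟨l, hl⟩ s * t s = 0 := h3
        rw [h6, Int.cast_zero]
      rw [← h5, Int.cast_sum]
      refine Finset.sum_congr rfl fun s _ => ?_
      rw [PowerSeries.coeff_C_mul, Int.cast_mul, ← hA ⟨l, hl⟩ s]
      ring
    have h7 : (Z0 f Y : ℚ) ^ (2 * E) ≠ 0 := by
      have := Z0_pos f Y
      positivity
    exact (mul_eq_zero.1 h4).resolve_left h7
  · intro s
    have h3 : ‖t s‖ ≤ ‖t‖ := norm_le_pi_norm t s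
    rw [Int.norm_eq_abs] at h3
    refine h3.trans (htn.trans ?_)
    rw [hcard, hcT]
    have hN1 : (1 : ℝ) ≤ ((E ^ 2 * (n + 1) : ℕ) : ℝ) := by
      exact_mod_cast (by omega : 1 ≤ E ^ 2 * (n + 1))
    have hb1 : (1 : ℝ) ≤ ((E ^ 2 * (n + 1) : ℕ) : ℝ) * max 1 ‖Matrix.of A‖ :=
      one_le_mul_of_one_le_of_one_le hN1 (le_max_left _ _)
    have hTN : ((T : ℕ) : ℝ) * 2 ≤ ((E ^ 2 * (n + 1) : ℕ) : ℝ) := by
      exact_mod_cast (by omega : T * 2 ≤ E ^ 2 * (n + 1))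
    have hT0 : (0 : ℝ) < (T : ℝ) := by
      exact_mod_cast (by omega : 0 < T)
    have he : (T : ℝ) / (((E ^ 2 * (n + 1) : ℕ) : ℝ) - (T : ℝ)) ≤ 1 := by
      rw [div_le_one (by linarith)]
      linarith
    refine (Real.rpow_le_rpow_of_exponent_le hb1 he).trans ?_
    rw [Real.rpow_one]
    have hm : max 1 ‖Matrix.of A‖ ≤ Q := max_le hQ1 hAn
    have h8 : ((E ^ 2 * (n + 1) : ℕ) : ℝ) = (E ^ 2 * (n + 1) : ℝ) := by push_cast; ring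
    rw [← h8]
    exact mul_le_mul_of_nonneg_left hm (by linarith)

end Pool.Agent.H85.OT
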