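import Pool.Agent.H85.OT.Cze
import Pool.Agent.H85.OT.Csieg
import Pool.Agent.H85.OT.Cdvd

/-!
# Row CCORE (project OT): the core inequality

`κ = 2w-2`.  `C0` from `ze_phi` (for `E`), `C = max C0 (E²)`; `p0 = max (p0 of form_lam) (2w+2)`.
Given `ρ, B, n`: `Y = C(n+1)`, `T = E²(n+1)/2 ≤ Y`.  `siegel_phi` gives `t ≠ 0`.
Let `T'` be the least index with `coeff T' Phi ≠ 0` (`ze_phi`, `Nat.find`): `T ≤ T' ≤ C0 (n+1) ≤ Y`.
`m := Z0^(2E) coeff T' Phi` is an integer (`den_GG`, sum over `s`) and nonzero.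
Each `p ∈ SS f κ E n p0 T'` divides `m` (`p_dvd` with `Z = Z0^(2E)`), so the product of these primes
divides `m` (`Finset.prod_primes_dvd`), is `≤ |m|`, and `∑ log p ≤ log |m|`.
`|m| ≤ Z0^(2E) ∑_s |t_s| |coeff T' GG_s| ≤ Z0^(2E) N (N Z0^(2E) MR^W B^(2E) ρ^(-T)) (MR^W B^(2E) ρ^(-T'))`
with `N = E²(n+1)`, `W = n + 2κE` (`GG_bd`), and `ρ^(-T) ≤ ρ^(-T')`.  Taking logs:
`log|m| ≤ 4E log Z0 + 2 log N + 2 W log MR + 4 E log B + 2 T' log(ρ⁻¹)`.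
-/

open PowerSeries

namespace Pool.Agent.H85.OT

private theorem Ccore_log {N z M b r : ℝ} (hN : 0 < N) (hz : 0 < z) (hM : 0 < M) (hb : 0 < b)
    (hr : 0 < r) {e W T : ℕ} :
    Real.log (N * ((N * (z ^ e * M ^ W * b ^ e * r ^ T)) * (z ^ e * (M ^ W * b ^ e * r ^ T)))) =
      2 * e * Real.log z + 2 * T * Real.log r + 2 * W * Real.log M + 2 * e * Real.log b +
        2 * Real.log N := by
  have e1 : N * ((N * (z ^ e * M ^ W * b ^ e * r ^ T)) * (z ^ e * (M ^ W * b ^ e * r ^ T))) =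
      N ^ 2 * z ^ (2 * e) * M ^ (2 * W) * b ^ (2 * e) * r ^ (2 * T) := by ring
  rw [e1, Real.log_mul (by positivity) (by positivity), Real.log_mul (by positivity) (by positivity),
    Real.log_mul (by positivity) (by positivity), Real.log_mul (by positivity) (by positivity),
    Real.log_pow, Real.log_pow, Real.log_pow, Real.log_pow, Real.log_pow]
  push_cast
  ring

theorem core_ineq (f : ℤ⟦X⟧) (w : ℕ) (hw : 2 ≤ w) (hf : IsForm w f) (hne : f ≠ 0)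
    (h0 : PowerSeries.coeff 0 f = 0) (E : ℕ) (hE : 2 ≤ E) :
    ∃ C p0 : ℕ, 1 ≤ C ∧ ∀ (ρ B : ℝ), 0 < ρ → ρ < 1 → 1 ≤ B → Bd ρ B (F1 f) → Bd ρ B (F2 f) →
      ∀ n : ℕ, ∃ T' : ℕ, E ^ 2 * (n + 1) / 2 ≤ T' ∧ T' ≤ C * (n + 1) ∧
        ∑ p ∈ SS f (2 * w - 2) E n p0 T', Real.log p ≤
          4 * E * Real.log (Z0 f (C * (n + 1))) + 2 * T' * Real.log (ρ⁻¹) +
          2 * (n + 2 * ((2 * w - 2 : ℕ) : ℝ) * E) * Real.log (MR ρ) + 4 * E * Real.log B +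
          2 * Real.log (E ^ 2 * (n + 1)) := by
  classical
  obtain ⟨C0, hC0⟩ := ze_phi f w hw hf hne h0 E
  obtain ⟨p0, hp0, hform⟩ := form_lam hf hne
  refine ⟨max C0 (E ^ 2), max p0 (2 * w + 2), ?_, ?_⟩
  · exact (Nat.one_le_pow 2 E (by omega)).trans (le_max_right _ _)
  intro ρ B hρ hρ1 hB hb1 hb2 n
  obtain ⟨Y, hY⟩ : ∃ Y : ℕ, Y = max C0 (E ^ 2) * (n + 1) := ⟨_, rfl⟩
  obtain ⟨T, hT⟩ : ∃ T : ℕ, T = E ^ 2 * (n + 1) / 2 := ⟨_, rfl⟩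
  rw [← hY, ← hT]
  have hTY : T ≤ Y := by
    rw [hT, hY]
    exact (Nat.div_le_self _ _).trans (Nat.mul_le_mul_right _ (le_max_right _ _))
  obtain ⟨t, ht0, hvan, htb⟩ := siegel_phi f (2 * w - 2) E n Y hE hρ hρ1 hB hb1 hb2
    (by rw [← hT]; exact hTY)
  rw [← hT] at hvan htb
  obtain ⟨l0, hl0, hl0'⟩ := hC0 n t ht0
  have hex : ∃ l, PowerSeries.coeff l (Phi f (2 * w - 2) E n t) ≠ 0 := ⟨l0, hl0'⟩
  obtain ⟨T', hT1, hT2⟩ : ∃ T', PowerSeries.coeff T' (Phi f (2 * w - 2) E n t) ≠ 0 ∧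
      ∀ l < T', PowerSeries.coeff l (Phi f (2 * w - 2) E n t) = 0 :=
    ⟨Nat.find hex, Nat.find_spec hex, fun l hl => not_not.1 (Nat.find_min hex hl)⟩
  have hTT : T ≤ T' := by
    by_contra h
    exact hT1 (hvan T' (not_le.1 h))
  have hTl : T' ≤ l0 := by
    by_contra h
    exact hl0' (hT2 l0 (not_le.1 h))
  have hT'Y : T' ≤ Y := by
    rw [hY]
    exact hTl.trans (hl0.trans (Nat.mul_le_mul_right _ (le_max_left _ _)))
  refine ⟨T', hTT, hT'Y, ?_⟩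
  choose ms hms using fun s => den_GG f (2 * w - 2) E n s Y T' hT'Y
  obtain ⟨m, hmdef⟩ : ∃ m : ℤ, m = ∑ s, t s * ms s := ⟨_, rfl⟩
  have hZ := Z0_pos f Y
  have hm : ((((Z0 f Y : ℕ) : ℤ) ^ (2 * E) : ℤ) : ℚ) *
      PowerSeries.coeff T' (Phi f (2 * w - 2) E n t) = m := by
    rw [Phi, map_sum, Finset.mul_sum, hmdef]
    push_cast
    refine Finset.sum_congr rfl fun s _ => ?_
    rw [PowerSeries.coeff_C_mul, ← hms s]
    ring
  have hm0 : m ≠ 0 := by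
    intro h
    rw [h, Int.cast_zero] at hm
    rcases mul_eq_zero.1 hm with h1 | h1
    · have h2 : ((Z0 f Y : ℕ) : ℤ) ^ (2 * E) = 0 := by exact_mod_cast h1
      have h3 := (pow_eq_zero_iff (by omega : 2 * E ≠ 0)).1 h2
      omega
    · exact hT1 h1
  have hdvd : ∀ p ∈ SS f (2 * w - 2) E n (max p0 (2 * w + 2)) T', (p : ℤ) ∣ m := by
    intro p hp
    rw [SS, Finset.mem_filter] at hp
    obtain ⟨-, hpp, hpl, hps, hpT⟩ := hp
    have hfact : Fact p.Prime := ⟨hpp⟩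
    obtain ⟨q1, q2⟩ := hform p ((le_max_left _ _).trans_lt hpl)
    exact p_dvd f h0 w hw p ((le_max_right _ _).trans_lt hpl) hps q1 q2 E n T' t hpT hT2 _ m hm
  have hprod : (∏ p ∈ SS f (2 * w - 2) E n (max p0 (2 * w + 2)) T', p) ∣ m.natAbs := by
    refine Finset.prod_primes_dvd _ (fun p hp => ?_) (fun p hp => ?_)
    · rw [SS, Finset.mem_filter] at hp
      exact hp.2.1.prime
    · exact Int.natCast_dvd.1 (hdvd p hp)
  have hle := Nat.le_of_dvd (Int.natAbs_pos.2 hm0) hprod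
  have hprime : ∀ p ∈ SS f (2 * w - 2) E n (max p0 (2 * w + 2)) T', (p : ℝ) ≠ 0 := by
    intro p hp
    rw [SS, Finset.mem_filter] at hp
    exact_mod_cast hp.2.1.ne_zero
  have hlog1 : ∑ p ∈ SS f (2 * w - 2) E n (max p0 (2 * w + 2)) T', Real.log p ≤
      Real.log |(m : ℝ)| := by
    rw [← Real.log_prod hprime]
    apply Real.log_le_log
    · exact Finset.prod_pos fun p hp => lt_of_le_of_ne (Nat.cast_nonneg p) (hprime p hp).symm
    · have h1 : ((∏ p ∈ SS f (2 * w - 2) E n (max p0 (2 * w + 2)) T', p : ℕ) : ℝ) ≤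
          ((m.natAbs : ℕ) : ℝ) := by exact_mod_cast hle
      rw [Nat.cast_prod, Nat.cast_natAbs, Int.cast_abs] at h1
      exact h1
  refine hlog1.trans ?_
  have hMR : 0 < MR ρ := by
    unfold MR
    have : 0 < 1 - ρ := by linarith
    positivity
  have hB0 : 0 < B := by linarith
  have hZr : (0 : ℝ) < (Z0 f Y : ℝ) := by exact_mod_cast hZ
  have hN0 : (0 : ℝ) < (E : ℝ) ^ 2 * ((n : ℝ) + 1) := by
    have : (0 : ℝ) < E := by exact_mod_cast (by omega : 0 < E)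
    positivity
  have hri : 0 < ρ⁻¹ := inv_pos.2 hρ
  have hri1 : 1 ≤ ρ⁻¹ := (one_le_inv₀ hρ).2 hρ1.le
  have hpw : (ρ⁻¹) ^ T ≤ (ρ⁻¹) ^ T' := pow_le_pow_right₀ hri1 hTT
  obtain ⟨W, hW⟩ : ∃ W : ℕ, W = n + 2 * (2 * w - 2) * E := ⟨_, rfl⟩
  rw [← hW] at htb
  have hms' : ∀ s, |(ms s : ℝ)| ≤ (Z0 f Y : ℝ) ^ (2 * E) *
      (MR ρ ^ W * B ^ (2 * E) * (ρ⁻¹) ^ T') := by
    intro s
    have h1 : (ms s : ℝ) = (Z0 f Y : ℝ) ^ (2 * E) *
        ((PowerSeries.coeff T' (GG f (2 * w - 2) E n s) : ℚ) : ℝ) := by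
      have h2 := congrArg (fun q : ℚ => (q : ℝ)) (hms s)
      push_cast at h2
      exact h2.symm
    rw [h1, abs_mul, abs_of_pos (pow_pos hZr _)]
    refine mul_le_mul_of_nonneg_left ?_ (pow_pos hZr _).le
    have h3 := GG_bd f (2 * w - 2) E n s hρ hρ1 hB hb1 hb2 T'
    rw [← hW] at h3
    exact h3
  have hts : ∀ s, |((t s : ℤ) : ℝ)| ≤ (E ^ 2 * (n + 1) : ℝ) *
        ((Z0 f Y : ℝ) ^ (2 * E) * MR ρ ^ W * B ^ (2 * E) * (ρ⁻¹) ^ T') := by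
    intro s
    refine (htb s).trans ?_
    refine mul_le_mul_of_nonneg_left ?_ hN0.le
    exact mul_le_mul_of_nonneg_left hpw (by positivity)
  have hmb : |(m : ℝ)| ≤ (E ^ 2 * (n + 1) : ℝ) *
      (((E ^ 2 * (n + 1) : ℝ) *
        ((Z0 f Y : ℝ) ^ (2 * E) * MR ρ ^ W * B ^ (2 * E) * (ρ⁻¹) ^ T')) *
      ((Z0 f Y : ℝ) ^ (2 * E) * (MR ρ ^ W * B ^ (2 * E) * (ρ⁻¹) ^ T'))) := by
    have h1 : (m : ℝ) = ∑ s, (t s : ℝ) * (ms s : ℝ) := by
      rw [hmdef]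
      push_cast
      rfl
    rw [h1]
    refine (Finset.abs_sum_le_sum_abs _ _).trans ?_
    refine (Finset.sum_le_card_nsmul _ _ (((E ^ 2 * (n + 1) : ℝ) *
        ((Z0 f Y : ℝ) ^ (2 * E) * MR ρ ^ W * B ^ (2 * E) * (ρ⁻¹) ^ T')) *
      ((Z0 f Y : ℝ) ^ (2 * E) * (MR ρ ^ W * B ^ (2 * E) * (ρ⁻¹) ^ T'))) fun s _ => ?_).trans
        (le_of_eq ?_)
    · rw [abs_mul]
      exact mul_le_mul (hts s) (hms' s) (abs_nonneg _) (by positivity)
    · rw [nsmul_eq_mul]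
      congr 1
      simp only [Finset.card_univ, Fintype.card_prod, Fintype.card_fin]
      push_cast
      ring
  have hmr : 0 < |(m : ℝ)| := abs_pos.2 (by exact_mod_cast hm0)
  refine (Real.log_le_log hmr hmb).trans (le_of_eq ?_)
  rw [Ccore_log hN0 hZr hMR hB0 hri, hW]
  push_cast
  ring

end Pool.Agent.H85.OT
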