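import Pool.Agent.H85.OT.Alow
import Pool.Agent.H85.OT.Acheb
import Pool.Agent.H85.OT.Apar
import Pool.Agent.H85.OT.Ccore

/-!
# Row ADICH (project OT): from the core inequality to the dichotomy
-/

open PowerSeries

namespace Pool.Agent.H85.OT

theorem Adich_card (f : ℤ⟦X⟧) (Y : ℕ) :
    Nat.card {p : ℕ | p ≤ Y ∧ p.Prime ∧ Ord0 f p} = cnt (Ord0 f) Y := by
  classical
  have h : {p : ℕ | p ≤ Y ∧ p.Prime ∧ Ord0 f p} =
      (((Finset.range (Y + 1)).filter (fun p => p.Prime ∧ Ord0 f p) : Finset ℕ) : Set ℕ) := by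
    ext p
    simp
  unfold cnt
  rw [h, Nat.card_coe_set_eq, Set.ncard_coe_finset]

theorem Adich_mono (P : ℕ → Prop) {a b : ℕ} (h : a ≤ b) : cnt P a ≤ cnt P b := by
  classical
  unfold cnt
  apply Finset.card_le_card
  apply Finset.filter_subset_filter
  intro x hx
  rw [Finset.mem_range] at hx ⊢
  omega

/-- the real inequality -/
theorem Adich_real {c κ E T n x lnZ Rest L4 lr : ℝ} (hc : 0 < c) (hκ : 0 < κ) (hE : 0 < E)
    (hn : 0 ≤ n) (h2 : E ^ 2 * n ≤ 2 * T) (hx : T / (4 * κ * E) - 1 ≤ x)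
    (hlr : lr ≤ c / (32 * κ * E)) (hT : 0 ≤ T) (hL : L4 ≤ c * E / (32 * κ))
    (hR : c + Rest ≤ c * E / (32 * κ) * n)
    (hmain : c * x ≤ 4 * E * lnZ + 2 * T * lr + n * L4 + Rest) :
    c * T / (κ * E) / 16 ≤ 4 * E * lnZ := by
  have h3 : c * (T / (4 * κ * E) - 1) ≤ c * x := mul_le_mul_of_nonneg_left hx hc.le
  have h4 : 2 * T * lr ≤ 2 * T * (c / (32 * κ * E)) := mul_le_mul_of_nonneg_left hlr (by linarith)
  have h5 : n * L4 ≤ n * (c * E / (32 * κ)) := mul_le_mul_of_nonneg_left hL hn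
  have e1 : c * (T / (4 * κ * E) - 1) = c * T / (κ * E) / 4 - c := by field_simp
  have e2 : 2 * T * (c / (32 * κ * E)) = c * T / (κ * E) / 16 := by field_simp; ring
  have e3 : n * (c * E / (32 * κ)) ≤ c * T / (κ * E) / 16 := by
    have e4 : n * (c * E / (32 * κ)) = (c / (32 * κ * E)) * (E ^ 2 * n) := by field_simp
    have e5 : c * T / (κ * E) / 16 = (c / (32 * κ * E)) * (2 * T) := by field_simp; ring
    rw [e4, e5]
    exact mul_le_mul_of_nonneg_left h2 (by positivity)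
  have e6 : c * E / (32 * κ) * n = n * (c * E / (32 * κ)) := by ring
  rw [e1] at h3
  rw [e2] at h4
  rw [e6] at hR
  linarith

/-- natural number inequalities -/
theorem Adich_nat {k E X T : ℕ} (hk : 2 ≤ k) (hE : 3 ≤ E) (hT : E ^ 2 * (8 * k * (X + 1)) ≤ 2 * T + 1) :
    4 * (8 * k * (X + 1)) ≤ T ∧ X * (2 * k * E) + 8 * k * (X + 1) ≤ T := by
  have h1 : 3 * E ≤ E ^ 2 := by
    rw [pow_two]
    exact Nat.mul_le_mul_right E hE
  have h2 : 3 * E * (8 * k * (X + 1)) ≤ E ^ 2 * (8 * k * (X + 1)) := Nat.mul_le_mul_right _ h1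
  have h3 : 9 * (8 * k * (X + 1)) ≤ 3 * E * (8 * k * (X + 1)) := Nat.mul_le_mul_right _ (by omega)
  have h4 : 2 ≤ k * (X + 1) := by nlinarith
  constructor
  · nlinarith
  · have h5 : 3 * (k * (X + 1)) ≤ E * (k * (X + 1)) := Nat.mul_le_mul_right _ hE
    have h6 : X * (2 * k * E) ≤ 2 * (E * (k * (X + 1))) := by nlinarith
    have h7 : 3 * E * (8 * k * (X + 1)) = 24 * (E * (k * (X + 1))) := by ring
    have h8 : 8 * k * (X + 1) = 8 * (k * (X + 1)) := by ring
    rw [h8]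
    omega

theorem dichotomy (f : ℤ⟦X⟧) (w : ℕ) (hw : 2 ≤ w) (hf : IsForm w f) (hne : f ≠ 0)
    (h0 : PowerSeries.coeff 0 f = 0) : Dich (Sl2 f) (Ord0 f) := by
  classical
  intro ε hε
  obtain ⟨k, hk⟩ : ∃ k : ℕ, k = 2 * w - 2 := ⟨_, rfl⟩
  have hk2 : 2 ≤ k := by omega
  have hκ : (0 : ℝ) < (k : ℝ) := by
    have : (2 : ℝ) ≤ (k : ℝ) := by exact_mod_cast hk2
    linarith
  obtain ⟨c, hc⟩ : ∃ c : ℝ, c = ε / 8 := ⟨_, rfl⟩
  have hc0 : 0 < c := by rw [hc]; positivity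
  obtain ⟨E, hE3, hEi⟩ := param (k : ℝ) c hκ hc0
  have hE : (0 : ℝ) < (E : ℝ) := by
    have : (3 : ℝ) ≤ (E : ℝ) := by exact_mod_cast hE3
    linarith
  obtain ⟨R, hR⟩ : ∃ R : ℝ, R = 1 + 32 * k * E / c := ⟨_, rfl⟩
  have hq : 0 < 32 * (k : ℝ) * E / c := by positivity
  have hR1 : 1 < R := by rw [hR]; linarith
  have hR0 : 0 < R := by linarith
  rw [← hR] at hEi
  obtain ⟨ρ, hρ⟩ : ∃ ρ : ℝ, ρ = 1 - 1 / R := ⟨_, rfl⟩
  have hiR : 1 / R < 1 := by rw [div_lt_one hR0]; exact hR1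
  have hiR0 : 0 < 1 / R := by positivity
  have hρ0 : 0 < ρ := by rw [hρ]; linarith
  have hρ1 : ρ < 1 := by rw [hρ]; linarith
  have hlr : Real.log (ρ⁻¹) ≤ c / (32 * k * E) := by
    have h1 := Real.log_le_sub_one_of_pos (inv_pos.2 hρ0)
    refine h1.trans (le_of_eq ?_)
    have h2 : ρ = (R - 1) / R := by rw [hρ]; field_simp
    have h3 : R - 1 ≠ 0 := by linarith
    rw [h2, inv_div]
    have h4 : R / (R - 1) - 1 = 1 / (R - 1) := by field_simp; ring
    rw [h4, hR, add_sub_cancel_left, one_div_div]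
  have hMR : Real.log (MR ρ) = 2 * Real.log (2 * R) := by
    have h1 : MR ρ = (2 * R) ^ 2 := by
      unfold MR
      rw [hρ]
      have : 1 - (1 - 1 / R) = 1 / R := by ring
      rw [this]
      field_simp
      norm_num
    rw [h1, Real.log_pow]
    norm_num
  obtain ⟨C, p0, hC1, hcore⟩ := core_ineq f w hw hf hne h0 E (by omega)
  rw [← hk] at hcore
  obtain ⟨B, hB1, hb1, hb2⟩ := exists_Bd_F hf hρ0 hρ1
  obtain ⟨x1, hx1⟩ := low (Sl2 f) ε hε p0
  obtain ⟨C1, hC10, hpi⟩ := pi_up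
  obtain ⟨n1, hn1⟩ := rest_le (c + 8 * k * E * Real.log (2 * R) + 4 * E * Real.log B) ((E : ℝ) ^ 2)
    (c * E / (32 * k)) (by positivity) (by positivity)
  refine ⟨16 * k * C, ?_, c / (2 * E ^ 2 * C1 * (16 * k * C : ℕ)), ?_, max (max x1 n1) 2, ?_⟩
  · have : 1 ≤ k * C := Nat.mul_pos (by omega) (by omega)
    nlinarith
  · have hCr : (0 : ℝ) < (C : ℝ) := by exact_mod_cast (by omega : 0 < C)
    push_cast
    positivity
  intro X hX hyp
  have hXx1 : x1 ≤ X := (le_max_left _ _).trans ((le_max_left _ _).trans hX)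
  have hXn1 : n1 ≤ X := (le_max_right _ _).trans ((le_max_left _ _).trans hX)
  have hX2 : 2 ≤ X := (le_max_right _ _).trans hX
  obtain ⟨n, hn⟩ : ∃ n : ℕ, n + 1 = 8 * k * (X + 1) := by
    refine ⟨8 * k * (X + 1) - 1, ?_⟩
    have : 0 < 8 * k * (X + 1) := by positivity
    omega
  have hnX : X ≤ n := by
    have : 16 * (X + 1) ≤ 8 * k * (X + 1) := Nat.mul_le_mul_right _ (by omega)
    omega
  obtain ⟨T, hT1, hT2, hT3⟩ := hcore ρ B hρ0 hρ1 hB1 hb1 hb2 n
  have hT4 : E ^ 2 * (n + 1) ≤ 2 * T + 1 := by omega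
  have hT5 : E ^ 2 * (8 * k * (X + 1)) ≤ 2 * T + 1 := by rw [← hn]; exact hT4
  obtain ⟨a1, a2⟩ := Adich_nat hk2 hE3 hT5
  rw [← hn] at a1 a2
  have hkE : 0 < 2 * k * E := by positivity
  obtain ⟨x, hx⟩ : ∃ x : ℕ, x = (T - n - 1) / (2 * k * E) := ⟨_, rfl⟩
  have hXx : X ≤ x := by
    rw [hx, Nat.le_div_iff_mul_le hkE]
    omega
  have hxT : x ≤ T := by
    rw [hx]
    exact (Nat.div_le_self _ _).trans (by omega)
  have hCn : C * (n + 1) ≤ 16 * k * C * X := by
    rw [hn]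
    have : X + 1 ≤ 2 * X := by omega
    calc C * (8 * k * (X + 1)) ≤ C * (8 * k * (2 * X)) := by gcongr
      _ = 16 * k * C * X := by ring
  have hxK : x ≤ 16 * k * C * X := hxT.trans (hT2.trans hCn)
  have s1 := hx1 x (hXx1.trans hXx) (hyp x hXx hxK)
  have s2 : ∑ p ∈ (Finset.range (x + 1)).filter (fun p => p.Prime ∧ p0 < p ∧ Sl2 f p), Real.log p ≤
      ∑ p ∈ SS f k E n p0 T, Real.log p := by
    apply Finset.sum_le_sum_of_subset_of_nonneg
    · intro p hp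
      rw [Finset.mem_filter, Finset.mem_range] at hp
      obtain ⟨hp1, hp2, hp3, hp4⟩ := hp
      have hpx : p ≤ (T - n - 1) / (2 * k * E) := by rw [← hx]; omega
      rw [Nat.le_div_iff_mul_le hkE] at hpx
      have e1 : 2 * k * p * E = p * (2 * k * E) := by ring
      have e2 : p ≤ p * (2 * k * E) := Nat.le_mul_of_pos_right p hkE
      unfold SS
      rw [Finset.mem_filter, Finset.mem_range]
      refine ⟨by omega, hp2, hp3, hp4, ?_⟩
      rw [e1]
      omega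
    · intro p _ _
      exact Real.log_natCast_nonneg p
  have hlnX : c * X / (2 * E ^ 2) ≤ Real.log (Z0 f (C * (n + 1))) := by
    have r1 : (E : ℝ) ^ 2 * n ≤ 2 * T := by
      have h1 : ((E ^ 2 * (n + 1) : ℕ) : ℝ) ≤ ((2 * T + 1 : ℕ) : ℝ) := by exact_mod_cast hT4
      push_cast at h1
      have h2 : (1 : ℝ) ≤ (E : ℝ) ^ 2 := by
        have : (3 : ℝ) ≤ (E : ℝ) := by exact_mod_cast hE3
        nlinarith
      linarith
    have r2 : (T : ℝ) / (4 * k * E) - 1 ≤ x := by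
      have h1 : T - n - 1 < 2 * k * E * (x + 1) := by
        rw [hx]
        exact Nat.lt_mul_div_succ _ hkE
      have h2 : T ≤ 4 * k * E * (x + 1) := by
        have : 4 * k * E * (x + 1) = 2 * (2 * k * E * (x + 1)) := by ring
        omega
      have h3 : (T : ℝ) ≤ 4 * k * E * (x + 1) := by exact_mod_cast h2
      have h4 : (T : ℝ) / (4 * k * E) ≤ x + 1 := by
        rw [div_le_iff₀ (by positivity)]
        linarith
      linarith
    have r3 := hn1 n (hXn1.trans hnX)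
    have r4 := Adich_real (n := (n : ℝ)) (T := (T : ℝ)) (x := (x : ℝ)) (κ := (k : ℝ)) (E := (E : ℝ))
      (L4 := 4 * Real.log (2 * R)) (lr := Real.log (ρ⁻¹))
      (lnZ := Real.log (Z0 f (C * (n + 1))))
      (Rest := 8 * k * E * Real.log (2 * R) + 4 * E * Real.log B +
        2 * Real.log (E ^ 2 * (n + 1))) hc0 hκ hE (Nat.cast_nonneg n) r1 r2 hlr (Nat.cast_nonneg T)
        hEi (by linarith) (by
          rw [hMR] at hT3
          rw [← hc] at s1
          have e1 : 2 * ((n : ℝ) + 2 * (k : ℝ) * E) * (2 * Real.log (2 * R)) =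
            n * (4 * Real.log (2 * R)) + 8 * k * E * Real.log (2 * R) := by ring
          linarith)
    have r5 : 32 * (k : ℝ) * (X + 1) ≤ T := by
      have h1 : ((4 * (n + 1) : ℕ) : ℝ) ≤ (T : ℝ) := by exact_mod_cast a1
      rw [hn] at h1
      push_cast at h1
      linarith
    have r6 : c * (32 * (k : ℝ) * (X + 1)) / (k * E) / 16 ≤ c * T / (k * E) / 16 := by
      gcongr
    have r7 : c * (32 * (k : ℝ) * (X + 1)) / (k * E) / 16 = 4 * E * (c * (X + 1) / (2 * E ^ 2)) := by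
      field_simp
      norm_num
    rw [r7] at r6
    have r8 : c * (X + 1) / (2 * E ^ 2) ≤ Real.log (Z0 f (C * (n + 1))) :=
      le_of_mul_le_mul_left (r6.trans r4) (by positivity)
    refine le_trans ?_ r8
    gcongr
    linarith
  have hY1 : 1 ≤ C * (n + 1) := Nat.mul_pos (by omega) (by omega)
  have t1 := log_Z0_le f (C * (n + 1)) hY1
  rw [Adich_card] at t1
  have hKX2 : 2 ≤ 16 * k * C * X := by
    have : 1 ≤ k * C * X := Nat.mul_pos (Nat.mul_pos (by omega) (by omega)) (by omega)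
    nlinarith
  have hlog : Real.log (C * (n + 1) : ℕ) ≤ Real.log ((16 * k * C * X : ℕ) : ℝ) := by
    apply Real.log_le_log
    · exact_mod_cast hY1
    · exact_mod_cast hCn
  have hlog0 : 0 < Real.log ((16 * k * C * X : ℕ) : ℝ) := by
    apply Real.log_pos
    exact_mod_cast hKX2
  have hcm : (cnt (Ord0 f) (C * (n + 1)) : ℝ) ≤ cnt (Ord0 f) (16 * k * C * X) := by
    exact_mod_cast Adich_mono _ hCn
  have t2 : c * X / (2 * E ^ 2) ≤
      (cnt (Ord0 f) (16 * k * C * X) : ℝ) * Real.log ((16 * k * C * X : ℕ) : ℝ) := by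
    refine hlnX.trans (t1.trans ?_)
    exact mul_le_mul hcm hlog (Real.log_nonneg (by exact_mod_cast hY1)) (Nat.cast_nonneg _)
  have t3 := hpi (16 * k * C * X) hKX2
  have hCr : (0 : ℝ) < (C : ℝ) := by exact_mod_cast (by omega : 0 < C)
  refine le_of_mul_le_mul_right ?_ hlog0
  refine le_trans ?_ t2
  have hKr : (0 : ℝ) < ((16 * k * C : ℕ) : ℝ) := by
    push_cast
    positivity
  calc c / (2 * E ^ 2 * C1 * (16 * k * C : ℕ)) * (Nat.primeCounting (16 * k * C * X) : ℝ) *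
        Real.log ((16 * k * C * X : ℕ) : ℝ) =
        c / (2 * E ^ 2 * C1 * (16 * k * C : ℕ)) * ((Nat.primeCounting (16 * k * C * X) : ℝ) *
        Real.log ((16 * k * C * X : ℕ) : ℝ)) := by ring
    _ ≤ c / (2 * E ^ 2 * C1 * (16 * k * C : ℕ)) * (C1 * ((16 * k * C * X : ℕ) : ℝ)) := by
        apply mul_le_mul_of_nonneg_left t3
        positivity
    _ = c * X / (2 * E ^ 2) := by
        rw [Nat.cast_mul (16 * k * C) X]
        field_simp

end Pool.Agent.H85.OT
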