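import Pool.Agent.H85.OT.WDef
import Pool.Agent.H85.OT.Adich

/-!
# Row WTR (project OT): coefficients in a number field, by the trace

`E` a number field, `O = 𝓞 E`, `f ∈ O⟦X⟧`, `f ≠ 0`, `a_0 = 0`, `IsFormR O w f`.  Choose `r` with `a_r ≠ 0` and an integer `m ≠ 0`
with `β = m a_r⁻¹ ∈ O` (every element of `E` times a suitable nonzero integer is integral).
`T(y) = Tr_{O/ℤ}(β y)` (`Algebra.trace ℤ O`) is `ℤ`-linear and `T(a_r) = Tr(m) = m [E:ℚ] ≠ 0`.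
`g = ∑ T(a_n) q^n ∈ ℤ⟦X⟧`: nonzero, `g_0 = 0`, and `IsForm w g`: from `M f = ∑ c_j (integral series)_j` one gets
`M g = ∑ T(c_j) (integral series)_j` (coefficientwise; `(tR O F)` has integer coefficients and `tR` is a ring map, so
`(tR O a)^(w-j) (tR O b)^j = tR O (a^(w-j) b^j)`).
* `Sl2R f p → Sl2 g p`: `a_n = p^(v+1) y` gives `T(a_n) = p^(v+1) T(y)`.
* `Ord0 g p → Ord0R f p`: if `p^v ∣ a_n` for all `n ≥ 1` then `p^v ∣ T(a_n)`.
`dichotomy` for `g` gives `Dich (Sl2 g) (Ord0 g)`, and `Dich` is monotone: fewer primes in the first set, more in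
the second (`cnt` is monotone in the predicate).
-/

open PowerSeries NumberField

namespace Pool.Agent.H85.OT

private theorem Wtr_cnt {P Q : ℕ → Prop} (h : ∀ p, P p → Q p) (x : ℕ) : cnt P x ≤ cnt Q x := by
  classical
  unfold cnt
  apply Finset.card_le_card
  intro p hp
  rw [Finset.mem_filter] at hp ⊢
  exact ⟨hp.1, hp.2.1, h p hp.2.2⟩

private theorem Wtr_mono {S O S' O' : ℕ → Prop} (h : Dich S O) (hS : ∀ p, S' p → S p)
    (hO : ∀ p, O p → O' p) : Dich S' O' := by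
  intro ε hε
  obtain ⟨K, hK, δ, hδ, X0, hX⟩ := h ε hε
  refine ⟨K, hK, δ, hδ, X0, fun X hX0 hyp => ?_⟩
  have h1 := hX X hX0 (fun x h1 h2 => (hyp x h1 h2).trans (by exact_mod_cast Wtr_cnt hS x))
  exact h1.trans (by exact_mod_cast Wtr_cnt hO (K * X))

private theorem Wtr_functional (E : Type*) [Field E] [NumberField E] (a : 𝓞 E) (ha : a ≠ 0) :
    ∃ T : 𝓞 E →ₗ[ℤ] ℤ, T a ≠ 0 := by
  have h1 : (Ideal.absNorm (Ideal.span {a}) : 𝓞 E) ∈ Ideal.span {a} := Ideal.absNorm_mem _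
  have h2 : Ideal.absNorm (Ideal.span {a}) ≠ 0 := by
    rw [Ne, Ideal.absNorm_eq_zero_iff, Ideal.span_singleton_eq_bot]
    exact ha
  rw [Ideal.mem_span_singleton'] at h1
  obtain ⟨b, hb⟩ := h1
  refine ⟨(Algebra.trace ℤ (𝓞 E)).comp (LinearMap.mulLeft ℤ b), ?_⟩
  rw [LinearMap.comp_apply, LinearMap.mulLeft_apply, hb]
  have h3 : ((Ideal.absNorm (Ideal.span {a}) : ℕ) : 𝓞 E) =
      algebraMap ℤ (𝓞 E) ((Ideal.absNorm (Ideal.span {a}) : ℕ) : ℤ) := by simp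
  rw [h3, Algebra.trace_algebraMap, NumberField.RingOfIntegers.rank]
  have h4 : 0 < Module.finrank ℚ E := Module.finrank_pos
  rw [nsmul_eq_mul]
  exact mul_ne_zero (by exact_mod_cast h4.ne') (by exact_mod_cast h2)

private theorem Wtr_dvd {R : Type*} [CommRing R] (T : R →ₗ[ℤ] ℤ) (p k : ℕ) (a : R)
    (h : (p : R) ^ k ∣ a) : (p : ℤ) ^ k ∣ T a := by
  obtain ⟨y, hy⟩ := h
  refine ⟨T y, ?_⟩
  have : a = ((p : ℤ) ^ k) • y := by
    rw [hy, zsmul_eq_mul]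
    push_cast
    ring
  rw [this, T.map_smul, smul_eq_mul]

theorem dichotomy_O (E : Type*) [Field E] [NumberField E] (f : (𝓞 E)⟦X⟧) (w : ℕ) (hw : 2 ≤ w)
    (hf : IsFormR (𝓞 E) w f) (hne : f ≠ 0) (h0 : PowerSeries.coeff 0 f = 0) :
    Dich (Sl2R f) (Ord0R f) := by
  obtain ⟨r, hr⟩ : ∃ r, PowerSeries.coeff r f ≠ 0 := by
    by_contra hcon
    push Not at hcon
    apply hne
    ext n
    rw [hcon n]
    simp
  obtain ⟨T, hT⟩ := Wtr_functional E _ hr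
  have hg : ∀ n, PowerSeries.coeff n (PowerSeries.mk fun n => T (PowerSeries.coeff n f)) =
      T (PowerSeries.coeff n f) := fun n => PowerSeries.coeff_mk _ _
  obtain ⟨g, hgd⟩ : ∃ g : ℤ⟦X⟧, ∀ n, PowerSeries.coeff n g = T (PowerSeries.coeff n f) := ⟨_, hg⟩
  have hform : IsForm w g := by
    obtain ⟨M, c, hM, hc⟩ := hf
    refine ⟨M, fun j => T (c j), hM, ?_⟩
    ext n
    have h1 := congrArg (fun x => T (PowerSeries.coeff n x)) hc
    simp only [PowerSeries.coeff_C_mul, map_sum] at h1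
    rw [PowerSeries.coeff_C_mul, hgd, map_sum]
    have h2 : T ((M : 𝓞 E) * PowerSeries.coeff n f) = M * T (PowerSeries.coeff n f) := by
      rw [← zsmul_eq_mul, T.map_smul, smul_eq_mul]
    rw [← h2, h1]
    apply Finset.sum_congr rfl
    intro j _
    have h3 : PowerSeries.C (c j) * (tR (𝓞 E) (th3 ^ 4)) ^ (w - j) * (tR (𝓞 E) (th4 ^ 4)) ^ j =
        PowerSeries.C (c j) * tR (𝓞 E) ((th3 ^ 4) ^ (w - j) * (th4 ^ 4) ^ j) := by
      rw [map_mul, map_pow (tR (𝓞 E)) (th3 ^ 4), map_pow (tR (𝓞 E)) (th4 ^ 4), mul_assoc]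
    rw [h3, PowerSeries.coeff_C_mul, mul_assoc, PowerSeries.coeff_C_mul]
    have h4 : PowerSeries.coeff n (tR (𝓞 E) ((th3 ^ 4) ^ (w - j) * (th4 ^ 4) ^ j)) =
        ((PowerSeries.coeff n ((th3 ^ 4) ^ (w - j) * (th4 ^ 4) ^ j) : ℤ) : 𝓞 E) := by
      unfold tR
      rw [PowerSeries.coeff_map]
      rfl
    rw [h4, mul_comm (c j), ← zsmul_eq_mul, T.map_smul, smul_eq_mul, mul_comm]
  have hgne : g ≠ 0 := by
    intro h
    apply hT
    rw [← hgd, h]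
    simp
  have hg0 : PowerSeries.coeff 0 g = 0 := by rw [hgd, h0, map_zero]
  apply Wtr_mono (dichotomy g w hw hform hgne hg0)
  · intro p hp n hn hpn
    rw [hgd]
    exact Wtr_dvd T p _ _ (hp n hn hpn)
  · rintro p ⟨n, hn, hpn⟩
    refine ⟨n, hn, fun hd => hpn ?_⟩
    rw [hgd]
    exact Wtr_dvd T p _ _ hd

end Pool.Agent.H85.OT
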