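import Mathlib

/-!
# Definitions for the analytic part of the project OT

`cnt P x` = number of primes `p ≤ x` with `P p`.  `Nat.primeCounting x` = number of primes `≤ x`.
`PosLower P`: the primes with `P` have positive lower density.
`Dich S O`: for every `ε > 0` there are `K ≥ 1`, `δ > 0`, `X0` such that for all `X ≥ X0`: if on every
`x ∈ [X, K X]` at least `ε π(x)` primes `≤ x` satisfy `S`, then at least `δ π(K X)` primes `≤ K X`
satisfy `O`.
-/

namespace Pool.Agent.H85.OT

open Classical in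
/-- number of primes `p ≤ x` with `P p` -/
noncomputable def cnt (P : ℕ → Prop) (x : ℕ) : ℕ :=
  ((Finset.range (x + 1)).filter (fun p => p.Prime ∧ P p)).card

/-- positive lower density among the primes -/
def PosLower (P : ℕ → Prop) : Prop :=
  ∃ c : ℝ, 0 < c ∧ ∃ x0 : ℕ, ∀ x ≥ x0, c * (Nat.primeCounting x : ℝ) ≤ cnt P x

/-- many primes with `S` in a window force many primes with `O` -/
def Dich (S O : ℕ → Prop) : Prop :=
  ∀ ε : ℝ, 0 < ε → ∃ K : ℕ, 1 ≤ K ∧ ∃ δ : ℝ, 0 < δ ∧ ∃ X0 : ℕ, ∀ X ≥ X0,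
    (∀ x : ℕ, X ≤ x → x ≤ K * X → ε * (Nat.primeCounting x : ℝ) ≤ cnt S x) →
      δ * (Nat.primeCounting (K * X) : ℝ) ≤ cnt O (K * X)

end Pool.Agent.H85.OT
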