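import Pool.Agent.H85.OT.Ha

/-!
# Row HC (project OT): `h` is coprime to `X(1-X)h'`

Let `r` be a common root of `h` and `Bh = X(1-X)h'` in an algebraic closure of `F_p`
(`Polynomial.isCoprime_iff_aeval_ne_zero_of_isAlgClosed`).  `r ≠ 0`, `r ≠ 1` by `hh_coeff_zero`,
`hh_eval_one`, so `h(r) = h'(r) = 0`.  Expand `h = ∑ t_j (X - r)^j` (Taylor).  The equation
`4 X(1-X) h'' + 4 (1-2X) h' = h` (`hh_ode`) gives, with `X = r + s`, for every `j`
`4 [ r(1-r) (j+2)(j+1) t_(j+2) + (1-2r)(j+1) j t_(j+1) - j (j-1) t_j`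
`   + (1-2r)(j+1) t_(j+1) - 2 j t_j ] = t_j`.
By strong induction `t_j = 0` for all `j ≤ p - 1` (`t_0 = t_1 = 0`; for `j + 2 ≤ p-1` the factor
`4 r (1-r)(j+2)(j+1)` is nonzero mod `p`).  Since `deg h = m ≤ p-1`, `h = 0`, contradiction
(`h` is monic).
Alternative: if `r` is a root of `h` of multiplicity `k ≥ 2`, `k ≤ m < p`, then it is a root of `h'`
of multiplicity exactly `k-1` and of `h''` of multiplicity exactly `k-2`
(`Polynomial.derivative_rootMultiplicity_of_root_of_mem_nonZeroDivisors`), so `(X-r)^(k-1)` divides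
`h - 4(1-2X)h' = 4 X (1-X) h''`, contradiction.
-/

namespace Pool.Agent.H85.OT

open Polynomial in
lemma Hc_no_double {K : Type*} [Field K] {p : ℕ} [CharP K p] {f : K[X]} (hf0 : f ≠ 0)
    (hdeg : f.natDegree < p) {r : K} (hr0 : r ≠ 0) (hr1 : r ≠ 1) (h4 : (4 : K) ≠ 0)
    (hode : 4 * derivative (X * (1 - X) * derivative f) = f) (h : f.eval r = 0)
    (h' : (derivative f).eval r = 0) : False := by
  obtain ⟨g, hg, hgd⟩ := exists_eq_pow_rootMultiplicity_mul_and_not_dvd f hf0 r
  have hg0 : g ≠ 0 := by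
    rintro rfl
    exact hgd (dvd_zero _)
  have hgr : g.eval r ≠ 0 := fun h0 => hgd (dvd_iff_isRoot.mpr h0)
  have hk : rootMultiplicity r f ≤ f.natDegree := by
    conv_rhs => rw [hg]
    rw [natDegree_mul (pow_ne_zero _ (X_sub_C_ne_zero r)) hg0, natDegree_pow, natDegree_X_sub_C,
      mul_one]
    exact Nat.le_add_right _ _
  generalize rootMultiplicity r f = k at *
  match k, hg, hk with
  | 0, hg, hk =>
    rw [pow_zero, one_mul] at hg
    rw [hg] at h
    exact hgr h
  | 1, hg, hk =>
    rw [hg, pow_one, derivative_mul, derivative_X_sub_C, one_mul, eval_add, eval_mul, eval_sub,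
      eval_X, eval_C, sub_self, zero_mul, add_zero] at h'
    exact hgr h'
  | j + 2, hg, hk =>
    have hj1 : ((j + 1 : ℕ) : K) ≠ 0 := by
      rw [Ne, CharP.cast_eq_zero_iff K p]
      intro hd
      have := Nat.le_of_dvd (by omega) hd
      omega
    have hj2 : ((j + 2 : ℕ) : K) ≠ 0 := by
      rw [Ne, CharP.cast_eq_zero_iff K p]
      intro hd
      have := Nat.le_of_dvd (by omega) hd
      omega
    obtain ⟨G, hG⟩ : ∃ G : K[X], G = X * (1 - X) * (C ((j + 2 : ℕ) : K) * g +
      (X - C r) * derivative g) := ⟨_, rfl⟩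
    have e1 : X * (1 - X) * derivative f = (X - C r) ^ (j + 1) * G := by
      rw [hG, hg, derivative_mul, derivative_X_sub_C_pow]
      have : j + 2 - 1 = j + 1 := rfl
      rw [this]
      ring
    rw [e1, derivative_mul, derivative_X_sub_C_pow, Nat.add_sub_cancel] at hode
    have e2 : (X - C r) ^ j * (4 * (C ((j + 1 : ℕ) : K) * G + (X - C r) * derivative G)) =
        (X - C r) ^ j * ((X - C r) ^ 2 * g) := by
      conv_rhs at hode => rw [hg]
      linear_combination hode
    have e3 := mul_left_cancel₀ (pow_ne_zero j (X_sub_C_ne_zero r)) e2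
    have e4 := congrArg (eval r) e3
    simp only [eval_mul, eval_add, eval_sub, eval_X, eval_C, sub_self, zero_mul, add_zero,
      eval_pow, ne_eq, OfNat.ofNat_ne_zero, not_false_eq_true, zero_pow, eval_ofNat] at e4
    have hGr : G.eval r ≠ 0 := by
      rw [hG]
      simp only [eval_mul, eval_add, eval_sub, eval_X, eval_C, sub_self, zero_mul, add_zero,
        eval_one]
      exact mul_ne_zero (mul_ne_zero hr0 (sub_ne_zero.mpr hr1.symm)) (mul_ne_zero hj2 hgr)
    exact mul_ne_zero h4 (mul_ne_zero hj1 hGr) e4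

theorem hh_coprime {p : ℕ} [hp : Fact p.Prime] (h2 : p ≠ 2) : IsCoprime (hh p) (Bh p) := by
  refine (Polynomial.isCoprime_iff_aeval_ne_zero_of_isAlgClosed (ZMod p)
    (AlgebraicClosure (ZMod p)) (hh p) (Bh p)).mpr ?_
  intro a
  by_contra hcon
  rw [not_or, not_not, not_not] at hcon
  obtain ⟨h1, h3⟩ := hcon
  have hinj := (algebraMap (ZMod p) (AlgebraicClosure (ZMod p))).injective
  have ha0 : a ≠ 0 := by
    rintro rfl
    rw [← Polynomial.coeff_zero_eq_aeval_zero', hh_coeff_zero h2, map_one] at h1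
    exact one_ne_zero h1
  have ha1 : a ≠ 1 := by
    rintro rfl
    rw [← map_one (algebraMap (ZMod p) (AlgebraicClosure (ZMod p))),
      Polynomial.aeval_algebraMap_apply, ← map_zero (algebraMap (ZMod p) _)] at h1
    exact hh_eval_one h2 (hinj h1)
  have : CharP (AlgebraicClosure (ZMod p)) p := charP_of_injective_algebraMap hinj p
  have hm : (hh p).natDegree < p := by
    rw [hh_natDegree h2]
    have := two_mm hp.out h2
    omega
  rw [Bh, map_mul, map_mul, map_sub, map_one, Polynomial.aeval_X, mul_eq_zero, mul_eq_zero] at h3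
  have h3' : Polynomial.aeval a (Polynomial.derivative (hh p)) = 0 := by
    rcases h3 with (h3 | h3) | h3
    · exact absurd h3 ha0
    · exact absurd (sub_eq_zero.mp h3).symm ha1
    · exact h3
  have h20 : (2 : AlgebraicClosure (ZMod p)) ≠ 0 := by
    have := (map_ne_zero (algebraMap (ZMod p) (AlgebraicClosure (ZMod p)))).mpr (two_ne h2)
    rwa [map_ofNat] at this
  refine Hc_no_double (p := p)
    (f := (hh p).map (algebraMap (ZMod p) (AlgebraicClosure (ZMod p)))) ?_ ?_ ha0 ha1 ?_ ?_ ?_ ?_
  · rw [Polynomial.map_ne_zero_iff hinj]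
    exact (hh_monic h2).ne_zero
  · rw [Polynomial.natDegree_map]
    exact hm
  · have : (4 : AlgebraicClosure (ZMod p)) = 2 * 2 := by norm_num
    rw [this]
    exact mul_ne_zero h20 h20
  · have h := congrArg (Polynomial.map (algebraMap (ZMod p) (AlgebraicClosure (ZMod p))))
      (hh_ode h2)
    rw [Polynomial.map_mul, Bh, ← Polynomial.derivative_map, Polynomial.map_mul,
      Polynomial.map_mul, Polynomial.map_sub, Polynomial.map_one, Polynomial.map_X,
      ← Polynomial.derivative_map, Polynomial.map_ofNat] at h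
    exact h
  · rw [Polynomial.eval_map_algebraMap]
    exact h1
  · rw [Polynomial.derivative_map, Polynomial.eval_map_algebraMap]
    exact h3'

/-- some irreducible polynomial divides `h` exactly once -/
theorem hh_simple_factor {p : ℕ} [hp : Fact p.Prime] (h2 : p ≠ 2) :
    ∃ π : Polynomial (ZMod p), Irreducible π ∧ π ∣ hh p ∧ ¬ π ^ 2 ∣ hh p := by
  have hm : 0 < (hh p).natDegree := by
    rw [hh_natDegree h2]
    have h := two_mm hp.out h2
    have := hp.out.two_le
    omega
  obtain ⟨π, hπ, hd⟩ := Polynomial.exists_irreducible_of_natDegree_pos hm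
  refine ⟨π, hπ, hd, ?_⟩
  rintro ⟨q, hq⟩
  have h1 : π ∣ Polynomial.derivative (hh p) := by
    rw [hq, Polynomial.derivative_mul, pow_two, Polynomial.derivative_mul]
    exact ⟨(Polynomial.derivative π + Polynomial.derivative π) * q +
      π * Polynomial.derivative q, by ring⟩
  have h3 : π ∣ Bh p := by
    rw [Bh]
    exact h1.mul_left _
  exact hπ.not_isUnit ((hh_coprime h2).isUnit_of_dvd' hd h3)

end Pool.Agent.H85.OT
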