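import Pool.Agent.H85.OT.Hc
import Pool.Agent.H85.OT.Hd

/-!
# Row HF (project OT): modular forms mod `p`: derivative and uniqueness of the weight mod `m`

`u = U (ZMod p)`, `λ = lam`, `m = mm p` (`2m + 1 = p`), `h = hh p`, `B = Bh p`.
* `lam_inj`: from `ord_lam`.
* `Mf_D`: `D(u^(2N) P(λ)) = 2N ε u^(2N) P(λ) + u^(2N) P'(λ) λ(1-λ) u²`; insert `ε = u^(2m+2) B(λ)` in the
  first term and `1 = u^(2m) h(λ)` in the second.  Degrees: `B` has degree `≤ m+1`, `h` degree `m`.
* `Mf_congr`: put `k = N2 - N1`; `u^(2k) P2(λ) = P1(λ)` (cancel the unit `u^(2 N1)`).  Take `m`-th powers: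
  `u^(2mk) P2^m(λ) = P1^m(λ)`; multiply by `h^k(λ)` and use `u^(2m) h(λ) = 1`:
  `P2^m(λ) = (P1^m h^k)(λ)`, so `P2^m = P1^m h^k` (`lam_inj`).  Let `π` be an irreducible polynomial dividing
  `h` exactly once (`hh_simple_factor`): comparing multiplicities of `π`
  (`emultiplicity`/`multiplicity`, all polynomials nonzero), `m v(P2) = m v(P1) + k`, so `m ∣ k`,
  `k = j m`.  Then `u^(2jm) P2(λ) = P1(λ)`; multiply by `h^j(λ)`: `P2(λ) = (h^j P1)(λ)`, `P2 = h^j P1`.
-/

open PowerSeries

namespace Pool.Agent.H85.OT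

variable {p : ℕ} [hp : Fact p.Prime] (h2 : p ≠ 2)
include h2

theorem lam_inj (P : Polynomial (ZMod p))
    (h : Polynomial.aeval (lam (ZMod p)) P = 0) : P = 0 := by
  by_contra hP
  obtain ⟨l, -, hl⟩ := ord_lam (two_ne h2) P hP P.natDegree le_rfl
  apply hl
  unfold lam at h
  rw [h, map_zero]

theorem Hf_Dpow (n : ℕ) : Dq (ZMod p) (U (ZMod p) ^ n) =
    (n : (ZMod p)⟦X⟧) * ee (ZMod p) * U (ZMod p) ^ n := by
  rw [Derivation.leibniz_pow, Dq_U, nsmul_eq_mul, smul_eq_mul]
  rcases n with _ | n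
  · simp
  · rw [Nat.add_sub_cancel]
    ring

theorem Hf_aeval (P : Polynomial (ZMod p)) :
    Dq (ZMod p) (Polynomial.aeval (lam (ZMod p)) P) =
      Polynomial.aeval (lam (ZMod p)) (Polynomial.derivative P) *
        (lam (ZMod p) * (1 - lam (ZMod p)) * U (ZMod p) ^ 2) := by
  rw [Derivation.map_aeval, Dq_lam _ (two_ne h2), smul_eq_mul]

theorem Mf_D (N : ℕ) (P : Polynomial (ZMod p)) :
    Dq (ZMod p) (U (ZMod p) ^ (2 * N) * Polynomial.aeval (lam (ZMod p)) P) =
      U (ZMod p) ^ (2 * (N + mm p + 1)) * Polynomial.aeval (lam (ZMod p))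
        (2 * (N : Polynomial (ZMod p)) * Bh p * P +
          hh p * Polynomial.X * (1 - Polynomial.X) * Polynomial.derivative P) := by
  have h1 := hasse h2
  have h3 := ee_eq h2
  rw [Derivation.leibniz, smul_eq_mul, smul_eq_mul, Hf_Dpow h2, Hf_aeval h2, h3]
  simp only [map_add, map_mul, map_sub, map_one, Polynomial.aeval_X, map_ofNat, map_natCast]
  push_cast
  set u := U (ZMod p)
  set L := lam (ZMod p)
  set hl := Polynomial.aeval L (hh p)
  set P' := Polynomial.aeval L (Polynomial.derivative P)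
  have e1 : u ^ (2 * (N + mm p + 1)) = u ^ (2 * N) * u ^ (2 * mm p) * u ^ 2 := by
    rw [← pow_add, ← pow_add]; congr 1; ring
  have e2 : u ^ (2 * mm p + 2) = u ^ (2 * mm p) * u ^ 2 := by rw [← pow_add]
  rw [e1, e2]
  linear_combination (-(u ^ (2 * N) * u ^ 2 * P' * (L * (1 - L)))) * h1

theorem Mf_D' (N : ℕ) (F : (ZMod p)⟦X⟧) (hF : Mf p N F) :
    Mf p (N + mm p + 1) (Dq (ZMod p) F) := by
  obtain ⟨P, hP, rfl⟩ := hF
  refine ⟨_, ?_, Mf_D h2 N P⟩
  refine Polynomial.natDegree_add_le_of_degree_le ?_ ?_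
  · have e1 : (2 * (N : Polynomial (ZMod p)) * Bh p * P) =
        Polynomial.C ((2 * N : ℕ) : ZMod p) * (Bh p * P) := by
      push_cast
      rw [Polynomial.C_mul]
      rw [show (Polynomial.C (N : ZMod p) : Polynomial (ZMod p)) = N from Polynomial.C_eq_natCast N,
        show (Polynomial.C (2 : ZMod p) : Polynomial (ZMod p)) = 2 from rfl]
      ring
    rw [e1]
    refine (Polynomial.natDegree_C_mul_le _ _).trans ?_
    refine Polynomial.natDegree_mul_le.trans ?_
    have := Bh_natDegree (p := p) h2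
    omega
  · by_cases h0 : P.natDegree = 0
    · rw [Polynomial.derivative_of_natDegree_zero h0, mul_zero, Polynomial.natDegree_zero]
      exact Nat.zero_le _
    · have h1 := Polynomial.natDegree_derivative_lt h0
      refine Polynomial.natDegree_mul_le.trans ?_
      have h3 : (hh p * Polynomial.X * (1 - Polynomial.X)).natDegree ≤ mm p + 1 + 1 := by
        refine Polynomial.natDegree_mul_le.trans ?_
        have h4 : (hh p * Polynomial.X).natDegree ≤ mm p + 1 := by
          refine Polynomial.natDegree_mul_le.trans ?_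
          rw [hh_natDegree h2]
          have := Polynomial.natDegree_X_le (R := ZMod p)
          omega
        have h5 : (1 - Polynomial.X : Polynomial (ZMod p)).natDegree ≤ 1 := by
          refine (Polynomial.natDegree_sub_le _ _).trans ?_
          have := Polynomial.natDegree_X_le (R := ZMod p)
          rw [Polynomial.natDegree_one]
          omega
        omega
      omega

theorem Mf_congr (N1 N2 : ℕ) (P1 P2 : Polynomial (ZMod p)) (hP : P1 ≠ 0) (hN : N1 ≤ N2)
    (h : U (ZMod p) ^ (2 * N1) * Polynomial.aeval (lam (ZMod p)) P1 =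
      U (ZMod p) ^ (2 * N2) * Polynomial.aeval (lam (ZMod p)) P2) :
    ∃ j : ℕ, N2 = N1 + j * mm p ∧ P2 = hh p ^ j * P1 := by
  have h1 := hasse h2
  have hu0 : U (ZMod p) ≠ 0 := U_ne_zero _
  obtain ⟨k, rfl⟩ := Nat.exists_eq_add_of_le hN
  set u := U (ZMod p)
  set L := lam (ZMod p)
  have h3 : Polynomial.aeval L P1 = u ^ (2 * k) * Polynomial.aeval L P2 := by
    apply mul_left_cancel₀ (pow_ne_zero (2 * N1) hu0)
    rw [h, ← mul_assoc, ← pow_add]
    congr 2
    ring
  -- the identity of `m`-th powers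
  have h4 : P2 ^ mm p = P1 ^ mm p * hh p ^ k := by
    rw [← sub_eq_zero]
    apply lam_inj h2
    rw [map_sub, map_mul, map_pow, map_pow, map_pow, h3, mul_pow, ← pow_mul, sub_eq_zero]
    have e1 : u ^ (2 * k * mm p) = (u ^ (2 * mm p)) ^ k := by
      rw [← pow_mul]; congr 1; ring
    rw [e1]
    have e2 : (u ^ (2 * mm p)) ^ k * Polynomial.aeval L P2 ^ mm p * Polynomial.aeval L (hh p) ^ k =
        (u ^ (2 * mm p) * Polynomial.aeval L (hh p)) ^ k * Polynomial.aeval L P2 ^ mm p := by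
      rw [mul_pow]; ring
    rw [e2, h1, one_pow, one_mul]
  have hm : mm p ≠ 0 := by
    have := two_mm hp.out h2
    have := hp.out.two_le
    omega
  have hh0 : hh p ≠ 0 := (hh_monic h2).ne_zero
  have hP2 : P2 ≠ 0 := by
    rintro rfl
    rw [zero_pow hm] at h4
    exact mul_ne_zero (pow_ne_zero _ hP) (pow_ne_zero _ hh0) h4.symm
  obtain ⟨π, hπ, hπ1, hπ2⟩ := hh_simple_factor (p := p) h2
  have hprime : Prime π := hπ.prime
  have h5 : emultiplicity π (hh p) = ((1 : ℕ) : ℕ∞) := by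
    rw [emultiplicity_eq_coe]
    exact ⟨by rwa [pow_one], hπ2⟩
  have h6 : emultiplicity π P1 = (multiplicity π P1 : ℕ∞) :=
    (FiniteMultiplicity.of_prime_left hprime hP).emultiplicity_eq_multiplicity
  have h7 : emultiplicity π P2 = (multiplicity π P2 : ℕ∞) :=
    (FiniteMultiplicity.of_prime_left hprime hP2).emultiplicity_eq_multiplicity
  have h8 := congrArg (emultiplicity π) h4
  rw [emultiplicity_mul hprime, emultiplicity_pow hprime, emultiplicity_pow hprime,
    emultiplicity_pow hprime, h5, h6, h7] at h8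
  have h9 : mm p * multiplicity π P2 = mm p * multiplicity π P1 + k * 1 := by exact_mod_cast h8
  have h10 : mm p ∣ k := by
    have h11 : mm p ∣ mm p * multiplicity π P1 + k * 1 := h9 ▸ Dvd.intro _ rfl
    rw [mul_one] at h11
    exact (Nat.dvd_add_right (Dvd.intro _ rfl)).1 h11
  obtain ⟨j, rfl⟩ := h10
  refine ⟨j, by ring, ?_⟩
  rw [← sub_eq_zero]
  apply lam_inj h2
  rw [map_sub, map_mul, map_pow, h3, sub_eq_zero]
  have e1 : u ^ (2 * (mm p * j)) = (u ^ (2 * mm p)) ^ j := by
    rw [← pow_mul]; congr 1; ring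
  have e2 : Polynomial.aeval L (hh p) ^ j * ((u ^ (2 * mm p)) ^ j * Polynomial.aeval L P2) =
      (u ^ (2 * mm p) * Polynomial.aeval L (hh p)) ^ j * Polynomial.aeval L P2 := by
    rw [mul_pow]; ring
  rw [e1, e2, h1, one_pow, one_mul]

end Pool.Agent.H85.OT
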