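import Pool.Agent.H85.OT.CDef

/-!
# Row CDEN (project OT): denominators

* `den_F1`: for `1 ≤ N ≤ Y`, `N ∣ Z0 f Y * a_N`.  Check for each prime `p` dividing `N` (so `p ≤ Y`), with
  `v = v_p(N)`: if `Ord0 f p` then `p^v ≤ N ≤ Y`, so `v ≤ Nat.log p Y` and `p^v ∣ Z0`; if not, then
  `p^v ∣ a_N` by definition of `Ord0` (negated).  So the coefficient `N` of `F1` is `m/Z0`, `m ∈ ℤ`
  (`N = 0`: coefficient `0`).
* call `g : ℚ⟦X⟧` `(Y, a)`-integral if `Z0^a * coeff l g ∈ ℤ` for all `l ≤ Y`.  `F1`, `F2` are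
  `(Y,1)`-integral (`coeff (2N) F2 = coeff N F1`), `U, V` are `(Y,0)`-integral; products:
  `(Y,a)·(Y,b)` is `(Y,a+b)`.  So `GG` is `(Y, i+j)`-integral, hence `(Y, 2E)`-integral.
-/

open PowerSeries

namespace Pool.Agent.H85.OT


theorem Z0_pos (f : ℤ⟦X⟧) (Y : ℕ) : 0 < Z0 f Y := by
  classical
  unfold Z0
  refine Finset.prod_pos fun p hp => ?_
  have h := (Finset.mem_filter.1 hp).2.1
  exact pow_pos h.pos _

theorem Cden_dvd (f : ℤ⟦X⟧) (Y N : ℕ) (h1 : 1 ≤ N) (hN : N ≤ Y) :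
    (N : ℤ) ∣ (Z0 f Y : ℤ) * PowerSeries.coeff N f := by
  classical
  rw [Int.natCast_dvd, Nat.dvd_iff_prime_pow_dvd_dvd]
  intro p k hp hk
  rw [← Int.natCast_dvd, Nat.cast_pow]
  rcases Nat.eq_zero_or_pos k with rfl | hk0
  · simp
  have hpN : p ^ k ≤ N := Nat.le_of_dvd h1 hk
  by_cases ho : Ord0 f p
  · refine Dvd.dvd.mul_right ?_ _
    have hkl : k ≤ Nat.log p Y := Nat.le_log_of_pow_le hp.one_lt (hpN.trans hN)
    have hpY : p ≤ Y := (Nat.le_self_pow hk0.ne' p).trans (hpN.trans hN)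
    have hd : p ^ Nat.log p Y ∣ Z0 f Y := by
      unfold Z0
      refine Finset.dvd_prod_of_mem (fun p => p ^ Nat.log p Y) ?_
      exact Finset.mem_filter.2 ⟨Finset.mem_range.2 (by omega), hp, ho⟩
    have h2 : p ^ k ∣ Z0 f Y := (pow_dvd_pow p hkl).trans hd
    exact_mod_cast h2
  · refine Dvd.dvd.mul_left ?_ _
    unfold Ord0 at ho
    push Not at ho
    have h3 := ho N h1
    haveI := Fact.mk hp
    have hkv : k ≤ padicValNat p N := (padicValNat_dvd_iff_le (by omega)).1 hk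
    exact (pow_dvd_pow (p : ℤ) hkv).trans h3

theorem den_F1 (f : ℤ⟦X⟧) (Y N : ℕ) (hN : N ≤ Y) :
    ∃ m : ℤ, (Z0 f Y : ℚ) * PowerSeries.coeff N (F1 f) = m := by
  rcases Nat.eq_zero_or_pos N with rfl | h1
  · exact ⟨0, by simp [F1]⟩
  · obtain ⟨m, hm⟩ := Cden_dvd f Y N h1 hN
    refine ⟨m, ?_⟩
    have hN0 : (N : ℚ) ≠ 0 := by
      have : N ≠ 0 := by omega
      exact_mod_cast this
    have h2 : ((Z0 f Y : ℤ) : ℚ) * ((PowerSeries.coeff N f : ℤ) : ℚ) = ((N : ℤ) : ℚ) * (m : ℚ) := by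
      exact_mod_cast hm
    have h3 : PowerSeries.coeff N (F1 f) = ((PowerSeries.coeff N f : ℤ) : ℚ) / N := by
      rw [F1, PowerSeries.coeff_mk]
    rw [h3, mul_div_assoc', div_eq_iff hN0]
    push_cast at h2
    rw [h2]
    ring

/-- `(Y, a)`-integrality -/
def CdenI (f : ℤ⟦X⟧) (Y a : ℕ) (g : ℚ⟦X⟧) : Prop :=
  ∀ l ≤ Y, ∃ m : ℤ, (Z0 f Y : ℚ) ^ a * PowerSeries.coeff l g = m

theorem CdenI_mul {f : ℤ⟦X⟧} {Y a b : ℕ} {g h : ℚ⟦X⟧} (hg : CdenI f Y a g) (hh : CdenI f Y b h) :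
    CdenI f Y (a + b) (g * h) := by
  classical
  intro l hl
  rw [PowerSeries.coeff_mul]
  have key : ∀ p ∈ Finset.HasAntidiagonal.antidiagonal l, ∃ m : ℤ,
      (Z0 f Y : ℚ) ^ (a + b) * (PowerSeries.coeff p.1 g * PowerSeries.coeff p.2 h) = m := by
    intro p hp
    have hp' := Finset.HasAntidiagonal.mem_antidiagonal.1 hp
    obtain ⟨m1, h1⟩ := hg p.1 (by omega)
    obtain ⟨m2, h2⟩ := hh p.2 (by omega)
    refine ⟨m1 * m2, ?_⟩
    push_cast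
    rw [← h1, ← h2]
    ring
  choose! m hm using key
  refine ⟨∑ p ∈ Finset.HasAntidiagonal.antidiagonal l, m p, ?_⟩
  rw [Finset.mul_sum, Int.cast_sum]
  exact Finset.sum_congr rfl hm

theorem CdenI_map (f : ℤ⟦X⟧) (Y : ℕ) (g : ℤ⟦X⟧) :
    CdenI f Y 0 (PowerSeries.map (Int.castRingHom ℚ) g) := by
  intro l _
  refine ⟨PowerSeries.coeff l g, ?_⟩
  rw [PowerSeries.coeff_map, pow_zero, one_mul]
  rfl

theorem CdenI_one (f : ℤ⟦X⟧) (Y : ℕ) : CdenI f Y 0 1 := by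
  have h := CdenI_map f Y 1
  rwa [map_one] at h

theorem CdenI_pow {f : ℤ⟦X⟧} {Y a : ℕ} {g : ℚ⟦X⟧} (hg : CdenI f Y a g) (k : ℕ) :
    CdenI f Y (a * k) (g ^ k) := by
  induction k with
  | zero => simpa using CdenI_one f Y
  | succ k ih =>
    rw [pow_succ, Nat.mul_succ]
    exact CdenI_mul ih hg

theorem CdenI_F1 (f : ℤ⟦X⟧) (Y : ℕ) : CdenI f Y 1 (F1 f) := by
  intro l hl
  rw [pow_one]
  exact den_F1 f Y l hl

theorem CdenI_F2 (f : ℤ⟦X⟧) (Y : ℕ) : CdenI f Y 1 (F2 f) := by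
  intro l hl
  rw [pow_one, F2, dbl]
  by_cases h : 2 ∣ l
  · obtain ⟨k, rfl⟩ := h
    rw [PowerSeries.coeff_expand_mul]
    exact den_F1 f Y k (by omega)
  · rw [PowerSeries.coeff_expand_of_not_dvd _ _ _ h]
    exact ⟨0, by simp⟩

theorem CdenI_mono {f : ℤ⟦X⟧} {Y a b : ℕ} {g : ℚ⟦X⟧} (hg : CdenI f Y a g) (hab : a ≤ b) :
    CdenI f Y b g := by
  intro l hl
  obtain ⟨m, hm⟩ := hg l hl
  refine ⟨(Z0 f Y : ℤ) ^ (b - a) * m, ?_⟩
  push_cast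
  rw [← hm, ← mul_assoc, ← pow_add, Nat.sub_add_cancel hab]

theorem den_GG (f : ℤ⟦X⟧) (κ E n : ℕ) (s : Fin E × Fin E × Fin (n + 1)) (Y l : ℕ) (hl : l ≤ Y) :
    ∃ m : ℤ, (Z0 f Y : ℚ) ^ (2 * E) * PowerSeries.coeff l (GG f κ E n s) = m := by
  have hU : CdenI f Y 0 (U ℚ) := CdenI_map f Y _
  have hV : CdenI f Y 0 (V ℚ) := CdenI_map f Y _
  have h := CdenI_mul (CdenI_mul (CdenI_mul
    (CdenI_pow hU (n + κ * (2 * E - s.1 - s.2.1) - s.2.2)) (CdenI_pow hV (s.2.2 : ℕ)))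
    (CdenI_pow (CdenI_F1 f Y) (s.1 : ℕ))) (CdenI_pow (CdenI_F2 f Y) (s.2.1 : ℕ))
  have h2 := CdenI_mono (b := 2 * E) h (by
    have h3 := s.1.2
    have h4 := s.2.1.2
    omega)
  exact h2 l hl

/-- `log Z0 ≤ (number of Ord0 primes ≤ Y) * log Y`: each factor `p^(Nat.log p Y) ≤ Y` -/
theorem log_Z0_le (f : ℤ⟦X⟧) (Y : ℕ) (hY : 1 ≤ Y) :
    Real.log (Z0 f Y) ≤
      (Nat.card {p : ℕ | p ≤ Y ∧ p.Prime ∧ Ord0 f p} : ℝ) * Real.log Y := by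
  classical
  have hset : {p : ℕ | p ≤ Y ∧ p.Prime ∧ Ord0 f p} =
      (((Finset.range (Y + 1)).filter (fun p => p.Prime ∧ Ord0 f p) : Finset ℕ) : Set ℕ) := by
    ext p
    simp only [Set.mem_ofPred_eq, Finset.coe_filter, Finset.mem_range]
    constructor
    · rintro ⟨h1, h2⟩
      exact ⟨by omega, h2⟩
    · rintro ⟨h1, h2⟩
      exact ⟨by omega, h2⟩
  have hcard : Nat.card {p : ℕ | p ≤ Y ∧ p.Prime ∧ Ord0 f p} =
      ((Finset.range (Y + 1)).filter (fun p => p.Prime ∧ Ord0 f p)).card := by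
    rw [Nat.card_coe_set_eq, hset, Set.ncard_coe_finset]
  rw [hcard]
  have hlog : Real.log (Z0 f Y) = ∑ p ∈ (Finset.range (Y + 1)).filter (fun p => p.Prime ∧ Ord0 f p),
      Real.log ((p ^ Nat.log p Y : ℕ) : ℝ) := by
    unfold Z0
    rw [Nat.cast_prod]
    refine Real.log_prod fun p hp => ?_
    have h := (Finset.mem_filter.1 hp).2.1
    have h2 : p ^ Nat.log p Y ≠ 0 := (pow_pos h.pos _).ne'
    exact_mod_cast h2
  rw [hlog, ← nsmul_eq_mul]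
  refine Finset.sum_le_card_nsmul _ _ _ fun p hp => ?_
  have h := (Finset.mem_filter.1 hp).2.1
  have h1 : 0 < p ^ Nat.log p Y := pow_pos h.pos _
  refine Real.log_le_log (by exact_mod_cast h1) ?_
  have h2 : p ^ Nat.log p Y ≤ Y := Nat.pow_log_le_self p (by omega)
  exact_mod_cast h2

end Pool.Agent.H85.OT
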