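import Pool.Agent.H85.OT.Acheb

/-!
# Row AOFB (project OT): the dichotomy implies positive lower density

Let `O p → ¬ S p`, `Dich S O`.  Take `ε = 1/2`: `K ≥ 1, δ, X0`; `C1, X1` from `pi_ratio`;
`c = min δ (1/(2 C1))`.  Claim: for `X ≥ max X0 X1`, `c π(KX) ≤ cnt (¬S) (KX)`.
If not, `cnt (¬S)(KX) < c π(KX) ≤ (1/2) π(X)`.  For `X ≤ x ≤ KX`:
`cnt S x = π(x) - cnt (¬S) x ≥ π(x) - cnt (¬S)(KX) ≥ π(x) - (1/2) π(X) ≥ (1/2) π(x)` (`cnt S x + cnt (¬S) x = π(x)`),
so `δ π(KX) ≤ cnt O (KX) ≤ cnt (¬S)(KX)`, contradiction.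
General `x`: `X = x / K`, `K X ≤ x < K X + K`; `π(x) ≤ π(KX) + K ≤ 2 π(KX)` once `π(KX) ≥ K` (large `x`); so
`cnt (¬S) x ≥ cnt (¬S)(KX) ≥ c π(KX) ≥ (c/2) π(x)`.
(`Nat.primeCounting` is monotone, tends to infinity; `Nat.primeCounting x` equals the card of
`(Finset.range (x+1)).filter Nat.Prime` : `Nat.primeCounting'`, `Nat.count_eq_card_filter_range`.)
-/

namespace Pool.Agent.H85.OT

private theorem AofB_pi (x : ℕ) : Nat.primeCounting x = ((Finset.range (x + 1)).filter Nat.Prime).card := by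
  rw [Nat.primeCounting_eq_primeCounting'_succ, Nat.primeCounting', Nat.count_eq_card_filter_range]

private theorem AofB_add (S : ℕ → Prop) (x : ℕ) : cnt S x + cnt (fun p => ¬ S p) x = Nat.primeCounting x := by
  classical
  rw [AofB_pi]
  have h1 : cnt S x = (((Finset.range (x + 1)).filter Nat.Prime).filter S).card := by
    unfold cnt
    rw [Finset.filter_filter]
  have h2 : cnt (fun p => ¬ S p) x = (((Finset.range (x + 1)).filter Nat.Prime).filter (fun p => ¬ S p)).card := by
    unfold cnt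
    rw [Finset.filter_filter]
    congr!
  rw [h1, h2]
  exact Finset.card_filter_add_card_filter_not _

private theorem AofB_mono (P : ℕ → Prop) {x y : ℕ} (h : x ≤ y) : cnt P x ≤ cnt P y := by
  classical
  unfold cnt
  refine Finset.card_le_card ?_
  intro p hp
  rw [Finset.mem_filter] at hp ⊢
  exact ⟨Finset.mem_range.2 (by have := Finset.mem_range.1 hp.1; omega), hp.2⟩

private theorem AofB_imp (P Q : ℕ → Prop) (h : ∀ p, P p → Q p) (x : ℕ) : cnt P x ≤ cnt Q x := by
  classical
  unfold cnt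
  refine Finset.card_le_card ?_
  intro p hp
  rw [Finset.mem_filter] at hp ⊢
  exact ⟨hp.1, hp.2.1, h p hp.2.2⟩

private theorem AofB_step (a b : ℕ) : Nat.primeCounting (a + b) ≤ Nat.primeCounting a + b := by
  induction b with
  | zero => simp
  | succ b ih =>
    have h1 : Nat.primeCounting (a + (b + 1)) ≤ Nat.primeCounting (a + b) + 1 := by
      rw [Nat.primeCounting_eq_primeCounting'_succ, Nat.primeCounting_eq_primeCounting'_succ,
        Nat.primeCounting', ← add_assoc, Nat.count_succ]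
      split_ifs <;> omega
    omega

theorem posLower_of_dich (S O : ℕ → Prop) (hSO : ∀ p, O p → ¬ S p) (h : Dich S O) :
    PosLower (fun p => ¬ S p) := by
  obtain ⟨K, hK, δ, hδ, X0, hX0⟩ := h (1 / 2) (by norm_num)
  obtain ⟨C1, hC1, X1, hX1⟩ := pi_ratio K hK
  have hc0 : 0 < min δ (1 / (2 * C1)) := lt_min hδ (by positivity)
  have hcδ : min δ (1 / (2 * C1)) ≤ δ := min_le_left _ _
  have hcC : min δ (1 / (2 * C1)) ≤ 1 / (2 * C1) := min_le_right _ _
  generalize min δ (1 / (2 * C1)) = c at hc0 hcδ hcC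
  have claim : ∀ X ≥ max X0 X1, c * (Nat.primeCounting (K * X) : ℝ) ≤ cnt (fun p => ¬ S p) (K * X) := by
    intro X hX
    by_contra hcon
    rw [not_le] at hcon
    have hp0 : (0 : ℝ) ≤ (Nat.primeCounting (K * X) : ℝ) := Nat.cast_nonneg _
    have h1 : c * (Nat.primeCounting (K * X) : ℝ) ≤ (Nat.primeCounting X : ℝ) / 2 := by
      have h2 := hX1 X ((le_max_right _ _).trans hX)
      calc c * (Nat.primeCounting (K * X) : ℝ) ≤ 1 / (2 * C1) * (Nat.primeCounting (K * X) : ℝ) :=
            mul_le_mul_of_nonneg_right hcC hp0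
        _ ≤ 1 / (2 * C1) * (C1 * Nat.primeCounting X) := mul_le_mul_of_nonneg_left h2 (by positivity)
        _ = (Nat.primeCounting X : ℝ) / 2 := by
          field_simp
    have h3 := hX0 X ((le_max_left _ _).trans hX) (fun x hx1 hx2 => by
      have h4 : (cnt S x : ℝ) + (cnt (fun p => ¬ S p) x : ℝ) = (Nat.primeCounting x : ℝ) := by
        exact_mod_cast AofB_add S x
      have h5 : (cnt (fun p => ¬ S p) x : ℝ) ≤ (cnt (fun p => ¬ S p) (K * X) : ℝ) := by
        exact_mod_cast AofB_mono _ hx2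
      have h6 : (Nat.primeCounting X : ℝ) ≤ (Nat.primeCounting x : ℝ) := by
        exact_mod_cast Nat.monotone_primeCounting hx1
      linarith)
    have h7 : (cnt O (K * X) : ℝ) ≤ (cnt (fun p => ¬ S p) (K * X) : ℝ) := by
      exact_mod_cast AofB_imp O _ hSO (K * X)
    have h8 : c * (Nat.primeCounting (K * X) : ℝ) ≤ δ * (Nat.primeCounting (K * X) : ℝ) :=
      mul_le_mul_of_nonneg_right hcδ hp0
    linarith
  obtain ⟨n0, hn0⟩ := Filter.eventually_atTop.1
    (Nat.tendsto_primeCounting.eventually (Filter.eventually_ge_atTop K))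
  refine ⟨c / 2, by positivity, K * max X0 X1 + n0 + K, fun x hx => ?_⟩
  have hXge : max X0 X1 ≤ x / K := by
    rw [Nat.le_div_iff_mul_le (by omega), mul_comm]
    omega
  have hdiv : K * (x / K) + x % K = x := Nat.div_add_mod x K
  have hmod : x % K < K := Nat.mod_lt _ (by omega)
  generalize x / K = X at hXge hdiv
  have h1 := claim X hXge
  have h2 : Nat.primeCounting x ≤ Nat.primeCounting (K * X) + K := by
    have h3 := AofB_step (K * X) (x % K)
    rw [hdiv] at h3
    omega
  have h3 : K ≤ Nat.primeCounting (K * X) := by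
    apply hn0
    omega
  have h4 : (Nat.primeCounting x : ℝ) ≤ 2 * (Nat.primeCounting (K * X) : ℝ) := by
    have h5 : Nat.primeCounting x ≤ 2 * Nat.primeCounting (K * X) := by omega
    exact_mod_cast h5
  have h6 : (cnt (fun p => ¬ S p) (K * X) : ℝ) ≤ (cnt (fun p => ¬ S p) x : ℝ) := by
    exact_mod_cast AofB_mono _ (by omega)
  have h7 : c / 2 * (Nat.primeCounting x : ℝ) ≤ c / 2 * (2 * (Nat.primeCounting (K * X) : ℝ)) :=
    mul_le_mul_of_nonneg_left h4 (by positivity)
  linarith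

end Pool.Agent.H85.OT
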