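import Pool.Agent.H85.OT.ADef

/-!
# Row ALOW (project OT): many primes have a large sum of logarithms

For large `x` with `Nat.sqrt x ≥ p0`: put `s = Nat.sqrt x`.  The primes `p ≤ x` with `P p` and `p > s`
number at least `cnt P x - s ≥ ε π(x) - s`, and each has `p ≥ s + 1 > √x`, so `log p ≥ (1/2) log x`.  So the
sum is at least `(1/2)(ε π(x) - √x) log x` and `π(x) log x ≥ x log 2 - log (x+1)` (`Chebyshev.pi_ge`).
`(ε/2)(x log 2 - log(x+1)) - (1/2) √x log x ≥ (ε/8) x` for large `x` (`log 2 > 1/2`; `log (x+1) = o(x)`,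
`√x log x = o(x)`).
-/

namespace Pool.Agent.H85.OT


theorem Alow_ev (ε : ℝ) (hε : 0 < ε) :
    ∃ x1 : ℕ, ∀ x : ℕ, x1 ≤ x →
      (ε / 2) * Real.log (x + 1) + (1 / 2) * (Real.sqrt x * Real.log x) ≤ ε / 8 * x := by
  have h0 := isLittleO_log_rpow_atTop (show (0 : ℝ) < 1 / 2 by norm_num)
  have hc : 0 < ε / (8 * (ε + 1 / 2)) := by positivity
  have h1 := h0.bound hc
  rw [Filter.eventually_atTop] at h1
  obtain ⟨M, hM⟩ := h1
  obtain ⟨n, hn⟩ := exists_nat_ge M
  refine ⟨max n 2, fun x hx => ?_⟩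
  have hx2 : 2 ≤ x := le_trans (le_max_right _ _) hx
  have hxn : n ≤ x := le_trans (le_max_left _ _) hx
  have hx2' : (2 : ℝ) ≤ (x : ℝ) := by exact_mod_cast hx2
  have hxn' : (n : ℝ) ≤ (x : ℝ) := by exact_mod_cast hxn
  have h2 := hM x (hn.trans hxn')
  have hlog0 : 0 ≤ Real.log x := Real.log_nonneg (by linarith)
  rw [Real.norm_of_nonneg hlog0, Real.norm_of_nonneg (by positivity), ← Real.sqrt_eq_rpow] at h2
  have hs1 : 1 ≤ Real.sqrt x := by
    rw [Real.one_le_sqrt]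
    linarith
  have hss : Real.sqrt x * Real.sqrt x = x := Real.mul_self_sqrt (by linarith)
  have h3 : Real.sqrt x * Real.log x ≤ ε / (8 * (ε + 1 / 2)) * x := by
    calc Real.sqrt x * Real.log x
        ≤ Real.sqrt x * (ε / (8 * (ε + 1 / 2)) * Real.sqrt x) :=
          mul_le_mul_of_nonneg_left h2 (by linarith)
      _ = ε / (8 * (ε + 1 / 2)) * (Real.sqrt x * Real.sqrt x) := by ring
      _ = ε / (8 * (ε + 1 / 2)) * x := by rw [hss]
  have h4 : Real.log (x + 1) ≤ 2 * (Real.sqrt x * Real.log x) := by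
    have h5 : Real.log ((x : ℝ) + 1) ≤ Real.log ((x : ℝ) ^ 2) := by
      refine Real.log_le_log (by linarith) ?_
      nlinarith
    rw [Real.log_pow] at h5
    push_cast at h5
    have h6 : Real.log x ≤ Real.sqrt x * Real.log x := by
      have := mul_le_mul_of_nonneg_right hs1 hlog0
      linarith
    linarith
  have h7 : (ε + 1 / 2) * (Real.sqrt x * Real.log x) ≤ ε / 8 * x := by
    calc (ε + 1 / 2) * (Real.sqrt x * Real.log x)
        ≤ (ε + 1 / 2) * (ε / (8 * (ε + 1 / 2)) * x) :=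
          mul_le_mul_of_nonneg_left h3 (by linarith)
      _ = ε / 8 * x := by
          field_simp
  have h8 := mul_le_mul_of_nonneg_left h4 (show 0 ≤ ε / 2 by linarith)
  linarith

open Classical in
theorem low (P : ℕ → Prop) (ε : ℝ) (hε : 0 < ε) (p0 : ℕ) :
    ∃ x1 : ℕ, ∀ x ≥ x1, ε * (Nat.primeCounting x : ℝ) ≤ cnt P x →
      ε / 8 * x ≤ ∑ p ∈ (Finset.range (x + 1)).filter (fun p => p.Prime ∧ p0 < p ∧ P p),
        Real.log p := by
  obtain ⟨x2, hx2⟩ := Alow_ev ε hε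
  refine ⟨max x2 (max 2 (p0 * p0)), fun x hx hcnt => ?_⟩
  have hxa : x2 ≤ x := le_trans (le_max_left _ _) hx
  have hxb : 2 ≤ x := le_trans (le_trans (le_max_left _ _) (le_max_right _ _)) hx
  have hxc : p0 * p0 ≤ x := le_trans (le_trans (le_max_right _ _) (le_max_right _ _)) hx
  have hev := hx2 x hxa
  obtain ⟨s, hs⟩ : ∃ s : ℕ, s = Nat.sqrt x := ⟨_, rfl⟩
  have hsp : p0 ≤ s := by
    rw [hs]
    exact Nat.le_sqrt.2 hxc
  have hs1 : x < (s + 1) * (s + 1) := by
    rw [hs]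
    exact Nat.lt_succ_sqrt x
  have hs2 : s * s ≤ x := by
    rw [hs]
    exact Nat.sqrt_le x
  obtain ⟨B, hB⟩ : ∃ B : Finset ℕ, B = (Finset.range (x + 1)).filter
    (fun p => p.Prime ∧ p0 < p ∧ P p) := ⟨_, rfl⟩
  rw [← hB]
  obtain ⟨C, hC⟩ : ∃ C : Finset ℕ, C = B.filter (fun p => s < p) := ⟨_, rfl⟩
  have hcard : cnt P x ≤ C.card + s := by
    have h1 : (Finset.range (x + 1)).filter (fun p => p.Prime ∧ P p) ⊆ C ∪ Finset.Icc 1 s := by
      intro p hp
      obtain ⟨hp1, hp2, hp3⟩ := Finset.mem_filter.1 hp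
      rw [Finset.mem_union]
      by_cases h : s < p
      · left
        rw [hC, Finset.mem_filter, hB, Finset.mem_filter]
        exact ⟨⟨hp1, hp2, by omega, hp3⟩, h⟩
      · right
        rw [Finset.mem_Icc]
        exact ⟨hp2.one_lt.le, by omega⟩
    calc cnt P x ≤ (C ∪ Finset.Icc 1 s).card := Finset.card_le_card h1
      _ ≤ C.card + (Finset.Icc 1 s).card := Finset.card_union_le _ _
      _ = C.card + s := by rw [Nat.card_Icc]; omega
  have hx2' : (2 : ℝ) ≤ (x : ℝ) := by exact_mod_cast hxb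
  have hlog0 : 0 < Real.log x := Real.log_pos (by linarith)
  have hCsum : (C.card : ℝ) * (1 / 2 * Real.log x) ≤ ∑ p ∈ C, Real.log p := by
    rw [← nsmul_eq_mul]
    refine Finset.card_nsmul_le_sum _ _ _ fun p hp => ?_
    rw [hC, Finset.mem_filter] at hp
    have h1 : s + 1 ≤ p := hp.2
    have h2 : x ≤ p ^ 2 := by
      have := Nat.mul_le_mul h1 h1
      rw [pow_two]
      omega
    have h3 : Real.log (x : ℝ) ≤ Real.log ((p : ℝ) ^ 2) := by
      refine Real.log_le_log (by linarith) ?_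
      exact_mod_cast h2
    rw [Real.log_pow] at h3
    push_cast at h3
    linarith
  have hBC : ∑ p ∈ C, Real.log (p : ℝ) ≤ ∑ p ∈ B, Real.log (p : ℝ) := by
    refine Finset.sum_le_sum_of_subset_of_nonneg ?_ fun p hp _ => ?_
    · rw [hC]
      exact Finset.filter_subset _ _
    · rw [hB, Finset.mem_filter] at hp
      exact Real.log_natCast_nonneg p
  have hpi := Chebyshev.pi_ge x
  rw [div_le_iff₀ hlog0] at hpi
  have hssq : (s : ℝ) ≤ Real.sqrt x := by
    apply Real.le_sqrt_of_sq_le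
    rw [pow_two]
    exact_mod_cast hs2
  have hcard' : (cnt P x : ℝ) ≤ C.card + s := by exact_mod_cast hcard
  have hl2 : (1 / 2 : ℝ) < Real.log 2 := by
    have := Real.log_two_gt_d9
    linarith
  have h1 : ε * (Nat.primeCounting x : ℝ) - Real.sqrt x ≤ C.card := by linarith
  have h2 := mul_le_mul_of_nonneg_right h1 (show 0 ≤ 1 / 2 * Real.log x by linarith)
  have h3 := mul_le_mul_of_nonneg_left hpi (show 0 ≤ ε / 2 by linarith)
  have h4 : ε / 2 * (x * (1 / 2)) ≤ ε / 2 * (x * Real.log 2) := by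
    refine mul_le_mul_of_nonneg_left (mul_le_mul_of_nonneg_left hl2.le (by linarith)) (by linarith)
  have h5 : (ε * (Nat.primeCounting x : ℝ) - Real.sqrt x) * (1 / 2 * Real.log x) =
      ε / 2 * ((Nat.primeCounting x : ℝ) * Real.log x) - 1 / 2 * (Real.sqrt x * Real.log x) := by
    ring
  have h6 : ε / 2 * ((x : ℝ) * Real.log 2 - Real.log (x + 1)) =
      ε / 2 * (x * Real.log 2) - ε / 2 * Real.log (x + 1) := by ring
  have h7 : ε / 2 * ((x : ℝ) * (1 / 2)) = ε / 4 * x := by ring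
  have h8 : ε / 4 * (x : ℝ) = ε / 8 * x + ε / 8 * x := by ring
  linarith

end Pool.Agent.H85.OT
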