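import Pool.Agent.H85.OT.OrdL

/-!
# Definitions for part IV of the project OT (the auxiliary function)

* `F1 f = ∑ (a_n/n) q^n`, `F2 f = F1(q²)`, power series over `ℚ`;
* `GG f κ E n (i,j,e) = U^(n + κ(2E-i-j) - e) V^e F1^i F2^j` (`i, j < E`, `e ≤ n`);
* `Phi f κ E n t = ∑ t_s GG_s`;
* `Z0 f Y = ∏_{p ≤ Y, Ord0 f p} p^⌊log_p Y⌋`;
* `Bd ρ B g`: all partial sums of `∑ |g_n| ρ^n` are `≤ B`;
* `MR ρ = 4/(1-ρ)²`.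
-/

open PowerSeries

namespace Pool.Agent.H85.OT

/-- `∑ (a_n/n) q^n` (coefficient `0` is `0`) -/
noncomputable def F1 (f : ℤ⟦X⟧) : ℚ⟦X⟧ :=
  PowerSeries.mk fun n => ((PowerSeries.coeff n f : ℤ) : ℚ) / n

/-- `F1(q²)` -/
noncomputable def F2 (f : ℤ⟦X⟧) : ℚ⟦X⟧ := dbl ℚ (F1 f)

/-- the functions `U^(n + κ(2E-i-j) - e) V^e F1^i F2^j` -/
noncomputable def GG (f : ℤ⟦X⟧) (κ E n : ℕ) (s : Fin E × Fin E × Fin (n + 1)) : ℚ⟦X⟧ :=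
  U ℚ ^ (n + κ * (2 * E - s.1 - s.2.1) - s.2.2) * V ℚ ^ (s.2.2 : ℕ) *
    F1 f ^ (s.1 : ℕ) * F2 f ^ (s.2.1 : ℕ)

/-- integer combinations of the `GG` -/
noncomputable def Phi (f : ℤ⟦X⟧) (κ E n : ℕ) (t : Fin E × Fin E × Fin (n + 1) → ℤ) : ℚ⟦X⟧ :=
  ∑ s, PowerSeries.C (t s : ℚ) * GG f κ E n s

open Classical in
/-- `∏_{p ≤ Y, Ord0 f p} p^⌊log_p Y⌋` -/
noncomputable def Z0 (f : ℤ⟦X⟧) (Y : ℕ) : ℕ :=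
  ∏ p ∈ (Finset.range (Y + 1)).filter (fun p => p.Prime ∧ Ord0 f p), p ^ Nat.log p Y

/-- all partial sums of `∑ |g_n| ρ^n` are `≤ B` -/
def Bd (ρ B : ℝ) (g : ℚ⟦X⟧) : Prop :=
  ∀ N : ℕ, ∑ n ∈ Finset.range N, |((PowerSeries.coeff n g : ℚ) : ℝ)| * ρ ^ n ≤ B

/-- `4/(1-ρ)²` -/
noncomputable def MR (ρ : ℝ) : ℝ := 4 / (1 - ρ) ^ 2

open Classical in
/-- the primes `p` with `p0 < p`, `Sl2 f p` and `n + 2 κ p E < T` -/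
noncomputable def SS (f : ℤ⟦X⟧) (κ E n p0 T : ℕ) : Finset ℕ :=
  (Finset.range T).filter (fun p => p.Prime ∧ p0 < p ∧ Sl2 f p ∧ n + 2 * κ * p * E < T)

end Pool.Agent.H85.OT
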