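import Pool.Agent.H85.OT.ZDef

/-!
# Row ZEXT (project OT): extension of a `ZD` structure to `R[X]`

`Z'`: `ev' P = eval₂ ev T P`, `d' = dext d g`, `B' n e P := natDegree P ≤ e ∧ ∀ i, B n e (P.coeff i)`.
* `ev'(d' P) = del (ev' P)`: both sides are derivations over `ev'` (additive and Leibniz), so it is
  enough to check on `C a` (`ev_d`, `dext_C`) and `X` (`hT`, `dext_X`)
  (`Polynomial.induction_on`).
* integer multiples: `B n e r → B n e (k * r)` for `k : ℕ`, by induction from `B_zero`-`B_mono`, `B_add`.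
* products: `natDegree (P*Q) ≤ e + e'`; the coefficients are sums over an antidiagonal of
  elements of `B (n+n') (e+e')`.
* `d' P = mapc d P + g P'`: coefficient `i` of `mapc d P` lies in `B (n+c) (e+c)`; the coefficients of `P'`
  are integer multiples of those of `P`, those of `g P'` lie in `B (n + c1) (e + c1)`;
  `natDegree ≤ e + 1` since `natDegree g ≤ 2` (if `natDegree P = 0` then `P' = 0`, else
  `natDegree P' ≤ natDegree P - 1`).  Take `c' = max c (max c1 1)` or `c + c1 + 1`.
-/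

open PowerSeries

namespace Pool.Agent.H85.OT

private theorem Zext_sum {K : Type*} [Field K] {R : Type*} [CommRing R] (Z : ZD K R) {ι : Type*} {n e : ℕ}
    (s : Finset ι) (f : ι → R) (h : ∀ i ∈ s, Z.B n e (f i)) : Z.B n e (∑ i ∈ s, f i) := by
  classical
  induction s using Finset.induction_on with
  | empty =>
    rw [Finset.sum_empty]
    exact Z.B_mono (Nat.zero_le _) (Nat.zero_le _) Z.B_zero
  | insert a s ha ih =>
    rw [Finset.sum_insert ha]
    exact Z.B_add (h a (Finset.mem_insert_self _ _)) (ih fun i hi => h i (Finset.mem_insert_of_mem hi))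

private theorem Zext_nat {K : Type*} [Field K] {R : Type*} [CommRing R] (Z : ZD K R) {n e : ℕ} {r : R}
    (h : Z.B n e r) (k : ℕ) : Z.B n e ((k : R) * r) := by
  induction k with
  | zero =>
    rw [Nat.cast_zero, zero_mul]
    exact Z.B_mono (Nat.zero_le _) (Nat.zero_le _) Z.B_zero
  | succ k ih =>
    rw [Nat.cast_succ, add_mul, one_mul]
    exact Z.B_add ih h

private theorem Zext_ev {K : Type*} [Field K] {R : Type*} [CommRing R] (Z : ZD K R)
    (g : Polynomial R) (T : K⟦X⟧) (hT : del K T = g.eval₂ Z.ev T) (P : Polynomial R) :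
    (dext Z.d g P).eval₂ Z.ev T = del K (P.eval₂ Z.ev T) := by
  have hmul : ∀ P Q : Polynomial R, (dext Z.d g P).eval₂ Z.ev T = del K (P.eval₂ Z.ev T) →
      (dext Z.d g Q).eval₂ Z.ev T = del K (Q.eval₂ Z.ev T) →
      (dext Z.d g (P * Q)).eval₂ Z.ev T = del K ((P * Q).eval₂ Z.ev T) := by
    intro P Q hP hQ
    rw [Dv.map_mul, Polynomial.eval₂_add, Polynomial.eval₂_mul, Polynomial.eval₂_mul, Polynomial.eval₂_mul,
      Dv.map_mul, hP, hQ]
  have hC : ∀ a : R, (dext Z.d g (Polynomial.C a)).eval₂ Z.ev T = del K ((Polynomial.C a).eval₂ Z.ev T) := by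
    intro a
    rw [dext_C, Polynomial.eval₂_C, Polynomial.eval₂_C, Z.ev_d]
  have hX : (dext Z.d g Polynomial.X).eval₂ Z.ev T = del K ((Polynomial.X : Polynomial R).eval₂ Z.ev T) := by
    rw [dext_X, Polynomial.eval₂_X, hT]
  induction P using Polynomial.induction_on with
  | C a => exact hC a
  | add P Q hP hQ => rw [Dv.map_add, Polynomial.eval₂_add, Polynomial.eval₂_add, Dv.map_add, hP, hQ]
  | monomial n a h =>
    rw [pow_succ, ← mul_assoc]
    exact hmul _ _ h hX

private theorem Zext_deg {R : Type*} [CommRing R] (d : Dv R) (P : Polynomial R) :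
    (mapc d P).natDegree ≤ P.natDegree := by
  rw [Polynomial.natDegree_le_iff_coeff_eq_zero]
  intro N hN
  rw [coeff_mapc, Polynomial.coeff_eq_zero_of_natDegree_lt hN, d.map_zero]

theorem exists_ext {K : Type*} [Field K] {R : Type*} [CommRing R] (Z : ZD K R)
    (g : Polynomial R) (hg : g.natDegree ≤ 2) (c1 : ℕ) (hgB : ∀ i, Z.B c1 c1 (g.coeff i))
    (T : K⟦X⟧) (hT : del K T = g.eval₂ Z.ev T) :
    ∃ Z' : ZD K (Polynomial R), Z'.d = dext Z.d g ∧
      (∀ P, Z'.ev P = P.eval₂ Z.ev T) ∧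
      (∀ n e P, Z'.B n e P ↔ (P.natDegree ≤ e ∧ ∀ i, Z.B n e (P.coeff i))) := by
  refine ⟨{
    ev := Polynomial.eval₂RingHom Z.ev T
    d := dext Z.d g
    ev_d := fun P => Zext_ev Z g T hT P
    B := fun n e P => P.natDegree ≤ e ∧ ∀ i, Z.B n e (P.coeff i)
    c := Z.c + c1 + 2
    B_mono := ?_
    B_zero := ?_
    B_one := ?_
    B_add := ?_
    B_neg := ?_
    B_mul := ?_
    B_d := ?_ }, rfl, fun P => rfl, fun n e P => Iff.rfl⟩
  · intro n n' e e' P hn he hP
    exact ⟨hP.1.trans he, fun i => Z.B_mono hn he (hP.2 i)⟩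
  · refine ⟨by simp, fun i => ?_⟩
    rw [Polynomial.coeff_zero]
    exact Z.B_zero
  · refine ⟨by simp, fun i => ?_⟩
    rw [Polynomial.coeff_one]
    split_ifs
    · exact Z.B_one
    · exact Z.B_zero
  · intro n e P Q hP hQ
    refine ⟨Polynomial.natDegree_add_le_of_degree_le hP.1 hQ.1, fun i => ?_⟩
    rw [Polynomial.coeff_add]
    exact Z.B_add (hP.2 i) (hQ.2 i)
  · intro n e P hP
    refine ⟨by rw [Polynomial.natDegree_neg]; exact hP.1, fun i => ?_⟩
    rw [Polynomial.coeff_neg]
    exact Z.B_neg (hP.2 i)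
  · intro n e n' e' P Q hP hQ
    refine ⟨Polynomial.natDegree_mul_le.trans (Nat.add_le_add hP.1 hQ.1), fun i => ?_⟩
    rw [Polynomial.coeff_mul]
    exact Zext_sum Z _ _ fun x _ => Z.B_mul (hP.2 x.1) (hQ.2 x.2)
  · intro n e P hP
    have hd1 : (g * Polynomial.derivative P).natDegree ≤ e + (Z.c + c1 + 2) := by
      refine Polynomial.natDegree_mul_le.trans ?_
      have h1 := Polynomial.natDegree_derivative_le P
      have h2 := hP.1
      omega
    refine ⟨?_, fun i => ?_⟩
    · rw [dext_apply]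
      refine Polynomial.natDegree_add_le_of_degree_le ?_ hd1
      have h1 := Zext_deg Z.d P
      have h2 := hP.1
      omega
    · rw [coeff_dext]
      refine Z.B_add (Z.B_mono (by omega) (by omega) (Z.B_d (hP.2 i))) ?_
      rw [Polynomial.coeff_mul]
      refine Zext_sum Z _ _ fun x _ => ?_
      rw [Polynomial.coeff_derivative]
      have h1 : Z.B n e (((x.2 + 1 : ℕ) : R) * P.coeff (x.2 + 1)) := Zext_nat Z (hP.2 _) _
      have h2 := Z.B_mul (hgB x.1) h1
      have h3 : g.coeff x.1 * (P.coeff (x.2 + 1) * ((x.2 : R) + 1)) =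
          g.coeff x.1 * (((x.2 + 1 : ℕ) : R) * P.coeff (x.2 + 1)) := by
        push_cast
        ring
      rw [h3]
      exact Z.B_mono (by omega) (by omega) h2

end Pool.Agent.H85.OT
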