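import Pool.Agent.H85.OT.ZDef

/-!
# Row ZLIN (project OT): the zero estimate passes to a linear extension

Claim, by induction on `k`: for all `e` there is `C` such that for all `n` and all `P : R[X]` with
`natDegree P ≤ k`, all coefficients in `B n e`, `P ≠ 0`, some coefficient `l ≤ C (n+1)` of `ev' P` is
nonzero.  (`Zest` for `Z'` at `e`: take `k = e`.)
* `k = 0`: `P = C a`, `ev' P = ev a`, `Zest` for `Z`.
* `k + 1`: if `natDegree P ≤ k` use the induction hypothesis.  Otherwise `natDegree P = r = k + 1 ≥ 1`,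
  leading coefficient `p_r ≠ 0`.  Put
  `P1 = C p_r * d' P - C (d p_r + r β p_r) * P`.
  By `coeff_dext_lin` the coefficient of `X^r` in `d' P` is `d p_r + r β p_r` and higher ones vanish, so
  `natDegree P1 ≤ k`.  `P1 ≠ 0`: otherwise the coefficient of `X^(r-1)` gives
  `p_r (d p_(r-1) + r α p_r + (r-1) β p_(r-1)) = (d p_r + r β p_r) p_(r-1)`, i.e.
  `p_r d p_(r-1) - p_(r-1) d p_r = β p_(r-1) p_r - r α p_r²`, and then
  `q = r p_r`, `p = - p_(r-1)` satisfy `q dp - p dq = α q² + β p q` and `q ≠ 0` (`CharZero`, domain),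
  contradicting `NS`.
  The coefficients of `P1` lie in `B (2n + c2) (2e + c2)` for a constant `c2` depending only on
  `Z.c, c1` (integer multiples of elements of `B n e` are in `B n e`).  By the induction
  hypothesis (for `e' = 2e + c2`) there is `l ≤ C' (2n + c2 + 1)` with coefficient `l` of `ev' P1` nonzero.
  If all coefficients `≤ l` of `ev' P` vanished, so would those of `ev' (d' P) = del (ev' P)` (`Van.del`) and of
  `ev' P1` (`Van.mul`, `Van.sub`).  So some coefficient `≤ l` of `ev' P` is nonzero;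
  `C = C' (2 + c2 + 1)` works as `2n + c2 + 1 ≤ (c2 + 3)(n+1)`.
-/

open PowerSeries

namespace Pool.Agent.H85.OT

theorem Zlin_nat {K : Type*} [Field K] {R : Type*} [CommRing R] (Z : ZD K R) {n e : ℕ} {r : R}
    (h : Z.B n e r) (m : ℕ) : Z.B n e ((m : R) * r) := by
  induction m with
  | zero =>
    rw [Nat.cast_zero, zero_mul]
    exact Z.B_mono (Nat.zero_le _) (Nat.zero_le _) Z.B_zero
  | succ m ih =>
    rw [Nat.cast_succ, add_mul, one_mul]
    exact Z.B_add ih h

theorem Zlin_sub {K : Type*} [Field K] {R : Type*} [CommRing R] (Z : ZD K R) {n e : ℕ} {r s : R}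
    (h : Z.B n e r) (h' : Z.B n e s) : Z.B n e (r - s) := by
  rw [sub_eq_add_neg]
  exact Z.B_add h (Z.B_neg h')

theorem Zlin_main {K : Type*} [Field K] {R : Type*} [CommRing R] [IsDomain R] [CharZero R]
    (Z : ZD K R) (hZ : Z.Zest) (α β : R) (c1 : ℕ) (hα : Z.B c1 c1 α) (hβ : Z.B c1 c1 β)
    (hNS : NS Z.d α β) (Z' : ZD K (Polynomial R))
    (hd : Z'.d = dext Z.d (Polynomial.C α + Polynomial.C β * Polynomial.X))
    (hev : ∀ a, Z'.ev (Polynomial.C a) = Z.ev a) (k : ℕ) :
    ∀ e : ℕ, ∃ C : ℕ, ∀ (n : ℕ) (P : Polynomial R), P.natDegree ≤ k →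
      (∀ i, Z.B n e (P.coeff i)) → P ≠ 0 →
      ∃ l ≤ C * (n + 1), PowerSeries.coeff l (Z'.ev P) ≠ 0 := by
  induction k with
  | zero =>
    intro e
    obtain ⟨C, hC⟩ := hZ e
    refine ⟨C, fun n P hP hPB hP0 => ?_⟩
    have hPC := Polynomial.eq_C_of_natDegree_le_zero hP
    have h0 : P.coeff 0 ≠ 0 := by
      intro h0
      rw [h0, Polynomial.C_0] at hPC
      exact hP0 hPC
    obtain ⟨l, hl, h1⟩ := hC n (P.coeff 0) (hPB 0) h0
    refine ⟨l, hl, ?_⟩
    rw [hPC, hev]
    exact h1
  | succ k ih =>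
    intro e
    obtain ⟨C', hC'⟩ := ih (2 * e + (Z.c + c1))
    refine ⟨C' * ((Z.c + c1) + 2), fun n P hP hPB hP0 => ?_⟩
    by_cases hk : P.natDegree ≤ k
    · obtain ⟨l, hl, h1⟩ := hC' n P hk (fun i => Z.B_mono le_rfl (by omega) (hPB i)) hP0
      refine ⟨l, hl.trans ?_, h1⟩
      refine Nat.mul_le_mul_right _ ?_
      exact Nat.le_mul_of_pos_right _ (by omega)
    · have hr : P.natDegree = k + 1 := by omega
      obtain ⟨pr, hpr⟩ : ∃ x, x = P.coeff (k + 1) := ⟨_, rfl⟩
      have hpr0 : pr ≠ 0 := by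
        rw [hpr, ← hr]
        exact fun h => hP0 (Polynomial.leadingCoeff_eq_zero.1 h)
      have hvan : ∀ i, k + 1 < i → P.coeff i = 0 := fun i hi =>
        Polynomial.coeff_eq_zero_of_natDegree_lt (by omega)
      obtain ⟨γ, hγ⟩ : ∃ x, x = Z.d pr + ((k + 1 : ℕ) : R) * (β * pr) := ⟨_, rfl⟩
      obtain ⟨P1, hP1⟩ : ∃ Q : Polynomial R, Q = Polynomial.C pr * Z'.d P - Polynomial.C γ * P := ⟨_, rfl⟩
      have hco : ∀ i, P1.coeff i = pr * (Z.d (P.coeff i) + ((i : R) + 1) * α * P.coeff (i + 1) +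
          (i : R) * β * P.coeff i) - γ * P.coeff i := by
        intro i
        rw [hP1, hd, Polynomial.coeff_sub, Polynomial.coeff_C_mul, Polynomial.coeff_C_mul,
          coeff_dext_lin]
      have hdeg : P1.natDegree ≤ k := by
        rw [Polynomial.natDegree_le_iff_coeff_eq_zero]
        intro i hi
        rw [hco]
        rcases Nat.lt_or_ge (k + 1) i with h | h
        · rw [hvan i h, hvan (i + 1) (by omega), Z.d.map_zero]
          ring
        · have hik : i = k + 1 := by omega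
          rw [hik, hvan (k + 1 + 1) (by omega), ← hpr, hγ]
          push_cast
          ring
      have hP10 : P1 ≠ 0 := by
        intro h0
        have h1 := hco k
        rw [h0, Polynomial.coeff_zero, ← hpr, hγ] at h1
        have hq : (((k + 1 : ℕ) : R) * pr) ≠ 0 :=
          mul_ne_zero (Nat.cast_ne_zero.2 (Nat.succ_ne_zero k)) hpr0
        refine hNS (-P.coeff k) (((k + 1 : ℕ) : R) * pr) hq ?_
        rw [Z.d.map_neg, Z.d.map_mul, Z.d.map_natCast]
        push_cast at h1 ⊢
        linear_combination ((k : R) + 1) * h1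
      have hB1 : ∀ i, Z.B (2 * n + (Z.c + c1)) (2 * e + (Z.c + c1)) (P1.coeff i) := by
        intro i
        rw [hco]
        have hb1 : Z.B (n + (Z.c + c1)) (e + (Z.c + c1)) γ := by
          rw [hγ]
          refine Z.B_add ?_ ?_
          · rw [hpr]
            exact Z.B_mono (by omega) (by omega) (Z.B_d (hPB (k + 1)))
          · refine Zlin_nat Z ?_ _
            rw [hpr]
            exact Z.B_mono (by omega) (by omega) (Z.B_mul hβ (hPB (k + 1)))
        have hb2 : Z.B (n + (Z.c + c1)) (e + (Z.c + c1)) (Z.d (P.coeff i) +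
            ((i : R) + 1) * α * P.coeff (i + 1) + (i : R) * β * P.coeff i) := by
          refine Z.B_add (Z.B_add ?_ ?_) ?_
          · exact Z.B_mono (by omega) (by omega) (Z.B_d (hPB i))
          · have e1 : ((i : R) + 1) * α * P.coeff (i + 1) =
                ((i + 1 : ℕ) : R) * (α * P.coeff (i + 1)) := by
              push_cast
              ring
            rw [e1]
            refine Zlin_nat Z ?_ _
            exact Z.B_mono (by omega) (by omega) (Z.B_mul hα (hPB (i + 1)))
          · rw [mul_assoc]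
            refine Zlin_nat Z ?_ _
            exact Z.B_mono (by omega) (by omega) (Z.B_mul hβ (hPB i))
        refine Zlin_sub Z ?_ ?_
        · rw [hpr]
          exact Z.B_mono (by omega) (by omega) (Z.B_mul (hPB (k + 1)) hb2)
        · exact Z.B_mono (by omega) (by omega) (Z.B_mul hb1 (hPB i))
      obtain ⟨l, hl, h1⟩ := hC' (2 * n + (Z.c + c1)) P1 hdeg hB1 hP10
      have hnv : ¬ Van l (Z'.ev P) := by
        intro hv
        apply h1
        have h2 : Z'.ev P1 = Z'.ev (Polynomial.C pr) * del K (Z'.ev P) -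
            Z'.ev (Polynomial.C γ) * Z'.ev P := by
          rw [hP1, _root_.map_sub, _root_.map_mul, _root_.map_mul, Z'.ev_d]
        rw [h2]
        exact ((hv.del).mul _).sub (hv.mul _) l le_rfl
      unfold Van at hnv
      push Not at hnv
      obtain ⟨l', hl', h3⟩ := hnv
      refine ⟨l', hl'.trans (hl.trans ?_), h3⟩
      rw [mul_assoc]
      refine Nat.mul_le_mul_left _ ?_
      nlinarith [Nat.zero_le n, Nat.zero_le (Z.c + c1), Nat.zero_le ((Z.c + c1) * n)]

theorem zest_lin {K : Type*} [Field K] {R : Type*} [CommRing R] [IsDomain R] [CharZero R]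
    (Z : ZD K R) (hZ : Z.Zest) (α β : R) (c1 : ℕ) (hα : Z.B c1 c1 α) (hβ : Z.B c1 c1 β)
    (hNS : NS Z.d α β) (Z' : ZD K (Polynomial R))
    (hd : Z'.d = dext Z.d (Polynomial.C α + Polynomial.C β * Polynomial.X))
    (hev : ∀ a, Z'.ev (Polynomial.C a) = Z.ev a)
    (hB : ∀ n e P, Z'.B n e P ↔ (P.natDegree ≤ e ∧ ∀ i, Z.B n e (P.coeff i))) :
    Z'.Zest := by
  intro e
  obtain ⟨C, hC⟩ := Zlin_main Z hZ α β c1 hα hβ hNS Z' hd hev e e
  refine ⟨C, fun n r hr hr0 => ?_⟩
  obtain ⟨h1, h2⟩ := (hB n e r).1 hr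
  exact hC n r h1 h2 hr0

end Pool.Agent.H85.OT
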