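import Pool.Agent.H85.OT.ZDef

/-!
# Row ZDL2 (project OT): Darboux polynomials in a linear extension

`R` a domain, `δ = dext d (α + β X)` on `R[X]`, `q ≠ 0`, `q ∣ δ q`.  Claim `natDegree q = 0`.
Suppose `e = natDegree q ≥ 1`.  By `coeff_dext_lin` `natDegree (δ q) ≤ e`, so the cofactor is a constant:
`δ q = C L * q` (if `δ q = 0` take `L = 0`).  Coefficients of `X^e` and `X^(e-1)`:
`d q_e + e β q_e = L q_e`,
`d q_(e-1) + e α q_e + (e-1) β q_(e-1) = L q_(e-1)`.
Multiply the second by `q_e`, the first by `q_(e-1)` and subtract: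
`q_e d q_(e-1) - q_(e-1) d q_e = - e α q_e² + β q_(e-1) q_e`, which contradicts `NS d (-(e) α) β` with
`q = q_e ≠ 0`, `p = q_(e-1)`.
-/

namespace Pool.Agent.H85.OT

theorem dl2 {R : Type*} [CommRing R] [IsDomain R] (d : Dv R) (α β : R)
    (hNS : ∀ e : ℕ, 1 ≤ e → NS d (-(e : R) * α) β) (q : Polynomial R) (hq : q ≠ 0)
    (h : q ∣ dext d (Polynomial.C α + Polynomial.C β * Polynomial.X) q) : q.natDegree = 0 := by
  by_contra hne
  obtain ⟨e, he⟩ : ∃ e, q.natDegree = e + 1 := Nat.exists_eq_succ_of_ne_zero hne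
  obtain ⟨c, hc⟩ := h
  have hdeg : (dext d (Polynomial.C α + Polynomial.C β * Polynomial.X) q).natDegree ≤ e + 1 := by
    rw [Polynomial.natDegree_le_iff_coeff_eq_zero]
    intro N hN
    rw [coeff_dext_lin, Polynomial.coeff_eq_zero_of_natDegree_lt (by omega),
      Polynomial.coeff_eq_zero_of_natDegree_lt (by omega), d.map_zero]
    ring
  obtain ⟨L, hL⟩ : ∃ L : R, dext d (Polynomial.C α + Polynomial.C β * Polynomial.X) q =
      Polynomial.C L * q := by
    by_cases hc0 : c = 0
    · refine ⟨0, ?_⟩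
      rw [hc, hc0, mul_zero, Polynomial.C_0, zero_mul]
    · have h1 : c.natDegree = 0 := by
        rw [hc, Polynomial.natDegree_mul hq hc0, he] at hdeg
        omega
      refine ⟨c.coeff 0, ?_⟩
      rw [hc, mul_comm]
      congr 1
      exact Polynomial.eq_C_of_natDegree_eq_zero h1
  have h2 := congrArg (fun P => Polynomial.coeff P (e + 1)) hL
  have h3 := congrArg (fun P => Polynomial.coeff P e) hL
  simp only [coeff_dext_lin, Polynomial.coeff_C_mul] at h2 h3
  rw [Polynomial.coeff_eq_zero_of_natDegree_lt (n := e + 1 + 1) (by omega)] at h2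
  have hqe : q.coeff (e + 1) ≠ 0 := by
    rw [← he]
    exact Polynomial.leadingCoeff_ne_zero.2 hq
  refine hNS (e + 1) (by omega) (q.coeff e) (q.coeff (e + 1)) hqe ?_
  push_cast at h2 h3 ⊢
  linear_combination q.coeff (e + 1) * h3 - q.coeff e * h2

end Pool.Agent.H85.OT
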