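import Pool.Agent.H85.OT.Zns1
import Pool.Agent.H85.OT.Zdl2

/-!
# Row ZNS2 (project OT): no solution of the second linear equation

`K` of characteristic `0`, `κ ≥ 1`, `φ1 ≠ 0`, `φ2 ≠ c φ1` for all `c ∈ K`, degrees `≤ 2κ + 1`.
`R2 = K[x][z][U]`, `δ = dext (dX1 K) (φ1 - κ z U)`.  Claim: no `p, q ∈ R2`, `q ≠ 0`, with
`q δp - p δq = φ2 q² - κ z p q`.

1. WLOG `p, q` relatively prime (`R2` is a UFD); then `q ∣ δq`.
   `dl2` applies (`ns1` for `- e φ1 ≠ 0`), so `q = C q1`, `q1 ∈ K[x][z]`, and `q1 ∣ dX1 q1`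
   (`dext_C`), so by `dl` `q1 = C q0`, `q0 ∈ K[x]`, `dX0 q0 = s q0`.  Cancel `q`:
   (*) `δp = (s - κ z) p + φ2 q0`; `p ≠ 0` since `φ2 q0 ≠ 0` (`φ2 ≠ 0`: take `c = 0`).
2. Let `e = natDegree p` (degree in `U`), `p = ∑ p_j U^j`.  By `coeff_dext_lin`
   `dX1 p_j + (j+1) φ1 p_(j+1) - j κ z p_j = (s - κ z) p_j + [j = 0] φ2 q0`.
   * `e ≥ 1`, `j = e`: `dX1 p_e = (s + (e-1) κ z) p_e`.  Let `d` be the `z`-degree of `p_e`; coefficient of
     `z^(d+1)`: `- d = (e-1) κ` (times the nonzero leading coefficient), so `d = 0` and `e = 1`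
     (`κ ≥ 1`).  So `p_1 = C a`, `a ∈ K[x]`, `a ≠ 0`, `dX0 a = s a`.  With `dX0 q0 = s q0`:
     `q0 dX0 a - a dX0 q0 = 0`, so `q0 a' - a q0' = 0` (cancel `x(1-x²)`), so `a = c q0` for a constant
     `c` (`char 0`; `Polynomial.IsCoprime.wronskian_eq_zero_iff` after removing the gcd, or: the
     derivative of the fraction `a/q0` is zero).
     `j = 0`: `dX1 p_0 + φ1 c q0 = (s - κ z) p_0 + φ2 q0`; multiply by `q0` and use `dX0 q0 = s q0`:
     `q0 dX1 p_0 - p_0 dX1 q0 = (φ2 - c φ1) q0² - κ z p_0 q0`, contradicting `ns1` for `φ2 - c φ1 ≠ 0`.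
   * `e = 0`: `p = C p_0`, same computation with `c = 0`.
-/

namespace Pool.Agent.H85.OT

theorem Zns2_const {K : Type*} [Field K] [CharZero K] (a q : Polynomial K) (hq : q ≠ 0)
    (h : q * Polynomial.derivative a = a * Polynomial.derivative q) :
    ∃ c : K, a = Polynomial.C c * q := by
  obtain ⟨q', a', g, hrel, hgq, hga⟩ := UniqueFactorizationMonoid.exists_reduced_factors q hq a
  have hg : g ≠ 0 := by
    rintro rfl
    rw [zero_mul] at hgq
    exact hq hgq.symm
  have hco : IsCoprime q' a' := hrel.isCoprime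
  have hw : Polynomial.wronskian q' a' = 0 := by
    unfold Polynomial.wronskian
    have h1 : g ^ 2 * (q' * Polynomial.derivative a' - Polynomial.derivative q' * a') = 0 := by
      rw [← hgq, ← hga, Polynomial.derivative_mul, Polynomial.derivative_mul] at h
      linear_combination h
    exact (mul_eq_zero.1 h1).resolve_left (pow_ne_zero 2 hg)
  obtain ⟨h1, h2⟩ := (hco.wronskian_eq_zero_iff).1 hw
  have e1 := Polynomial.eq_C_of_derivative_eq_zero h1
  have e2 := Polynomial.eq_C_of_derivative_eq_zero h2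
  have hb : q'.coeff 0 ≠ 0 := by
    intro h0
    rw [h0, Polynomial.C_0] at e1
    rw [e1, mul_zero] at hgq
    exact hq hgq.symm
  refine ⟨a'.coeff 0 / q'.coeff 0, ?_⟩
  rw [← hga, ← hgq, e1, e2, Polynomial.coeff_C_zero, Polynomial.coeff_C_zero]
  have h3 : Polynomial.C (a'.coeff 0 / q'.coeff 0) * (g * Polynomial.C (q'.coeff 0)) =
      g * Polynomial.C (a'.coeff 0 / q'.coeff 0 * q'.coeff 0) := by
    rw [Polynomial.C_mul]; ring
  rw [h3, div_mul_cancel₀ _ hb]

theorem Zns2_dX0 {K : Type*} [Field K] [CharZero K] (a q s : Polynomial K) (hq : q ≠ 0)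
    (h1 : dX0 K q = q * s) (h2 : dX0 K a = a * s) : ∃ c : K, a = Polynomial.C c * q := by
  apply Zns2_const a q hq
  rw [dX0_apply] at h1 h2
  have h3 : (Polynomial.C (-1/2 : K) * Polynomial.X * (1 - Polynomial.X ^ 2)) *
      (q * Polynomial.derivative a - a * Polynomial.derivative q) = 0 := by
    linear_combination q * h2 - a * h1
  have h4 : (Polynomial.C (-1/2 : K) * Polynomial.X * (1 - Polynomial.X ^ 2)) ≠ 0 := by
    refine mul_ne_zero (mul_ne_zero ?_ Polynomial.X_ne_zero) ?_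
    · rw [Ne, Polynomial.C_eq_zero]
      norm_num
    · intro h
      have := congrArg (fun P : Polynomial K => P.coeff 0) h
      simp at this
  exact sub_eq_zero.1 ((mul_eq_zero.1 h3).resolve_left h4)

theorem Zns2_top {K : Type*} [Field K] [CharZero K] (P : Polynomial (Polynomial K)) (hP : P ≠ 0)
    (s : Polynomial K) (m : ℕ)
    (h : dX1 K P = (Polynomial.C s + (m : Polynomial (Polynomial K)) * Polynomial.X) * P) :
    P.natDegree = 0 ∧ m = 0 := by
  have h1 := congrArg (fun Q : Polynomial (Polynomial K) => Q.coeff (P.natDegree + 1)) h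
  have e1 : P.coeff (P.natDegree + 1) = 0 :=
    Polynomial.coeff_eq_zero_of_natDegree_lt (Nat.lt_succ_self _)
  have e2 : P.coeff (P.natDegree + 2) = 0 :=
    Polynomial.coeff_eq_zero_of_natDegree_lt (by omega)
  have e3 : (Polynomial.C s + (m : Polynomial (Polynomial K)) * Polynomial.X) * P =
      Polynomial.C s * P + Polynomial.C (m : Polynomial K) * (Polynomial.X * P) := by
    rw [map_natCast]; ring
  rw [coeff_dX1, e1, e2, (dX0 K).map_zero, e3, Polynomial.coeff_add, Polynomial.coeff_C_mul,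
    Polynomial.coeff_C_mul, Polynomial.coeff_X_mul, e1] at h1
  have hl : P.coeff P.natDegree ≠ 0 := by
    rw [Polynomial.coeff_natDegree, Ne, Polynomial.leadingCoeff_eq_zero]
    exact hP
  have h2 : ((P.natDegree + m : ℕ) : Polynomial K) * P.coeff P.natDegree = 0 := by
    push_cast
    linear_combination -h1
  have h3 := (mul_eq_zero.1 h2).resolve_right hl
  have h4 : P.natDegree + m = 0 := by exact_mod_cast h3
  omega

theorem ns2 {K : Type*} [Field K] [CharZero K] (κ : ℕ) (hκ : 0 < κ) (φ1 φ2 : Polynomial K)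
    (h1 : φ1 ≠ 0) (h2 : ∀ c : K, φ2 ≠ Polynomial.C c * φ1)
    (hd1 : φ1.natDegree ≤ 2 * κ + 1) (hd2 : φ2.natDegree ≤ 2 * κ + 1) :
    NS (dext (dX1 K) (Polynomial.C (Polynomial.C φ1) + Polynomial.C (bz K κ) * Polynomial.X))
      (Polynomial.C (Polynomial.C φ2)) (Polynomial.C (bz K κ)) := by
  classical
  intro p₀ q₀ hq₀ heq₀
  -- reduction to relatively prime p, q
  obtain ⟨q, p, g, hrel, hgq, hgp⟩ := UniqueFactorizationMonoid.exists_reduced_factors q₀ hq₀ p₀
  have hg : g ≠ 0 := by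
    rintro rfl
    rw [zero_mul] at hgq
    exact hq₀ hgq.symm
  have hq : q ≠ 0 := by
    rintro rfl
    rw [mul_zero] at hgq
    exact hq₀ hgq.symm
  obtain ⟨δ, hδ⟩ : ∃ δ, δ = dext (dX1 K) (Polynomial.C (Polynomial.C φ1) +
    Polynomial.C (bz K κ) * Polynomial.X) := ⟨_, rfl⟩
  rw [← hδ] at heq₀
  have heq : q * δ p - p * δ q = Polynomial.C (Polynomial.C φ2) * q ^ 2 +
      Polynomial.C (bz K κ) * (p * q) := by
    rw [← hgq, ← hgp, δ.map_mul, δ.map_mul] at heq₀
    have h3 : g ^ 2 * ((q * δ p - p * δ q) - (Polynomial.C (Polynomial.C φ2) * q ^ 2 +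
      Polynomial.C (bz K κ) * (p * q))) = 0 := by
      linear_combination heq₀
    exact sub_eq_zero.1 ((mul_eq_zero.1 h3).resolve_left (pow_ne_zero 2 hg))
  clear heq₀
  have hqd : q ∣ δ q := by
    apply hrel.dvd_of_dvd_mul_left
    refine ⟨δ p - Polynomial.C (Polynomial.C φ2) * q - Polynomial.C (bz K κ) * p, ?_⟩
    linear_combination -heq
  have hdeg : q.natDegree = 0 := by
    refine dl2 (dX1 K) (Polynomial.C φ1) (bz K κ) ?_ q hq (hδ ▸ hqd)
    intro e he
    have h5 := ns1 κ hκ (-(e : Polynomial K) * φ1) (mul_ne_zero (neg_ne_zero.2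
      (by exact_mod_cast (by omega : e ≠ 0))) h1) (by
        have e5 : -(e : Polynomial K) * φ1 = Polynomial.C (-(e : K)) * φ1 := by
          rw [Polynomial.C_neg, map_natCast]
        rw [e5]
        exact (Polynomial.natDegree_C_mul_le _ _).trans hd1)
    rw [Polynomial.C_mul, Polynomial.C_neg, map_natCast] at h5
    exact h5
  obtain ⟨q1, hq1⟩ : ∃ q1, q = Polynomial.C q1 := ⟨_, Polynomial.eq_C_of_natDegree_eq_zero hdeg⟩
  have hq10 : q1 ≠ 0 := by
    rintro rfl
    rw [Polynomial.C_0] at hq1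
    exact hq hq1
  have hd1' : q1 ∣ Polynomial.C (1 : Polynomial K) * dX1 K q1 := by
    rw [Polynomial.C_1, one_mul]
    rw [hq1, hδ, dext_C, Polynomial.C_dvd_iff_dvd_coeff] at hqd
    have := hqd 0
    rwa [Polynomial.coeff_C_zero] at this
  have hdeg1 := dl q1 hq10 1 one_ne_zero hd1'
  obtain ⟨q0, hq0⟩ : ∃ q0, q1 = Polynomial.C q0 := ⟨_, Polynomial.eq_C_of_natDegree_eq_zero hdeg1⟩
  have hq00 : q0 ≠ 0 := by
    rintro rfl
    rw [Polynomial.C_0] at hq0
    exact hq10 hq0
  have hdC : ∀ x : Polynomial K, dX1 K (Polynomial.C x) = Polynomial.C (dX0 K x) := fun x =>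
    dext_C _ _ _
  obtain ⟨s, hs⟩ : q0 ∣ dX0 K q0 := by
    rw [hq0, Polynomial.C_1, one_mul, hdC, Polynomial.C_dvd_iff_dvd_coeff] at hd1'
    have := hd1' 0
    rwa [Polynomial.coeff_C_zero] at this
  have hδq : δ q = Polynomial.C (Polynomial.C (q0 * s)) := by
    rw [hq1, hq0, hδ, dext_C, hdC, hs]
  have hqq : q = Polynomial.C (Polynomial.C q0) := by rw [hq1, hq0]
  have hstar : δ p = (Polynomial.C (Polynomial.C s) + Polynomial.C (bz K κ)) * p +
      Polynomial.C (Polynomial.C (φ2 * q0)) := by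
    have h6 : q * (δ p - ((Polynomial.C (Polynomial.C s) + Polynomial.C (bz K κ)) * p +
      Polynomial.C (Polynomial.C (φ2 * q0)))) = 0 := by
      rw [hδq] at heq
      simp only [Polynomial.C_mul] at heq ⊢
      rw [hqq] at heq ⊢
      linear_combination heq
    exact sub_eq_zero.1 ((mul_eq_zero.1 h6).resolve_left hq)
  -- coefficients
  have hcoef : ∀ j : ℕ, dX1 K (p.coeff j) + ((j : Polynomial (Polynomial K)) + 1) *
      Polynomial.C φ1 * p.coeff (j + 1) + (j : Polynomial (Polynomial K)) * bz K κ * p.coeff j =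
      (Polynomial.C s + bz K κ) * p.coeff j + (Polynomial.C (Polynomial.C (φ2 * q0)) :
        Polynomial (Polynomial (Polynomial K))).coeff j := by
    intro j
    have h7 := congrArg (fun Q : Polynomial (Polynomial (Polynomial K)) => Q.coeff j) hstar
    rw [hδ, coeff_dext_lin] at h7
    rw [h7, ← Polynomial.C_add, Polynomial.coeff_add, Polynomial.coeff_C_mul]
  have hp1 : ∃ c : K, p.coeff 1 = Polynomial.C (Polynomial.C c * q0) := by
    by_cases he : p.natDegree = 0
    · refine ⟨0, ?_⟩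
      rw [Polynomial.C_0, zero_mul, Polynomial.C_0]
      exact Polynomial.coeff_eq_zero_of_natDegree_lt (by omega)
    · obtain ⟨e, hee⟩ : ∃ e, p.natDegree = e + 1 := ⟨p.natDegree - 1, by omega⟩
      have hp0 : p ≠ 0 := by
        rintro rfl
        exact he Polynomial.natDegree_zero
      have hP : p.coeff (e + 1) ≠ 0 := by
        rw [← hee, Polynomial.coeff_natDegree, Ne, Polynomial.leadingCoeff_eq_zero]
        exact hp0
      have h8 := hcoef (e + 1)
      have h9 : p.coeff (e + 1 + 1) = 0 :=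
        Polynomial.coeff_eq_zero_of_natDegree_lt (by omega)
      rw [h9, Polynomial.coeff_C_succ] at h8
      have h10 : dX1 K (p.coeff (e + 1)) = (Polynomial.C s + ((e * κ : ℕ) :
          Polynomial (Polynomial K)) * Polynomial.X) * p.coeff (e + 1) := by
        unfold bz at h8
        push_cast at h8 ⊢
        linear_combination h8
      obtain ⟨h11, h12⟩ := Zns2_top _ hP s _ h10
      have he0 : e = 0 := by
        rcases Nat.mul_eq_zero.1 h12 with h | h
        · exact h
        · omega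
      subst he0
      obtain ⟨a, ha⟩ : ∃ a, p.coeff (0 + 1) = Polynomial.C a :=
        ⟨_, Polynomial.eq_C_of_natDegree_eq_zero h11⟩
      have h13 : dX0 K a = a * s := by
        rw [ha, hdC, h12, Nat.cast_zero, zero_mul, add_zero, ← Polynomial.C_mul] at h10
        rw [Polynomial.C_injective h10, mul_comm]
      obtain ⟨c, hc⟩ := Zns2_dX0 a q0 s hq00 hs h13
      exact ⟨c, by rw [← hc]; exact ha⟩
  obtain ⟨c, hc⟩ := hp1
  have h0 := hcoef 0
  rw [zero_add, hc, Polynomial.coeff_C_zero, Nat.cast_zero, zero_mul, zero_mul, add_zero,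
    zero_add, one_mul] at h0
  have hne : φ2 - Polynomial.C c * φ1 ≠ 0 := sub_ne_zero.2 (h2 c)
  have hdg : (φ2 - Polynomial.C c * φ1).natDegree ≤ 2 * κ + 1 :=
    (Polynomial.natDegree_sub_le _ _).trans (max_le hd2
      ((Polynomial.natDegree_C_mul_le _ _).trans hd1))
  refine ns1 κ hκ _ hne hdg (p.coeff 0) (Polynomial.C q0) (by
    rw [Ne, Polynomial.C_eq_zero]; exact hq00) ?_
  rw [hdC, hs]
  simp only [Polynomial.C_mul, Polynomial.C_sub] at h0 ⊢
  linear_combination Polynomial.C q0 * h0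

end Pool.Agent.H85.OT
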