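import Pool.Agent.H85.OT.Zdl

/-!
# Row ZRIC (project OT): the zero estimate for `K[x][z]`

Same scheme as row ZLIN.  Claim, by induction on `k`: for all `e` there is `C` such that for all `n` and
all `P : K[x][z]` with `natDegree P ≤ k`, all coefficients of `x`-degree `≤ n`, `P ≠ 0`, some coefficient
`l ≤ C (n+1)` of `ev' P` is nonzero.
* `k = 0`: `Zest` for `Z`.
* `k + 1`: let `natDegree P = r = k+1 ≥ 1`, `p_r ≠ 0` its leading coefficient.  Put
  `P2 = C p_r * (dX1 P + r z P) - C (dX0 p_r + p_(r-1)) * P`.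
  By `coeff_dX1` the coefficients of `dX1 P + r z P` at `z^(r+1)` and `z^r` are
  `- r p_r + r p_r = 0` and `dX0 p_r - (r-1) p_(r-1) + r p_(r-1) = dX0 p_r + p_(r-1)`; so
  `natDegree P2 ≤ r - 1 = k`.  `P2 ≠ 0`: otherwise
  `C p_r * dX1 P = (C (dX0 p_r + p_(r-1)) - C p_r * r z) * P`, so `P ∣ C p_r * dX1 P`, and
  `dl` gives `natDegree P = 0`, contradiction.
  The coefficients of `P2` have degree `≤ 2n + 4`.  Induction hypothesis: some coefficient
  `l ≤ C' (2n + 5)` of `ev' P2` is nonzero, and `ev' P2` is a combination of `ev' P` and `del (ev' P)`,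
  so some coefficient `≤ l` of `ev' P` is nonzero (`Van`).
(`hB'` could also be used in the form: `Z'.B n e P ↔ natDegree P ≤ e ∧ ∀ i, natDegree (P.coeff i) ≤ n`.)
-/

open PowerSeries

namespace Pool.Agent.H85.OT

private theorem Zric_cast {K : Type*} [Field K] {R : Type*} [CommRing R] (Z : ZD K R) (m : ℕ) :
    Z.B 0 0 (m : R) := by
  induction m with
  | zero =>
    rw [Nat.cast_zero]
    exact Z.B_zero
  | succ m ih =>
    rw [Nat.cast_succ]
    exact Z.B_add ih Z.B_one

private theorem Zric_claim {K : Type*} [Field K] [CharZero K]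
    (Z : ZD K (Polynomial K)) (hZ : Z.Zest) (hZd : Z.d = dX0 K)
    (hZB : ∀ n e P, Z.B n e P ↔ P.natDegree ≤ n)
    (Z' : ZD K (Polynomial (Polynomial K))) (hd : Z'.d = dX1 K)
    (hev : ∀ a, Z'.ev (Polynomial.C a) = Z.ev a)
    (hB : ∀ n e P, Z'.B n e P ↔ (P.natDegree ≤ e ∧ ∀ i, Z.B n e (P.coeff i))) (k : ℕ) :
    ∃ C : ℕ, ∀ (n : ℕ) (P : Polynomial (Polynomial K)), P.natDegree ≤ k →
      (∀ i, (P.coeff i).natDegree ≤ n) → P ≠ 0 →
      ∃ l ≤ C * (n + 1), PowerSeries.coeff l (Z'.ev P) ≠ 0 := by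
  have hB' : ∀ n e P, Z'.B n e P ↔ (P.natDegree ≤ e ∧ ∀ i, (P.coeff i).natDegree ≤ n) := by
    intro n e P
    rw [hB]
    exact and_congr_right fun _ => forall_congr' fun i => hZB _ _ _
  induction k with
  | zero =>
    obtain ⟨C, hC⟩ := hZ 0
    refine ⟨C, fun n P hP hn h0 => ?_⟩
    have h1 : P = Polynomial.C (P.coeff 0) := Polynomial.eq_C_of_natDegree_le_zero hP
    have h2 : P.coeff 0 ≠ 0 := by
      intro h
      rw [h, map_zero] at h1
      exact h0 h1
    obtain ⟨l, hl, h3⟩ := hC n (P.coeff 0) ((hZB _ _ _).2 (hn 0)) h2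
    refine ⟨l, hl, ?_⟩
    rw [h1, hev]
    exact h3
  | succ k ih =>
    obtain ⟨C', hC'⟩ := ih
    refine ⟨C' * (Z'.c + Z.c + 3), fun n P hP hn h0 => ?_⟩
    rcases Nat.lt_or_ge P.natDegree (k + 1) with hlt | hge
    · obtain ⟨l, hl, h3⟩ := hC' n P (by omega) hn h0
      refine ⟨l, hl.trans ?_, h3⟩
      exact Nat.mul_le_mul_right _ (Nat.le_mul_of_pos_right _ (by omega))
    · have hdeg : P.natDegree = k + 1 := le_antisymm hP hge
      have hr0 : P.coeff (k + 1) ≠ 0 := by
        rw [← hdeg]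
        exact Polynomial.leadingCoeff_ne_zero.2 h0
      have hz : ∀ i, k + 1 < i → P.coeff i = 0 := fun i hi =>
        Polynomial.coeff_eq_zero_of_natDegree_lt (by omega)
      obtain ⟨P2, hP2⟩ : ∃ P2, P2 = Polynomial.C (P.coeff (k + 1)) *
          (dX1 K P + ((k + 1 : ℕ) : Polynomial (Polynomial K)) * (Polynomial.X * P)) -
            Polynomial.C (dX0 K (P.coeff (k + 1)) + P.coeff k) * P := ⟨_, rfl⟩
      have hcoef : ∀ j, P2.coeff (j + 1) = P.coeff (k + 1) * (dX0 K (P.coeff (j + 1)) +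
          ((j : Polynomial K) + 2) * g0 K * P.coeff (j + 2) - (j : Polynomial K) * P.coeff j +
            ((k + 1 : ℕ) : Polynomial K) * P.coeff j) -
              (dX0 K (P.coeff (k + 1)) + P.coeff k) * P.coeff (j + 1) := by
        intro j
        rw [hP2, Polynomial.coeff_sub, Polynomial.coeff_C_mul, Polynomial.coeff_C_mul,
          Polynomial.coeff_add, coeff_dX1, Polynomial.coeff_natCast_mul, Polynomial.coeff_X_mul]
      have hP2deg : P2.natDegree ≤ k := by
        rw [Polynomial.natDegree_le_iff_coeff_eq_zero]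
        intro i hi
        obtain ⟨j, rfl⟩ : ∃ j, i = j + 1 := ⟨i - 1, by omega⟩
        rw [hcoef]
        rcases Nat.lt_or_ge k j with hkj | hkj
        · rw [hz (j + 1) (by omega), hz (j + 2) (by omega), (dX0 K).map_zero]
          rcases Nat.lt_or_ge (k + 1) j with h1 | h1
          · rw [hz j h1]
            ring
          · have h2 : j = k + 1 := by omega
            subst h2
            ring
        · have h2 : j = k := by omega
          subst h2
          rw [hz (j + 2) (by omega)]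
          push_cast
          ring
      have hP20 : P2 ≠ 0 := by
        intro h
        have h1 : P ∣ Polynomial.C (P.coeff (k + 1)) * dX1 K P := by
          refine ⟨Polynomial.C (dX0 K (P.coeff (k + 1)) + P.coeff k) -
            Polynomial.C (P.coeff (k + 1)) *
              (((k + 1 : ℕ) : Polynomial (Polynomial K)) * Polynomial.X), ?_⟩
          rw [hP2, sub_eq_zero] at h
          have h2 : Polynomial.C (P.coeff (k + 1)) * dX1 K P =
              Polynomial.C (P.coeff (k + 1)) * (dX1 K P +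
                ((k + 1 : ℕ) : Polynomial (Polynomial K)) * (Polynomial.X * P)) -
              Polynomial.C (P.coeff (k + 1)) *
                (((k + 1 : ℕ) : Polynomial (Polynomial K)) * (Polynomial.X * P)) := by ring
          rw [h2, h]
          ring
        have h3 := dl P h0 _ hr0 h1
        omega
      have hPB : Z'.B n (k + 1) P := (hB' _ _ _).2 ⟨hP, hn⟩
      have hCB : ∀ (m : ℕ) (a : Polynomial K), a.natDegree ≤ m → Z'.B m 0 (Polynomial.C a) := by
        intro m a ha
        rw [hB']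
        refine ⟨(Polynomial.natDegree_C a).le, fun i => ?_⟩
        rw [Polynomial.coeff_C]
        split_ifs
        · exact ha
        · rw [Polynomial.natDegree_zero]
          exact Nat.zero_le _
      have hXB : Z'.B 0 1 Polynomial.X := by
        rw [hB']
        refine ⟨Polynomial.natDegree_X_le, fun i => ?_⟩
        rw [Polynomial.coeff_X]
        split_ifs
        · exact Polynomial.natDegree_one.le
        · exact Polynomial.natDegree_zero.le
      have hdB : Z'.B (n + Z'.c) (k + 1 + Z'.c) (dX1 K P) := by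
        rw [← hd]
        exact Z'.B_d hPB
      have hdB0 : (dX0 K (P.coeff (k + 1))).natDegree ≤ n + Z.c := by
        rw [← hZd]
        exact (hZB _ (0 + Z.c) _).1 (Z.B_d ((hZB n 0 _).2 (hn _)))
      have hXP : Z'.B (n + Z'.c) (k + 2 + Z'.c)
          (((k + 1 : ℕ) : Polynomial (Polynomial K)) * (Polynomial.X * P)) :=
        Z'.B_mono (by omega) (by omega) (Z'.B_mul (Zric_cast Z' (k + 1)) (Z'.B_mul hXB hPB))
      have hY : Z'.B (n + (n + Z'.c)) (0 + (k + 2 + Z'.c)) (Polynomial.C (P.coeff (k + 1)) *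
          (dX1 K P + ((k + 1 : ℕ) : Polynomial (Polynomial K)) * (Polynomial.X * P))) :=
        Z'.B_mul (hCB n _ (hn _)) (Z'.B_add (Z'.B_mono le_rfl (by omega) hdB) hXP)
      have hW : Z'.B ((n + Z.c) + n) (0 + (k + 1))
          (Polynomial.C (dX0 K (P.coeff (k + 1)) + P.coeff k) * P) := by
        refine Z'.B_mul (hCB _ _ ?_) hPB
        refine (Polynomial.natDegree_add_le _ _).trans (max_le hdB0 ?_)
        exact (hn k).trans (Nat.le_add_right _ _)
      have hP2B : Z'.B (2 * n + (Z'.c + Z.c)) (k + 2 + Z'.c) P2 := by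
        rw [hP2, sub_eq_add_neg]
        exact Z'.B_add (Z'.B_mono (by omega) (by omega) hY)
          (Z'.B_neg (Z'.B_mono (by omega) (by omega) hW))
      obtain ⟨l, hl, h3⟩ := hC' (2 * n + (Z'.c + Z.c)) P2 hP2deg ((hB' _ _ _).1 hP2B).2 hP20
      have hl2 : l ≤ C' * (Z'.c + Z.c + 3) * (n + 1) := by
        refine hl.trans ?_
        rw [mul_assoc]
        refine Nat.mul_le_mul_left _ ?_
        nlinarith [Nat.zero_le ((Z'.c + Z.c) * n), Nat.zero_le n]
      by_contra hcon
      push Not at hcon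
      have hvan : Van l (Z'.ev P) := fun l' hl' => hcon l' (hl'.trans hl2)
      have hvan2 : Van l (Z'.ev P2) := by
        have e1 : Z'.ev P2 = Z'.ev (Polynomial.C (P.coeff (k + 1))) *
            (del K (Z'.ev P) + Z'.ev (((k + 1 : ℕ) : Polynomial (Polynomial K)) *
              Polynomial.X) * Z'.ev P) -
              Z'.ev (Polynomial.C (dX0 K (P.coeff (k + 1)) + P.coeff k)) * Z'.ev P := by
          rw [hP2, ← Z'.ev_d, hd, map_sub, map_mul, map_mul, map_add]
          congr 3
          rw [← map_mul]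
          congr 1
          ring
        rw [e1]
        exact ((hvan.del.add (hvan.mul _)).mul _).sub (hvan.mul _)
      exact h3 (hvan2 l le_rfl)

theorem zest_ric {K : Type*} [Field K] [CharZero K]
    (Z : ZD K (Polynomial K)) (hZ : Z.Zest) (hZd : Z.d = dX0 K)
    (hZB : ∀ n e P, Z.B n e P ↔ P.natDegree ≤ n)
    (Z' : ZD K (Polynomial (Polynomial K))) (hd : Z'.d = dX1 K)
    (hev : ∀ a, Z'.ev (Polynomial.C a) = Z.ev a)
    (hB : ∀ n e P, Z'.B n e P ↔ (P.natDegree ≤ e ∧ ∀ i, Z.B n e (P.coeff i))) :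
    Z'.Zest := by
  intro e
  obtain ⟨C, hC⟩ := Zric_claim Z hZ hZd hZB Z' hd hev hB e
  refine ⟨C, fun n P hP h0 => ?_⟩
  obtain ⟨h1, h2⟩ := (hB _ _ _).1 hP
  exact hC n P h1 (fun i => (hZB _ _ _).1 (h2 i)) h0

end Pool.Agent.H85.OT
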