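import Pool.Agent.H85.OT.Zbase
import Pool.Agent.H85.OT.Zext
import Pool.Agent.H85.OT.Zlin
import Pool.Agent.H85.OT.Zric
import Pool.Agent.H85.OT.Zns2

/-!
# Row ZEST (project OT): the zero estimate

`K` of characteristic `0`, `T1, T2 ∈ K⟦X⟧` with `δ T_i = φ_i(x) - κ z T_i` (`δ = del K`, `x = xx`, `z = zz`).
Build the tower: `Z0` on `K[x]` (`exists_Z0`); `Z1` on `K[x][z]` (`exists_ext` with
`g = C g0 - X²`, `T = zz`: `del zz = U^(-2) D z = x²(1-x²)/4 - z²` by `Dq_zz`); its derivation is `dX1`,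
`Zest` by `zest_ric`; `Z2` on `K[x][z][U1]` with `g = C (C φ1) + C (bz κ) * X`, `T = T1`,
`Zest` by `zest_lin` and `ns1`; `Z3` on `K[x][z][U1][U2]` with `g = C (C (C φ2)) + C (C (bz κ)) * X`, `T = T2`,
`Zest` by `zest_lin` and `ns2`.  (`K[x][z]` etc. are domains of characteristic zero.)
Given `P i j : K[x]` (`i, j < E`) of degree `≤ n`, not all zero, apply `Zest` of `Z3` at `e = E` to
`Q = ∑_j ∑_i C (C (C (P i j))) * (C X)^i * X^j` with `C (C (P i j)) : K[x][z][U1]`..., precisely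
`Q = ∑_j monomial j (∑_i monomial i (C (P i j)))`: it is nonzero (its coefficients are the `C (P i j)`), has
`U2`-degree `≤ E`, coefficients of `U1`-degree `≤ E`, `z`-degree `0 ≤ E` and `x`-degree `≤ n`, and
`ev Q = ∑ P i j (x) T1^i T2^j`.
-/

open PowerSeries

namespace Pool.Agent.H85.OT

theorem Zest_coeff {R : Type*} [CommRing R] (f : ℕ → R) (E k : ℕ) :
    (∑ j ∈ Finset.range E, Polynomial.monomial j (f j)).coeff k = if k < E then f k else 0 := by
  rw [Polynomial.finset_sum_coeff]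
  simp only [Polynomial.coeff_monomial]
  rw [Finset.sum_ite_eq' (Finset.range E) k f]
  simp only [Finset.mem_range]

theorem Zest_deg {R : Type*} [CommRing R] (f : ℕ → R) (E : ℕ) :
    (∑ j ∈ Finset.range E, Polynomial.monomial j (f j)).natDegree ≤ E := by
  rw [Polynomial.natDegree_le_iff_coeff_eq_zero]
  intro N hN
  rw [Zest_coeff, if_neg (by omega)]

theorem Zest_inv {K : Type*} [Field K] : (U K)⁻¹ ^ 2 * U K ^ 2 = 1 := by
  have h := U_mul_inv K
  have h1 : (U K)⁻¹ ^ 2 * U K ^ 2 = (U K * (U K)⁻¹) ^ 2 := by ring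
  rw [h1, h, one_pow]

theorem Zest_ext {K : Type*} [Field K] {R : Type*} [CommRing R] [IsDomain R] [CharZero R]
    (Z : ZD K R) (hZ : Z.Zest) (α β : R) (c1 : ℕ) (hα : Z.B c1 c1 α) (hβ : Z.B c1 c1 β)
    (hNS : NS Z.d α β) (T : K⟦X⟧) (hT : del K T = Z.ev α + Z.ev β * T) :
    ∃ Z' : ZD K (Polynomial R), Z'.Zest ∧
      Z'.d = dext Z.d (Polynomial.C α + Polynomial.C β * Polynomial.X) ∧
      (∀ P, Z'.ev P = P.eval₂ Z.ev T) ∧
      (∀ n e P, Z'.B n e P ↔ (P.natDegree ≤ e ∧ ∀ i, Z.B n e (P.coeff i))) := by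
  have h0 : Z.B c1 c1 0 := Z.B_mono (Nat.zero_le _) (Nat.zero_le _) Z.B_zero
  obtain ⟨Z', hd, hev, hB⟩ := exists_ext Z (Polynomial.C α + Polynomial.C β * Polynomial.X)
    (by
      refine (Polynomial.natDegree_add_le _ _).trans (max_le ?_ ?_)
      · rw [Polynomial.natDegree_C]
        omega
      · refine (Polynomial.natDegree_C_mul_le _ _).trans ?_
        exact Polynomial.natDegree_X_le.trans (by norm_num)) c1
    (by
      intro i
      rw [Polynomial.coeff_add, Polynomial.coeff_C, Polynomial.coeff_C_mul, Polynomial.coeff_X]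
      rcases i with _ | _ | i
      · simpa using hα
      · simpa using hβ
      · simpa using h0) T
    (by
      rw [Polynomial.eval₂_add, Polynomial.eval₂_C, Polynomial.eval₂_mul, Polynomial.eval₂_C,
        Polynomial.eval₂_X]
      exact hT)
  refine ⟨Z', ?_, hd, hev, hB⟩
  exact zest_lin Z hZ α β c1 hα hβ hNS Z' hd (fun a => by rw [hev, Polynomial.eval₂_C]) hB

theorem zero_estimate {K : Type*} [Field K] [CharZero K] (κ : ℕ) (hκ : 0 < κ)
    (φ1 φ2 : Polynomial K) (h1 : φ1 ≠ 0) (h2 : ∀ c : K, φ2 ≠ Polynomial.C c * φ1)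
    (hd1 : φ1.natDegree ≤ 2 * κ + 1) (hd2 : φ2.natDegree ≤ 2 * κ + 1)
    (T1 T2 : K⟦X⟧)
    (hT1 : del K T1 = Polynomial.aeval (xx K) φ1 - (κ : K⟦X⟧) * zz K * T1)
    (hT2 : del K T2 = Polynomial.aeval (xx K) φ2 - (κ : K⟦X⟧) * zz K * T2) (E : ℕ) :
    ∃ C : ℕ, ∀ (n : ℕ) (P : ℕ → ℕ → Polynomial K),
      (∀ i < E, ∀ j < E, (P i j).natDegree ≤ n) → (∃ i < E, ∃ j < E, P i j ≠ 0) →
      ∃ l ≤ C * (n + 1), PowerSeries.coeff l
        (∑ i ∈ Finset.range E, ∑ j ∈ Finset.range E,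
          Polynomial.aeval (xx K) (P i j) * T1 ^ i * T2 ^ j) ≠ 0 := by
  have two : (2 : K) ≠ 0 := two_ne_zero
  obtain ⟨Z0, hZ0, hD0, hev0, hB0⟩ := exists_Z0 K two
  -- Z1
  have hg0deg : (g0 K).natDegree ≤ 4 := by
    unfold g0
    compute_degree
  obtain ⟨Z1, hD1, hev1, hB1⟩ := exists_ext Z0 (Polynomial.C (g0 K) - Polynomial.X ^ 2)
    (by
      refine (Polynomial.natDegree_sub_le _ _).trans (max_le ?_ ?_)
      · rw [Polynomial.natDegree_C]
        omega
      · exact (Polynomial.natDegree_X_pow_le 2)) 4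
    (by
      intro i
      rw [hB0, Polynomial.coeff_sub, Polynomial.coeff_C, Polynomial.coeff_X_pow]
      rcases i with _ | _ | _ | i
      · simpa using hg0deg
      · simp
      · simp
      · simp) (zz K)
    (by
      rw [Polynomial.eval₂_sub, Polynomial.eval₂_C, Polynomial.eval₂_pow, Polynomial.eval₂_X, hev0,
        del_apply]
      have h3 := Dq_zz K two
      have h4 := Zest_inv (K := K)
      have h5 : (4 : K⟦X⟧) ≠ 0 := by
        have h8 : (4 : K⟦X⟧) = algebraMap K K⟦X⟧ 4 := (map_ofNat _ 4).symm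
        rw [h8]
        intro h9
        have h10 : (4 : K) = 0 := (algebraMap K K⟦X⟧).injective (h9.trans (map_zero _).symm)
        have h11 : (4 : K) ≠ 0 := by norm_num
        exact h11 h10
      apply mul_left_cancel₀ h5
      have h6 : (4 : K⟦X⟧) * Polynomial.aeval (xx K) (g0 K) = xx K ^ 2 * (1 - xx K ^ 2) := by
        unfold g0
        rw [map_mul, map_mul, map_pow, map_sub, map_one, map_pow, Polynomial.aeval_X,
          Polynomial.aeval_C]
        have h7 : (4 : K⟦X⟧) * algebraMap K K⟦X⟧ (1 / 4) = 1 := by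
          have h8 : (4 : K⟦X⟧) = algebraMap K K⟦X⟧ 4 := (map_ofNat _ 4).symm
          rw [h8, ← map_mul]
          norm_num
        linear_combination (xx K ^ 2 * (1 - xx K ^ 2)) * h7
      rw [mul_sub, h6]
      linear_combination (U K)⁻¹ ^ 2 * h3 + (xx K ^ 2 * (1 - xx K ^ 2) - 4 * zz K ^ 2) * h4)
  have hD1' : Z1.d = dX1 K := by
    rw [hD1, hD0]
    rfl
  have hZ1 : Z1.Zest := zest_ric Z0 hZ0 hD0 hB0 Z1 hD1' (fun a => by rw [hev1, Polynomial.eval₂_C]) hB1
  -- values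
  have hevC : ∀ φ : Polynomial K, Z1.ev (Polynomial.C φ) = Polynomial.aeval (xx K) φ := by
    intro φ
    rw [hev1, Polynomial.eval₂_C, hev0]
  have hevb : Z1.ev (bz K κ) = -((κ : K⟦X⟧) * zz K) := by
    unfold bz
    rw [map_neg, map_mul, map_natCast, hev1 Polynomial.X, Polynomial.eval₂_X]
  have hBC : ∀ (n e : ℕ) (φ : Polynomial K), φ.natDegree ≤ n → Z1.B n e (Polynomial.C φ) := by
    intro n e φ hφ
    rw [hB1]
    refine ⟨by rw [Polynomial.natDegree_C]; omega, fun i => ?_⟩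
    rw [hB0, Polynomial.coeff_C]
    split_ifs
    · exact hφ
    · simp
  have hBb : Z1.B (2 * κ + 1) (2 * κ + 1) (bz K κ) := by
    rw [hB1]
    unfold bz
    refine ⟨?_, fun i => ?_⟩
    · rw [Polynomial.natDegree_neg]
      refine (Polynomial.natDegree_mul_le).trans ?_
      rw [Polynomial.natDegree_natCast]
      have := Polynomial.natDegree_X_le (R := Polynomial K)
      omega
    · rw [hB0, Polynomial.coeff_neg, Polynomial.natDegree_neg, ← Polynomial.C_eq_natCast,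
        Polynomial.coeff_C_mul, Polynomial.coeff_X]
      split_ifs
      · rw [mul_one, Polynomial.natDegree_natCast]
        omega
      · simp
  -- Z2
  obtain ⟨Z2, hZ2, hD2, hev2, hB2⟩ := Zest_ext Z1 hZ1 (Polynomial.C φ1) (bz K κ) (2 * κ + 1)
    (hBC _ _ _ hd1) hBb (by rw [hD1']; exact ns1 κ hκ φ1 h1 hd1) T1
    (by rw [hevC, hevb, hT1]; ring)
  rw [hD1'] at hD2
  have hB2C : ∀ (n e : ℕ) (a : Polynomial (Polynomial K)), Z1.B n e a → Z2.B n e (Polynomial.C a) := by
    intro n e a ha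
    rw [hB2]
    refine ⟨by rw [Polynomial.natDegree_C]; omega, fun i => ?_⟩
    rw [Polynomial.coeff_C]
    split_ifs
    · exact ha
    · exact Z1.B_mono (Nat.zero_le _) (Nat.zero_le _) Z1.B_zero
  have hev2C : ∀ a, Z2.ev (Polynomial.C a) = Z1.ev a := fun a => by rw [hev2, Polynomial.eval₂_C]
  -- Z3
  obtain ⟨Z3, hZ3, hD3, hev3, hB3⟩ := Zest_ext Z2 hZ2 (Polynomial.C (Polynomial.C φ2))
    (Polynomial.C (bz K κ)) (2 * κ + 1)
    (hB2C _ _ _ (hBC _ _ _ hd2)) (hB2C _ _ _ hBb)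
    (by rw [hD2]; exact ns2 κ hκ φ1 φ2 h1 h2 hd1 hd2) T2
    (by rw [hev2C, hev2C, hevC, hevb, hT2]; ring)
  obtain ⟨C, hC⟩ := hZ3 E
  refine ⟨C, ?_⟩
  intro n P hPn hP0
  obtain ⟨Q, hQ⟩ : ∃ Q : Polynomial (Polynomial (Polynomial (Polynomial K))),
    Q = ∑ j ∈ Finset.range E, Polynomial.monomial j
      (∑ i ∈ Finset.range E, Polynomial.monomial i (Polynomial.C (P i j))) := ⟨_, rfl⟩
  have hQB : Z3.B n E Q := by
    rw [hB3, hQ]
    refine ⟨Zest_deg _ E, fun j => ?_⟩
    rw [Zest_coeff]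
    split_ifs with hj
    · rw [hB2]
      refine ⟨Zest_deg _ E, fun i => ?_⟩
      rw [Zest_coeff]
      split_ifs with hi
      · exact hBC _ _ _ (hPn i hi j hj)
      · exact Z1.B_mono (Nat.zero_le _) (Nat.zero_le _) Z1.B_zero
    · exact Z2.B_mono (Nat.zero_le _) (Nat.zero_le _) Z2.B_zero
  have hQ0 : Q ≠ 0 := by
    obtain ⟨i, hi, j, hj, hij⟩ := hP0
    intro h0
    have h3 : (Q.coeff j).coeff i = 0 := by
      rw [h0, Polynomial.coeff_zero, Polynomial.coeff_zero]
    have h4 : (Q.coeff j).coeff i = Polynomial.C (P i j) := by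
      rw [hQ]
      have e1 := Zest_coeff (fun j => ∑ i ∈ Finset.range E,
        Polynomial.monomial i (Polynomial.C (P i j))) E j
      rw [if_pos hj] at e1
      have e2 := Zest_coeff (fun i => Polynomial.C (P i j)) E i
      rw [if_pos hi] at e2
      exact (congrArg (fun q => Polynomial.coeff q i) e1).trans e2
    exact hij (Polynomial.C_injective ((h4.symm.trans h3).trans Polynomial.C_0.symm))
  have hQev : Z3.ev Q = ∑ i ∈ Finset.range E, ∑ j ∈ Finset.range E,
      Polynomial.aeval (xx K) (P i j) * T1 ^ i * T2 ^ j := by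
    rw [hev3, hQ, Polynomial.eval₂_finsetSum, Finset.sum_comm]
    refine Finset.sum_congr rfl fun j _ => ?_
    rw [Polynomial.eval₂_monomial, hev2, Polynomial.eval₂_finsetSum, Finset.sum_mul]
    refine Finset.sum_congr rfl fun i _ => ?_
    rw [Polynomial.eval₂_monomial, hevC]
  rw [← hQev]
  exact hC n Q hQB hQ0

end Pool.Agent.H85.OT
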