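import Pool.Agent.H85.OT.Cform
import Pool.Agent.H85.OT.Zest

/-!
# Row CZE (project OT): the zero estimate for `Phi`

`w ≥ 2`, `κ = 2w - 2`, `T1 = F1 f * (U⁻¹)^κ`, `T2 = F2 f * (U⁻¹)^κ` in `ℚ⟦X⟧`.
* `D F1 = f` (coefficient `n`: `n * (a_n/n) = a_n`, for `n = 0` use `a_0 = 0`), `D F2 = 2 dbl f`
  (`D (dbl G) = 2 dbl (D G)`: compare coefficients).
* `del T1 = U^(-2) (f U^(-κ) - κ ε F1 U^(-κ)) = f U^(-2w) - κ z T1 = φ1(x) - κ z T1` with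
  `φ1 = φ` of `form_x` (`D U = ε U`, `D U⁻¹ = - ε U⁻¹`, `zz = ε U^(-2)`, `U^(-2) U^(-κ) = U^(-2w)`);
  `del T2 = φ2(x) - κ z T2` with `φ2 = 2 φ'`, `φ'` of `form_dbl_x`.
* degrees `≤ 2w = κ + 2 ≤ 2κ + 1`.  `φ1 ≠ 0` since `f ≠ 0`.  `φ2 ≠ c φ1`: otherwise
  `2 dbl f = c f` in `ℚ⟦X⟧`; let `r ≥ 1` be the order of `f` (`a_0 = 0`); coefficient `r` of `dbl f`
  is `0` (its order is `2 r > r`) so `c a_r = 0`, `c = 0`, so `dbl f = 0`, `f = 0`.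
* `zero_estimate` gives `C`.  Let `t ≠ 0`, `P i j = ∑_e t_(i,j,e) X^e` (degree `≤ n`, not all `0`).  Then
  `Phi = U^(n + 2κE) ∑ P i j (x) T1^i T2^j`: `U^(n+κ(2E-i-j)-e) V^e F1^i F2^j`
  `= U^(n + 2κE) x^e (F1 U^(-κ))^i (F2 U^(-κ))^j` (`i + j < 2E`, `e ≤ n`).
  If all coefficients `≤ C(n+1)` of `Phi` vanish so do those of `U^(-(n+2κE)) Phi` (multiplication by
  a power series), contradiction.
-/

open PowerSeries

namespace Pool.Agent.H85.OT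

private theorem Cze_dbl (F : ℚ⟦X⟧) (n : ℕ) : PowerSeries.coeff n (dbl ℚ F) =
    if 2 ∣ n then PowerSeries.coeff (n / 2) F else 0 := by
  unfold dbl
  exact PowerSeries.coeff_expand _ _ _

private theorem Cze_Ddbl (F : ℚ⟦X⟧) : Dq ℚ (dbl ℚ F) = 2 * dbl ℚ (Dq ℚ F) := by
  ext n
  have h2 : (2 : ℚ⟦X⟧) = PowerSeries.C (2 : ℚ) := (map_ofNat PowerSeries.C 2).symm
  rw [coeff_Dq, h2, PowerSeries.coeff_C_mul, Cze_dbl, Cze_dbl]
  split_ifs with h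
  · obtain ⟨m, rfl⟩ := h
    rw [coeff_Dq, Nat.mul_div_cancel_left m (by norm_num)]
    push_cast
    ring
  · ring

private theorem Cze_DF1 {f : ℤ⟦X⟧} (h0 : PowerSeries.coeff 0 f = 0) :
    Dq ℚ (F1 f) = PowerSeries.map (Int.castRingHom ℚ) f := by
  ext n
  rw [coeff_Dq, F1, PowerSeries.coeff_mk, PowerSeries.coeff_map]
  rcases Nat.eq_zero_or_pos n with rfl | hn
  · rw [h0]
    simp
  · have hn' : (n : ℚ) ≠ 0 := by exact_mod_cast hn.ne'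
    show (n : ℚ) * (((PowerSeries.coeff n f : ℤ) : ℚ) / n) = ((PowerSeries.coeff n f : ℤ) : ℚ)
    field_simp

private theorem Cze_DI : Dq ℚ (U ℚ)⁻¹ = -(ee ℚ * (U ℚ)⁻¹) := by
  have h1 := U_mul_inv ℚ
  have h2 : Dq ℚ (U ℚ * (U ℚ)⁻¹) = 0 := by
    rw [h1]
    exact Derivation.map_one_eq_zero _
  rw [Derivation.leibniz, smul_eq_mul, smul_eq_mul, Dq_U] at h2
  linear_combination (U ℚ)⁻¹ * h2 - (Dq ℚ (U ℚ)⁻¹ + ee ℚ * (U ℚ)⁻¹) * h1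

private theorem Cze_DIpow (k : ℕ) : Dq ℚ ((U ℚ)⁻¹ ^ k) = -((k : ℚ⟦X⟧) * ee ℚ * (U ℚ)⁻¹ ^ k) := by
  induction k with
  | zero =>
    rw [pow_zero, Derivation.map_one_eq_zero]
    simp
  | succ k ih =>
    rw [pow_succ, Derivation.leibniz, smul_eq_mul, smul_eq_mul, ih, Cze_DI]
    push_cast
    ring

private theorem Cze_del {κ w : ℕ} (hκ : κ + 2 = 2 * w) {F g : ℚ⟦X⟧} {φ : Polynomial ℚ}
    (hF : Dq ℚ F = g) (hg : g = U ℚ ^ (2 * w) * Polynomial.aeval (xx ℚ) φ) :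
    del ℚ (F * (U ℚ)⁻¹ ^ κ) = Polynomial.aeval (xx ℚ) φ -
      (κ : ℚ⟦X⟧) * zz ℚ * (F * (U ℚ)⁻¹ ^ κ) := by
  have h1 : U ℚ ^ (2 * w) * (U ℚ)⁻¹ ^ (2 * w) = 1 := by
    rw [← mul_pow, U_mul_inv, one_pow]
  have h2 : (U ℚ)⁻¹ ^ (2 * w) = (U ℚ)⁻¹ ^ κ * (U ℚ)⁻¹ ^ 2 := by
    rw [← hκ, pow_add]
  rw [h2] at h1
  rw [del_apply, Derivation.leibniz, smul_eq_mul, smul_eq_mul, hF, Cze_DIpow, hg, zz]
  linear_combination Polynomial.aeval (xx ℚ) φ * h1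

private theorem Cze_inj {f : ℤ⟦X⟧} (hne : f ≠ 0) : PowerSeries.map (Int.castRingHom ℚ) f ≠ 0 := by
  intro h
  apply hne
  ext n
  have h1 := congrArg (PowerSeries.coeff n) h
  rw [PowerSeries.coeff_map, map_zero] at h1
  rw [map_zero]
  have h2 : ((PowerSeries.coeff n f : ℤ) : ℚ) = 0 := h1
  exact_mod_cast h2

private theorem Cze_indep {g : ℚ⟦X⟧} (hg : g ≠ 0) (h0 : PowerSeries.coeff 0 g = 0) (c : ℚ) :
    2 * dbl ℚ g ≠ PowerSeries.C c * g := by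
  classical
  intro h
  have hex : ∃ n, PowerSeries.coeff n g ≠ 0 := by
    by_contra hcon
    push Not at hcon
    exact hg (PowerSeries.ext fun n => by rw [hcon n, map_zero])
  have hr := Nat.find_spec hex
  have hmin : ∀ m < Nat.find hex, PowerSeries.coeff m g = 0 := fun m hm =>
    not_not.1 (Nat.find_min hex hm)
  have hr0 : Nat.find hex ≠ 0 := by
    intro h1
    rw [h1] at hr
    exact hr h0
  have h2 : (2 : ℚ⟦X⟧) = PowerSeries.C (2 : ℚ) := (map_ofNat PowerSeries.C 2).symm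
  have h3 : ∀ n, 2 * PowerSeries.coeff n (dbl ℚ g) = c * PowerSeries.coeff n g := by
    intro n
    have h4 := congrArg (PowerSeries.coeff n) h
    rw [h2, PowerSeries.coeff_C_mul, PowerSeries.coeff_C_mul] at h4
    exact h4
  have hc : c = 0 := by
    have h4 := h3 (Nat.find hex)
    rw [Cze_dbl] at h4
    have h5 : (if 2 ∣ Nat.find hex then PowerSeries.coeff (Nat.find hex / 2) g else 0) = 0 := by
      split_ifs
      · exact hmin _ (by omega)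
      · rfl
    rw [h5, mul_zero] at h4
    rcases mul_eq_zero.1 h4.symm with h6 | h6
    · exact h6
    · exact absurd h6 hr
  have h4 := h3 (2 * Nat.find hex)
  rw [Cze_dbl, if_pos (Dvd.intro _ rfl), Nat.mul_div_cancel_left _ (by norm_num), hc,
    zero_mul] at h4
  rcases mul_eq_zero.1 h4 with h6 | h6
  · norm_num at h6
  · exact hr h6

private theorem Cze_GG (f : ℤ⟦X⟧) (κ E n : ℕ) (s : Fin E × Fin E × Fin (n + 1)) :
    GG f κ E n s = U ℚ ^ (n + 2 * κ * E) * (xx ℚ ^ (s.2.2 : ℕ) *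
      (F1 f * (U ℚ)⁻¹ ^ κ) ^ (s.1 : ℕ) * (F2 f * (U ℚ)⁻¹ ^ κ) ^ (s.2.1 : ℕ)) := by
  obtain ⟨i, j, e⟩ := s
  have hi := i.2
  have hj := j.2
  have he := e.2
  unfold GG
  show U ℚ ^ (n + κ * (2 * E - (i : ℕ) - (j : ℕ)) - (e : ℕ)) * V ℚ ^ (e : ℕ) *
    F1 f ^ (i : ℕ) * F2 f ^ (j : ℕ) = U ℚ ^ (n + 2 * κ * E) * (xx ℚ ^ (e : ℕ) *
      (F1 f * (U ℚ)⁻¹ ^ κ) ^ (i : ℕ) * (F2 f * (U ℚ)⁻¹ ^ κ) ^ (j : ℕ))
  obtain ⟨m, hm⟩ : ∃ m, 2 * E - (i : ℕ) - (j : ℕ) = m := ⟨_, rfl⟩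
  have hE : 2 * E = m + i + j := by omega
  obtain ⟨q, hq⟩ : ∃ q, n + κ * m - (e : ℕ) = q := ⟨_, rfl⟩
  have hq2 : n + κ * m = q + e := by
    have h1 : (e : ℕ) ≤ n + κ * m := by
      have : 0 ≤ κ * m := Nat.zero_le _
      omega
    omega
  have h1 : n + 2 * κ * E = q + e + κ * i + κ * j := by
    have h2 : n + 2 * κ * E = n + κ * (2 * E) := by ring
    rw [h2, hE, ← hq2]
    ring
  rw [hm, hq, h1, ← xx_mul_U, mul_pow, mul_pow, mul_pow, ← pow_mul, ← pow_mul, pow_add, pow_add,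
    pow_add]
  have h2 : U ℚ ^ (κ * (i : ℕ)) * (U ℚ)⁻¹ ^ (κ * (i : ℕ)) = 1 := by
    rw [← mul_pow, U_mul_inv, one_pow]
  have h3 : U ℚ ^ (κ * (j : ℕ)) * (U ℚ)⁻¹ ^ (κ * (j : ℕ)) = 1 := by
    rw [← mul_pow, U_mul_inv, one_pow]
  have h4 : U ℚ ^ q * U ℚ ^ (e : ℕ) * U ℚ ^ (κ * (i : ℕ)) * U ℚ ^ (κ * (j : ℕ)) *
      (xx ℚ ^ (e : ℕ) * (F1 f ^ (i : ℕ) * (U ℚ)⁻¹ ^ (κ * (i : ℕ))) *
        (F2 f ^ (j : ℕ) * (U ℚ)⁻¹ ^ (κ * (j : ℕ)))) =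
      U ℚ ^ q * (xx ℚ ^ (e : ℕ) * U ℚ ^ (e : ℕ)) * F1 f ^ (i : ℕ) * F2 f ^ (j : ℕ) *
        ((U ℚ ^ (κ * (i : ℕ)) * (U ℚ)⁻¹ ^ (κ * (i : ℕ))) *
          (U ℚ ^ (κ * (j : ℕ)) * (U ℚ)⁻¹ ^ (κ * (j : ℕ)))) := by ring
  rw [h4, h2, h3, mul_one, mul_one]

/-- the polynomials -/
private noncomputable def Cze_P {E n : ℕ} (t : Fin E × Fin E × Fin (n + 1) → ℤ) (i j : ℕ) :
    Polynomial ℚ :=
  if h : i < E ∧ j < E then
    ∑ e : Fin (n + 1), Polynomial.monomial (e : ℕ) ((t (⟨i, h.1⟩, ⟨j, h.2⟩, e) : ℤ) : ℚ)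
  else 0

private theorem Cze_P_eq {E n : ℕ} (t : Fin E × Fin E × Fin (n + 1) → ℤ) (i j : Fin E) :
    Cze_P t i j = ∑ e : Fin (n + 1), Polynomial.monomial (e : ℕ) ((t (i, j, e) : ℤ) : ℚ) := by
  unfold Cze_P
  rw [dif_pos ⟨i.2, j.2⟩]

private theorem Cze_P_deg {E n : ℕ} (t : Fin E × Fin E × Fin (n + 1) → ℤ) (i j : ℕ) :
    (Cze_P t i j).natDegree ≤ n := by
  unfold Cze_P
  split_ifs with h
  · refine Polynomial.natDegree_sum_le_of_forall_le _ _ (fun e _ => ?_)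
    exact (Polynomial.natDegree_monomial_le _).trans (Nat.lt_succ_iff.1 e.2)
  · rw [Polynomial.natDegree_zero]
    exact Nat.zero_le _

private theorem Cze_P_coeff {E n : ℕ} (t : Fin E × Fin E × Fin (n + 1) → ℤ) (i j : Fin E)
    (e : Fin (n + 1)) : (Cze_P t i j).coeff e = ((t (i, j, e) : ℤ) : ℚ) := by
  rw [Cze_P_eq, Polynomial.finsetSum_coeff, Finset.sum_eq_single e]
  · rw [Polynomial.coeff_monomial, if_pos rfl]
  · intro b _ hb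
    rw [Polynomial.coeff_monomial, if_neg (fun h => hb (Fin.ext h))]
  · intro h
    exact absurd (Finset.mem_univ _) h

private theorem Cze_Phi (f : ℤ⟦X⟧) (κ E n : ℕ) (t : Fin E × Fin E × Fin (n + 1) → ℤ) :
    Phi f κ E n t = U ℚ ^ (n + 2 * κ * E) * ∑ i ∈ Finset.range E, ∑ j ∈ Finset.range E,
      Polynomial.aeval (xx ℚ) (Cze_P t i j) * (F1 f * (U ℚ)⁻¹ ^ κ) ^ i *
        (F2 f * (U ℚ)⁻¹ ^ κ) ^ j := by
  unfold Phi
  rw [Finset.sum_range, Finset.mul_sum, Fintype.sum_prod_type]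
  refine Finset.sum_congr rfl fun i _ => ?_
  rw [Finset.sum_range, Finset.mul_sum, Fintype.sum_prod_type]
  refine Finset.sum_congr rfl fun j _ => ?_
  rw [Cze_P_eq, map_sum, Finset.sum_mul, Finset.sum_mul, Finset.mul_sum]
  refine Finset.sum_congr rfl fun e _ => ?_
  rw [Cze_GG, Polynomial.aeval_monomial]
  show PowerSeries.C ((t (i, j, e) : ℤ) : ℚ) * _ = _
  have h1 : algebraMap ℚ ℚ⟦X⟧ ((t (i, j, e) : ℤ) : ℚ) = PowerSeries.C ((t (i, j, e) : ℤ) : ℚ) :=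
    rfl
  rw [h1]
  ring

theorem ze_phi (f : ℤ⟦X⟧) (w : ℕ) (hw : 2 ≤ w) (hf : IsForm w f) (hne : f ≠ 0)
    (h0 : PowerSeries.coeff 0 f = 0) (E : ℕ) :
    ∃ C : ℕ, ∀ (n : ℕ) (t : Fin E × Fin E × Fin (n + 1) → ℤ), t ≠ 0 →
      ∃ l ≤ C * (n + 1), PowerSeries.coeff l (Phi f (2 * w - 2) E n t) ≠ 0 := by
  obtain ⟨κ, hκ⟩ : ∃ κ, 2 * w - 2 = κ := ⟨_, rfl⟩
  rw [hκ]
  have hκ2 : κ + 2 = 2 * w := by omega
  obtain ⟨φ1, hd1, hφ1⟩ := form_x hf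
  obtain ⟨φ2, hd2, hφ2⟩ := form_dbl_x hf
  have hne' := Cze_inj hne
  have h0' : PowerSeries.coeff 0 (PowerSeries.map (Int.castRingHom ℚ) f) = 0 := by
    rw [PowerSeries.coeff_map, h0, map_zero]
  have h2C : algebraMap ℚ ℚ⟦X⟧ 2 = 2 := map_ofNat _ 2
  have hT1 := Cze_del hκ2 (Cze_DF1 h0) hφ1
  have hT2 := Cze_del (F := F2 f) (φ := Polynomial.C 2 * φ2) hκ2
    (g := 2 * dbl ℚ (PowerSeries.map (Int.castRingHom ℚ) f))
    (by rw [F2, Cze_Ddbl, Cze_DF1 h0])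
    (by
      rw [hφ2, map_mul, Polynomial.aeval_C, h2C]
      ring)
  obtain ⟨C, hC⟩ := zero_estimate κ (by omega) φ1 (Polynomial.C 2 * φ2)
    (by
      intro h
      rw [h, map_zero, mul_zero] at hφ1
      exact hne' hφ1)
    (by
      intro c h
      refine Cze_indep hne' h0' c ?_
      have h3 := congrArg (Polynomial.aeval (xx ℚ)) h
      rw [map_mul, map_mul, Polynomial.aeval_C, Polynomial.aeval_C, h2C] at h3
      have h4 : algebraMap ℚ ℚ⟦X⟧ c = PowerSeries.C c := rfl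
      rw [h4] at h3
      rw [hφ2]
      conv_rhs => rw [hφ1]
      linear_combination U ℚ ^ (2 * w) * h3)
    (by omega)
    ((Polynomial.natDegree_C_mul_le _ _).trans (by omega))
    _ _ hT1 hT2 E
  refine ⟨C, fun n t ht => ?_⟩
  obtain ⟨⟨i, j, e⟩, hs⟩ : ∃ s, t s ≠ 0 := by
    by_contra hcon
    push Not at hcon
    exact ht (funext hcon)
  obtain ⟨l, hl, h3⟩ := hC n (fun i j => Cze_P t i j) (fun i _ j _ => Cze_P_deg t i j)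
    ⟨i, i.2, j, j.2, by
      intro h4
      have h5 := Cze_P_coeff t i j e
      have h6 : Cze_P t i j = 0 := h4
      rw [h6, Polynomial.coeff_zero] at h5
      exact hs (by exact_mod_cast h5.symm)⟩
  by_contra hcon
  push Not at hcon
  have hvan : Van l (Phi f κ E n t) := fun l' hl' => hcon l' (hl'.trans hl)
  have hI : (U ℚ)⁻¹ ^ (n + 2 * κ * E) * U ℚ ^ (n + 2 * κ * E) = 1 := by
    rw [← mul_pow, mul_comm (U ℚ)⁻¹, U_mul_inv, one_pow]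
  have h7 := hvan.mul ((U ℚ)⁻¹ ^ (n + 2 * κ * E))
  rw [Cze_Phi, ← mul_assoc, hI, one_mul] at h7
  exact h3 (h7 l le_rfl)

end Pool.Agent.H85.OT
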