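import Mathlib

/-!
# Definitions for the project OT (first Newton slope of modular forms on `Γ₀(4)`)

`th3 = θ₃(q) = 1 + 2 ∑ q^(n²)`, `th4 = θ₄(q) = θ₃(-q)` as formal power series over `ℤ`.
`U R`, `V R` are the images of `θ₃²`, `θ₄²` in `R⟦X⟧`.  `Dq = q d/dq`.
For a field `K` of characteristic `≠ 2`:
`xx K = V/U`, `ee K = Dq U / U`, `zz K = ee / U²`.
-/

open PowerSeries

namespace Pool.Agent.H85.OT

/-- `q d/dq`. -/
noncomputable def Dq (R : Type*) [CommRing R] : Derivation R R⟦X⟧ R⟦X⟧ :=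
  (PowerSeries.X : R⟦X⟧) • PowerSeries.derivative (R := R)

theorem coeff_Dq {R : Type*} [CommRing R] (f : R⟦X⟧) (n : ℕ) :
    PowerSeries.coeff n (Dq R f) = (n : R) * PowerSeries.coeff n f := by
  rcases n with _ | n
  · simp [Dq]
  · simp [Dq, PowerSeries.coeff_succ_X_mul, PowerSeries.coeff_derivative, mul_comm]

/-- `θ₃(q) = 1 + 2 ∑_{n ≥ 1} q^(n²)` -/
noncomputable def th3 : ℤ⟦X⟧ :=
  PowerSeries.mk fun n => if n = 0 then 1 else if IsSquare n then 2 else 0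

/-- `θ₄(q) = θ₃(-q)` -/
noncomputable def th4 : ℤ⟦X⟧ :=
  PowerSeries.mk fun n => (-1) ^ n * PowerSeries.coeff n th3

/-- image of `θ₃²` -/
noncomputable def U (R : Type*) [CommRing R] : R⟦X⟧ :=
  PowerSeries.map (Int.castRingHom R) (th3 ^ 2)

/-- image of `θ₄²` -/
noncomputable def V (R : Type*) [CommRing R] : R⟦X⟧ :=
  PowerSeries.map (Int.castRingHom R) (th4 ^ 2)

/-- `q ↦ q²` -/
noncomputable def dbl (R : Type*) [CommRing R] : R⟦X⟧ →ₐ[R] R⟦X⟧ :=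
  PowerSeries.expand 2 two_ne_zero

section field
variable (K : Type*) [Field K]

/-- `x = θ₄²/θ₃²` -/
noncomputable def xx : K⟦X⟧ := V K * (U K)⁻¹

/-- `ε = D(θ₃²)/θ₃²` -/
noncomputable def ee : K⟦X⟧ := Dq K (U K) * (U K)⁻¹

/-- `z = ε/θ₃⁴` -/
noncomputable def zz : K⟦X⟧ := ee K * (U K)⁻¹ ^ 2

end field

/-- `f` is (up to a nonzero integer factor) a homogeneous polynomial of degree `w` in
`θ₃⁴, θ₄⁴` with integer coefficients: a modular form of weight `2 w` on `Γ₀(4)`. -/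
def IsForm (w : ℕ) (f : ℤ⟦X⟧) : Prop :=
  ∃ (M : ℤ) (c : ℕ → ℤ), M ≠ 0 ∧
    PowerSeries.C M * f =
      ∑ j ∈ Finset.range (w + 1), PowerSeries.C (c j) * (th3 ^ 4) ^ (w - j) * (th4 ^ 4) ^ j

/-- `a_n ≡ 0 mod p^(v_p(n))` fails for some `n ≥ 1` (for a newform: `p` is ordinary). -/
def Ord0 (f : ℤ⟦X⟧) (p : ℕ) : Prop :=
  ∃ n : ℕ, 1 ≤ n ∧ ¬ ((p : ℤ) ^ (padicValNat p n) ∣ PowerSeries.coeff n f)

/-- `a_n ≡ 0 mod p^(v_p(n)+1)` for all `n` divisible by `p` (for a newform of weight `≥ 4`: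
`p² ∣ a_p`). -/
def Sl2 (f : ℤ⟦X⟧) (p : ℕ) : Prop :=
  ∀ n : ℕ, 1 ≤ n → p ∣ n → ((p : ℤ) ^ (padicValNat p n + 1) ∣ PowerSeries.coeff n f)

end Pool.Agent.H85.OT
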