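import Pool.Agent.H85.OT.Defs

/-!
# Row DUP (project OT): the two duplication formulas for theta series

Notation: `r1 N = coeff N th3` = number of integers `n` with `n² = N`, and
`r2 N = coeff N (th3^2)` = number of pairs `(m, n)` of integers with `m² + n² = N`.
Since `(-1)^N = (-1)^(m+n)` when `N = m² + n²`, `coeff N (th4^2) = (-1)^N * r2 N`
(also directly: `th4` is `th3` with `X` replaced by `-X`, a ring map; `PowerSeries.rescale (-1)`).

KEY: `r2 (2 N) = r2 N`, by the bijection `(m, n) ↦ (m + n, m - n)` from pairs with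
`m² + n² = N` to pairs with sum of squares `2 N` (inverse: both entries have the same parity).

`two_dbl_U`: coefficient `N` of `th3^2 + th4^2` is `(1 + (-1)^N) r2 N`, so `0` for `N` odd and
`2 r2 (2M) = 2 r2 M` for `N = 2M`; this is coefficient `N` of `2 * dbl (th3^2)`.

`dbl_th4_sq`: coefficient `N` of `th3 * th4` is the sum over pairs with `m² + n² = N` of
`(-1)^n`.  For `N` odd `m, n` have different parity, and swapping `m, n` shows the sum is `0`.
For `N = 2M`, `m = a + b`, `n = a - b` with `a² + b² = M`, and `(-1)^n = (-1)^(a+b) = (-1)^M`, so the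
sum is `(-1)^M r2 M = coeff M (th4^2)`, which is coefficient `N` of `dbl (th4^2) = (dbl th4)^2`.

Suggested set-up: write `coeff N (th3 * th3)` (`PowerSeries.coeff_mul`) as a sum over the
antidiagonal, and `coeff n th3 = ((Finset.Icc (-(n:ℤ)) n).filter (fun m => m^2 = n)).card`.
Alternative to pair counting: work with the square root function, `PowerSeries` of a
finite sum, or with `∑ m ∈ Icc (-N) N, X^(natAbs m ^ 2)` modulo `X^(N+1)`: two power series are
equal iff for all `N` their truncations agree; for finite sums over `Icc (-N) N ×ˢ Icc (-N) N`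
use `Finset.sum_bij`.
-/

open PowerSeries

namespace Pool.Agent.H85.OT

/-- integers with square `n` -/
noncomputable def Dup_S (n : ℕ) : Finset ℤ :=
  (Finset.Icc (-(n : ℤ)) n).filter fun m => m ^ 2 = (n : ℤ)

/-- pairs of integers with sum of squares `N` -/
noncomputable def Dup_P (N : ℕ) : Finset (ℤ × ℤ) :=
  (Finset.Icc (-(N : ℤ)) N ×ˢ Finset.Icc (-(N : ℤ)) N).filter fun p => p.1 ^ 2 + p.2 ^ 2 = (N : ℤ)

theorem Dup_le (m : ℤ) {N : ℤ} (h : m ^ 2 ≤ N) : m ∈ Finset.Icc (-N) N := by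
  rw [Finset.mem_Icc]
  have h1 := Int.le_self_sq m
  have h2 := Int.le_self_sq (-m)
  rw [neg_sq] at h2
  constructor <;> linarith

theorem Dup_mem_S {n : ℕ} {m : ℤ} : m ∈ Dup_S n ↔ m ^ 2 = (n : ℤ) := by
  unfold Dup_S
  rw [Finset.mem_filter]
  exact ⟨fun h => h.2, fun h => ⟨Dup_le m h.le, h⟩⟩

theorem Dup_mem_P {N : ℕ} {p : ℤ × ℤ} : p ∈ Dup_P N ↔ p.1 ^ 2 + p.2 ^ 2 = (N : ℤ) := by
  unfold Dup_P
  rw [Finset.mem_filter, Finset.mem_product]
  refine ⟨fun h => h.2, fun h => ⟨⟨Dup_le _ ?_, Dup_le _ ?_⟩, h⟩⟩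
  · nlinarith [sq_nonneg p.2]
  · nlinarith [sq_nonneg p.1]

theorem Dup_coeff_mul {f g : ℤ⟦X⟧} {χ ψ : ℤ → ℤ}
    (hf : ∀ n : ℕ, coeff n f = ∑ m ∈ Dup_S n, χ m)
    (hg : ∀ n : ℕ, coeff n g = ∑ m ∈ Dup_S n, ψ m) (N : ℕ) :
    coeff N (f * g) = ∑ p ∈ Dup_P N, χ p.1 * ψ p.2 := by
  rw [PowerSeries.coeff_mul, ← Finset.sum_fiberwise_of_maps_to (t := Finset.HasAntidiagonal.antidiagonal N)
    (g := fun p : ℤ × ℤ => (p.1.natAbs ^ 2, p.2.natAbs ^ 2))]
  · apply Finset.sum_congr rfl
    intro q hq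
    rw [Finset.HasAntidiagonal.mem_antidiagonal] at hq
    rw [hf, hg, Finset.sum_mul_sum, ← Finset.sum_product']
    apply Finset.sum_congr
    · ext p
      rw [Finset.mem_product, Finset.mem_filter, Dup_mem_S, Dup_mem_S, Dup_mem_P, Prod.ext_iff]
      constructor
      · rintro ⟨h1, h2⟩
        refine ⟨?_, ?_, ?_⟩
        · rw [h1, h2, ← hq]
          push_cast
          rfl
        · have h3 : ((p.1.natAbs ^ 2 : ℕ) : ℤ) = (q.1 : ℤ) := by
            push_cast
            rw [sq_abs, h1]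
          exact_mod_cast h3
        · have h3 : ((p.2.natAbs ^ 2 : ℕ) : ℤ) = (q.2 : ℤ) := by
            push_cast
            rw [sq_abs, h2]
          exact_mod_cast h3
      · rintro ⟨-, h1, h2⟩
        simp only at h1 h2
        rw [← h1, ← h2]
        push_cast
        rw [sq_abs, sq_abs]
        exact ⟨rfl, rfl⟩
    · intro p _
      rfl
  · intro p hp
    rw [Dup_mem_P] at hp
    rw [Finset.HasAntidiagonal.mem_antidiagonal]
    have h3 : ((p.1.natAbs ^ 2 + p.2.natAbs ^ 2 : ℕ) : ℤ) = (N : ℤ) := by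
      push_cast
      rw [sq_abs, sq_abs, hp]
    exact_mod_cast h3

/-- the sign `(-1)^m` -/
noncomputable def Dup_c (m : ℤ) : ℤ := ((m.negOnePow : ℤˣ) : ℤ)

theorem Dup_c_sub (a b : ℤ) : Dup_c (a - b) = Dup_c a * Dup_c b := by
  unfold Dup_c
  rw [Int.negOnePow_sub]
  push_cast
  rfl

theorem Dup_c_nat {N : ℕ} {a b : ℤ} (h : a ^ 2 + b ^ 2 = (N : ℤ)) :
    Dup_c a * Dup_c b = (-1) ^ N := by
  have h1 : a.negOnePow * b.negOnePow = (N : ℤ).negOnePow := by
    rw [← h, Int.negOnePow_add, pow_two, pow_two, Int.negOnePow_mul_self, Int.negOnePow_mul_self]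
  unfold Dup_c
  rw [← Units.val_mul, h1]
  simp [Int.negOnePow]

theorem Dup_th3 (n : ℕ) : coeff n th3 = ∑ _m ∈ Dup_S n, (1 : ℤ) := by
  unfold th3
  rw [PowerSeries.coeff_mk]
  split_ifs with h1 h2
  · subst h1
    have : Dup_S 0 = {0} := by
      ext m
      rw [Dup_mem_S]
      simp
    rw [this]
    simp
  · obtain ⟨k, rfl⟩ := h2
    have hk : (k : ℤ) ≠ 0 := by
      intro h
      apply h1
      have : k = 0 := by exact_mod_cast h
      rw [this]
    have : Dup_S (k * k) = {(k : ℤ), -(k : ℤ)} := by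
      ext m
      rw [Dup_mem_S]
      push_cast
      rw [← pow_two, sq_eq_sq_iff_eq_or_eq_neg]
      simp
    rw [this, Finset.sum_pair]
    · norm_num
    · intro h
      apply hk
      linarith
  · have : Dup_S n = ∅ := by
      rw [Finset.eq_empty_iff_forall_notMem]
      intro m hm
      rw [Dup_mem_S] at hm
      apply h2
      refine ⟨m.natAbs, ?_⟩
      have h3 : (n : ℤ) = ((m.natAbs * m.natAbs : ℕ) : ℤ) := by
        push_cast
        rw [abs_mul_abs_self, ← hm, pow_two]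
      exact_mod_cast h3
    rw [this]
    simp

theorem Dup_th4 (n : ℕ) : coeff n th4 = ∑ m ∈ Dup_S n, Dup_c m := by
  unfold th4
  rw [PowerSeries.coeff_mk, Dup_th3, Finset.mul_sum]
  apply Finset.sum_congr rfl
  intro m hm
  rw [Dup_mem_S] at hm
  have h := Dup_c_nat (N := n) (a := m) (b := 0) (by rw [hm]; simp)
  rw [← h]
  simp [Dup_c]

theorem Dup_sum (M : ℕ) (F : ℤ × ℤ → ℤ) :
    ∑ p ∈ Dup_P (2 * M), F p = ∑ p ∈ Dup_P M, F (p.1 + p.2, p.1 - p.2) := by
  symm
  refine Finset.sum_bij' (fun p _ => (p.1 + p.2, p.1 - p.2))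
    (fun p _ => ((p.1 + p.2) / 2, (p.1 - p.2) / 2)) ?_ ?_ ?_ ?_ ?_
  · intro p hp
    rw [Dup_mem_P] at hp ⊢
    push_cast
    rw [← hp]
    ring
  · intro p hp
    rw [Dup_mem_P] at hp ⊢
    push_cast at hp
    obtain ⟨x, y⟩ := p
    simp only at hp ⊢
    have hpar : (x + y) % 2 = 0 := by
      have h1 : (x ^ 2 + y ^ 2) % 2 = 0 := by rw [hp]; simp
      rcases Int.emod_two_eq_zero_or_one x with hx | hx <;>
        rcases Int.emod_two_eq_zero_or_one y with hy | hy <;>
        simp [pow_two, Int.add_emod, Int.mul_emod, hx, hy] at h1 ⊢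
    obtain ⟨a, ha⟩ : ∃ a, x + y = 2 * a := ⟨(x + y) / 2, by omega⟩
    have hb : x - y = 2 * (a - y) := by linarith
    rw [ha, hb, Int.mul_ediv_cancel_left _ two_ne_zero, Int.mul_ediv_cancel_left _ two_ne_zero]
    have hx : x = 2 * a - y := by linarith
    rw [hx] at hp
    nlinarith [hp]
  · intro p _
    obtain ⟨x, y⟩ := p
    simp only [Prod.mk.injEq]
    constructor
    · have : x + y + (x - y) = 2 * x := by ring
      rw [this, Int.mul_ediv_cancel_left _ two_ne_zero]
    · have : x + y - (x - y) = 2 * y := by ring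
      rw [this, Int.mul_ediv_cancel_left _ two_ne_zero]
  · intro p hp
    rw [Dup_mem_P] at hp
    push_cast at hp
    obtain ⟨x, y⟩ := p
    simp only at hp ⊢
    have hpar : (x + y) % 2 = 0 := by
      have h1 : (x ^ 2 + y ^ 2) % 2 = 0 := by rw [hp]; simp
      rcases Int.emod_two_eq_zero_or_one x with hx | hx <;>
        rcases Int.emod_two_eq_zero_or_one y with hy | hy <;>
        simp [pow_two, Int.add_emod, Int.mul_emod, hx, hy] at h1 ⊢
    rw [Prod.mk.injEq]
    constructor <;> omega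
  · intro p _
    rfl

theorem Dup_odd {N : ℕ} (hN : ¬ 2 ∣ N) : ((-1 : ℤ)) ^ N = -1 := by
  apply Odd.neg_one_pow
  rw [Nat.odd_iff]
  omega

theorem two_dbl_U : 2 * dbl ℤ (th3 ^ 2) = th3 ^ 2 + th4 ^ 2 := by
  ext N
  rw [two_mul, map_add, map_add, pow_two, pow_two,
    Dup_coeff_mul Dup_th3 Dup_th3, Dup_coeff_mul Dup_th4 Dup_th4, ← Finset.sum_add_distrib]
  unfold dbl
  by_cases h : 2 ∣ N
  · obtain ⟨M, rfl⟩ := h
    rw [PowerSeries.coeff_expand_mul, Dup_coeff_mul Dup_th3 Dup_th3, Dup_sum,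
      ← Finset.sum_add_distrib]
    apply Finset.sum_congr rfl
    intro p hp
    rw [Dup_mem_P] at hp
    have h1 : (p.1 + p.2) ^ 2 + (p.1 - p.2) ^ 2 = ((2 * M : ℕ) : ℤ) := by
      push_cast
      rw [← hp]
      ring
    simp only
    rw [Dup_c_nat h1, pow_mul]
    norm_num
  · rw [PowerSeries.coeff_expand_of_not_dvd _ _ _ h, add_zero]
    symm
    apply Finset.sum_eq_zero
    intro p hp
    rw [Dup_mem_P] at hp
    rw [Dup_c_nat hp, Dup_odd h]
    norm_num

theorem dbl_th4_sq : (dbl ℤ th4) ^ 2 = th3 * th4 := by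
  ext N
  rw [← map_pow, pow_two, Dup_coeff_mul Dup_th3 Dup_th4]
  unfold dbl
  by_cases h : 2 ∣ N
  · obtain ⟨M, rfl⟩ := h
    rw [PowerSeries.coeff_expand_mul, Dup_coeff_mul Dup_th4 Dup_th4, Dup_sum]
    apply Finset.sum_congr rfl
    intro p _
    rw [one_mul, Dup_c_sub]
  · rw [PowerSeries.coeff_expand_of_not_dvd _ _ _ h]
    have h1 : ∑ p ∈ Dup_P N, 1 * Dup_c p.2 = ∑ p ∈ Dup_P N, 1 * Dup_c p.1 := by
      refine Finset.sum_bij' (fun p _ => (p.2, p.1)) (fun p _ => (p.2, p.1)) ?_ ?_ ?_ ?_ ?_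
      · intro p hp
        rw [Dup_mem_P] at hp ⊢
        rw [← hp]
        ring
      · intro p hp
        rw [Dup_mem_P] at hp ⊢
        rw [← hp]
        ring
      · intro p _
        rfl
      · intro p _
        rfl
      · intro p _
        rfl
    have h2 : ∑ p ∈ Dup_P N, 1 * Dup_c p.2 + ∑ p ∈ Dup_P N, 1 * Dup_c p.1 = 0 := by
      rw [← Finset.sum_add_distrib]
      apply Finset.sum_eq_zero
      intro p hp
      rw [Dup_mem_P] at hp
      have h3 := Dup_c_nat hp
      rw [Dup_odd h] at h3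
      have h4 : Dup_c p.1 = 1 ∨ Dup_c p.1 = -1 := by
        unfold Dup_c
        rcases Int.units_eq_one_or p.1.negOnePow with h | h <;> simp [h]
      rcases h4 with h4 | h4
      · rw [h4] at h3 ⊢
        linarith
      · rw [h4] at h3 ⊢
        linarith
    linarith

end Pool.Agent.H85.OT
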