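import Pool.Agent.H85.OT.DefP

/-!
# Row HA (project OT): the Hasse polynomial `h` and its differential equation

`p` odd prime, `m = (p-1)/2`, `c_i = C(m,i)²` in `F_p`, `h = ∑_{i ≤ m} c_i X^i`.
* `4 (X(1-X)h')' = h` : coefficient `i` of `X(1-X)h'` is `i c_i - (i-1) c_(i-1)`, so coefficient `i` of
  its derivative is `(i+1) ((i+1) c_(i+1) - i c_i)`.  Since `(i+1) C(m,i+1) = (m-i) C(m,i)`
  (`Nat.choose_succ_right_eq`), `(i+1)² c_(i+1) = (m-i)² c_i`, and `2 m = -1` in `F_p`, so
  `4 (m-i)² = (2m - 2i)² = (2i+1)²`; thus `4 ×` the coefficient is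
  `((2i+1)² - 4 i (i+1)) c_i = c_i`.  (For `i > m` both sides are `0`; for `i = m` it works too as
  `C(m,m+1) = 0 = m - m`.)
* `natDegree h = m`, leading coefficient `C(m,m)² = 1`; `h(0) = 1`;
* `h(1) = ∑ C(m,i)² = C(2m, m)` (`Nat.sum_range_choose_sq` or
  `Nat.add_choose_eq` / `Int.sum_range_choose...`, Vandermonde) and `C(2m,m)` divides `(2m)!` with
  `2 m = p - 1 < p`, so it is nonzero mod `p`.
* `natDegree (Bh p) ≤ m + 1`.
-/

namespace Pool.Agent.H85.OT

variable {p : ℕ} [hp : Fact p.Prime] (h2 : p ≠ 2)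

private theorem Ha_coeff (p : ℕ) (i : ℕ) :
    (hh p).coeff i = (((mm p).choose i : ℕ) : ZMod p) ^ 2 := by
  unfold hh
  rw [Polynomial.finsetSum_coeff]
  simp only [Polynomial.coeff_C_mul, Polynomial.coeff_X_pow, mul_ite, mul_one, mul_zero]
  rw [Finset.sum_ite_eq (Finset.range (mm p + 1)) i
    (fun j => (((mm p).choose j : ℕ) : ZMod p) ^ 2)]
  split_ifs with h
  · rfl
  · rw [Finset.mem_range, not_lt] at h
    rw [Nat.choose_eq_zero_of_lt (by omega), Nat.cast_zero, zero_pow two_ne_zero]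

private theorem Ha_step (p : ℕ) [Fact p.Prime] (i : ℕ) :
    (((mm p).choose (i + 1) : ℕ) : ZMod p) * ((i : ZMod p) + 1) =
      (((mm p).choose i : ℕ) : ZMod p) * (((mm p : ℕ) : ZMod p) - (i : ZMod p)) := by
  rcases le_or_gt i (mm p) with h | h
  · have h1 := Nat.choose_succ_right_eq (mm p) i
    have h3 := congrArg (fun n : ℕ => (n : ZMod p)) h1
    simp only [Nat.cast_mul, Nat.cast_add, Nat.cast_one, Nat.cast_sub h] at h3
    exact h3
  · rw [Nat.choose_eq_zero_of_lt (by omega : mm p < i + 1), Nat.choose_eq_zero_of_lt h,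
      Nat.cast_zero, zero_mul, zero_mul]

private theorem Ha_Xder (p : ℕ) (i : ℕ) :
    (Polynomial.X * Polynomial.derivative (hh p)).coeff i =
      (i : ZMod p) * (((mm p).choose i : ℕ) : ZMod p) ^ 2 := by
  rcases i with _ | i
  · rw [Polynomial.coeff_X_mul_zero, Nat.cast_zero, zero_mul]
  · rw [Polynomial.coeff_X_mul, Polynomial.coeff_derivative, Ha_coeff, Nat.cast_succ]
    ring

include h2

theorem hh_ode : 4 * Polynomial.derivative (Bh p) = hh p := by
  have hm : 2 * ((mm p : ℕ) : ZMod p) + 1 = 0 := by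
    have h1 := congrArg (fun n : ℕ => (n : ZMod p)) (two_mm hp.out h2)
    simp only [Nat.cast_add, Nat.cast_mul, Nat.cast_one, Nat.cast_ofNat, CharP.cast_eq_zero] at h1
    exact h1
  ext i
  have e4 : (4 : Polynomial (ZMod p)) = Polynomial.C 4 := by
    rw [map_ofNat]
  rw [e4, Polynomial.coeff_C_mul, Polynomial.coeff_derivative, Ha_coeff]
  have e1 : Bh p = Polynomial.X * (Polynomial.derivative (hh p) -
      Polynomial.X * Polynomial.derivative (hh p)) := by
    unfold Bh
    ring
  rw [e1, Polynomial.coeff_X_mul, Polynomial.coeff_sub, Ha_Xder, Polynomial.coeff_derivative,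
    Ha_coeff]
  have hC := Ha_step p i
  linear_combination 4 * ((((mm p).choose (i + 1) : ℕ) : ZMod p) * ((i : ZMod p) + 1) +
    (((mm p).choose i : ℕ) : ZMod p) * (((mm p : ℕ) : ZMod p) - (i : ZMod p))) * hC +
    (((mm p).choose i : ℕ) : ZMod p) ^ 2 * (2 * ((mm p : ℕ) : ZMod p) - 4 * i - 1) * hm

theorem hh_natDegree : (hh p).natDegree = mm p := by
  have := h2
  apply Polynomial.natDegree_eq_of_le_of_coeff_ne_zero
  · rw [Polynomial.natDegree_le_iff_coeff_eq_zero]
    intro i hi
    rw [Ha_coeff, Nat.choose_eq_zero_of_lt hi, Nat.cast_zero, zero_pow two_ne_zero]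
  · rw [Ha_coeff, Nat.choose_self, Nat.cast_one, one_pow]
    exact one_ne_zero

theorem hh_monic : (hh p).Monic := by
  rw [Polynomial.Monic, Polynomial.leadingCoeff, hh_natDegree h2, Ha_coeff, Nat.choose_self,
    Nat.cast_one, one_pow]

theorem hh_coeff_zero : (hh p).coeff 0 = 1 := by
  have := h2
  rw [Ha_coeff, Nat.choose_zero_right, Nat.cast_one, one_pow]

theorem hh_eval_one : (hh p).eval 1 ≠ 0 := by
  have e1 : (hh p).eval 1 = (((2 * mm p).choose (mm p) : ℕ) : ZMod p) := by
    rw [← Nat.sum_range_choose_sq]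
    unfold hh
    rw [Polynomial.eval_finsetSum, Nat.cast_sum]
    refine Finset.sum_congr rfl fun i _ => ?_
    simp
  rw [e1]
  intro h0
  rw [ZMod.natCast_eq_zero_iff] at h0
  have h1 : (2 * mm p).choose (mm p) ∣ (2 * mm p).factorial := by
    rw [← Nat.choose_mul_factorial_mul_factorial (show mm p ≤ 2 * mm p by omega), mul_assoc]
    exact dvd_mul_right _ _
  have h3 := (Nat.Prime.dvd_factorial hp.out).1 (h0.trans h1)
  have h4 := two_mm hp.out h2
  omega

theorem Bh_natDegree : (Bh p).natDegree ≤ mm p + 1 := by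
  have h4 := two_mm hp.out h2
  have h5 := hp.out.two_le
  have e1 : (Polynomial.X * (1 - Polynomial.X) : Polynomial (ZMod p)).natDegree ≤ 2 := by
    refine Polynomial.natDegree_mul_le.trans ?_
    have h6 : (Polynomial.X : Polynomial (ZMod p)).natDegree ≤ 1 := Polynomial.natDegree_X_le
    have h7 : (1 - Polynomial.X : Polynomial (ZMod p)).natDegree ≤ 1 := by
      refine (Polynomial.natDegree_sub_le _ _).trans ?_
      rw [Polynomial.natDegree_one]
      exact max_le (Nat.zero_le _) h6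
    omega
  have e2 : (Polynomial.derivative (hh p)).natDegree ≤ mm p - 1 := by
    have := Polynomial.natDegree_derivative_le (hh p)
    rwa [hh_natDegree h2] at this
  unfold Bh
  refine Polynomial.natDegree_mul_le.trans ?_
  omega

end Pool.Agent.H85.OT
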