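import Pool.Agent.H85.OT.Wron

/-!
# Row ODE (project OT): the differential equation of `θ₃²`

Notation `u = th3^2`, `v = th4^2`, `D = Dq ℤ` and `F~ = dbl ℤ F` (so `F~(q) = F(q²)`).
Rules: `D (F~) = 2 (D F)~`; `2 u~ = u + v` (`two_dbl_U`); `v~² = u v` (square of `dbl_th4_sq`:
`v~ = (dbl th4)^2 = th3 * th4`, so `v~² = u v`).
`wron : 2 (u Dv - v Du) = - u v (u² - v²)`.

Put `E = 4 u D²u - 8 (Du)² - u² v² (u² - v²)`; work over `ℚ` (map `ℤ → ℚ` is injective on power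
series), where `u` is invertible: `ε = Du/u`, `e = E/u² = 4 Dε - 4 ε² - v²(u² - v²)`
(`Dε = D²u/u - (Du)²/u²`).  From `wron`: `Dv = v ε - (1/2) v (u² - v²)`.
`ε~ = D(u~)/(2 u~) = (Du + Dv)/(2(u+v)) = ε/2 - (1/4) v (u-v)`.
`(Dε)~ = (1/2) D(ε~) = (1/4) Dε - (1/8) D(v(u-v))`, and
`D(v(u-v)) = u Dv + v Du - 2 v Dv = 2 v (u-v) ε + (1/2) v (u²-v²)(2v - u)`.
`e~ = 4 (Dε)~ - 4 ε~² - v~²(u~² - v~²)`
   `= Dε - (1/2) D(v(u-v)) - (ε - (1/2) v(u-v))² - (1/4) u v (u-v)²`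
   `= Dε - ε² - (1/4) v (u-v) [ (u+v)(2v-u) + v(u-v) + u(u-v) ]`
   `= Dε - ε² - (1/4) v² (u² - v²) = e/4`.
So `4 e~ = e`; comparing coefficients, `e_0 = 4 e_0`, `e_N = 0` for `N` odd, `e_(2M) = 4 e_M`, hence
`e = 0` by strong induction.
(If preferred: multiply everything out and use `linear_combination` over `ℤ` or `ℚ`.)
-/

open PowerSeries

namespace Pool.Agent.H85.OT

theorem Ode_D_dbl (F : ℤ⟦X⟧) : Dq ℤ (dbl ℤ F) = 2 * dbl ℤ (Dq ℤ F) := by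
  ext n
  rw [coeff_Dq, two_mul, map_add]
  by_cases h : 2 ∣ n
  · obtain ⟨m, rfl⟩ := h
    rw [dbl, coeff_expand_mul, coeff_expand_mul, coeff_Dq]
    push_cast
    ring
  · rw [dbl, coeff_expand_of_not_dvd _ _ _ h, coeff_expand_of_not_dvd _ _ _ h]
    simp

/-- a power series with this functional equation vanishes -/
theorem Ode_zero (E A B : ℤ⟦X⟧) (hA : constantCoeff A = 1) (hB : constantCoeff B = 4)
    (h : 16 * (dbl ℤ E * A) = E * B) : E = 0 := by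
  have key : ∀ n, (X : ℤ⟦X⟧) ^ n ∣ E := by
    intro n
    induction n with
    | zero => rw [pow_zero]; exact one_dvd E
    | succ n ih =>
      obtain ⟨G, hG⟩ := ih
      have h1 : dbl ℤ E = X ^ n * (X ^ n * dbl ℤ G) := by
        rw [hG, map_mul, map_pow, dbl, expand_X, ← pow_mul, two_mul, pow_add, mul_assoc]
      have h2 : X ^ n * (16 * (X ^ n * dbl ℤ G * A)) = X ^ n * (G * B) := by
        rw [h1] at h
        conv_rhs at h => rw [hG]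
        linear_combination h
      have h3 := mul_left_cancel₀ (pow_ne_zero n (X_ne_zero (R := ℤ))) h2
      have h4 := congrArg (constantCoeff (R := ℤ)) h3
      rw [map_mul, map_mul, map_mul, map_mul, hA, hB, map_pow, constantCoeff_X, dbl,
        constantCoeff_expand] at h4
      have h16 : constantCoeff (R := ℤ) 16 = 16 := map_ofNat _ 16
      rw [h16] at h4
      have h5 : constantCoeff G = 0 := by
        rcases Nat.eq_zero_or_pos n with h0 | h0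
        · rw [h0, pow_zero] at h4
          linarith
        · rw [zero_pow h0.ne'] at h4
          linarith
      obtain ⟨H, hH⟩ := X_dvd_iff.mpr h5
      exact ⟨H, by rw [hG, hH, pow_succ, mul_assoc]⟩
  ext n
  rw [map_zero]
  exact X_pow_dvd_iff.mp (key (n + 1)) n (Nat.lt_succ_self n)

theorem Ode_poly (u v p P r R u' p' r' v' : ℤ⟦X⟧)
    (W0 : 2 * (u * P - v * p) = -(u * v * (u ^ 2 - v ^ 2)))
    (W1 : 2 * (u * R - v * r) = -((p * v + u * P) * (u ^ 2 - v ^ 2) + u * v * (2 * (u * p) - 2 * (v * P))))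
    (h1 : 2 * u' = u + v) (h2 : v' ^ 2 = u * v) (h3 : 4 * p' = p + P) (h4 : 8 * r' = r + R) :
    16 * ((4 * (u' * r') - 8 * p' ^ 2 - u' ^ 2 * v' ^ 2 * (u' ^ 2 - v' ^ 2)) * u ^ 2) =
      (4 * (u * r) - 8 * p ^ 2 - u ^ 2 * v ^ 2 * (u ^ 2 - v ^ 2)) * (u + v) ^ 2 := by
  have e1 : 16 * (4 * (u' * r') - 8 * p' ^ 2 - u' ^ 2 * v' ^ 2 * (u' ^ 2 - v' ^ 2)) =
      4 * ((2 * u') * (8 * r')) - 8 * (4 * p') ^ 2 -
        (2 * u') ^ 2 * v' ^ 2 * ((2 * u') ^ 2 - 4 * v' ^ 2) := by ring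
  rw [← mul_assoc, e1, h1, h2, h3, h4]
  linear_combination (2 * u * (u + v)) * W1 + (-4 * (2 * u * p + u * P + v * p) +
    2 * u * v * (u ^ 2 - v ^ 2) - u * (u + v) * (u ^ 2 - v ^ 2) + 2 * u * v ^ 2 * (u + v)) * W0

theorem ode :
    4 * (th3 ^ 2 * Dq ℤ (Dq ℤ (th3 ^ 2))) - 8 * (Dq ℤ (th3 ^ 2)) ^ 2 =
      th3 ^ 4 * th4 ^ 4 * (th3 ^ 4 - th4 ^ 4) := by
  have W0 := wron
  have h1 := two_dbl_U
  have h2 : (dbl ℤ (th4 ^ 2)) ^ 2 = th3 ^ 2 * th4 ^ 2 := by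
    rw [map_pow, dbl_th4_sq]
    ring
  have c3 : constantCoeff th3 = 1 := by
    rw [← coeff_zero_eq_constantCoeff_apply, th3, coeff_mk]
    simp
  have c4 : constantCoeff th4 = 1 := by
    rw [← coeff_zero_eq_constantCoeff_apply, th4, coeff_mk, pow_zero, one_mul,
      coeff_zero_eq_constantCoeff_apply, c3]
  have cu : constantCoeff (th3 ^ 2) = 1 := by rw [map_pow, c3, one_pow]
  have cv : constantCoeff (th4 ^ 2) = 1 := by rw [map_pow, c4, one_pow]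
  have e3 : th3 ^ 4 = (th3 ^ 2) ^ 2 := by ring
  have e4 : th4 ^ 4 = (th4 ^ 2) ^ 2 := by ring
  rw [e3, e4] at W0
  rw [e3, e4]
  generalize th3 ^ 2 = u at *
  generalize th4 ^ 2 = v at *
  have h3 : 4 * dbl ℤ (Dq ℤ u) = Dq ℤ u + Dq ℤ v := by
    have h := congrArg (Dq ℤ) h1
    rw [two_mul, map_add, map_add, Ode_D_dbl] at h
    linear_combination h
  have h4 : 8 * dbl ℤ (Dq ℤ (Dq ℤ u)) = Dq ℤ (Dq ℤ u) + Dq ℤ (Dq ℤ v) := by
    have h5 : dbl ℤ (Dq ℤ u) + dbl ℤ (Dq ℤ u) + (dbl ℤ (Dq ℤ u) + dbl ℤ (Dq ℤ u)) =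
        Dq ℤ u + Dq ℤ v := by linear_combination h3
    have h := congrArg (Dq ℤ) h5
    rw [map_add, map_add, map_add, Ode_D_dbl] at h
    linear_combination h
  have W1 : 2 * (u * Dq ℤ (Dq ℤ v) - v * Dq ℤ (Dq ℤ u)) =
      -((Dq ℤ u * v + u * Dq ℤ v) * (u ^ 2 - v ^ 2) +
        u * v * (2 * (u * Dq ℤ u) - 2 * (v * Dq ℤ v))) := by
    rw [two_mul, pow_two, pow_two] at W0
    have h := congrArg (Dq ℤ) W0
    simp only [map_add, map_sub, map_neg, Derivation.leibniz, smul_eq_mul] at h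
    linear_combination h
  have key := Ode_poly u v (Dq ℤ u) (Dq ℤ v) (Dq ℤ (Dq ℤ u)) (Dq ℤ (Dq ℤ v)) (dbl ℤ u)
    (dbl ℤ (Dq ℤ u)) (dbl ℤ (Dq ℤ (Dq ℤ u))) (dbl ℤ v) W0 W1 h1 h2 h3 h4
  have hE := Ode_zero (4 * (u * Dq ℤ (Dq ℤ u)) - 8 * Dq ℤ u ^ 2 - u ^ 2 * v ^ 2 * (u ^ 2 - v ^ 2))
    (u ^ 2) ((u + v) ^ 2) (by rw [map_pow, cu, one_pow])
    (by rw [map_pow, map_add, cu, cv]; norm_num) (by
      rw [← key]
      congr 2
      simp only [map_sub, map_mul, map_pow, map_ofNat])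
  linear_combination hE

end Pool.Agent.H85.OT
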