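import Pool.Agent.H85.OT.Dup

/-!
# Definitions for part V of the project OT (link with modular forms)

* `psi = ∑_{n ∈ ℤ} X^(n²+n) = 2 ∑_{n ≥ 0} X^(n(n+1))`;
* `TA τ = θ(τ)^4`, `TB τ = θ(τ+1)^4` with Mathlib's `jacobiTheta`;
* `Cv F q s`: the series `∑ F_n q^n` converges absolutely to `s`;
* `e4, e6`: the q-expansions of `E₄, E₆` in terms of theta series;
* `tau n`: coefficient of `q^n` in `q ∏_{i=1}^n (1 - q^i)^24`.
-/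

open PowerSeries

namespace Pool.Agent.H85.OT

/-- `∑_{n ∈ ℤ} X^(n²+n)` (`N = n² + n` iff `4 N + 1 = (2n+1)²`) -/
noncomputable def psi : ℤ⟦X⟧ :=
  PowerSeries.mk fun n => if IsSquare (4 * n + 1) then 2 else 0

/-- `θ₃(τ)^4`, nome `exp(π i τ)` -/
noncomputable def TA (τ : ℂ) : ℂ := jacobiTheta τ ^ 4

/-- `θ₄(τ)^4` -/
noncomputable def TB (τ : ℂ) : ℂ := jacobiTheta (τ + 1) ^ 4

/-- `∑ F_n q^n` converges absolutely with sum `s` -/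
def Cv (F : ℂ⟦X⟧) (q s : ℂ) : Prop :=
  Summable (fun n => ‖PowerSeries.coeff n F * q ^ n‖) ∧
    HasSum (fun n => PowerSeries.coeff n F * q ^ n) s

/-- q-expansion of `E₄` : `16 a² - 16 a b + b²`, `a = θ₃⁴`, `b = θ₄⁴` -/
noncomputable def e4 : ℤ⟦X⟧ := 16 * (th3 ^ 4) ^ 2 - 16 * th3 ^ 4 * th4 ^ 4 + (th4 ^ 4) ^ 2

/-- q-expansion of `E₆` : `(2a - b)(-32 a² + 32 a b + b²)` -/
noncomputable def e6 : ℤ⟦X⟧ :=
  (2 * th3 ^ 4 - th4 ^ 4) * (-32 * (th3 ^ 4) ^ 2 + 32 * th3 ^ 4 * th4 ^ 4 + (th4 ^ 4) ^ 2)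

/-- Ramanujan's tau function: coefficient of `X^n` in `X ∏_{i=1}^{n} (1 - X^i)^24` -/
noncomputable def tau (n : ℕ) : ℤ :=
  PowerSeries.coeff n
    ((PowerSeries.X : ℤ⟦X⟧) * ∏ i ∈ Finset.range n, (1 - PowerSeries.X ^ (i + 1)) ^ 24)

end Pool.Agent.H85.OT
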