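import Pool.Agent.H85.OT.VDef

/-!
# Row VCV (project OT): absolutely convergent power series

`Cv F q s` : `∑ ‖F_n q^n‖ < ∞` and `∑ F_n q^n = s`.
* `mul`: Cauchy product (`summable_norm_sum_mul_antidiagonal_of_summable_norm`,
  `tsum_mul_tsum_eq_tsum_sum_antidiagonal_of_summable_norm`; `PowerSeries.coeff_mul`).
* `dbl`: `coeff (2n) (dbl F) = coeff n F`, odd coefficients vanish.
* uniqueness: two power series with the same sums on `0 < ‖q‖ < r` are equal: (`HasFPowerSeriesOnBall`
  uniqueness, or: if the first nonzero coefficient of the difference is `d_N`, then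
  `∑_{n ≥ N} d_n q^(n-N)` is `0` for `q ≠ 0` small and tends to `d_N` as `q → 0`).
-/

open PowerSeries

namespace Pool.Agent.H85.OT

theorem Cv.add {F G : ℂ⟦X⟧} {q s t : ℂ} (hF : Cv F q s) (hG : Cv G q t) :
    Cv (F + G) q (s + t) := by
  have e : (fun n => PowerSeries.coeff n (F + G) * q ^ n) =
      fun n => PowerSeries.coeff n F * q ^ n + PowerSeries.coeff n G * q ^ n := by
    funext n
    rw [map_add, add_mul]
  refine ⟨?_, ?_⟩
  · refine Summable.of_nonneg_of_le (fun n => norm_nonneg _) (fun n => ?_) (hF.1.add hG.1)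
    rw [map_add, add_mul]
    exact norm_add_le _ _
  · rw [e]
    exact hF.2.add hG.2

theorem Cv.smul {F : ℂ⟦X⟧} {q s : ℂ} (c : ℂ) (hF : Cv F q s) :
    Cv (PowerSeries.C c * F) q (c * s) := by
  have e : (fun n => PowerSeries.coeff n (PowerSeries.C c * F) * q ^ n) =
      fun n => c * (PowerSeries.coeff n F * q ^ n) := by
    funext n
    rw [PowerSeries.coeff_C_mul, mul_assoc]
  refine ⟨?_, ?_⟩
  · have h := hF.1.mul_left ‖c‖
    refine h.congr (fun n => ?_)
    rw [PowerSeries.coeff_C_mul, mul_assoc, norm_mul c]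
  · rw [e]
    exact hF.2.mul_left c

theorem Cv.mul {F G : ℂ⟦X⟧} {q s t : ℂ} (hF : Cv F q s) (hG : Cv G q t) :
    Cv (F * G) q (s * t) := by
  have e : (fun n => PowerSeries.coeff n (F * G) * q ^ n) =
      fun n => ∑ kl ∈ Finset.HasAntidiagonal.antidiagonal n,
        (PowerSeries.coeff kl.1 F * q ^ kl.1) * (PowerSeries.coeff kl.2 G * q ^ kl.2) := by
    funext n
    rw [PowerSeries.coeff_mul, Finset.sum_mul]
    refine Finset.sum_congr rfl (fun kl hkl => ?_)
    rw [← Finset.HasAntidiagonal.mem_antidiagonal.1 hkl, pow_add]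
    ring
  have h1 := summable_norm_sum_mul_antidiagonal_of_summable_norm hF.1 hG.1
  have h2 := tsum_mul_tsum_eq_tsum_sum_antidiagonal_of_summable_norm hF.1 hG.1
  have e1 : Summable (fun n => ‖PowerSeries.coeff n (F * G) * q ^ n‖) := by
    refine h1.congr (fun n => ?_)
    rw [← congrFun e n]
  refine ⟨e1, ?_⟩
  rw [hF.2.tsum_eq, hG.2.tsum_eq] at h2
  rw [h2, ← e]
  exact e1.of_norm.hasSum

theorem Cv.one (q : ℂ) : Cv 1 q 1 := by
  have e : (fun n => PowerSeries.coeff n (1 : ℂ⟦X⟧) * q ^ n) =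
      fun n => if n = 0 then (1 : ℂ) else 0 := by
    funext n
    rw [PowerSeries.coeff_one]
    split_ifs with h
    · rw [h, pow_zero, mul_one]
    · rw [zero_mul]
  refine ⟨?_, ?_⟩
  · refine summable_of_ne_finset_zero (s := {0}) (fun n hn => ?_)
    rw [Finset.mem_singleton] at hn
    rw [PowerSeries.coeff_one, if_neg hn, zero_mul, norm_zero]
  · rw [e]
    exact hasSum_ite_eq 0 1

theorem Cv.pow {F : ℂ⟦X⟧} {q s : ℂ} (hF : Cv F q s) (k : ℕ) : Cv (F ^ k) q (s ^ k) := by
  induction k with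
  | zero => rw [pow_zero, pow_zero]; exact Cv.one q
  | succ k ih => rw [pow_succ, pow_succ]; exact ih.mul hF

theorem Cv.X (q : ℂ) : Cv PowerSeries.X q q := by
  have e : (fun n => PowerSeries.coeff n (PowerSeries.X : ℂ⟦X⟧) * q ^ n) =
      fun n => if n = 1 then q else 0 := by
    funext n
    rw [PowerSeries.coeff_X]
    split_ifs with h
    · rw [h, pow_one, one_mul]
    · rw [zero_mul]
  refine ⟨?_, ?_⟩
  · refine summable_of_ne_finset_zero (s := {1}) (fun n hn => ?_)
    rw [Finset.mem_singleton] at hn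
    rw [PowerSeries.coeff_X, if_neg hn, zero_mul, norm_zero]
  · rw [e]
    exact hasSum_ite_eq 1 q

private theorem Vcv_dbl (F : ℂ⟦X⟧) (n : ℕ) : PowerSeries.coeff n (OT.dbl ℂ F) =
    if 2 ∣ n then PowerSeries.coeff (n / 2) F else 0 := by
  unfold OT.dbl
  exact PowerSeries.coeff_expand _ _ _

theorem Cv.dbl {F : ℂ⟦X⟧} {q s : ℂ} (hF : Cv F (q ^ 2) s) : Cv (dbl ℂ F) q s := by
  have hinj : Function.Injective (fun n : ℕ => 2 * n) := fun a b h => by
    have : 2 * a = 2 * b := h
    omega
  have e : ∀ n : ℕ, PowerSeries.coeff (2 * n) (OT.dbl ℂ F) * q ^ (2 * n) =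
      PowerSeries.coeff n F * (q ^ 2) ^ n := by
    intro n
    rw [Vcv_dbl, if_pos (dvd_mul_right 2 n), Nat.mul_div_cancel_left n (by norm_num), pow_mul]
  have h0 : ∀ n : ℕ, n ∉ Set.range (fun n : ℕ => 2 * n) → PowerSeries.coeff n (OT.dbl ℂ F) = 0 := by
    intro n hn
    rw [Vcv_dbl, if_neg]
    rintro ⟨m, rfl⟩
    exact hn ⟨m, rfl⟩
  refine ⟨?_, ?_⟩
  · rw [← hinj.summable_iff (fun n hn => by rw [h0 n hn, zero_mul, norm_zero])]
    refine hF.1.congr (fun n => ?_)
    simp only [Function.comp]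
    rw [e n]
  · rw [← hinj.hasSum_iff (fun n hn => by rw [h0 n hn, zero_mul])]
    have e2 : ((fun n => PowerSeries.coeff n (OT.dbl ℂ F) * q ^ n) ∘ fun n : ℕ => 2 * n) =
        fun n => PowerSeries.coeff n F * (q ^ 2) ^ n := by
      funext n
      exact e n
    rw [e2]
    exact hF.2

theorem Cv.unique {F : ℂ⟦X⟧} {q s t : ℂ} (h1 : Cv F q s) (h2 : Cv F q t) : s = t :=
  h1.2.unique h2.2

theorem Cv.ext {F G : ℂ⟦X⟧} (r : ℝ) (hr : 0 < r)
    (h : ∀ q : ℂ, 0 < ‖q‖ → ‖q‖ < r → ∃ s, Cv F q s ∧ Cv G q s) : F = G := by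
  -- the differences
  set d : ℕ → ℂ := fun n => PowerSeries.coeff n F - PowerSeries.coeff n G with hd
  have hzero : ∀ q : ℂ, 0 < ‖q‖ → ‖q‖ < r →
      (Summable fun n => ‖d n * q ^ n‖) ∧ HasSum (fun n => d n * q ^ n) 0 := by
    intro q h1 h2
    obtain ⟨s, hF, hG⟩ := h q h1 h2
    have e : (fun n => d n * q ^ n) =
        fun n => PowerSeries.coeff n F * q ^ n - PowerSeries.coeff n G * q ^ n := by
      funext n
      rw [hd]
      ring
    refine ⟨?_, ?_⟩
    · refine Summable.of_nonneg_of_le (fun n => norm_nonneg _) (fun n => ?_) (hF.1.add hG.1)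
      have := congrFun e n
      rw [this]
      exact norm_sub_le _ _
    · rw [e]
      have := hF.2.sub hG.2
      rwa [sub_self] at this
  have hd0 : ∀ N, d N = 0 := by
    intro N
    induction N using Nat.strong_induction_on with
    | _ N ih =>
      -- the bound
      set ρ : ℝ := r / 2 with hρ
      have hρ0 : 0 < ρ := by positivity
      have hρn : ‖(ρ : ℂ)‖ = ρ := by rw [Complex.norm_real, Real.norm_of_nonneg hρ0.le]
      obtain ⟨hs, -⟩ := hzero (ρ : ℂ) (by rw [hρn]; exact hρ0) (by rw [hρn, hρ]; linarith)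
      set B : ℝ := ∑' n, ‖d n * (ρ : ℂ) ^ n‖ with hB
      have hB0 : 0 ≤ B := tsum_nonneg (fun n => norm_nonneg _)
      have key : ∀ t : ℝ, 0 < t → t ≤ 1 → ‖d N‖ * ρ ^ N ≤ t * B := by
        intro t ht0 ht1
        set q : ℂ := ((ρ * t : ℝ) : ℂ) with hq
        have hqn : ‖q‖ = ρ * t := by
          rw [hq, Complex.norm_real, Real.norm_of_nonneg (by positivity)]
        have hqlt : ρ * t < r := by
          have : ρ * t ≤ ρ * 1 := mul_le_mul_of_nonneg_left ht1 hρ0.le
          rw [hρ] at this ⊢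
          linarith
        obtain ⟨-, hz⟩ := hzero q (by rw [hqn]; positivity) (by rw [hqn]; exact hqlt)
        have hz2 : HasSum (fun n => if n = N then 0 else d n * q ^ n) (0 - d N * q ^ N) := by
          have := hz.update N 0
          have e3 : (Function.update (fun n => d n * q ^ n) N 0) =
              fun n => if n = N then 0 else d n * q ^ n := by
            funext n
            rw [Function.update_apply]
          rw [e3, show (0 : ℂ) - d N * q ^ N + 0 = 0 - d N * q ^ N by ring] at this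
          exact this
        have hz3 : HasSum (fun n => t ^ (N + 1) * ‖d n * (ρ : ℂ) ^ n‖) (t ^ (N + 1) * B) :=
          hs.hasSum.mul_left _
        have hb : ‖0 - d N * q ^ N‖ ≤ t ^ (N + 1) * B := by
          refine hz2.norm_le_of_bounded hz3 (fun n => ?_)
          split_ifs with hn
          · rw [norm_zero]
            positivity
          · rcases lt_or_gt_of_ne hn with hlt | hgt
            · rw [ih n hlt, zero_mul, norm_zero, zero_mul, norm_zero, mul_zero]
            · rw [norm_mul, norm_mul, norm_pow, norm_pow, hqn, hρn, mul_pow]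
              have h5 : t ^ n ≤ t ^ (N + 1) := pow_le_pow_of_le_one ht0.le ht1 hgt
              have h6 : 0 ≤ ‖d n‖ * ρ ^ n := by positivity
              calc ‖d n‖ * (ρ ^ n * t ^ n) = t ^ n * (‖d n‖ * ρ ^ n) := by ring
                _ ≤ t ^ (N + 1) * (‖d n‖ * ρ ^ n) := mul_le_mul_of_nonneg_right h5 h6
        rw [zero_sub, norm_neg, norm_mul, norm_pow, hqn, mul_pow] at hb
        have ht : 0 < t ^ N := pow_pos ht0 N
        have h7 : t ^ N * (‖d N‖ * ρ ^ N) ≤ t ^ N * (t * B) := by
          calc t ^ N * (‖d N‖ * ρ ^ N) = ‖d N‖ * (ρ ^ N * t ^ N) := by ring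
            _ ≤ t ^ (N + 1) * B := hb
            _ = t ^ N * (t * B) := by ring
        exact le_of_mul_le_mul_left h7 ht
      have hle : ‖d N‖ * ρ ^ N ≤ 0 := by
        refine le_of_forall_pos_le_add (fun ε hε => ?_)
        set t : ℝ := min 1 (ε / (B + 1)) with ht
        have h8 : 0 < t := lt_min one_pos (by positivity)
        have h9 := key t h8 (min_le_left _ _)
        have h10 : t ≤ ε / (B + 1) := min_le_right _ _
        have h11 : t * B ≤ ε := by
          calc t * B ≤ ε / (B + 1) * B := mul_le_mul_of_nonneg_right h10 hB0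
            _ ≤ ε / (B + 1) * (B + 1) := mul_le_mul_of_nonneg_left (by linarith) (by positivity)
            _ = ε := by field_simp
        linarith
      have h12 : 0 < ρ ^ N := pow_pos hρ0 N
      have h13 : ‖d N‖ ≤ 0 := by
        by_contra hc
        push Not at hc
        have : 0 < ‖d N‖ * ρ ^ N := mul_pos hc h12
        linarith
      exact norm_le_zero_iff.1 h13
  ext n
  have := hd0 n
  rw [hd] at this
  exact sub_eq_zero.1 this

/-- a series with bounded integer coefficients converges on the unit disc -/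
theorem Cv.of_bdd {F : ℂ⟦X⟧} (B : ℝ) (hF : ∀ n, ‖PowerSeries.coeff n F‖ ≤ B) {q : ℂ}
    (hq : ‖q‖ < 1) : Cv F q (∑' n, PowerSeries.coeff n F * q ^ n) := by
  have h1 : Summable (fun n => ‖PowerSeries.coeff n F * q ^ n‖) := by
    refine Summable.of_nonneg_of_le (fun n => norm_nonneg _) (fun n => ?_)
      ((summable_geometric_of_lt_one (norm_nonneg q) hq).mul_left B)
    rw [norm_mul, norm_pow]
    exact mul_le_mul_of_nonneg_right (hF n) (by positivity)
  exact ⟨h1, h1.of_norm.hasSum⟩

end Pool.Agent.H85.OT
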