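import Pool.Agent.H85.OT.Defs

/-!
# Row VFORM (project OT): closure properties of `IsForm`

Write `a = th3^4`, `b = th4^4`.  `M f = ∑ c_j a^(w-j) b^j`.
* sums: `M M' (f + g) = ∑ (M' c_j + M c'_j) ...`;
* products: `M M' (f g)`, coefficients `∑_{i+j = l} c_i c'_j` (`a^(w-i) a^(w'-j) = a^(w+w'-l)`).  Convenient: identify
  with homogeneous polynomials or with `∑ c_j a^(w-j) b^j` where `c_j = 0` for `j > w`.
* integer multiples; division: `N f` a form with `N ≠ 0` implies `f` a form (`M N` instead of `M`).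
* `a`, `b` are forms of degree `1`, constants of degree `0`; `e4`, `e6`-type polynomials of degree `2`, `3`.
-/

open PowerSeries

namespace Pool.Agent.H85.OT

theorem Vform_th3_coeff : PowerSeries.constantCoeff (th3 ^ 4) = 1 := by
  rw [map_pow, ← PowerSeries.coeff_zero_eq_constantCoeff_apply, th3, PowerSeries.coeff_mk]
  simp

theorem Vform_unit : ∃ a' : ℤ⟦X⟧, th3 ^ 4 * a' = 1 := by
  have h : IsUnit (th3 ^ 4) := by
    rw [PowerSeries.isUnit_iff_constantCoeff, Vform_th3_coeff]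
    exact isUnit_one
  exact h.exists_right_inv

/-- the quotient `b / a` -/
noncomputable def Vform_t : ℤ⟦X⟧ := th4 ^ 4 * Vform_unit.choose

theorem Vform_at : th3 ^ 4 * Vform_t = th4 ^ 4 := by
  have h := Vform_unit.choose_spec
  unfold Vform_t
  calc th3 ^ 4 * (th4 ^ 4 * Vform_unit.choose) = th4 ^ 4 * (th3 ^ 4 * Vform_unit.choose) := by ring
    _ = th4 ^ 4 := by rw [h, mul_one]

theorem Vform_pow {w j : ℕ} (h : j ≤ w) (c : ℤ⟦X⟧) :
    c * (th3 ^ 4) ^ (w - j) * (th4 ^ 4) ^ j = (th3 ^ 4) ^ w * (c * Vform_t ^ j) := by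
  rw [← Vform_at]
  obtain ⟨k, rfl⟩ := Nat.exists_eq_add_of_le h
  rw [Nat.add_sub_cancel_left, pow_add, mul_pow]
  ring

theorem Vform_iff (w : ℕ) (f : ℤ⟦X⟧) : IsForm w f ↔ ∃ (M : ℤ) (p : Polynomial ℤ), M ≠ 0 ∧ p.natDegree ≤ w ∧
    PowerSeries.C M * f = (th3 ^ 4) ^ w * Polynomial.aeval Vform_t p := by
  constructor
  · rintro ⟨M, c, hM, h⟩
    refine ⟨M, ∑ j ∈ Finset.range (w + 1), Polynomial.C (c j) * Polynomial.X ^ j, hM, ?_, ?_⟩
    · refine Polynomial.natDegree_sum_le_of_forall_le _ _ fun j hj => ?_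
      have hj' : j ≤ w := Nat.lt_succ_iff.1 (Finset.mem_range.1 hj)
      exact (Polynomial.natDegree_C_mul_X_pow_le _ _).trans hj'
    · rw [h, map_sum, Finset.mul_sum]
      refine Finset.sum_congr rfl fun j hj => ?_
      have hj' : j ≤ w := Nat.lt_succ_iff.1 (Finset.mem_range.1 hj)
      rw [Vform_pow hj', map_mul, map_pow, Polynomial.aeval_X, Polynomial.aeval_C]
      rfl
  · rintro ⟨M, p, hM, hp, h⟩
    refine ⟨M, fun j => p.coeff j, hM, ?_⟩
    rw [h, Polynomial.aeval_eq_sum_range' (Nat.lt_succ_of_le hp), Finset.mul_sum]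
    refine Finset.sum_congr rfl fun j hj => ?_
    have hj' : j ≤ w := Nat.lt_succ_iff.1 (Finset.mem_range.1 hj)
    rw [Vform_pow hj', PowerSeries.smul_eq_C_mul]

theorem Vform_C (N : ℤ) : PowerSeries.C N = Polynomial.aeval Vform_t (Polynomial.C N) := by
  rw [Polynomial.aeval_C]
  rfl

theorem IsForm.add {w : ℕ} {f g : ℤ⟦X⟧} (hf : IsForm w f) (hg : IsForm w g) :
    IsForm w (f + g) := by
  rw [Vform_iff] at hf hg ⊢
  obtain ⟨M, p, hM, hp, h⟩ := hf
  obtain ⟨M', p', hM', hp', h'⟩ := hg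
  refine ⟨M * M', Polynomial.C M' * p + Polynomial.C M * p', mul_ne_zero hM hM', ?_, ?_⟩
  · refine (Polynomial.natDegree_add_le _ _).trans (max_le ?_ ?_)
    · exact (Polynomial.natDegree_C_mul_le _ _).trans hp
    · exact (Polynomial.natDegree_C_mul_le _ _).trans hp'
  · rw [map_mul, map_add, map_mul, map_mul, ← Vform_C, ← Vform_C]
    linear_combination PowerSeries.C M' * h + PowerSeries.C M * h'

theorem IsForm.mul {w w' : ℕ} {f g : ℤ⟦X⟧} (hf : IsForm w f) (hg : IsForm w' g) :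
    IsForm (w + w') (f * g) := by
  rw [Vform_iff] at hf hg ⊢
  obtain ⟨M, p, hM, hp, h⟩ := hf
  obtain ⟨M', p', hM', hp', h'⟩ := hg
  refine ⟨M * M', p * p', mul_ne_zero hM hM', ?_, ?_⟩
  · exact Polynomial.natDegree_mul_le.trans (Nat.add_le_add hp hp')
  · rw [map_mul, map_mul, pow_add]
    calc PowerSeries.C M * PowerSeries.C M' * (f * g) = (PowerSeries.C M * f) * (PowerSeries.C M' * g) := by ring
      _ = _ := by rw [h, h']; ring

theorem IsForm.const (c : ℤ) : IsForm 0 (PowerSeries.C c) := by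
  rw [Vform_iff]
  refine ⟨1, Polynomial.C c, one_ne_zero, by simp, ?_⟩
  rw [← Vform_C, map_one, pow_zero]

theorem IsForm.zero (w : ℕ) : IsForm w 0 := by
  rw [Vform_iff]
  exact ⟨1, 0, one_ne_zero, by simp, by simp⟩

theorem IsForm.pow {w : ℕ} {f : ℤ⟦X⟧} (hf : IsForm w f) (n : ℕ) : IsForm (n * w) (f ^ n) := by
  induction n with
  | zero =>
    rw [Nat.zero_mul, pow_zero]
    have h := IsForm.const 1
    rwa [map_one] at h
  | succ n ih =>
    rw [Nat.succ_mul, pow_succ]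
    exact ih.mul hf

theorem IsForm.of_smul {w : ℕ} {f : ℤ⟦X⟧} {N : ℤ} (hN : N ≠ 0)
    (h : IsForm w (PowerSeries.C N * f)) : IsForm w f := by
  obtain ⟨M, c, hM, h⟩ := h
  refine ⟨M * N, c, mul_ne_zero hM hN, ?_⟩
  rw [← h, map_mul, mul_assoc]

theorem IsForm.smul {w : ℕ} {f : ℤ⟦X⟧} (N : ℤ) (hf : IsForm w f) :
    IsForm w (PowerSeries.C N * f) := by
  have h := (IsForm.const N).mul hf
  rwa [zero_add] at h

theorem IsForm.sub {w : ℕ} {f g : ℤ⟦X⟧} (hf : IsForm w f) (hg : IsForm w g) :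
    IsForm w (f - g) := by
  have h := hf.add (IsForm.smul (-1) hg)
  rwa [map_neg, map_one, neg_one_mul, ← sub_eq_add_neg] at h

theorem isForm_th3 : IsForm 1 (th3 ^ 4) := by
  rw [Vform_iff]
  exact ⟨1, 1, one_ne_zero, by simp, by simp⟩

theorem isForm_th4 : IsForm 1 (th4 ^ 4) := by
  rw [Vform_iff]
  refine ⟨1, Polynomial.X, one_ne_zero, Polynomial.natDegree_X_le, ?_⟩
  rw [Polynomial.aeval_X, pow_one, Vform_at, map_one, one_mul]

end Pool.Agent.H85.OT
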