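import Pool.Agent.H85.OT.VDef

/-!
# Row VTAU (project OT): the q-expansion of `Δ` is `∑ tau n q^n`
-/

open PowerSeries UpperHalfPlane

namespace Pool.Agent.H85.OT

theorem tau_zero : tau 0 = 0 := by
  unfold tau
  exact PowerSeries.coeff_zero_X_mul _

theorem tau_one : tau 1 = 1 := by
  unfold tau
  rw [show (1 : ℕ) = 0 + 1 from rfl, PowerSeries.coeff_succ_X_mul]
  simp

theorem tau_eq_coeff (n N : ℕ) (h : n ≤ N) :
    tau n = PowerSeries.coeff n
      ((PowerSeries.X : ℤ⟦X⟧) * ∏ i ∈ Finset.range N, (1 - PowerSeries.X ^ (i + 1)) ^ 24) := by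
  induction N, h using Nat.le_induction with
  | base => rfl
  | succ N hN ih =>
    rw [ih, Finset.prod_range_succ, ← mul_assoc]
    have h1 : (PowerSeries.X : ℤ⟦X⟧) ^ (N + 1) ∣ (1 - PowerSeries.X ^ (N + 1)) ^ 24 - 1 := by
      have h2 := sub_dvd_pow_sub_pow (1 - (PowerSeries.X : ℤ⟦X⟧) ^ (N + 1)) 1 24
      rw [one_pow] at h2
      refine dvd_trans ?_ h2
      have : (1 - (PowerSeries.X : ℤ⟦X⟧) ^ (N + 1)) - 1 = -(PowerSeries.X ^ (N + 1)) := by ring
      rw [this, dvd_neg]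
    obtain ⟨r, hr⟩ := h1
    have h3 : (1 - (PowerSeries.X : ℤ⟦X⟧) ^ (N + 1)) ^ 24 = 1 + PowerSeries.X ^ (N + 1) * r := by
      rw [← hr]
      ring
    generalize (PowerSeries.X : ℤ⟦X⟧) * ∏ i ∈ Finset.range N, (1 - PowerSeries.X ^ (i + 1)) ^ 24 = G
    rw [h3]
    have h4 : G * (1 + PowerSeries.X ^ (N + 1) * r) = G + PowerSeries.X ^ (N + 1) * (r * G) := by
      ring
    rw [h4, map_add, PowerSeries.coeff_X_pow_mul', if_neg (by omega), add_zero]

open Filter Topology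

theorem Vtau_pol (Q : Polynomial ℂ) (m : ℕ) : iteratedDeriv m (fun q => Q.eval q) =
    fun q => (Polynomial.derivative^[m] Q).eval q := by
  induction m with
  | zero => simp [iteratedDeriv_zero]
  | succ m ih =>
    rw [iteratedDeriv_succ, ih, Function.iterate_succ_apply']
    funext q
    exact Polynomial.deriv _

theorem Vtau_pol0 (Q : Polynomial ℂ) (m : ℕ) : iteratedDeriv m (fun q => Q.eval q) 0 =
    (m.factorial : ℂ) * Q.coeff m := by
  rw [Vtau_pol]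
  simp only
  rw [← Polynomial.coeff_zero_eq_eval_zero, Polynomial.coeff_iterate_derivative, zero_add,
    Nat.descFactorial_self, nsmul_eq_mul]

/-- the finite products as polynomials -/
noncomputable def VtauQ (N : ℕ) : Polynomial ℂ :=
  Polynomial.X * ∏ i ∈ Finset.range N, (1 - Polynomial.X ^ (i + 1)) ^ 24

theorem VtauQ_coeff (m N : ℕ) (h : m ≤ N) : (VtauQ N).coeff m = (tau m : ℂ) := by
  rw [tau_eq_coeff m N h]
  have h1 : ((VtauQ N : Polynomial ℂ) : ℂ⟦X⟧) = PowerSeries.map (Int.castRingHom ℂ)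
      ((PowerSeries.X : ℤ⟦X⟧) * ∏ i ∈ Finset.range N, (1 - PowerSeries.X ^ (i + 1)) ^ 24) := by
    rw [← Polynomial.coeToPowerSeries.ringHom_apply]
    unfold VtauQ
    simp only [map_mul, map_prod, map_pow, map_sub, map_one,
      Polynomial.coeToPowerSeries.ringHom_apply, Polynomial.coe_X, PowerSeries.map_X]
  rw [← Polynomial.coeff_coe, h1, PowerSeries.coeff_map]
  rfl

theorem VtauQ_eval (N : ℕ) (q : ℂ) :
    (VtauQ N).eval q = q * ∏ i ∈ Finset.range N, (1 - q ^ (i + 1)) ^ 24 := by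
  unfold VtauQ
  simp [Polynomial.eval_prod]

theorem Vtau_bd (x : ℂ) (hx : ‖x‖ ≤ 1) (n : ℕ) : ‖(1 - x) ^ n - 1‖ ≤ (2 ^ n - 1) * ‖x‖ := by
  induction n with
  | zero => simp
  | succ n ih =>
    have e : (1 - x) ^ (n + 1) - 1 = (1 - x) * ((1 - x) ^ n - 1) + (-x) := by ring
    rw [e]
    refine (norm_add_le _ _).trans ?_
    rw [norm_mul, norm_neg]
    have h1 : ‖1 - x‖ ≤ 2 := by
      refine (norm_sub_le _ _).trans ?_
      rw [norm_one]
      linarith
    have h2 : ‖1 - x‖ * ‖(1 - x) ^ n - 1‖ ≤ 2 * ((2 ^ n - 1) * ‖x‖) :=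
      mul_le_mul h1 ih (norm_nonneg _) (by norm_num)
    have e2 : (2 ^ (n + 1) - 1) * ‖x‖ = 2 * ((2 ^ n - 1) * ‖x‖) + ‖x‖ := by ring
    rw [e2]
    linarith

theorem Vtau_unif : HasProdLocallyUniformlyOn (fun (n : ℕ) (q : ℂ) ↦ (1 - q ^ (n + 1)) ^ 24)
    (fun q ↦ ∏' n : ℕ, (1 - q ^ (n + 1)) ^ 24) (Metric.ball (0 : ℂ) 1) := by
  have e : (fun (n : ℕ) (q : ℂ) ↦ (1 - q ^ (n + 1)) ^ 24) =
      fun (n : ℕ) (q : ℂ) ↦ 1 + ((1 - q ^ (n + 1)) ^ 24 - 1) := by
    funext n q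
    ring
  have e' : (fun q : ℂ ↦ ∏' n : ℕ, (1 - q ^ (n + 1)) ^ 24) =
      fun q : ℂ ↦ ∏' n : ℕ, (1 + ((1 - q ^ (n + 1)) ^ 24 - 1)) := by
    funext q
    congr 1
    funext n
    ring
  rw [e', e]
  apply hasProdLocallyUniformlyOn_of_forall_compact Metric.isOpen_ball
  intro K hK hcK
  rcases K.eq_empty_or_nonempty with hN | hN
  · simpa [hasProdUniformlyOn_iff_tendstoUniformlyOn, hN] using tendstoUniformlyOn_empty
  · obtain ⟨q₀, hq₀, _, HB⟩ := hcK.exists_sSup_image_eq_and_ge hN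
      (show ContinuousOn (fun q : ℂ ↦ ‖q‖) K by fun_prop)
    have hq1 : ‖q₀‖ < 1 := by simpa [Metric.mem_ball, dist_zero_right] using hK hq₀
    refine (((summable_nat_add_iff 1).mpr
      (summable_geometric_of_lt_one (norm_nonneg _) hq1)).mul_left
        ((2 : ℝ) ^ 24 - 1)).hasProdUniformlyOn_nat_one_add
      hcK (.of_forall fun n x hx ↦ ?_) (fun _ ↦ by fun_prop)
    have h1 : ‖x ^ (n + 1)‖ ≤ ‖q₀‖ ^ (n + 1) := by
      simpa using pow_le_pow_left₀ (norm_nonneg _) (HB x hx) (n + 1)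
    have h2 : ‖x ^ (n + 1)‖ ≤ 1 := h1.trans (pow_le_one₀ (norm_nonneg _) hq1.le)
    refine (Vtau_bd _ h2 24).trans ?_
    apply mul_le_mul_of_nonneg_left h1
    norm_num

theorem Vtau_tend : TendstoLocallyUniformlyOn (fun (N : ℕ) (q : ℂ) => (VtauQ N).eval q)
    (fun q ↦ q * ∏' n : ℕ, (1 - q ^ (n + 1)) ^ 24) atTop (Metric.ball (0 : ℂ) 1) := by
  have h := Vtau_unif.tendstoLocallyUniformlyOn_finsetRange
  rw [Metric.tendstoLocallyUniformlyOn_iff] at h ⊢
  intro ε hε x hx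
  obtain ⟨t, ht, h1⟩ := h ε hε x hx
  refine ⟨t ∩ Metric.ball 0 1, inter_mem ht self_mem_nhdsWithin, ?_⟩
  filter_upwards [h1] with N hN y hy
  have h2 := hN y hy.1
  have h3 : ‖y‖ < 1 := by simpa [Metric.mem_ball, dist_zero_right] using hy.2
  rw [VtauQ_eval, dist_eq_norm, ← mul_sub, norm_mul]
  rw [dist_eq_norm] at h2
  calc ‖y‖ * ‖(∏' n : ℕ, (1 - y ^ (n + 1)) ^ 24) - ∏ i ∈ Finset.range N, (1 - y ^ (i + 1)) ^ 24‖ ≤
        1 * ‖(∏' n : ℕ, (1 - y ^ (n + 1)) ^ 24) - ∏ i ∈ Finset.range N, (1 - y ^ (i + 1)) ^ 24‖ :=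
        mul_le_mul_of_nonneg_right h3.le (norm_nonneg _)
    _ < ε := by
        rw [one_mul]
        simpa [Finset.prod_apply] using h2

theorem Vtau_iter (m : ℕ) : TendstoLocallyUniformlyOn
    (fun (N : ℕ) => iteratedDeriv m (fun q : ℂ => (VtauQ N).eval q))
    (iteratedDeriv m (fun q : ℂ ↦ q * ∏' n : ℕ, (1 - q ^ (n + 1)) ^ 24)) atTop
      (Metric.ball (0 : ℂ) 1) := by
  induction m with
  | zero =>
    simp only [iteratedDeriv_zero]
    exact Vtau_tend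
  | succ m ih =>
    simp only [iteratedDeriv_succ]
    refine ih.deriv (Eventually.of_forall fun N => ?_) Metric.isOpen_ball
    simp only [Vtau_pol]
    exact (Polynomial.differentiable _).differentiableOn

theorem q_delta : qExpansion 1 (ModularForm.discriminant : ℍ → ℂ) =
    PowerSeries.map (Int.castRingHom ℂ) (PowerSeries.mk tau) := by
  ext m
  rw [qExpansion_coeff, PowerSeries.coeff_map, PowerSeries.coeff_mk]
  have hmem : (0 : ℂ) ∈ Metric.ball (0 : ℂ) 1 := Metric.mem_ball_self one_pos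
  have h1 : iteratedDeriv m (cuspFunction 1 (ModularForm.discriminant : ℍ → ℂ)) 0 =
      iteratedDeriv m (fun q : ℂ ↦ q * ∏' n : ℕ, (1 - q ^ (n + 1)) ^ 24) 0 := by
    apply Filter.EventuallyEq.iteratedDeriv_eq
    exact ModularForm.discriminant_cuspFunction_eqOn.eventuallyEq_of_mem
      (Metric.isOpen_ball.mem_nhds hmem)
  have h2 : Tendsto (fun N : ℕ => iteratedDeriv m (fun q : ℂ => (VtauQ N).eval q) 0) atTop
      (𝓝 (iteratedDeriv m (fun q : ℂ ↦ q * ∏' n : ℕ, (1 - q ^ (n + 1)) ^ 24) 0)) :=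
    (Vtau_iter m).tendsto_at hmem
  have h3 : Tendsto (fun N : ℕ => iteratedDeriv m (fun q : ℂ => (VtauQ N).eval q) 0) atTop
      (𝓝 ((m.factorial : ℂ) * (tau m : ℂ))) := by
    apply tendsto_const_nhds.congr'
    filter_upwards [eventually_ge_atTop m] with N hN
    rw [Vtau_pol0, VtauQ_coeff m N hN]
  rw [h1, tendsto_nhds_unique h2 h3, ← mul_assoc, inv_mul_cancel₀, one_mul]
  · rfl
  · exact_mod_cast m.factorial_ne_zero

end Pool.Agent.H85.OT
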