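import Pool.Agent.H85.OT.Vq
import Pool.Agent.H85.OT.Vtau
import Pool.Agent.H85.OT.Vform

/-!
# Row VLEV (project OT): level one modular forms with integral coefficients

Claim: if `g : ModularForm 𝒮ℒ k`, `k = 2w`, and `qExpansion 1 g = map F` with `F : ℤ⟦X⟧`, then `IsForm w F`.
Strong induction on `w`.  `e4, e6` are forms of degree `2, 3` (`Vform`); `D := PowerSeries.mk tau` is a form of degree
`6`: `1728 Δ = E₄³ - E₆²` (`ModularForm.discriminant_eq_E₄_cube_sub_E₆_sq`), q-expansions: `1728 D = e4³ - e6²` in `ℂ⟦X⟧`,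
hence in `ℤ⟦X⟧`.
* `w = 0`: `g` is constant (`levelOne_weight_zero_const`), `F = C (F_0)`.  `w = 1`: `g = 0`
  (`levelOne_weight_two_rank_zero`).
* `w ≥ 2`: choose `i, j` with `2 i + 3 j = w`; `E = E₄^i E₆^j` has weight `2w`, q-expansion `map (e4^i e6^j)`, constant
  term `1`.  `g' = g - F_0 E` has integral q-expansion `F' = F - F_0 e4^i e6^j` with `F'_0 = 0`.
  By `qExpansion_eq_qExpansion_discriminant_mul`, `map F' = map D * qExpansion 1 g''`, `g''` of weight `2w - 12`.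
  `D = X W`, `W ∈ ℤ⟦X⟧` with `W_0 = tau 1 = 1` a unit; `F' = X H`; so `qExpansion 1 g'' = map (H W⁻¹)`, integral.
  If `w < 6` then `g'' = 0` (negative weight: `levelOne_negative weight..`) and `F' = 0`; otherwise the induction hypothesis
  applies to `g''` (cast the weight), and `F' = D * F''`, `F = F_0 e4^i e6^j + D F''` is a form.
-/

open PowerSeries UpperHalfPlane ModularForm MatrixGroups

namespace Pool.Agent.H85.OT

private theorem Vlev_C (n : ℕ) [n.AtLeastTwo] : (OfNat.ofNat n : ℤ⟦X⟧) =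
    PowerSeries.C (OfNat.ofNat n : ℤ) := (map_ofNat PowerSeries.C n).symm

theorem isForm_e4 : IsForm 2 e4 := by
  have h1 : e4 = PowerSeries.C 16 * (th3 ^ 4 * th3 ^ 4) - PowerSeries.C 16 * (th3 ^ 4 * th4 ^ 4) +
      th4 ^ 4 * th4 ^ 4 := by
    rw [e4, Vlev_C 16]
    ring
  rw [h1]
  exact (((isForm_th3.mul isForm_th3).smul 16).sub ((isForm_th3.mul isForm_th4).smul 16)).add
    (isForm_th4.mul isForm_th4)

private theorem Vlev_alg (a b : ℤ⟦X⟧) :
    (2 * a - b) * (-32 * a ^ 2 + 32 * a * b + b ^ 2) =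
      (PowerSeries.C 2 * a - b) *
        (PowerSeries.C 32 * (a * b) - PowerSeries.C 32 * (a * a) + b * b) := by
  rw [Vlev_C 32, Vlev_C 2]
  ring

private theorem Vlev_f2 : IsForm 1 (PowerSeries.C 2 * th3 ^ 4 - th4 ^ 4) :=
  (isForm_th3.smul 2).sub isForm_th4

private theorem Vlev_f3 : IsForm (1 + 1) (PowerSeries.C 32 * (th3 ^ 4 * th4 ^ 4) -
      PowerSeries.C 32 * (th3 ^ 4 * th3 ^ 4) + th4 ^ 4 * th4 ^ 4) :=
    (((isForm_th3.mul isForm_th4).smul 32).sub ((isForm_th3.mul isForm_th3).smul 32)).add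
    (isForm_th4.mul isForm_th4)

private theorem Vlev_f4 : IsForm (1 + (1 + 1)) ((PowerSeries.C 2 * th3 ^ 4 - th4 ^ 4) *
      (PowerSeries.C 32 * (th3 ^ 4 * th4 ^ 4) - PowerSeries.C 32 * (th3 ^ 4 * th3 ^ 4) +
      th4 ^ 4 * th4 ^ 4)) := Vlev_f2.mul Vlev_f3

private theorem Vlev_f6 : e6 = (PowerSeries.C 2 * th3 ^ 4 - th4 ^ 4) *
      (PowerSeries.C 32 * (th3 ^ 4 * th4 ^ 4) - PowerSeries.C 32 * (th3 ^ 4 * th3 ^ 4) +
      th4 ^ 4 * th4 ^ 4) := by
  unfold e6
  exact Vlev_alg (th3 ^ 4) (th4 ^ 4)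

theorem isForm_e6 : IsForm 3 e6 := by
  rw [Vlev_f6]
  exact Vlev_f4

private theorem Vlev_inj {F G : ℤ⟦X⟧} (h : PowerSeries.map (Int.castRingHom ℂ) F =
    PowerSeries.map (Int.castRingHom ℂ) G) : F = G := by
  ext n
  have h1 := congrArg (PowerSeries.coeff n) h
  rw [PowerSeries.coeff_map, PowerSeries.coeff_map] at h1
  have h2 : ((PowerSeries.coeff n F : ℤ) : ℂ) = ((PowerSeries.coeff n G : ℤ) : ℂ) := h1
  exact_mod_cast h2

private theorem Vlev_disc : PowerSeries.C 1728 * PowerSeries.mk tau = e4 ^ 3 - e6 ^ 2 := by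
  apply Vlev_inj
  have h1 : ((1728 : ℂ) • CuspForm.discriminant : CuspForm 𝒮ℒ 12) =
      ((ModularForm.mcast (by decide) (E₄.pow 3) - ModularForm.mcast (by decide) (E₆.pow 2) :
        ModularForm 𝒮ℒ 12) : ℍ → ℂ) := by
    funext z
    show (1728 : ℂ) * ModularForm.discriminant z = _
    rw [ModularForm.discriminant_eq_E₄_cube_sub_E₆_sq z]
    simp only [sub_apply, ModularForm.coe_mcast, ModularForm.coe_pow, Pi.pow_apply]
    ring
  have h2 := ModularForm.qExpansion_smul one_pos one_mem_strictPeriods_SL (1728 : ℂ)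
      CuspForm.discriminant
  have h3 : ((1728 : ℂ) • (CuspForm.discriminant : ℍ → ℂ)) =
      (((1728 : ℂ) • CuspForm.discriminant : CuspForm 𝒮ℒ 12) : ℍ → ℂ) := rfl
  rw [h3, h1] at h2
  have h4 : qExpansion 1 (((ModularForm.mcast (by decide) (E₄.pow 3) -
      ModularForm.mcast (by decide) (E₆.pow 2) : ModularForm 𝒮ℒ 12) : ℍ → ℂ)) =
      PowerSeries.map (Int.castRingHom ℂ) (e4 ^ 3 - e6 ^ 2) := by
    simp only [FunLike.coe_sub, ModularForm.coe_mcast,
      ModularForm.qExpansion_sub one_pos one_mem_strictPeriods_SL,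
      ModularForm.qExpansion_pow one_pos one_mem_strictPeriods_SL]
    rw [qE4, qE6, map_sub, map_pow, map_pow]
  have h5 : qExpansion 1 (CuspForm.discriminant : ℍ → ℂ) =
      PowerSeries.map (Int.castRingHom ℂ) (PowerSeries.mk tau) := q_delta
  rw [← h4, h2, h5, map_mul, PowerSeries.map_C, PowerSeries.smul_eq_C_mul]
  norm_num

theorem isForm_tau : IsForm 6 (PowerSeries.mk tau) := by
  refine IsForm.of_smul (N := 1728) (by norm_num) ?_
  rw [Vlev_disc]
  exact (isForm_e4.pow 3).sub (isForm_e6.pow 2)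

private theorem Vlev_cc (F : ℤ⟦X⟧) : PowerSeries.coeff 0 F = PowerSeries.constantCoeff F :=
  PowerSeries.coeff_zero_eq_constantCoeff_apply F

private theorem Vlev_t3 : PowerSeries.constantCoeff th3 = 1 := by
  rw [← Vlev_cc]
  simp [th3]

private theorem Vlev_t4 : PowerSeries.constantCoeff th4 = 1 := by
  rw [← Vlev_cc, th4, PowerSeries.coeff_mk, Vlev_cc, Vlev_t3]
  norm_num

private theorem Vlev_c4 : PowerSeries.constantCoeff e4 = 1 := by
  rw [e4]
  simp only [map_add, map_sub, map_mul, map_pow, Vlev_t3, Vlev_t4, map_ofNat]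
  norm_num

private theorem Vlev_c6 : PowerSeries.constantCoeff e6 = 1 := by
  rw [e6]
  simp only [map_add, map_sub, map_mul, map_pow, map_neg, Vlev_t3, Vlev_t4, map_ofNat]
  norm_num

private theorem Vlev_tau : ∃ W W' : ℤ⟦X⟧, PowerSeries.mk tau = PowerSeries.X * W ∧ W * W' = 1 := by
  have h1 : PowerSeries.constantCoeff (PowerSeries.mk tau) = 0 := by
    rw [← Vlev_cc, PowerSeries.coeff_mk, tau_zero]
  obtain ⟨W, hW⟩ := PowerSeries.X_dvd_iff.2 h1
  have h2 : PowerSeries.constantCoeff W = 1 := by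
    have h3 := congrArg (PowerSeries.coeff 1) hW
    rw [PowerSeries.coeff_mk, tau_one, ← zero_add 1, PowerSeries.coeff_succ_X_mul] at h3
    rw [← Vlev_cc]
    exact h3.symm
  have h3 : IsUnit W := by
    rw [PowerSeries.isUnit_iff_constantCoeff, h2]
    exact isUnit_one
  obtain ⟨W', hW'⟩ := h3.exists_right_inv
  exact ⟨W, W', hW, hW'⟩

private theorem Vlev_E (i j : ℕ) : ∃ E : ModularForm 𝒮ℒ ((2 * (2 * i + 3 * j) : ℕ) : ℤ),
    qExpansion 1 (E : ℍ → ℂ) = PowerSeries.map (Int.castRingHom ℂ) (e4 ^ i * e6 ^ j) := by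
  refine ⟨ModularForm.mcast (by push_cast; ring) ((E₄.pow i).mul (E₆.pow j)), ?_⟩
  rw [ModularForm.coe_mcast, ModularForm.qExpansion_mul one_pos one_mem_strictPeriods_SL,
    ModularForm.qExpansion_pow one_pos one_mem_strictPeriods_SL,
    ModularForm.qExpansion_pow one_pos one_mem_strictPeriods_SL, qE4, qE6, map_mul, map_pow,
    map_pow]

/-- the descent step -/
private theorem Vlev_step {k : ℤ} (g : ModularForm 𝒮ℒ k) (F : ℤ⟦X⟧)
    (hF : qExpansion 1 (g : ℍ → ℂ) = PowerSeries.map (Int.castRingHom ℂ) F)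
    (h0 : PowerSeries.constantCoeff F = 0) :
    ∃ (g2 : ModularForm 𝒮ℒ (k - 12)) (F2 : ℤ⟦X⟧), F = PowerSeries.mk tau * F2 ∧
      qExpansion 1 (g2 : ℍ → ℂ) = PowerSeries.map (Int.castRingHom ℂ) F2 := by
  have hc : (qExpansion 1 g).coeff 0 = 0 := by
    rw [hF, PowerSeries.coeff_map, Vlev_cc, h0, map_zero]
  have h1 := ModularForm.qExpansion_eq_qExpansion_discriminant_mul g hc
  obtain ⟨W, W', hW, hW'⟩ := Vlev_tau
  obtain ⟨H, hH⟩ := PowerSeries.X_dvd_iff.2 h0
  obtain ⟨Q, hQ⟩ : ∃ Q, Q = qExpansion 1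
    (CuspForm.discriminantEquiv (ModularForm.toCuspForm g hc) : ℍ → ℂ) := ⟨_, rfl⟩
  have h2 : PowerSeries.map (Int.castRingHom ℂ) F =
      PowerSeries.map (Int.castRingHom ℂ) (PowerSeries.mk tau) * Q := by
    rw [← hF, h1, hQ, ← q_delta]
  have h3 : PowerSeries.map (Int.castRingHom ℂ) H = PowerSeries.map (Int.castRingHom ℂ) W * Q := by
    rw [hH, hW, map_mul, map_mul, PowerSeries.map_X, mul_assoc] at h2
    exact mul_left_cancel₀ PowerSeries.X_ne_zero h2
  have h4 : Q = PowerSeries.map (Int.castRingHom ℂ) (H * W') := by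
    have h5 : PowerSeries.map (Int.castRingHom ℂ) W * PowerSeries.map (Int.castRingHom ℂ) W' = 1 := by
      rw [← map_mul, hW', map_one]
    rw [map_mul, h3]
    linear_combination (-Q) * h5
  refine ⟨CuspForm.discriminantEquiv (ModularForm.toCuspForm g hc), H * W', ?_, ?_⟩
  · rw [hH, hW]
    linear_combination (-(PowerSeries.X * H)) * hW'
  · rw [← hQ, h4]

private theorem Vlev_main (w : ℕ) : ∀ (g : ModularForm 𝒮ℒ ((2 * w : ℕ) : ℤ)) (F : ℤ⟦X⟧),
    qExpansion 1 (g : ℍ → ℂ) = PowerSeries.map (Int.castRingHom ℂ) F → IsForm w F := by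
  induction w using Nat.strong_induction_on with
  | _ w ih =>
    intro g F hF
    by_cases hw1 : w = 1
    · subst hw1
      have h1 : ModularForm.mcast (a := ((2 * 1 : ℕ) : ℤ)) (b := 2) (by norm_num) g = 0 :=
        rank_zero_iff_forall_zero.1 ModularForm.levelOne_weight_two_rank_zero _
      have h2 : (g : ℍ → ℂ) = 0 := by
        have h3 := congrArg (fun f : ModularForm 𝒮ℒ 2 => (f : ℍ → ℂ)) h1
        exact h3
      rw [h2, qExpansion_zero] at hF
      have h3 : F = 0 := Vlev_inj (by rw [← hF, map_zero])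
      rw [h3]
      exact IsForm.zero _
    obtain ⟨i, j, hij⟩ : ∃ i j, w = 2 * i + 3 * j := by
      rcases Nat.even_or_odd w with ⟨m, hm⟩ | ⟨m, hm⟩
      · exact ⟨m, 0, by omega⟩
      · exact ⟨m - 1, 1, by omega⟩
    have hE' : ∃ E : ModularForm 𝒮ℒ ((2 * w : ℕ) : ℤ),
        qExpansion 1 (E : ℍ → ℂ) = PowerSeries.map (Int.castRingHom ℂ) (e4 ^ i * e6 ^ j) := by
      rw [hij]
      exact Vlev_E i j
    obtain ⟨E, hE⟩ := hE'
    have hEf : IsForm w (e4 ^ i * e6 ^ j) := by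
      have h1 := (isForm_e4.pow i).mul (isForm_e6.pow j)
      have h2 : i * 2 + j * 3 = w := by omega
      rw [h2] at h1
      exact h1
    have hEc : PowerSeries.constantCoeff (e4 ^ i * e6 ^ j) = 1 := by
      rw [map_mul, map_pow, map_pow, Vlev_c4, Vlev_c6, one_pow, one_pow, one_mul]
    obtain ⟨c, hc⟩ : ∃ c, c = PowerSeries.constantCoeff F := ⟨_, rfl⟩
    have hF' : qExpansion 1 ((g - (c : ℂ) • E : ModularForm 𝒮ℒ ((2 * w : ℕ) : ℤ)) : ℍ → ℂ) =
        PowerSeries.map (Int.castRingHom ℂ) (F - PowerSeries.C c * (e4 ^ i * e6 ^ j)) := by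
      rw [FunLike.coe_sub, ModularForm.qExpansion_sub one_pos one_mem_strictPeriods_SL,
        FunLike.coe_smul, ModularForm.qExpansion_smul one_pos one_mem_strictPeriods_SL, hF, hE,
        map_sub, map_mul (PowerSeries.map (Int.castRingHom ℂ)) (PowerSeries.C c), PowerSeries.map_C,
        PowerSeries.smul_eq_C_mul]
      rfl
    have h0 : PowerSeries.constantCoeff (F - PowerSeries.C c * (e4 ^ i * e6 ^ j)) = 0 := by
      rw [map_sub, map_mul, hEc, PowerSeries.constantCoeff_C, ← hc, mul_one, sub_self]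
    obtain ⟨g2, F2, hF2, hg2⟩ := Vlev_step _ _ hF' h0
    have hF2' : IsForm w (PowerSeries.mk tau * F2) := by
      rcases Nat.lt_or_ge w 6 with h6 | h6
      · have h1 : (g2 : ℍ → ℂ) = 0 :=
          ModularFormClass.levelOne_neg_weight_eq_zero (by push_cast; omega) g2
        rw [h1, qExpansion_zero] at hg2
        have h3 : F2 = 0 := Vlev_inj (by rw [← hg2, map_zero])
        rw [h3, mul_zero]
        exact IsForm.zero _
      · have h1 := ih (w - 6) (by omega)
          (ModularForm.mcast (by push_cast [Nat.cast_sub h6]; ring) g2) F2 hg2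
        have h2 := isForm_tau.mul h1
        have h3 : 6 + (w - 6) = w := by omega
        rw [h3] at h2
        exact h2
    have h7 : F = PowerSeries.C c * (e4 ^ i * e6 ^ j) + PowerSeries.mk tau * F2 := by
      rw [← hF2]
      ring
    rw [h7]
    exact (hEf.smul c).add hF2'

theorem isForm_levelOne (w : ℕ) (g : ModularForm 𝒮ℒ ((2 * w : ℕ) : ℤ)) (F : ℤ⟦X⟧)
    (hF : qExpansion 1 (g : ℍ → ℂ) = PowerSeries.map (Int.castRingHom ℂ) F) : IsForm w F :=
  Vlev_main w g F hF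

end Pool.Agent.H85.OT
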