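import Pool.Agent.H85.OT.Vth

/-!
# Row VMF (project OT): `E₄`, `E₆` in terms of theta functions

`G4 = A² - A B + B²`, `G6 = (1/2)(2A - B)(A + B)(2B - A)` with `A = TA`, `B = TB`.
* `T`: `A, B` are exchanged (`TA_add_one`, `TB_add_one`): both are invariant.
* `S`: `A ↦ -τ² A`, `B ↦ -τ² (A-B)` at `-1/τ`: `A² - A(A-B) + (A-B)² = A² - AB + B²`, factor `τ⁴`;
  `(2A - (A-B))(A + (A-B))(2(A-B) - A) = (A+B)(2A-B)(A-2B)`, times `(-τ²)³ = -τ⁶`, gives
  `τ⁶ (A+B)(2A-B)(2B-A)`.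
  So both are slash invariant of weight `4`, `6` for `S`, `T` (`slash_action_generators_SL2Z`;
  `ModularForm.slash_action...`, `modular_S_smul`, `modular_T_smul`, `denom` of `S` is `τ`; see the proof of
  `discriminant_S_invariant`, `discriminant_T_invariant` and the construction of `CuspForm.discriminant` in Mathlib).
* holomorphic: `mdifferentiable_jacobiTheta` or `differentiableAt_jacobiTheta`
  (`UpperHalfPlane.mdifferentiable_iff`).
* bounded at infinity: `isBigO_at_im_infty_jacobiTheta_sub_one` (`θ(τ) → 1`, `θ(τ+1) → 1` as `im τ → ∞`), so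
  `A, B → 1`, `G4 → 1`, `G6 → 1`.
* weights 4, 6: rank one (`levelOne_weight_four_rank_one`, `levelOne_weight_six_rank_one`), so `G4 = c E₄`; the
  constant is `1`: values at infinity (`E_qExpansion_coeff_zero`, `valueAtInfty`, `qExpansion_coeff_zero`).
-/

open PowerSeries UpperHalfPlane EisensteinSeries

namespace Pool.Agent.H85.OT

open Filter Topology MatrixGroups ModularForm in
theorem Vmf_form (k : ℕ) (G : ℂ → ℂ) (hT : ∀ τ : ℂ, 0 < τ.im → G (τ + 1) = G τ)
    (hS : ∀ τ : ℂ, 0 < τ.im → G (-1 / τ) = τ ^ k * G τ)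
    (hd : ∀ τ : ℂ, 0 < τ.im → DifferentiableAt ℂ G τ)
    (hlim : Tendsto (fun τ : ℍ => G τ) atImInfty (𝓝 1)) :
    ∃ M : ModularForm 𝒮ℒ (k : ℤ), ∀ τ : ℍ, M τ = G τ := by
  have hTs : ((fun τ : ℍ => G τ) ∣[(k : ℤ)] ModularGroup.T) = (fun τ : ℍ => G τ) := by
    ext z
    rw [SL_slash_apply, denom, modular_T_smul, ModularGroup.T]
    have h1 := hT z z.im_pos
    rw [add_comm] at h1
    simp [h1]
  have hSs : ((fun τ : ℍ => G τ) ∣[(k : ℤ)] ModularGroup.S) = (fun τ : ℍ => G τ) := by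
    ext z
    have h1 := hS z z.im_pos
    have h2 : (-1 / (z : ℂ)) = -(z : ℂ)⁻¹ := by
      rw [neg_div, one_div]
    rw [h2] at h1
    suffices G (-(z : ℂ)⁻¹) * ((z : ℂ) ^ k)⁻¹ = G z by
      rw [SL_slash_apply, UpperHalfPlane.modular_S_smul]
      simpa [denom, ModularGroup.S]
    rw [h1]
    have hz : (z : ℂ) ≠ 0 := ne_zero z
    field_simp
  refine ⟨{ toFun := fun τ : ℍ => G τ
            slash_action_eq' := ?_
            holo' := ?_
            bdd_at_cusps' := ?_ }, fun τ => rfl⟩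
  · rintro A ⟨A, rfl⟩
    exact SlashInvariantForm.slash_action_generators_SL2Z hSs hTs A
  · rw [UpperHalfPlane.mdifferentiable_iff]
    refine .congr (fun z hz => (hd z hz).differentiableWithinAt) fun z hz => ?_
    simp [ofComplex_apply_of_im_pos hz]
  · intro c hc
    rw [Subgroup.IsArithmetic.isCusp_iff_isCusp_SL2Z] at hc
    rw [OnePoint.isBoundedAt_iff_forall_SL2Z hc]
    intro γ _
    rw [SlashInvariantForm.slash_action_generators_SL2Z hSs hTs]
    exact hlim.isBigO_one ℝ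

open Filter Topology in
theorem Vmf_lim : Tendsto jacobiTheta (comap Complex.im atTop) (𝓝 1) := by
  have h1 : Tendsto (fun τ : ℂ => Real.exp (-Real.pi * τ.im)) (comap Complex.im atTop) (𝓝 0) := by
    have h2 : Tendsto (fun y : ℝ => Real.exp (-Real.pi * y)) atTop (𝓝 0) := by
      have h3 : Tendsto (fun y : ℝ => -Real.pi * y) atTop atBot :=
        (tendsto_id).const_mul_atTop_of_neg (by linarith [Real.pi_pos])
      exact Real.tendsto_exp_atBot.comp h3
    exact h2.comp tendsto_comap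
  have h4 := isBigO_at_im_infty_jacobiTheta_sub_one.trans_tendsto h1
  have h5 := h4.add_const (1 : ℂ)
  simpa using h5

open Filter Topology in
theorem Vmf_TA : Tendsto (fun τ : ℍ => TA τ) atImInfty (𝓝 1) := by
  have h := (Vmf_lim.comp tendsto_coe_atImInfty).pow 4
  rw [one_pow] at h
  exact h

open Filter Topology in
theorem Vmf_TB : Tendsto (fun τ : ℍ => TB τ) atImInfty (𝓝 1) := by
  have h0 : Tendsto (fun τ : ℍ => (τ : ℂ) + 1) atImInfty (comap Complex.im atTop) := by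
    rw [tendsto_comap_iff]
    have h1 : Tendsto (fun τ : ℍ => (τ : ℂ).im) atImInfty atTop := by
      have h2 := tendsto_coe_atImInfty
      rw [tendsto_comap_iff] at h2
      exact h2
    refine h1.congr fun τ => ?_
    simp
  have h := (Vmf_lim.comp h0).pow 4
  rw [one_pow] at h
  exact h

theorem Vmf_dA (τ : ℂ) (hτ : 0 < τ.im) : DifferentiableAt ℂ TA τ :=
  (differentiableAt_jacobiTheta hτ).pow 4

theorem Vmf_dB (τ : ℂ) (hτ : 0 < τ.im) : DifferentiableAt ℂ TB τ := by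
  have h1 : 0 < (τ + 1).im := by simpa using hτ
  have h2 : DifferentiableAt ℂ (fun τ : ℂ => jacobiTheta (τ + 1)) τ :=
    DifferentiableAt.comp (f := fun τ : ℂ => τ + 1) (g := jacobiTheta) τ
      (differentiableAt_jacobiTheta h1) (by fun_prop)
  exact h2.pow 4

open Filter Topology MatrixGroups ModularForm in
theorem Vmf_val {k : ℤ} (M : ModularForm 𝒮ℒ k) (h : Tendsto (fun τ : ℍ => M τ) atImInfty (𝓝 1)) :
    (qExpansion 1 M).coeff 0 = 1 := by
  rw [UpperHalfPlane.qExpansion_coeff_zero one_pos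
    (ModularFormClass.analyticAt_cuspFunction_zero M one_pos one_mem_strictPeriods_SL)
    (SlashInvariantFormClass.periodic_comp_ofComplex M one_mem_strictPeriods_SL)]
  exact h.limUnder_eq

open Filter Topology MatrixGroups ModularForm in
theorem E4_theta (τ : ℍ) :
    (ModularForm.E₄ : ℍ → ℂ) τ = TA τ ^ 2 - TA τ * TB τ + TB τ ^ 2 := by
  have hlim : Tendsto (fun τ : ℍ => (fun τ : ℂ => TA τ ^ 2 - TA τ * TB τ + TB τ ^ 2) τ)
      atImInfty (𝓝 1) := by
    have h := ((Vmf_TA.pow 2).sub (Vmf_TA.mul Vmf_TB)).add (Vmf_TB.pow 2)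
    norm_num at h
    exact h
  obtain ⟨M, hM⟩ := Vmf_form 4 (fun τ => TA τ ^ 2 - TA τ * TB τ + TB τ ^ 2)
    (fun τ _ => by
      show TA (τ + 1) ^ 2 - TA (τ + 1) * TB (τ + 1) + TB (τ + 1) ^ 2 = _
      rw [TA_add_one, TB_add_one]
      ring)
    (fun τ hτ => by
      show TA (-1 / τ) ^ 2 - TA (-1 / τ) * TB (-1 / τ) + TB (-1 / τ) ^ 2 = _
      rw [TA_S τ hτ, TB_S τ hτ]
      ring)
    (fun τ hτ => (((Vmf_dA τ hτ).pow 2).sub ((Vmf_dA τ hτ).mul (Vmf_dB τ hτ))).add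
      ((Vmf_dB τ hτ).pow 2))
    hlim
  obtain ⟨c, hc⟩ : ∃ c : ℂ, c • E₄ = M :=
    (finrank_eq_one_iff_of_nonzero' E₄ (E_ne_zero _ ⟨2, rfl⟩)).mp
      (Module.rank_eq_one_iff_finrank_eq_one.mp levelOne_weight_four_rank_one) _
  have h1 : (qExpansion 1 M).coeff 0 = 1 := Vmf_val M (by simpa only [hM] using hlim)
  have h2 : (qExpansion 1 (c • E₄ : ℍ → ℂ)) = c • qExpansion 1 E₄ :=
    ModularForm.qExpansion_smul one_pos one_mem_strictPeriods_SL c E₄
  have h3 : (c • E₄ : ℍ → ℂ) = M := congrArg DFunLike.coe hc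
  rw [h3] at h2
  rw [h2, PowerSeries.coeff_smul, E_qExpansion_coeff_zero _ ⟨2, rfl⟩, smul_eq_mul, mul_one] at h1
  have h4 := congrFun h3 τ
  rw [h1] at h4
  rw [← hM τ, ← h4]
  simp

open Filter Topology MatrixGroups ModularForm in
theorem E6_theta (τ : ℍ) :
    (ModularForm.E₆ : ℍ → ℂ) τ = 1 / 2 * (2 * TA τ - TB τ) * (TA τ + TB τ) * (2 * TB τ - TA τ) := by
  have hlim : Tendsto (fun τ : ℍ => (fun τ : ℂ => 1 / 2 * (2 * TA τ - TB τ) * (TA τ + TB τ) *
      (2 * TB τ - TA τ)) τ) atImInfty (𝓝 1) := by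
    have h := (((Vmf_TA.const_mul 2).sub Vmf_TB).const_mul (1 / 2)).mul (Vmf_TA.add Vmf_TB)
    have h' := h.mul ((Vmf_TB.const_mul 2).sub Vmf_TA)
    norm_num at h'
    norm_num
    exact h'
  obtain ⟨M, hM⟩ := Vmf_form 6 (fun τ => 1 / 2 * (2 * TA τ - TB τ) * (TA τ + TB τ) *
      (2 * TB τ - TA τ))
    (fun τ _ => by
      show 1 / 2 * (2 * TA (τ + 1) - TB (τ + 1)) * (TA (τ + 1) + TB (τ + 1)) *
        (2 * TB (τ + 1) - TA (τ + 1)) = _
      rw [TA_add_one, TB_add_one]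
      ring)
    (fun τ hτ => by
      show 1 / 2 * (2 * TA (-1 / τ) - TB (-1 / τ)) * (TA (-1 / τ) + TB (-1 / τ)) *
        (2 * TB (-1 / τ) - TA (-1 / τ)) = _
      rw [TA_S τ hτ, TB_S τ hτ]
      ring)
    (fun τ hτ => by
      have hA := Vmf_dA τ hτ
      have hB := Vmf_dB τ hτ
      exact (((((hA.const_mul 2).sub hB).const_mul (1 / 2)).mul (hA.add hB)).mul
        ((hB.const_mul 2).sub hA)))
    hlim
  obtain ⟨c, hc⟩ : ∃ c : ℂ, c • E₆ = M :=
    (finrank_eq_one_iff_of_nonzero' E₆ (E_ne_zero _ ⟨3, rfl⟩)).mp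
      (Module.rank_eq_one_iff_finrank_eq_one.mp levelOne_weight_six_rank_one) _
  have h1 : (qExpansion 1 M).coeff 0 = 1 := Vmf_val M (by simpa only [hM] using hlim)
  have h2 : (qExpansion 1 (c • E₆ : ℍ → ℂ)) = c • qExpansion 1 E₆ :=
    ModularForm.qExpansion_smul one_pos one_mem_strictPeriods_SL c E₆
  have h3 : (c • E₆ : ℍ → ℂ) = M := congrArg DFunLike.coe hc
  rw [h3] at h2
  rw [h2, PowerSeries.coeff_smul, E_qExpansion_coeff_zero _ ⟨3, rfl⟩, smul_eq_mul, mul_one] at h1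
  have h4 := congrFun h3 τ
  rw [h1] at h4
  rw [← hM τ, ← h4]
  simp

end Pool.Agent.H85.OT
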