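import Pool.Agent.H85.OT.VDef

/-!
# Row VPSI (project OT): third duplication formula

`2 X (psi(X²))² = th3² - th4²`.
Coefficient `N` of the right side is `(1 - (-1)^N) r2 N` with `r2 N` the number of integer pairs
`m² + n² = N`: `0` for `N` even, `2 r2 N` for `N` odd.  For `N` odd, `m + n` is odd and
`m = a + b + 1`, `n = a - b` is a bijection with integer pairs `(a,b)` such that
`2 (a² + a) + 2 (b² + b) + 1 = N`; the number of these is coefficient `N` of
`X (psi(X²))²` (`psi = ∑_{a ∈ ℤ} X^(a²+a)`).  Same style as file `Dup.lean` (see the proofs there; several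
helper lemmas there can be reused).
-/

open PowerSeries

namespace Pool.Agent.H85.OT

/-- integers with `a² + a = n` -/
noncomputable def Vpsi_S (n : ℕ) : Finset ℤ :=
  (Finset.Icc (-(n : ℤ) - 1) n).filter fun a => a ^ 2 + a = (n : ℤ)

/-- pairs of integers with `a² + a + b² + b = N` -/
noncomputable def Vpsi_P (N : ℕ) : Finset (ℤ × ℤ) :=
  (Finset.Icc (-(N : ℤ) - 1) N ×ˢ Finset.Icc (-(N : ℤ) - 1) N).filter
    fun p => p.1 ^ 2 + p.1 + (p.2 ^ 2 + p.2) = (N : ℤ)

theorem Vpsi_le (a : ℤ) {N : ℤ} (h : a ^ 2 + a ≤ N) : a ∈ Finset.Icc (-N - 1) N := by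
  rw [Finset.mem_Icc]
  constructor
  · nlinarith [sq_nonneg (a + 1)]
  · nlinarith [sq_nonneg a]

theorem Vpsi_nn (a : ℤ) : 0 ≤ a ^ 2 + a := by
  rcases le_or_gt 0 a with h | h
  · positivity
  · have h1 : a + 1 ≤ 0 := by omega
    nlinarith

theorem Vpsi_mem_S {n : ℕ} {a : ℤ} : a ∈ Vpsi_S n ↔ a ^ 2 + a = (n : ℤ) := by
  unfold Vpsi_S
  rw [Finset.mem_filter]
  exact ⟨fun h => h.2, fun h => ⟨Vpsi_le a h.le, h⟩⟩

theorem Vpsi_mem_P {N : ℕ} {p : ℤ × ℤ} :
    p ∈ Vpsi_P N ↔ p.1 ^ 2 + p.1 + (p.2 ^ 2 + p.2) = (N : ℤ) := by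
  unfold Vpsi_P
  rw [Finset.mem_filter, Finset.mem_product]
  refine ⟨fun h => h.2, fun h => ⟨⟨Vpsi_le _ ?_, Vpsi_le _ ?_⟩, h⟩⟩
  · linarith [Vpsi_nn p.2]
  · linarith [Vpsi_nn p.1]

theorem Vpsi_coeff_mul {f g : ℤ⟦X⟧} {χ ψ : ℤ → ℤ}
    (hf : ∀ n : ℕ, coeff n f = ∑ m ∈ Vpsi_S n, χ m)
    (hg : ∀ n : ℕ, coeff n g = ∑ m ∈ Vpsi_S n, ψ m) (N : ℕ) :
    coeff N (f * g) = ∑ p ∈ Vpsi_P N, χ p.1 * ψ p.2 := by
  rw [PowerSeries.coeff_mul, ← Finset.sum_fiberwise_of_maps_to (t := Finset.HasAntidiagonal.antidiagonal N)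
    (g := fun p : ℤ × ℤ => ((p.1 ^ 2 + p.1).toNat, (p.2 ^ 2 + p.2).toNat))]
  · apply Finset.sum_congr rfl
    intro q hq
    rw [Finset.HasAntidiagonal.mem_antidiagonal] at hq
    rw [hf, hg, Finset.sum_mul_sum, ← Finset.sum_product']
    apply Finset.sum_congr
    · ext p
      rw [Finset.mem_product, Finset.mem_filter, Vpsi_mem_S, Vpsi_mem_S, Vpsi_mem_P, Prod.ext_iff]
      have e1 := Int.toNat_of_nonneg (Vpsi_nn p.1)
      have e2 := Int.toNat_of_nonneg (Vpsi_nn p.2)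
      constructor
      · rintro ⟨h1, h2⟩
        refine ⟨?_, ?_, ?_⟩
        · rw [h1, h2, ← hq]
          push_cast
          rfl
        · simp only
          rw [h1]
          exact Int.toNat_natCast _
        · simp only
          rw [h2]
          exact Int.toNat_natCast _
      · rintro ⟨-, h1, h2⟩
        simp only at h1 h2
        rw [← h1, ← h2]
        exact ⟨e1.symm, e2.symm⟩
    · intro p _
      rfl
  · intro p hp
    rw [Vpsi_mem_P] at hp
    rw [Finset.HasAntidiagonal.mem_antidiagonal]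
    have e1 := Int.toNat_of_nonneg (Vpsi_nn p.1)
    have e2 := Int.toNat_of_nonneg (Vpsi_nn p.2)
    have h3 : (((p.1 ^ 2 + p.1).toNat + (p.2 ^ 2 + p.2).toNat : ℕ) : ℤ) = (N : ℤ) := by
      rw [Nat.cast_add, e1, e2, hp]
    exact_mod_cast h3

theorem Vpsi_coeff (n : ℕ) : coeff n psi = ∑ _m ∈ Vpsi_S n, (1 : ℤ) := by
  unfold psi
  rw [PowerSeries.coeff_mk]
  split_ifs with h
  · obtain ⟨k, hk⟩ := h
    have hodd : k % 2 = 1 := by
      rcases Nat.even_or_odd k with ⟨r, hr⟩ | hr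
      · exfalso
        subst hr
        have : (r + r) * (r + r) = 4 * (r * r) := by ring
        omega
      · exact Nat.odd_iff.mp hr
    obtain ⟨j, hj⟩ : ∃ j, k = 2 * j + 1 := ⟨k / 2, by omega⟩
    subst hj
    have hn : n = j ^ 2 + j := by nlinarith
    have hS : Vpsi_S n = {(j : ℤ), -(j : ℤ) - 1} := by
      ext m
      rw [Vpsi_mem_S, hn, Finset.mem_insert, Finset.mem_singleton]
      push_cast
      constructor
      · intro h
        have h2 : (m - j) * (m + j + 1) = 0 := by linarith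
        rcases mul_eq_zero.mp h2 with h3 | h3
        · left; linarith
        · right; linarith
      · rintro (h | h)
        · rw [h]
        · rw [h]; ring
    rw [hS, Finset.sum_pair]
    · norm_num
    · omega
  · have : Vpsi_S n = ∅ := by
      rw [Finset.eq_empty_iff_forall_notMem]
      intro m hm
      rw [Vpsi_mem_S] at hm
      apply h
      refine ⟨(2 * m + 1).natAbs, ?_⟩
      have h3 : ((4 * n + 1 : ℕ) : ℤ) = (((2 * m + 1).natAbs * (2 * m + 1).natAbs : ℕ) : ℤ) := by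
        rw [← Int.natAbs_mul]
        rw [Int.natAbs_of_nonneg (mul_self_nonneg _)]
        push_cast
        linarith
      exact_mod_cast h3
    rw [this]
    simp

theorem Vpsi_sum (M : ℕ) : ∑ _p ∈ Dup_P (2 * M + 1), (1 : ℤ) = ∑ _p ∈ Vpsi_P M, (1 : ℤ) := by
  symm
  refine Finset.sum_bij' (fun p _ => (p.1 + p.2 + 1, p.1 - p.2))
    (fun p _ => ((p.1 + p.2 - 1) / 2, (p.1 - p.2 - 1) / 2)) ?_ ?_ ?_ ?_ ?_
  · intro p hp
    rw [Vpsi_mem_P] at hp
    rw [Dup_mem_P]
    push_cast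
    rw [← hp]
    ring
  · intro p hp
    rw [Dup_mem_P] at hp
    rw [Vpsi_mem_P]
    push_cast at hp
    obtain ⟨x, y⟩ := p
    simp only at hp ⊢
    have hpar : (x + y) % 2 = 1 := by
      have h1 : (x ^ 2 + y ^ 2) % 2 = 1 := by rw [hp]; omega
      rcases Int.emod_two_eq_zero_or_one x with hx | hx <;>
        rcases Int.emod_two_eq_zero_or_one y with hy | hy <;>
        simp [pow_two, Int.add_emod, Int.mul_emod, hx, hy] at h1 ⊢
    obtain ⟨a, ha⟩ : ∃ a, x + y - 1 = 2 * a := ⟨(x + y - 1) / 2, by omega⟩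
    have hb : x - y - 1 = 2 * (a - y) := by linarith
    rw [ha, hb, Int.mul_ediv_cancel_left _ two_ne_zero, Int.mul_ediv_cancel_left _ two_ne_zero]
    have hx : x = 2 * a - y + 1 := by linarith
    rw [hx] at hp
    nlinarith [hp]
  · intro p _
    obtain ⟨x, y⟩ := p
    simp only [Prod.mk.injEq]
    constructor <;> omega
  · intro p hp
    rw [Dup_mem_P] at hp
    push_cast at hp
    obtain ⟨x, y⟩ := p
    simp only [Prod.mk.injEq] at hp ⊢
    have hpar : (x + y) % 2 = 1 := by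
      have h1 : (x ^ 2 + y ^ 2) % 2 = 1 := by rw [hp]; omega
      rcases Int.emod_two_eq_zero_or_one x with hx | hx <;>
        rcases Int.emod_two_eq_zero_or_one y with hy | hy <;>
        simp [pow_two, Int.add_emod, Int.mul_emod, hx, hy] at h1 ⊢
    constructor <;> omega
  · intro p _
    rfl

theorem Vpsi_rhs (N : ℕ) : coeff N (th3 ^ 2 - th4 ^ 2) =
    (1 - (-1) ^ N) * ∑ _p ∈ Dup_P N, (1 : ℤ) := by
  rw [map_sub, pow_two, pow_two, Dup_coeff_mul Dup_th3 Dup_th3, Dup_coeff_mul Dup_th4 Dup_th4,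
    ← Finset.sum_sub_distrib, Finset.mul_sum]
  apply Finset.sum_congr rfl
  intro p hp
  rw [Dup_mem_P] at hp
  rw [Dup_c_nat hp]
  ring

theorem two_X_psi : 2 * (PowerSeries.X : ℤ⟦X⟧) * (dbl ℤ psi) ^ 2 = th3 ^ 2 - th4 ^ 2 := by
  have e : 2 * (PowerSeries.X : ℤ⟦X⟧) * (dbl ℤ psi) ^ 2 =
      PowerSeries.X * (PowerSeries.C (2 : ℤ) * dbl ℤ (psi * psi)) := by
    rw [map_mul (dbl ℤ), pow_two]
    have : (PowerSeries.C (2 : ℤ)) = (2 : ℤ⟦X⟧) := map_ofNat _ 2
    rw [this]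
    ring
  rw [e]
  ext N
  rw [Vpsi_rhs]
  rcases N with _ | n
  · simp
  · rw [PowerSeries.coeff_succ_X_mul, PowerSeries.coeff_C_mul]
    unfold dbl
    rcases Nat.even_or_odd n with h | h
    · obtain ⟨M, hM⟩ := h
      have hM2 : n = 2 * M := by omega
      rw [hM2, PowerSeries.coeff_expand_mul, Vpsi_coeff_mul Vpsi_coeff Vpsi_coeff, Vpsi_sum]
      have h1 : (1 - (-1 : ℤ) ^ (2 * M + 1)) = 2 := by
        rw [pow_succ, pow_mul]
        norm_num
      rw [h1]
      simp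
    · rw [PowerSeries.coeff_expand_of_not_dvd]
      · have h1 : (1 - (-1 : ℤ) ^ (n + 1)) = 0 := by
          have : Even (n + 1) := h.add_one
          rw [this.neg_one_pow]
          norm_num
        rw [h1]
        simp
      · intro h2
        exact (Nat.not_even_iff_odd.mpr h) (even_iff_two_dvd.mpr h2)

end Pool.Agent.H85.OT
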