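import Pool.Agent.H85.OT.Vmf

/-!
# Row VQ (project OT): q-expansions of `E₄`, `E₆`

Notation `u = th3²`, `v = th4²`, `a = u²`, `b = v²`, `F~ = dbl F`; `2 u~ = u + v`, `v~² = u v`, so
`4 a~ = (u+v)²`, `b~ = u v`.
* formal identities (`ring`, after multiplying by a power of `2`, which may be cancelled in `ℤ⟦X⟧`):
  `dbl e4 = a² - a b + b²` : `16 a~² - 16 a~ b~ + b~² = (u+v)⁴ - 4 (u+v)² u v + u² v² = (u²-v²)² + u²v²`;
  `2 dbl e6 = (2a - b)(a + b)(2b - a)` : `2 a~ - b~ = (u²+v²)/2` and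
  `-32 a~² + 32 a~ b~ + b~² = -2 (u²-v²)² + u² v² = (2a - b)(2b - a)`.
* let `Q = qExpansion 1 E₄ : ℂ⟦X⟧`.  For `σ` in the upper half plane, `q = exp(2π i σ)`: `∑ Q_n q^n = E₄ σ`
  absolutely (`hasSum_qExpansion`; absolute convergence of a power series in the interior of the disc, or
  `HasSum` in `ℂ` implies summable in norm, `summable_norm_iff`), so `Cv Q q (E₄ σ)`.
  With `t = exp(π i σ)`, `q = t²`: `Cv (dbl Q) t (E₄ σ)` (`Cv.dbl`).  By `E4_theta`, `cv_th3`, `cv_th4` and the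
  `Cv` calculus, `Cv (map (a² - ab + b²)) t (E₄ σ)`.  Every `t` with `0 < ‖t‖ < 1` is `exp(π i σ)` for some `σ` in the upper
  half plane.  `Cv.ext`: `dbl Q = map (dbl e4) = dbl (map e4)`; `dbl` is injective, so `Q = map e4`.
* the same for `E₆`.
-/

open PowerSeries UpperHalfPlane EisensteinSeries

namespace Pool.Agent.H85.OT

theorem Vq_dbl_v : (dbl ℤ (th4 ^ 2)) ^ 2 = th3 ^ 2 * th4 ^ 2 := by
  rw [map_pow, dbl_th4_sq]
  ring

theorem dbl_e4 : dbl ℤ e4 = (th3 ^ 4) ^ 2 - th3 ^ 4 * th4 ^ 4 + (th4 ^ 4) ^ 2 := by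
  have h1 := two_dbl_U
  have h2 := Vq_dbl_v
  have e3 : th3 ^ 4 = (th3 ^ 2) ^ 2 := by ring
  have e4' : th4 ^ 4 = (th4 ^ 2) ^ 2 := by ring
  unfold e4
  rw [e3, e4']
  simp only [map_add, map_sub, map_mul, map_pow (dbl ℤ) (th3 ^ 2), map_pow (dbl ℤ) (th4 ^ 2),
    map_pow (dbl ℤ) ((th3 ^ 2) ^ 2), map_pow (dbl ℤ) ((th4 ^ 2) ^ 2), map_ofNat]
  generalize dbl ℤ (th3 ^ 2) = u' at *
  generalize dbl ℤ (th4 ^ 2) = v' at *
  generalize th3 ^ 2 = u at *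
  generalize th4 ^ 2 = v at *
  have k1 : 16 * (u' ^ 2) ^ 2 - 16 * u' ^ 2 * v' ^ 2 + (v' ^ 2) ^ 2 =
      (2 * u') ^ 4 - 4 * (2 * u') ^ 2 * v' ^ 2 + (v' ^ 2) ^ 2 := by ring
  rw [k1, h1, h2]
  ring

theorem two_dbl_e6 : 2 * dbl ℤ e6 =
    (2 * th3 ^ 4 - th4 ^ 4) * (th3 ^ 4 + th4 ^ 4) * (2 * th4 ^ 4 - th3 ^ 4) := by
  have h1 := two_dbl_U
  have h2 := Vq_dbl_v
  have e3 : th3 ^ 4 = (th3 ^ 2) ^ 2 := by ring
  have e4' : th4 ^ 4 = (th4 ^ 2) ^ 2 := by ring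
  unfold e6
  rw [e3, e4']
  simp only [map_add, map_sub, map_mul, map_neg, map_pow (dbl ℤ) (th3 ^ 2),
    map_pow (dbl ℤ) (th4 ^ 2),
    map_pow (dbl ℤ) ((th3 ^ 2) ^ 2), map_pow (dbl ℤ) ((th4 ^ 2) ^ 2), map_ofNat]
  generalize dbl ℤ (th3 ^ 2) = u' at *
  generalize dbl ℤ (th4 ^ 2) = v' at *
  generalize th3 ^ 2 = u at *
  generalize th4 ^ 2 = v at *
  have k1 : 2 * ((2 * u' ^ 2 - v' ^ 2) * (-32 * (u' ^ 2) ^ 2 + 32 * u' ^ 2 * v' ^ 2 + (v' ^ 2) ^ 2)) =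
      ((2 * u') ^ 2 - 2 * v' ^ 2) * (-2 * (2 * u') ^ 4 + 8 * (2 * u') ^ 2 * v' ^ 2 + (v' ^ 2) ^ 2) := by
    ring
  rw [k1, h1, h2]
  ring

theorem Vq_tau (t : ℂ) (h0 : 0 < ‖t‖) (h1 : ‖t‖ < 1) :
    ∃ τ : ℍ, Complex.exp (Real.pi * Complex.I * (τ : ℂ)) = t := by
  have ht : t ≠ 0 := norm_pos_iff.1 h0
  have him : 0 < (Complex.log t / (Real.pi * Complex.I)).im := by
    have e : Complex.log t / (Real.pi * Complex.I) = -(Complex.I * (Complex.log t / (Real.pi : ℂ))) := by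
      have hp : (Real.pi : ℂ) ≠ 0 := by exact_mod_cast Real.pi_ne_zero
      have hI := Complex.I_ne_zero
      field_simp
      rw [Complex.I_sq]
      ring
    rw [e, Complex.neg_im, Complex.I_mul_im, Complex.div_ofReal_re, Complex.log_re]
    have h2 : Real.log ‖t‖ < 0 := Real.log_neg h0 h1
    have h3 : Real.log ‖t‖ / Real.pi < 0 := div_neg_of_neg_of_pos h2 Real.pi_pos
    linarith
  refine ⟨⟨Complex.log t / (Real.pi * Complex.I), him⟩, ?_⟩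
  have hp : (Real.pi : ℂ) ≠ 0 := by exact_mod_cast Real.pi_ne_zero
  show Complex.exp (Real.pi * Complex.I * (Complex.log t / (Real.pi * Complex.I))) = t
  rw [mul_div_cancel₀ _ (mul_ne_zero hp Complex.I_ne_zero), Complex.exp_log ht]

theorem Vq_main (Q : ℂ⟦X⟧) (e : ℤ⟦X⟧) (E : ℍ → ℂ)
    (hQ : ∀ τ : ℍ, HasSum (fun m => PowerSeries.coeff m Q * (Function.Periodic.qParam 1 (τ : ℂ)) ^ m) (E τ))
    (he : ∀ τ : ℍ, Cv (PowerSeries.map (Int.castRingHom ℂ) (dbl ℤ e))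
      (Complex.exp (Real.pi * Complex.I * (τ : ℂ))) (E τ)) :
    Q = PowerSeries.map (Int.castRingHom ℂ) e := by
  have key : dbl ℂ Q = PowerSeries.map (Int.castRingHom ℂ) (dbl ℤ e) := by
    refine Cv.ext 1 one_pos fun t h0 h1 => ?_
    obtain ⟨τ, rfl⟩ := Vq_tau t h0 h1
    refine ⟨E τ, Cv.dbl ?_, he τ⟩
    have hq : Complex.exp (Real.pi * Complex.I * (τ : ℂ)) ^ 2 =
        Function.Periodic.qParam 1 (τ : ℂ) := by
      rw [← Complex.exp_nat_mul, Function.Periodic.qParam]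
      congr 1
      push_cast
      ring
    rw [hq]
    exact ⟨(hQ τ).summable.norm, hQ τ⟩
  ext n
  have h2 := congrArg (PowerSeries.coeff (2 * n)) key
  rw [dbl, PowerSeries.coeff_expand_mul, PowerSeries.coeff_map, dbl,
    PowerSeries.coeff_expand_mul] at h2
  rw [h2, PowerSeries.coeff_map]

theorem Cv.sub' {F G : ℂ⟦X⟧} {q s t : ℂ} (hF : Cv F q s) (hG : Cv G q t) :
    Cv (F - G) q (s - t) := by
  have h := hF.add (hG.smul (-1))
  have e : F + PowerSeries.C (-1 : ℂ) * G = F - G := by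
    rw [map_neg, map_one]; ring
  rw [e] at h
  have e2 : s + (-1) * t = s - t := by ring
  rwa [e2] at h

theorem Vq_A (τ : ℍ) : Cv ((PowerSeries.map (Int.castRingHom ℂ) th3) ^ 4)
    (Complex.exp (Real.pi * Complex.I * (τ : ℂ))) (TA τ) :=
  (cv_th3 τ τ.im_pos).pow 4

theorem Vq_B (τ : ℍ) : Cv ((PowerSeries.map (Int.castRingHom ℂ) th4) ^ 4)
    (Complex.exp (Real.pi * Complex.I * (τ : ℂ))) (TB τ) :=
  (cv_th4 τ τ.im_pos).pow 4

theorem qE4 : qExpansion 1 (ModularForm.E₄ : ℍ → ℂ) = PowerSeries.map (Int.castRingHom ℂ) e4 := by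
  refine Vq_main _ e4 (ModularForm.E₄ : ℍ → ℂ) (fun τ => ?_) (fun τ => ?_)
  · exact ModularForm.hasSum_qExpansion (f := ModularForm.E₄) one_pos one_mem_strictPeriods_SL τ
  · rw [dbl_e4, E4_theta]
    simp only [map_add, map_sub, map_mul, map_pow]
    have hA := Vq_A τ
    have hB := Vq_B τ
    exact ((hA.pow 2).sub' (hA.mul hB)).add (hB.pow 2)

theorem qE6 : qExpansion 1 (ModularForm.E₆ : ℍ → ℂ) = PowerSeries.map (Int.castRingHom ℂ) e6 := by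
  refine Vq_main _ e6 (ModularForm.E₆ : ℍ → ℂ) (fun τ => ?_) (fun τ => ?_)
  · exact ModularForm.hasSum_qExpansion (f := ModularForm.E₆) one_pos one_mem_strictPeriods_SL τ
  · rw [E6_theta]
    have hA := Vq_A τ
    have hB := Vq_B τ
    have h1 := (((hA.smul 2).sub' hB).mul (hA.add hB)).mul ((hB.smul 2).sub' hA)
    have h2 := h1.smul (1 / 2)
    have e1 : PowerSeries.C (1 / 2 : ℂ) *
        ((PowerSeries.C (2 : ℂ) * (PowerSeries.map (Int.castRingHom ℂ) th3) ^ 4 -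
          (PowerSeries.map (Int.castRingHom ℂ) th4) ^ 4) *
        ((PowerSeries.map (Int.castRingHom ℂ) th3) ^ 4 +
          (PowerSeries.map (Int.castRingHom ℂ) th4) ^ 4) *
        (PowerSeries.C (2 : ℂ) * (PowerSeries.map (Int.castRingHom ℂ) th4) ^ 4 -
          (PowerSeries.map (Int.castRingHom ℂ) th3) ^ 4)) =
        PowerSeries.map (Int.castRingHom ℂ) (dbl ℤ e6) := by
      have h3 := congrArg (PowerSeries.map (Int.castRingHom ℂ)) two_dbl_e6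
      simp only [map_add, map_sub, map_mul, map_pow, map_ofNat] at h3
      have hC : PowerSeries.C (2 : ℂ) = (2 : ℂ⟦X⟧) := map_ofNat _ 2
      have hC2 : PowerSeries.C (1 / 2 : ℂ) * (2 : ℂ⟦X⟧) = 1 := by
        rw [← hC, ← map_mul]
        norm_num
      rw [hC, ← h3, ← mul_assoc, hC2, one_mul]
    have e2 : 1 / 2 * ((2 * TA τ - TB τ) * (TA τ + TB τ) * (2 * TB τ - TA τ)) =
        1 / 2 * (2 * TA τ - TB τ) * (TA τ + TB τ) * (2 * TB τ - TA τ) := by ring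
    rw [e1, e2] at h2
    exact h2

end Pool.Agent.H85.OT
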