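import Pool.Agent.H85.OT.Defs

/-!
# Row VSL (project OT): eigenforms: `Sl2` and `Ord0` in terms of `a_p`

Let `F ∈ ℤ⟦X⟧`, `k ≥ 4`, `p` prime with `a_(pn) = a_p a_n - p^(k-1) a_(n/p)` for all `n ≥ 1` (`a_(n/p) = 0` if `p ∤ n`).
* `p² ∣ a_p` implies `p^(v+1) ∣ a_(p^v m)` for all `v ≥ 1`, `p ∤ m`: `v = 1`: `a_(pm) = a_p a_m`; step:
  `a_(p^(v+1) m) = a_p a_(p^v m) - p^(k-1) a_(p^(v-1) m)`: first term divisible by `p^(2+v+1)`, second by
  `p^(3 + (v-1)) p^{(1 if v ≥ 2)}`: for `v = 1` it is `p^(k-1) a_m`, divisible by `p³`; for `v ≥ 2` by `p^(3+v)`.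
  So `Sl2 F p`.  (Write `n = p^v m`, `v = padicValNat p n`.)
* `p ∣ a_p` implies `p^v ∣ a_(p^v m)` (`a_(p^(v+1)m)`: `p · p^v` and `p^3 p^(v-1)`), so not `Ord0 F p`.
-/

open PowerSeries

namespace Pool.Agent.H85.OT

theorem Vsl_rec {F : ℤ⟦X⟧} {k p : ℕ} (hp : p.Prime)
    (h : ∀ n : ℕ, 1 ≤ n → PowerSeries.coeff (p * n) F =
      PowerSeries.coeff p F * PowerSeries.coeff n F -
        (p : ℤ) ^ (k - 1) * (if p ∣ n then PowerSeries.coeff (n / p) F else 0))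
    {m : ℕ} (hm : 1 ≤ m) (hpm : ¬ p ∣ m) :
    PowerSeries.coeff (p ^ 1 * m) F = PowerSeries.coeff p F * PowerSeries.coeff (p ^ 0 * m) F ∧
      ∀ v : ℕ, PowerSeries.coeff (p ^ (v + 2) * m) F =
        PowerSeries.coeff p F * PowerSeries.coeff (p ^ (v + 1) * m) F -
          (p : ℤ) ^ (k - 1) * PowerSeries.coeff (p ^ v * m) F := by
  refine ⟨?_, fun v => ?_⟩
  · rw [pow_one, pow_zero, one_mul, h m hm, if_neg hpm, mul_zero, sub_zero]
  · have e1 : p ^ (v + 2) * m = p * (p ^ (v + 1) * m) := by ring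
    have hpos : 1 ≤ p ^ (v + 1) * m := Nat.mul_pos (pow_pos hp.pos _) hm
    have e2 : p ^ (v + 1) * m = p * (p ^ v * m) := by ring
    have hdv : p ∣ p ^ (v + 1) * m := ⟨p ^ v * m, e2⟩
    have e3 : p ^ (v + 1) * m / p = p ^ v * m := by
      rw [e2]
      exact Nat.mul_div_cancel_left _ hp.pos
    rw [e1, h _ hpos, if_pos hdv, e3]

theorem Vsl_val {p : ℕ} (hp : p.Prime) {n : ℕ} (hn : 1 ≤ n) :
    ∃ m, 1 ≤ m ∧ ¬ p ∣ m ∧ n = p ^ padicValNat p n * m := by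
  haveI : Fact p.Prime := ⟨hp⟩
  obtain ⟨e, m, hm, he⟩ := Nat.exists_eq_pow_mul_and_not_dvd (by omega : n ≠ 0) p hp.ne_one
  have hm1 : 1 ≤ m := by
    rcases Nat.eq_zero_or_pos m with h0 | h0
    · rw [h0, mul_zero] at he
      omega
    · exact h0
  have hv : padicValNat p n = e := by
    rw [he, padicValNat.mul (pow_ne_zero _ hp.ne_zero) (by omega), padicValNat.prime_pow,
      padicValNat.eq_zero_of_not_dvd hm, add_zero]
  exact ⟨m, hm1, hm, by rw [hv]; exact he⟩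

theorem sl2_of_dvd (F : ℤ⟦X⟧) (k p : ℕ) (hk : 4 ≤ k) (hp : p.Prime)
    (h : ∀ n : ℕ, 1 ≤ n → PowerSeries.coeff (p * n) F =
      PowerSeries.coeff p F * PowerSeries.coeff n F -
        (p : ℤ) ^ (k - 1) * (if p ∣ n then PowerSeries.coeff (n / p) F else 0))
    (hd : (p : ℤ) ^ 2 ∣ PowerSeries.coeff p F) : Sl2 F p := by
  have hk3 : (p : ℤ) ^ 3 ∣ (p : ℤ) ^ (k - 1) := pow_dvd_pow _ (by omega)
  intro n hn hpn
  obtain ⟨m, hm, hpm, hnm⟩ := Vsl_val hp hn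
  obtain ⟨r1, r2⟩ := Vsl_rec hp h hm hpm
  have key : ∀ v : ℕ, (p : ℤ) ^ (v + 2) ∣ PowerSeries.coeff (p ^ (v + 1) * m) F ∧
      (p : ℤ) ^ (v + 3) ∣ PowerSeries.coeff (p ^ (v + 2) * m) F := by
    intro v
    induction v with
    | zero =>
      have h0 : (p : ℤ) ^ 2 ∣ PowerSeries.coeff (p ^ 1 * m) F := by
        rw [r1]
        exact hd.mul_right _
      refine ⟨h0, ?_⟩
      rw [r2 0]
      refine dvd_sub ?_ (hk3.mul_right _)
      have h1 := mul_dvd_mul hd h0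
      rw [← pow_add] at h1
      exact (pow_dvd_pow _ (by norm_num)).trans h1
    | succ v ih =>
      refine ⟨ih.2, ?_⟩
      have e := r2 (v + 1)
      rw [e]
      refine dvd_sub ?_ ?_
      · have h1 := mul_dvd_mul hd ih.2
        rw [← pow_add] at h1
        exact (pow_dvd_pow _ (by omega)).trans h1
      · have h1 := mul_dvd_mul hk3 ih.1
        rw [← pow_add] at h1
        exact (pow_dvd_pow _ (by omega)).trans h1
  have hv : padicValNat p n ≠ 0 := by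
    intro h0
    rw [h0, pow_zero, one_mul] at hnm
    exact hpm (hnm ▸ hpn)
  obtain ⟨w, hw⟩ := Nat.exists_eq_succ_of_ne_zero hv
  rw [hw] at hnm ⊢
  have h1 := (key w).1
  rw [← Nat.succ_eq_add_one w, ← hnm] at h1
  exact h1

theorem not_ord0_of_dvd (F : ℤ⟦X⟧) (k p : ℕ) (hk : 4 ≤ k) (hp : p.Prime)
    (h : ∀ n : ℕ, 1 ≤ n → PowerSeries.coeff (p * n) F =
      PowerSeries.coeff p F * PowerSeries.coeff n F -
        (p : ℤ) ^ (k - 1) * (if p ∣ n then PowerSeries.coeff (n / p) F else 0))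
    (hd : (p : ℤ) ∣ PowerSeries.coeff p F) : ¬ Ord0 F p := by
  have hk3 : (p : ℤ) ^ 3 ∣ (p : ℤ) ^ (k - 1) := pow_dvd_pow _ (by omega)
  rintro ⟨n, hn, hnd⟩
  apply hnd
  obtain ⟨m, hm, hpm, hnm⟩ := Vsl_val hp hn
  obtain ⟨r1, r2⟩ := Vsl_rec hp h hm hpm
  have key : ∀ v : ℕ, (p : ℤ) ^ v ∣ PowerSeries.coeff (p ^ v * m) F ∧
      (p : ℤ) ^ (v + 1) ∣ PowerSeries.coeff (p ^ (v + 1) * m) F := by
    intro v
    induction v with
    | zero =>
      refine ⟨by rw [pow_zero]; exact one_dvd _, ?_⟩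
      rw [zero_add, r1, pow_one]
      exact hd.mul_right _
    | succ v ih =>
      refine ⟨ih.2, ?_⟩
      have e := r2 v
      rw [show v + 1 + 1 = v + 2 from rfl, e]
      refine dvd_sub ?_ ?_
      · have h1 := mul_dvd_mul hd ih.2
        rw [← pow_succ'] at h1
        exact h1
      · have h1 := mul_dvd_mul hk3 ih.1
        rw [← pow_add] at h1
        exact (pow_dvd_pow _ (by omega)).trans h1
  have h1 := (key (padicValNat p n)).1
  rw [← hnm] at h1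
  exact h1

end Pool.Agent.H85.OT
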