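import Pool.Agent.H85.OT.Vcv
import Pool.Agent.H85.OT.Vpsi

/-!
# Row VTH (project OT): analytic theta functions and the key transformation

`t = exp(π i τ)`, `im τ > 0` (`‖t‖ < 1`).
* `cv_th3`: `∑ (coeff n th3) t^n = θ(τ)` (`hasSum_nat_jacobiTheta`: `∑_{n ≥ 0} exp(π i (n+1)² τ) = (θ(τ)-1)/2`; the
  coefficients of `th3` are bounded by `2`; sum over squares by reindexing along the injective map
  `n ↦ (n+1)²`).
* `cv_th4`: with `τ + 1`: `exp(π i (τ+1)) = -t`, `coeff n th4 = (-1)^n coeff n th3`.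
* `S`-transformation of `θ₄`: `jacobiTheta σ = jacobiTheta₂ 0 σ`, and
  `jacobiTheta (σ + 1) = ∑ exp(π i n² (σ+1)) = ∑ exp(2π i n/2 + π i n² σ) = jacobiTheta₂ (1/2) σ`
  (`exp(π i n²) = (-1)^n = exp(π i n)`).  `jacobiTheta₂_functional_equation` with `z = τ/2`:
  `jacobiTheta₂ (τ/2) τ = 1/(-iτ)^(1/2) * exp(-π i τ/4) * jacobiTheta₂ (1/2) (-1/τ)`.
  So `jacobiTheta (1 - 1/τ) = (-iτ)^(1/2) T2(τ)`, `T2(τ) = exp(π i τ/4) jacobiTheta₂ (τ/2) τ`, and the fourth power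
  is `(-iτ)² T2⁴ = -τ² T2(τ)^4`.
* `jacobiTheta₂ (τ/2) τ = ∑_{n ∈ ℤ} exp(π i τ (n² + n)) = ∑ (coeff psi) t^n`: `Cv (map psi) t (jacobiTheta₂ (τ/2) τ)`.
* `T2(τ)^4 = TA τ - TB τ`: put `τ = 2σ`, `t = exp(π i σ)`, so `exp(π i τ) = t²`.  Evaluate `two_X_psi`,
  `two_dbl_U`, `dbl_th4_sq` at `t` (`Cv` calculus, `Cv.unique`): with `A3 = jacobiTheta σ`,
  `A4 = jacobiTheta (σ+1)`: `2 t ψ(t²)² = A3² - A4²`; `2 θ(2σ)² = A3² + A4²`; `θ(2σ+1)² = A3 A4`.
  `T2(τ)^4 = t² ψ(t²)^4` (`exp(π i τ/4)^4 = exp(π i τ) = t²`) `= (A3² - A4²)²/4`, and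
  `TA τ - TB τ = (A3² + A4²)²/4 - A3² A4² = (A3² - A4²)²/4`.
-/

open PowerSeries

namespace Pool.Agent.H85.OT

/-- sums over the fibres of an integer valued function -/
theorem Vth_fib {e : ℤ → ℕ} {S : ℕ → Finset ℤ} (hS : ∀ n m, m ∈ S n ↔ e m = n) {w : ℤ → ℂ}
    {t s : ℂ} {F : ℂ⟦X⟧} (hF : ∀ n, PowerSeries.coeff n F = ∑ m ∈ S n, w m)
    (h : HasSum (fun m => w m * t ^ e m) s) : Cv F t s := by
  have key : ∀ (f : ℤ → ℂ) (n : ℕ), HasSum (fun c : {m // e m = n} => f c) (∑ m ∈ S n, f m) := by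
    intro f n
    let _ : Fintype {m // e m = n} := Fintype.subtype (S n) (fun x => hS n x)
    rw [Finset.sum_subtype (S n) (fun x => hS n x) f]
    exact hasSum_fintype _
  have keyR : ∀ (f : ℤ → ℝ) (n : ℕ), HasSum (fun c : {m // e m = n} => f c) (∑ m ∈ S n, f m) := by
    intro f n
    let _ : Fintype {m // e m = n} := Fintype.subtype (S n) (fun x => hS n x)
    rw [Finset.sum_subtype (S n) (fun x => hS n x) f]
    exact hasSum_fintype _
  have hn : Summable (fun m => ‖w m * t ^ e m‖) := h.summable.norm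
  have h1 := ((Equiv.sigmaFiberEquiv e).hasSum_iff (f := fun m => w m * t ^ e m)).2 h
  have h2 := h1.sigma (g := fun n => ∑ m ∈ S n, w m * t ^ e m)
    (fun n => key (fun m => w m * t ^ e m) n)
  have h3 := ((Equiv.sigmaFiberEquiv e).hasSum_iff (f := fun m => ‖w m * t ^ e m‖)).2 hn.hasSum
  have h4 := h3.sigma (g := fun n => ∑ m ∈ S n, ‖w m * t ^ e m‖)
    (fun n => keyR (fun m => ‖w m * t ^ e m‖) n)
  have e1 : ∀ n, ∑ m ∈ S n, w m * t ^ e m = PowerSeries.coeff n F * t ^ n := by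
    intro n
    rw [hF, Finset.sum_mul]
    refine Finset.sum_congr rfl fun m hm => ?_
    rw [(hS n m).1 hm]
  refine ⟨?_, ?_⟩
  · refine Summable.of_nonneg_of_le (fun n => norm_nonneg _) (fun n => ?_) h4.summable
    rw [← e1]
    exact norm_sum_le _ _
  · have e2 : (fun n => PowerSeries.coeff n F * t ^ n) = fun n => ∑ m ∈ S n, w m * t ^ e m := by
      funext n
      rw [e1]
    rw [e2]
    exact h2

theorem Vth_pow (τ : ℂ) (n : ℕ) :
    Complex.exp (Real.pi * Complex.I * τ) ^ n = Complex.exp (Real.pi * Complex.I * (n : ℂ) * τ) := by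
  rw [← Complex.exp_nat_mul]
  congr 1
  ring

theorem Vth_sign (m : ℤ) : Complex.exp (Real.pi * Complex.I * (m : ℂ) ^ 2) = ((Dup_c m : ℤ) : ℂ) := by
  have h1 : (Real.pi * Complex.I * (m : ℂ) ^ 2 : ℂ) = ((m * m : ℤ) : ℂ) * (Real.pi * Complex.I) := by
    push_cast
    ring
  rw [h1, Complex.exp_int_mul, Complex.exp_pi_mul_I, ← Int.cast_negOnePow, Int.negOnePow_mul_self]
  rfl

theorem Vth_natAbs (m : ℤ) : ((m.natAbs ^ 2 : ℕ) : ℂ) = (m : ℂ) ^ 2 := by
  have h : ((m.natAbs ^ 2 : ℕ) : ℤ) = m ^ 2 := by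
    push_cast
    exact sq_abs m
  have h2 := congrArg (fun x : ℤ => (x : ℂ)) h
  simp only [Int.cast_natCast, Int.cast_pow] at h2
  exact h2

theorem Vth_mem (n : ℕ) (m : ℤ) : m ∈ Dup_S n ↔ m.natAbs ^ 2 = n := by
  rw [Dup_mem_S]
  have h : ((m.natAbs ^ 2 : ℕ) : ℤ) = m ^ 2 := by
    push_cast
    exact sq_abs m
  rw [← h]
  exact Int.natCast_inj

theorem cv_th3 (τ : ℂ) (hτ : 0 < τ.im) :
    Cv (PowerSeries.map (Int.castRingHom ℂ) th3) (Complex.exp (Real.pi * Complex.I * τ))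
      (jacobiTheta τ) := by
  refine Vth_fib (e := fun m => m.natAbs ^ 2) (S := Dup_S) (w := fun _ => 1)
    (fun n m => Vth_mem n m) (fun n => ?_) ?_
  · rw [PowerSeries.coeff_map, Dup_th3, map_sum]
    refine Finset.sum_congr rfl fun m _ => ?_
    exact map_one _
  · rw [jacobiTheta_eq_jacobiTheta₂]
    have h := hasSum_jacobiTheta₂_term 0 hτ
    have e : (fun m : ℤ => (1 : ℂ) * Complex.exp (Real.pi * Complex.I * τ) ^ (m.natAbs ^ 2)) =
        fun m => jacobiTheta₂_term m 0 τ := by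
      funext m
      rw [Vth_pow, Vth_natAbs, one_mul, jacobiTheta₂_term]
      congr 1
      ring
    rw [e]
    exact h

theorem Vth_im (τ : ℂ) (hτ : 0 < τ.im) : 0 < (τ + 1).im := by
  rw [Complex.add_im, Complex.one_im, add_zero]
  exact hτ

theorem cv_th4 (τ : ℂ) (hτ : 0 < τ.im) :
    Cv (PowerSeries.map (Int.castRingHom ℂ) th4) (Complex.exp (Real.pi * Complex.I * τ))
      (jacobiTheta (τ + 1)) := by
  refine Vth_fib (e := fun m => m.natAbs ^ 2) (S := Dup_S) (w := fun m => ((Dup_c m : ℤ) : ℂ))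
    (fun n m => Vth_mem n m) (fun n => ?_) ?_
  · rw [PowerSeries.coeff_map, Dup_th4, map_sum]
    rfl
  · rw [jacobiTheta_eq_jacobiTheta₂]
    have h := hasSum_jacobiTheta₂_term 0 (Vth_im τ hτ)
    have e : (fun m : ℤ => ((Dup_c m : ℤ) : ℂ) *
        Complex.exp (Real.pi * Complex.I * τ) ^ (m.natAbs ^ 2)) =
        fun m => jacobiTheta₂_term m 0 (τ + 1) := by
      funext m
      rw [Vth_pow, Vth_natAbs, ← Vth_sign, jacobiTheta₂_term, ← Complex.exp_add]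
      congr 1
      ring
    rw [e]
    exact h

/-- integers with `m² + m = n` -/
noncomputable def Vth_S (n : ℕ) : Finset ℤ :=
  (Finset.Icc (-(n : ℤ) - 1) n).filter fun m => m ^ 2 + m = (n : ℤ)

theorem Vth_nn (m : ℤ) : 0 ≤ m ^ 2 + m := by
  rcases le_or_gt 0 m with h | h
  · positivity
  · have h1 : m + 1 ≤ 0 := h
    nlinarith

theorem Vth_memS (n : ℕ) (m : ℤ) : m ∈ Vth_S n ↔ (m ^ 2 + m).toNat = n := by
  have h0 := Vth_nn m
  have h1 : ((m ^ 2 + m).toNat : ℤ) = m ^ 2 + m := Int.toNat_of_nonneg h0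
  unfold Vth_S
  rw [Finset.mem_filter, Finset.mem_Icc]
  constructor
  · rintro ⟨-, h⟩
    have h2 := h1.trans h
    exact_mod_cast h2
  · intro h
    rw [h] at h1
    refine ⟨⟨?_, ?_⟩, h1.symm⟩
    · rw [h1]
      nlinarith [sq_nonneg (m + 1)]
    · rw [h1]
      nlinarith [sq_nonneg m]

theorem Vth_psi (n : ℕ) : PowerSeries.coeff n psi = ∑ _m ∈ Vth_S n, (1 : ℤ) := by
  unfold psi
  rw [PowerSeries.coeff_mk]
  split_ifs with h
  · obtain ⟨k, hk⟩ := h
    have hodd : k % 2 = 1 := by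
      rcases Nat.mod_two_eq_zero_or_one k with h0 | h0
      · exfalso
        have h1 : (k * k) % 2 = 0 := by simp [Nat.mul_mod, h0]
        omega
      · exact h0
    obtain ⟨j, hj⟩ : ∃ j, k = 2 * j + 1 := ⟨k / 2, by omega⟩
    have hn : (n : ℤ) = (j : ℤ) ^ 2 + j := by
      rw [hj] at hk
      have h2 : ((4 * n + 1 : ℕ) : ℤ) = (((2 * j + 1) * (2 * j + 1) : ℕ) : ℤ) := by rw [hk]
      push_cast at h2
      linarith
    have hSe : Vth_S n = {(j : ℤ), -(j : ℤ) - 1} := by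
      ext m
      rw [Vth_memS, Finset.mem_insert, Finset.mem_singleton]
      have h0 := Vth_nn m
      have h1 : ((m ^ 2 + m).toNat : ℤ) = m ^ 2 + m := Int.toNat_of_nonneg h0
      constructor
      · intro h
        rw [h, hn] at h1
        have h3 : (m - j) * (m - (-(j : ℤ) - 1)) = 0 := by linarith
        rcases mul_eq_zero.1 h3 with h4 | h4
        · exact Or.inl (by linarith)
        · exact Or.inr (by linarith)
      · intro h
        have h3 : (m ^ 2 + m : ℤ) = n := by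
          rcases h with rfl | rfl
          · rw [hn]
          · rw [hn]; ring
        rw [h3]
        exact Int.toNat_natCast n
    rw [hSe, Finset.sum_pair]
    · norm_num
    · intro h
      have : (0 : ℤ) ≤ (j : ℤ) := Int.natCast_nonneg j
      omega
  · have hSe : Vth_S n = ∅ := by
      rw [Finset.eq_empty_iff_forall_notMem]
      intro m hm
      rw [Vth_memS] at hm
      have h1 : ((m ^ 2 + m).toNat : ℤ) = m ^ 2 + m := Int.toNat_of_nonneg (Vth_nn m)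
      rw [hm] at h1
      apply h
      refine ⟨(2 * m + 1).natAbs, ?_⟩
      have h3 : ((4 * n + 1 : ℕ) : ℤ) = (((2 * m + 1).natAbs * (2 * m + 1).natAbs : ℕ) : ℤ) := by
        push_cast
        rw [abs_mul_abs_self, h1]
        ring
      exact_mod_cast h3
    rw [hSe]
    simp

theorem Vth_cv_psi (τ : ℂ) (hτ : 0 < τ.im) :
    Cv (PowerSeries.map (Int.castRingHom ℂ) psi) (Complex.exp (Real.pi * Complex.I * τ))
      (jacobiTheta₂ (τ / 2) τ) := by
  refine Vth_fib (e := fun m => (m ^ 2 + m).toNat) (S := Vth_S) (w := fun _ => 1)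
    (fun n m => Vth_memS n m) (fun n => ?_) ?_
  · rw [PowerSeries.coeff_map, Vth_psi, map_sum]
    refine Finset.sum_congr rfl fun m _ => ?_
    exact map_one _
  · have h := hasSum_jacobiTheta₂_term (τ / 2) hτ
    have e : (fun m : ℤ => (1 : ℂ) * Complex.exp (Real.pi * Complex.I * τ) ^ ((m ^ 2 + m).toNat)) =
        fun m => jacobiTheta₂_term m (τ / 2) τ := by
      funext m
      have h1 : ((m ^ 2 + m).toNat : ℤ) = m ^ 2 + m := Int.toNat_of_nonneg (Vth_nn m)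
      have h2 : (((m ^ 2 + m).toNat : ℕ) : ℂ) = (m : ℂ) ^ 2 + m := by
        have h3 := congrArg (fun x : ℤ => (x : ℂ)) h1
        simp only [Int.cast_natCast, Int.cast_pow, Int.cast_add] at h3
        exact h3
      rw [Vth_pow, h2, one_mul, jacobiTheta₂_term]
      congr 1
      ring
    rw [e]
    exact h

theorem TA_add_one (τ : ℂ) : TA (τ + 1) = TB τ := rfl

theorem TB_add_one (τ : ℂ) : TB (τ + 1) = TA τ := by
  unfold TA TB
  have h : τ + 1 + 1 = 2 + τ := by ring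
  rw [h, jacobiTheta_two_add]

theorem Vth_half (τ : ℂ) (hτ : 0 < τ.im) (z : ℂ) : jacobiTheta₂ (z / τ) (-1 / τ) ^ 4 =
    -τ ^ 2 * (Complex.exp (Real.pi * Complex.I * z ^ 2 / τ) * jacobiTheta₂ z τ) ^ 4 := by
  have hτ0 : τ ≠ 0 := by
    rintro rfl
    simp at hτ
  have h1 := jacobiTheta₂_functional_equation z τ
  have hI : (-Complex.I * τ) ≠ 0 := mul_ne_zero (neg_ne_zero.2 Complex.I_ne_zero) hτ0
  have hc : (-Complex.I * τ) ^ (1 / 2 : ℂ) ≠ 0 := by
    rw [Ne, Complex.cpow_eq_zero_iff]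
    rintro ⟨h, -⟩
    exact hI h
  have h4 : ((-Complex.I * τ) ^ (1 / 2 : ℂ)) ^ 4 = -τ ^ 2 := by
    rw [← Complex.cpow_nat_mul]
    have e : ((4 : ℕ) : ℂ) * (1 / 2) = ((2 : ℕ) : ℂ) := by norm_num
    rw [e, Complex.cpow_natCast, mul_pow, neg_sq, Complex.I_sq]
    ring
  have h5 : Complex.exp (Real.pi * Complex.I * z ^ 2 / τ) *
      Complex.exp (-Real.pi * Complex.I * z ^ 2 / τ) = 1 := by
    rw [← Complex.exp_add]
    have e : (Real.pi * Complex.I * z ^ 2 / τ + -Real.pi * Complex.I * z ^ 2 / τ : ℂ) = 0 := by ring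
    rw [e, Complex.exp_zero]
  have h6 : jacobiTheta₂ (z / τ) (-1 / τ) = (-Complex.I * τ) ^ (1 / 2 : ℂ) *
      (Complex.exp (Real.pi * Complex.I * z ^ 2 / τ) * jacobiTheta₂ z τ) := by
    rw [h1]
    have h7 : (-Complex.I * τ) ^ (1 / 2 : ℂ) * (1 / (-Complex.I * τ) ^ (1 / 2 : ℂ)) = 1 := by
      rw [mul_one_div_cancel hc]
    calc jacobiTheta₂ (z / τ) (-1 / τ) = 1 * (1 * jacobiTheta₂ (z / τ) (-1 / τ)) := by ring
      _ = ((-Complex.I * τ) ^ (1 / 2 : ℂ) * (1 / (-Complex.I * τ) ^ (1 / 2 : ℂ))) *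
          ((Complex.exp (Real.pi * Complex.I * z ^ 2 / τ) *
            Complex.exp (-Real.pi * Complex.I * z ^ 2 / τ)) * jacobiTheta₂ (z / τ) (-1 / τ)) := by
          rw [h7, h5]
      _ = _ := by ring
  rw [h6, mul_pow, h4]

theorem TA_S (τ : ℂ) (hτ : 0 < τ.im) : TA (-1 / τ) = -τ ^ 2 * TA τ := by
  have h := Vth_half τ hτ 0
  rw [zero_div] at h
  unfold TA
  rw [jacobiTheta_eq_jacobiTheta₂, jacobiTheta_eq_jacobiTheta₂, h]
  norm_num

theorem Vth_shift (σ : ℂ) : jacobiTheta (σ + 1) = jacobiTheta₂ (1 / 2) σ := by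
  rw [jacobiTheta_eq_jacobiTheta₂]
  unfold jacobiTheta₂ jacobiTheta₂_term
  refine tsum_congr fun m => ?_
  have h1 : (2 * Real.pi * Complex.I * m * 0 + Real.pi * Complex.I * (m : ℂ) ^ 2 * (σ + 1) : ℂ) =
      (Real.pi * Complex.I * (m : ℂ) ^ 2) + Real.pi * Complex.I * (m : ℂ) ^ 2 * σ := by ring
  have h2 : (2 * Real.pi * Complex.I * m * (1 / 2) + Real.pi * Complex.I * (m : ℂ) ^ 2 * σ : ℂ) =
      ((m : ℤ) : ℂ) * (Real.pi * Complex.I) + Real.pi * Complex.I * (m : ℂ) ^ 2 * σ := by ring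
  rw [h1, h2, Complex.exp_add, Complex.exp_add, Vth_sign, Complex.exp_int_mul,
    Complex.exp_pi_mul_I, ← Int.cast_negOnePow]
  rfl

theorem Vth_map_dbl (F : ℤ⟦X⟧) : PowerSeries.map (Int.castRingHom ℂ) (dbl ℤ F) =
    dbl ℂ (PowerSeries.map (Int.castRingHom ℂ) F) := by
  unfold dbl
  ext n
  rw [PowerSeries.coeff_map]
  by_cases h : 2 ∣ n
  · obtain ⟨m, rfl⟩ := h
    rw [PowerSeries.coeff_expand_mul, PowerSeries.coeff_expand_mul, PowerSeries.coeff_map]
  · rw [PowerSeries.coeff_expand_of_not_dvd _ _ _ h, PowerSeries.coeff_expand_of_not_dvd _ _ _ h,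
      map_zero]

theorem Vth_key (τ : ℂ) (hτ : 0 < τ.im) :
    Complex.exp (Real.pi * Complex.I * τ) * jacobiTheta₂ (τ / 2) τ ^ 4 = TA τ - TB τ := by
  have hσ : 0 < (τ / 2).im := by
    have : τ / 2 = ((1 / 2 : ℝ) : ℂ) * τ := by push_cast; ring
    rw [this, Complex.im_ofReal_mul]
    positivity
  set t := Complex.exp (Real.pi * Complex.I * (τ / 2)) with ht
  have hT : Complex.exp (Real.pi * Complex.I * τ) = t ^ 2 := by
    rw [ht, ← Complex.exp_nat_mul]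
    congr 1
    push_cast
    ring
  have c3 := cv_th3 τ hτ
  have c4 := cv_th4 τ hτ
  have cp := Vth_cv_psi τ hτ
  rw [hT] at c3 c4 cp ⊢
  have d3 := cv_th3 (τ / 2) hσ
  have d4 := cv_th4 (τ / 2) hσ
  rw [← ht] at d3 d4
  set A3 := jacobiTheta (τ / 2) with hA3
  set A4 := jacobiTheta (τ / 2 + 1) with hA4
  set P := jacobiTheta₂ (τ / 2) τ with hP
  have two : ∀ G : ℂ⟦X⟧, (2 : ℂ⟦X⟧) * G = PowerSeries.C 2 * G := fun G => by
    rw [map_ofNat]
  -- first identity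
  have r1 : 2 * (t * P ^ 2) = A3 ^ 2 + (-1) * A4 ^ 2 := by
    have e := congrArg (PowerSeries.map (Int.castRingHom ℂ)) two_X_psi
    rw [map_mul, map_mul, map_pow, Vth_map_dbl, PowerSeries.map_X, map_sub, map_pow, map_pow,
      map_ofNat, mul_assoc, two] at e
    have a1 := ((Cv.X t).mul (cp.dbl.pow 2)).smul 2
    rw [e] at a1
    have a2 := (d3.pow 2).add ((d4.pow 2).smul (-1))
    have e2 : PowerSeries.map (Int.castRingHom ℂ) th3 ^ 2 +
        PowerSeries.C (-1) * PowerSeries.map (Int.castRingHom ℂ) th4 ^ 2 =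
        PowerSeries.map (Int.castRingHom ℂ) th3 ^ 2 - PowerSeries.map (Int.castRingHom ℂ) th4 ^ 2 := by
      rw [map_neg, map_one]
      ring
    rw [e2] at a2
    exact a1.unique a2
  have r2 : 2 * jacobiTheta τ ^ 2 = A3 ^ 2 + A4 ^ 2 := by
    have e := congrArg (PowerSeries.map (Int.castRingHom ℂ)) two_dbl_U
    rw [map_mul, Vth_map_dbl, map_pow, map_add, map_pow, map_pow, map_pow, map_ofNat, two] at e
    have a1 := ((c3.pow 2).dbl).smul 2
    rw [map_pow, e] at a1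
    exact a1.unique ((d3.pow 2).add (d4.pow 2))
  have r3 : jacobiTheta (τ + 1) ^ 2 = A3 * A4 := by
    have e := congrArg (PowerSeries.map (Int.castRingHom ℂ)) dbl_th4_sq
    rw [map_pow, Vth_map_dbl, map_mul] at e
    have a1 := (c4.dbl).pow 2
    rw [e] at a1
    exact a1.unique (d3.mul d4)
  unfold TA TB
  have r4 : jacobiTheta τ ^ 4 = (jacobiTheta τ ^ 2) ^ 2 := by ring
  have r5 : jacobiTheta (τ + 1) ^ 4 = (jacobiTheta (τ + 1) ^ 2) ^ 2 := by ring
  have r6 : jacobiTheta τ ^ 2 = (A3 ^ 2 + A4 ^ 2) / 2 := by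
    rw [← r2]; ring
  have r7 : t * P ^ 2 = (A3 ^ 2 + (-1) * A4 ^ 2) / 2 := by
    rw [← r1]; ring
  rw [r4, r5, r3, r6]
  have r8 : t ^ 2 * P ^ 4 = (t * P ^ 2) ^ 2 := by ring
  rw [r8, r7]
  ring

theorem TB_S (τ : ℂ) (hτ : 0 < τ.im) : TB (-1 / τ) = -τ ^ 2 * (TA τ - TB τ) := by
  have hτ0 : τ ≠ 0 := by
    rintro rfl
    simp at hτ
  have h := Vth_half τ hτ (τ / 2)
  have e1 : τ / 2 / τ = 1 / 2 := by
    field_simp
  rw [e1, mul_pow, ← Complex.exp_nat_mul] at h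
  have e2 : (((4 : ℕ) : ℂ) * (Real.pi * Complex.I * (τ / 2) ^ 2 / τ)) = Real.pi * Complex.I * τ := by
    push_cast
    field_simp
    ring
  rw [e2, Vth_key τ hτ] at h
  rw [← h]
  show jacobiTheta (-1 / τ + 1) ^ 4 = _
  rw [Vth_shift]

end Pool.Agent.H85.OT
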