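import Pool.Agent.H85.OT.VDef

/-!
# Definitions for part W of the project OT (forms with coefficients in a ring `R`, `Γ₀(4)`)

* `tR R F`: image of an integral power series in `R⟦X⟧`;
* `IsFormR R w f`: `M f = ∑ c_j (θ₃⁴)^(w-j) (θ₄⁴)^j`, `M ≠ 0` an integer, `c_j ∈ R`;
* `Sl2R`, `Ord0R`: the analogues of `Sl2`, `Ord0` for coefficients in `R`;
* `G04 = Γ₀(4)` as a subgroup of `GL₂(ℝ)`.
-/

open PowerSeries UpperHalfPlane MatrixGroups CongruenceSubgroup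

namespace Pool.Agent.H85.OT

/-- image of an integral power series -/
noncomputable def tR (R : Type*) [CommRing R] : ℤ⟦X⟧ →+* R⟦X⟧ :=
  PowerSeries.map (Int.castRingHom R)

/-- up to a nonzero integer factor, a homogeneous polynomial of degree `w` in `θ₃⁴, θ₄⁴` with
coefficients in `R` -/
def IsFormR (R : Type*) [CommRing R] (w : ℕ) (f : R⟦X⟧) : Prop :=
  ∃ (M : ℤ) (c : ℕ → R), M ≠ 0 ∧
    PowerSeries.C (M : R) * f =
      ∑ j ∈ Finset.range (w + 1),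
        PowerSeries.C (c j) * (tR R (th3 ^ 4)) ^ (w - j) * (tR R (th4 ^ 4)) ^ j

/-- `p^(v_p(n)+1) ∣ a_n` for all `n ≥ 1` divisible by `p` -/
def Sl2R {R : Type*} [CommRing R] (f : R⟦X⟧) (p : ℕ) : Prop :=
  ∀ n : ℕ, 1 ≤ n → p ∣ n → ((p : R) ^ (padicValNat p n + 1) ∣ PowerSeries.coeff n f)

/-- `p^(v_p(n)) ∣ a_n` fails for some `n ≥ 1` -/
def Ord0R {R : Type*} [CommRing R] (f : R⟦X⟧) (p : ℕ) : Prop :=
  ∃ n : ℕ, 1 ≤ n ∧ ¬ ((p : R) ^ (padicValNat p n) ∣ PowerSeries.coeff n f)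

/-- `Γ₀(4)` in `GL₂(ℝ)` -/
abbrev G04 : Subgroup (GL (Fin 2) ℝ) := (Gamma0 4 : Subgroup (GL (Fin 2) ℝ))

end Pool.Agent.H85.OT
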