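import Pool.Agent.H85.OT.WDef
import Pool.Agent.H85.OT.Vth

/-!
# Row WA (project OT): action of `SL₂(ℤ)` on `θ₃⁴, θ₄⁴`

`A = TA`, `B = TB` on the upper half plane, `C = A - B`, weight `2` slash action of `SL₂(ℤ)`.
From `TA_add_one, TB_add_one, TA_S, TB_S`: `A|T = B, B|T = A, C|T = -C`; `A|S = -A, B|S = -C, C|S = -B`
(`(F|S)(τ) = τ^(-2) F(-1/τ)`, `(F|T)(τ) = F(τ+1)`).
With `e1 = A, e2 = -B, e3 = -C` (`e1 + e2 + e3 = 0`): `e_i|T = - e_(t i)`, `t = (1 2)`; `e_i|S = - e_(s i)`, `s = (2 3)`.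
So for every `γ` there is a permutation `π_γ` with `e_i|γ = sgn(π_γ) e_(π_γ i)` (the set of such `γ` is a subgroup containing
`S, T`, hence everything, `SpecialLinearGroup.SL2Z_generators`); this gives `slash_mem`.
For `slash_Gamma2` one needs `π_γ = 1` for `γ` in `Γ(2)`.  Let `ρ : SL₂(ZMod 2) → ` (permutations of `{1,2,3}`) be the action on the three
nonzero row vectors of `(ZMod 2)²` (numbered so that `T ↦ (1 2)`, `S ↦ (2 3)`: row vectors acted on from the right: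
`S` swaps `(1,0), (0,1)` and fixes `(1,1)`; `T` fixes `(0,1)` and swaps `(1,0), (1,1)`; so `e1 ~ (1,1)`, `e2 ~ (1,0)`,
`e3 ~ (0,1)`).  Then: the set of `γ` such that `e_i|γ = sgn(ρ(γ mod 2)) e_(ρ(γ mod 2) i)` for all `i` is a subgroup containing
`S, T`, so it is everything, and for `γ ∈ Γ(2)` the right side is `e_i`.
(Any other way to organise this is fine, for instance a table on the six elements of `SL₂(ZMod 2)`.)
-/

open PowerSeries UpperHalfPlane ModularForm MatrixGroups CongruenceSubgroup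

namespace Pool.Agent.H85.OT

/-- action of the six classes modulo two on the pair `(A, B)` -/
def Wa_m (a b c d : ZMod 2) : ℤ × ℤ × ℤ × ℤ :=
  if b = 0 ∧ c = 0 then (1, 0, 0, 1)
  else if c = 0 then (0, 1, 1, 0)
  else if a = 0 ∧ d = 0 then (-1, 0, -1, 1)
  else if a = 0 then (0, -1, 1, -1)
  else if d = 0 then (-1, 1, -1, 0)
  else (1, -1, 0, -1)

/-- product of two by two matrices -/
def Wa_mul (x y : ℤ × ℤ × ℤ × ℤ) : ℤ × ℤ × ℤ × ℤ :=
  (x.1 * y.1 + x.2.1 * y.2.2.1, x.1 * y.2.1 + x.2.1 * y.2.2.2,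
    x.2.2.1 * y.1 + x.2.2.2 * y.2.2.1, x.2.2.1 * y.2.1 + x.2.2.2 * y.2.2.2)

theorem Wa_m_mul : ∀ a b c d a' b' c' d' : ZMod 2, a * d - b * c = 1 → a' * d' - b' * c' = 1 →
    Wa_m (a * a' + b * c') (a * b' + b * d') (c * a' + d * c') (c * b' + d * d') =
      Wa_mul (Wa_m a b c d) (Wa_m a' b' c' d') := by
  decide +kernel

theorem Wa_m_inv : ∀ a b c d : ZMod 2, a * d - b * c = 1 →
    Wa_mul (Wa_m d (-b) (-c) a) (Wa_m a b c d) = (1, 0, 0, 1) := by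
  decide +kernel

/-- the pair `(A, B)` is transformed by `x` -/
def Wa_R (γ : SL(2, ℤ)) (x : ℤ × ℤ × ℤ × ℤ) : Prop :=
  ((fun τ : ℍ => TA τ) ∣[(2 : ℤ)] γ = fun τ : ℍ => (x.1 : ℂ) * TA τ + (x.2.1 : ℂ) * TB τ) ∧
    ((fun τ : ℍ => TB τ) ∣[(2 : ℤ)] γ =
      fun τ : ℍ => (x.2.2.1 : ℂ) * TA τ + (x.2.2.2 : ℂ) * TB τ)

theorem Wa_comb (γ : SL(2, ℤ)) (f g : ℍ → ℂ) (a b : ℂ) :
    (fun τ : ℍ => a * f τ + b * g τ) ∣[(2 : ℤ)] γ =
      fun τ : ℍ => a * (f ∣[(2 : ℤ)] γ) τ + b * (g ∣[(2 : ℤ)] γ) τ := by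
  funext τ
  rw [SL_slash_apply, SL_slash_apply, SL_slash_apply]
  ring

theorem Wa_R_mul {γ δ : SL(2, ℤ)} {x y : ℤ × ℤ × ℤ × ℤ} (hx : Wa_R γ x) (hy : Wa_R δ y) :
    Wa_R (γ * δ) (Wa_mul x y) := by
  unfold Wa_R at *
  rw [SlashAction.slash_mul, SlashAction.slash_mul, hx.1, hx.2,
    Wa_comb δ (fun τ : ℍ => TA τ) (fun τ : ℍ => TB τ),
    Wa_comb δ (fun τ : ℍ => TA τ) (fun τ : ℍ => TB τ), hy.1, hy.2]
  constructor
  · funext τ
    simp only [Wa_mul]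
    push_cast
    ring
  · funext τ
    simp only [Wa_mul]
    push_cast
    ring

theorem Wa_R_inv {γ : SL(2, ℤ)} {x y : ℤ × ℤ × ℤ × ℤ} (hx : Wa_R γ x)
    (h : Wa_mul y x = (1, 0, 0, 1)) : Wa_R γ⁻¹ y := by
  unfold Wa_R at *
  obtain ⟨h1, h2⟩ := hx
  have k1 := congrArg (fun f : ℍ → ℂ => f ∣[(2 : ℤ)] γ⁻¹) h1
  have k2 := congrArg (fun f : ℍ → ℂ => f ∣[(2 : ℤ)] γ⁻¹) h2
  rw [← SlashAction.slash_mul, mul_inv_cancel, SlashAction.slash_one,
    Wa_comb γ⁻¹ (fun τ : ℍ => TA τ) (fun τ : ℍ => TB τ)] at k1 k2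
  simp only [Wa_mul, Prod.mk.injEq] at h
  obtain ⟨e1, e2, e3, e4⟩ := h
  have e1' : (y.1 : ℂ) * x.1 + y.2.1 * x.2.2.1 = 1 := by exact_mod_cast e1
  have e2' : (y.1 : ℂ) * x.2.1 + y.2.1 * x.2.2.2 = 0 := by exact_mod_cast e2
  have e3' : (y.2.2.1 : ℂ) * x.1 + y.2.2.2 * x.2.2.1 = 0 := by exact_mod_cast e3
  have e4' : (y.2.2.1 : ℂ) * x.2.1 + y.2.2.2 * x.2.2.2 = 1 := by exact_mod_cast e4
  constructor
  · funext τ
    have m1 := congrFun k1 τ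
    have m2 := congrFun k2 τ
    rw [m1, m2]
    generalize ((fun τ : ℍ => TA τ) ∣[(2 : ℤ)] γ⁻¹) τ = P
    generalize ((fun τ : ℍ => TB τ) ∣[(2 : ℤ)] γ⁻¹) τ = Q
    linear_combination -P * e1' - Q * e2'
  · funext τ
    have m1 := congrFun k1 τ
    have m2 := congrFun k2 τ
    rw [m1, m2]
    generalize ((fun τ : ℍ => TA τ) ∣[(2 : ℤ)] γ⁻¹) τ = P
    generalize ((fun τ : ℍ => TB τ) ∣[(2 : ℤ)] γ⁻¹) τ = Q
    linear_combination -P * e3' - Q * e4'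

/-- the class modulo two -/
def Wa_c (γ : SL(2, ℤ)) : ℤ × ℤ × ℤ × ℤ :=
  Wa_m ((γ 0 0 : ℤ) : ZMod 2) ((γ 0 1 : ℤ) : ZMod 2) ((γ 1 0 : ℤ) : ZMod 2) ((γ 1 1 : ℤ) : ZMod 2)

theorem Wa_det (γ : SL(2, ℤ)) : ((γ 0 0 : ℤ) : ZMod 2) * ((γ 1 1 : ℤ) : ZMod 2) -
    ((γ 0 1 : ℤ) : ZMod 2) * ((γ 1 0 : ℤ) : ZMod 2) = 1 := by
  have h := γ.det_coe
  rw [Matrix.det_fin_two] at h
  have h1 := congrArg (fun z : ℤ => (z : ZMod 2)) h
  push_cast at h1
  exact h1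

theorem Wa_c_mul (γ δ : SL(2, ℤ)) : Wa_c (γ * δ) = Wa_mul (Wa_c γ) (Wa_c δ) := by
  unfold Wa_c
  rw [← Wa_m_mul _ _ _ _ _ _ _ _ (Wa_det γ) (Wa_det δ)]
  simp only [Matrix.SpecialLinearGroup.coe_mul, Matrix.mul_apply, Fin.sum_univ_two]
  push_cast
  rfl

theorem Wa_c_inv (γ : SL(2, ℤ)) : Wa_mul (Wa_c γ⁻¹) (Wa_c γ) = (1, 0, 0, 1) := by
  rw [← Wa_c_mul, inv_mul_cancel]
  decide +kernel

theorem Wa_all (γ : SL(2, ℤ)) : Wa_R γ (Wa_c γ) := by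
  have hγ : γ ∈ Subgroup.closure {ModularGroup.S, ModularGroup.T} := by
    simp [SpecialLinearGroup.SL2Z_generators]
  induction hγ using Subgroup.closure_induction with
  | one =>
    have h : Wa_c 1 = (1, 0, 0, 1) := by decide +kernel
    rw [h]
    unfold Wa_R
    rw [SlashAction.slash_one, SlashAction.slash_one]
    simp
  | mem g hg =>
    simp only [Set.mem_insert_iff, Set.mem_singleton_iff] at hg
    rcases hg with rfl | rfl
    · have h : Wa_c ModularGroup.S = (-1, 0, -1, 1) := by decide +kernel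
      rw [h]
      have hS : ∀ τ : ℍ, ((ModularGroup.S • τ : ℍ) : ℂ) = -1 / (τ : ℂ) := by
        intro τ
        rw [UpperHalfPlane.modular_S_smul]
        change (-(τ : ℂ))⁻¹ = _
        rw [inv_neg, neg_div, one_div]
      have hd : ∀ τ : ℍ, denom ModularGroup.S τ = (τ : ℂ) := by
        intro τ
        rw [ModularGroup.denom_apply]
        simp [ModularGroup.S]
      unfold Wa_R
      constructor
      · funext τ
        rw [SL_slash_apply, hd, hS, TA_S _ τ.im_pos]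
        have h0 : (τ : ℂ) ≠ 0 := τ.ne_zero
        simp only [zpow_neg, zpow_ofNat]
        push_cast
        field_simp
        ring
      · funext τ
        rw [SL_slash_apply, hd, hS, TB_S _ τ.im_pos]
        have h0 : (τ : ℂ) ≠ 0 := τ.ne_zero
        simp only [zpow_neg, zpow_ofNat]
        push_cast
        field_simp
        ring
    · have h : Wa_c ModularGroup.T = (0, 1, 1, 0) := by decide +kernel
      rw [h]
      have hT : ∀ τ : ℍ, ((ModularGroup.T • τ : ℍ) : ℂ) = (τ : ℂ) + 1 := by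
        intro τ
        rw [UpperHalfPlane.modular_T_smul, UpperHalfPlane.coe_vadd]
        push_cast
        ring
      have hd : ∀ τ : ℍ, denom ModularGroup.T τ = 1 := by
        intro τ
        rw [ModularGroup.denom_apply]
        simp [ModularGroup.T]
      unfold Wa_R
      constructor
      · funext τ
        rw [SL_slash_apply, hd, hT, TA_add_one]
        simp
      · funext τ
        rw [SL_slash_apply, hd, hT, TB_add_one]
        simp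
  | mul g h _ _ ig ih =>
    rw [Wa_c_mul]
    exact Wa_R_mul ig ih
  | inv g _ ig => exact Wa_R_inv ig (Wa_c_inv g)

theorem slash_Gamma2 (γ : SL(2, ℤ)) (hγ : γ ∈ Gamma 2) :
    (fun τ : ℍ => TA τ) ∣[(2 : ℤ)] γ = (fun τ : ℍ => TA τ) ∧
      (fun τ : ℍ => TB τ) ∣[(2 : ℤ)] γ = (fun τ : ℍ => TB τ) := by
  rw [Gamma_mem] at hγ
  obtain ⟨h1, h2, h3, h4⟩ := hγ
  have h := Wa_all γ
  have hc : Wa_c γ = (1, 0, 0, 1) := by
    unfold Wa_c
    rw [h1, h2, h3, h4]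
    rfl
  rw [hc] at h
  obtain ⟨k1, k2⟩ := h
  refine ⟨k1.trans ?_, k2.trans ?_⟩
  · funext τ
    simp
  · funext τ
    simp

theorem slash_mem (γ : SL(2, ℤ)) :
    (∃ a b : ℂ, (fun τ : ℍ => TA τ) ∣[(2 : ℤ)] γ = fun τ : ℍ => a * TA τ + b * TB τ) ∧
      (∃ a b : ℂ, (fun τ : ℍ => TB τ) ∣[(2 : ℤ)] γ = fun τ : ℍ => a * TA τ + b * TB τ) := by
  obtain ⟨h1, h2⟩ := Wa_all γ
  exact ⟨⟨_, _, h1⟩, ⟨_, _, h2⟩⟩

end Pool.Agent.H85.OT
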