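import Pool.Agent.H85.OT.Wa
import Pool.Agent.H85.OT.Vmf

/-!
# Row WB (project OT): `θ₃(q)⁴`, `θ₄(q)⁴` as Mathlib modular forms on `Γ₀(4)`

`ga(τ) = TA(2τ)`, `gb(τ) = TB(2τ)`, weight `2`.
* invariance: `γ = [[a,b],[c,d]] ∈ Γ₀(4)`: `2 γτ = γ'(2τ)` with `γ' = [[a, 2b],[c/2, d]] ∈ Γ(2)` (`4 ∣ c`, `a, d` odd), and
  `c τ + d = (c/2)(2τ) + d`; use `slash_Gamma2`.
* holomorphic: `differentiableAt_jacobiTheta` / `mdifferentiable_jacobiTheta`.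
* bounded at cusps (`Subgroup.IsArithmetic.isCusp_iff_isCusp_SL2Z`, `OnePoint.isBoundedAt_iff_forall_SL2Z` as in Mathlib's construction of
  `CuspForm.discriminant`): for every `γ = [[a,b],[c,d]] ∈ SL₂(ℤ)`, `ga|γ` is bounded at `i∞`.  `[[2a,2b],[c,d]] = γ'' U` with
  `c` even: `γ'' = [[a,2b],[c/2,d]]`, `U = [[2,0],[0,1]]`;
  `c` odd, `d` even: `γ'' = [[2a,b],[c,d/2]]`, `U = [[1,0],[0,2]]`;
  `c, d` odd: `γ'' = [[2a,b-a],[c,(d-c)/2]]`, `U = [[1,1],[0,2]]`.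
  So `(ga|γ)(τ)` is a constant times `(TA|γ'')(Uτ)`, `Uτ = 2τ, τ/2, (τ+1)/2`, and `TA|γ''` is a combination of `TA, TB` (`slash_mem`),
  which are bounded as `im → ∞` (`isBigO_at_im_infty_jacobiTheta_sub_one`, or `norm_jacobiTheta_sub_one_le`).
* q-expansions: `cv_th3`, `cv_th4` at `2τ`: `exp(π i 2τ) = exp(2π i τ) = q`; with `Cv.pow`,
  `Cv (map (th3^4)) q (ga τ)`; uniqueness of the q-expansion (`ModularFormClass.qExpansion_coeff_unique`).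
-/

open PowerSeries UpperHalfPlane ModularForm MatrixGroups CongruenceSubgroup

namespace Pool.Agent.H85.OT

/-- integer matrix of determinant one -/
def Wb_m (a b c d : ℤ) (h : a * d - b * c = 1) : SL(2, ℤ) :=
  ⟨!![a, b; c, d], by rw [Matrix.det_fin_two_of]; exact h⟩

theorem Wb_slash (G : ℂ → ℂ) (γ : SL(2, ℤ)) (τ : ℍ) :
    ((fun τ : ℍ => G τ) ∣[(2 : ℤ)] γ) τ =
      G (((γ 0 0 : ℤ) * (τ : ℂ) + (γ 0 1 : ℤ)) / ((γ 1 0 : ℤ) * (τ : ℂ) + (γ 1 1 : ℤ))) *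
        (((γ 1 0 : ℤ) * (τ : ℂ) + (γ 1 1 : ℤ)) ^ 2)⁻¹ := by
  rw [SL_slash_apply]
  have h1 : ((γ • τ : ℍ) : ℂ) = ((γ 0 0 : ℤ) * (τ : ℂ) + (γ 0 1 : ℤ)) / ((γ 1 0 : ℤ) * (τ : ℂ) + (γ 1 1 : ℤ)) := by
    rw [UpperHalfPlane.coe_specialLinearGroup_apply]
    simp
  have h2 : denom γ τ = (γ 1 0 : ℤ) * (τ : ℂ) + (γ 1 1 : ℤ) := by
    simp [denom]
  show G ((γ • τ : ℍ) : ℂ) * _ = _
  rw [h1, h2, zpow_neg]
  rfl

theorem Wb_slash_m (G : ℂ → ℂ) (a b c d : ℤ) (h : a * d - b * c = 1) (τ : ℍ) :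
    ((fun τ : ℍ => G τ) ∣[(2 : ℤ)] Wb_m a b c d h) τ =
      G ((a * (τ : ℂ) + b) / (c * (τ : ℂ) + d)) * ((c * (τ : ℂ) + d) ^ 2)⁻¹ := by
  rw [Wb_slash]
  rfl

/-- `2 τ` -/
noncomputable def Wb_2 (τ : ℍ) : ℍ := ⟨2 * τ, by simpa using τ.im_pos⟩

/-- `τ / 2` -/
noncomputable def Wb_h (τ : ℍ) : ℍ := ⟨τ / 2, by simpa using τ.im_pos⟩

/-- `(τ + 1) / 2` -/
noncomputable def Wb_k (τ : ℍ) : ℍ := ⟨(τ + 1) / 2, by simpa using τ.im_pos⟩

open Filter in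
theorem Wb_lim {U : ℍ → ℍ} {κ : ℝ} (hκ : 0 < κ) (h : ∀ τ : ℍ, (U τ).im = κ * τ.im) :
    Tendsto U atImInfty atImInfty := by
  rw [atImInfty, tendsto_comap_iff]
  have h1 : Tendsto (fun τ : ℍ => κ * τ.im) (comap UpperHalfPlane.im atTop) atTop :=
    tendsto_comap.const_mul_atTop hκ
  exact h1.congr fun τ => (h τ).symm

open Filter in
theorem Wb_lim2 : Tendsto Wb_2 atImInfty atImInfty := by
  refine Wb_lim (κ := 2) (by norm_num) fun τ => ?_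
  show ((2 * τ : ℂ)).im = _
  simp

open Filter in
theorem Wb_limh : Tendsto Wb_h atImInfty atImInfty := by
  refine Wb_lim (κ := 1 / 2) (by norm_num) fun τ => ?_
  show ((τ / 2 : ℂ)).im = _
  simp
  ring

open Filter in
theorem Wb_limk : Tendsto Wb_k atImInfty atImInfty := by
  refine Wb_lim (κ := 1 / 2) (by norm_num) fun τ => ?_
  show (((τ + 1) / 2 : ℂ)).im = _
  simp
  ring

theorem Wb_ne (c d : ℤ) (h : ¬ (c = 0 ∧ d = 0)) (τ : ℍ) : ((c : ℂ) * τ + d) ≠ 0 := by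
  intro h0
  have h1 := congrArg Complex.im h0
  have h2 := congrArg Complex.re h0
  simp only [Complex.add_im, Complex.mul_im, Complex.intCast_re, Complex.intCast_im, zero_mul,
    add_zero, Complex.zero_im] at h1
  have hc : (c : ℝ) = 0 := by
    rcases mul_eq_zero.1 h1 with h3 | h3
    · exact h3
    · exact absurd h3 τ.im_pos.ne'
  have hc' : c = 0 := by exact_mod_cast hc
  subst hc'
  simp only [Int.cast_zero, zero_mul, zero_add, Complex.intCast_re, Complex.zero_re] at h2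
  exact h ⟨rfl, by exact_mod_cast h2⟩

/-- `(F(2·)|γ)(τ) = κ (u TA(Uτ) + v TB(Uτ))` -/
theorem Wb_cusp (F : ℂ → ℂ)
    (hm : ∀ γ : SL(2, ℤ), ∃ a b : ℂ, (fun τ : ℍ => F τ) ∣[(2 : ℤ)] γ =
      fun τ : ℍ => a * TA τ + b * TB τ) (γ : SL(2, ℤ)) :
    ∃ (U : ℍ → ℍ) (κ u v : ℂ), Filter.Tendsto U atImInfty atImInfty ∧
      (fun τ : ℍ => F (2 * τ)) ∣[(2 : ℤ)] γ = fun τ : ℍ => κ * (u * TA (U τ) + v * TB (U τ)) := by
  have hdet : γ 0 0 * γ 1 1 - γ 0 1 * γ 1 0 = 1 := by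
    have := γ.det_coe
    rw [Matrix.det_fin_two] at this
    exact this
  obtain ⟨a, ha⟩ : ∃ a, γ 0 0 = a := ⟨_, rfl⟩
  obtain ⟨b, hb⟩ : ∃ b, γ 0 1 = b := ⟨_, rfl⟩
  obtain ⟨c, hc⟩ : ∃ c, γ 1 0 = c := ⟨_, rfl⟩
  obtain ⟨d, hd⟩ : ∃ d, γ 1 1 = d := ⟨_, rfl⟩
  rw [ha, hb, hc, hd] at hdet
  have hG : ∀ τ : ℍ, ((fun τ : ℍ => F (2 * τ)) ∣[(2 : ℤ)] γ) τ =
      F (2 * ((a * (τ : ℂ) + b) / (c * (τ : ℂ) + d))) * ((c * (τ : ℂ) + d) ^ 2)⁻¹ := by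
    intro τ
    rw [Wb_slash (fun z => F (2 * z)), ha, hb, hc, hd]
  have hne : ∀ τ : ℍ, ((c : ℂ) * τ + d) ≠ 0 := by
    refine Wb_ne c d ?_
    rintro ⟨rfl, rfl⟩
    simp at hdet
  rcases Int.even_or_odd' c with ⟨c', hc' | hc'⟩
  · have h : a * d - (2 * b) * c' = 1 := by rw [hc'] at hdet; linarith
    obtain ⟨u, v, huv⟩ := hm (Wb_m a (2 * b) c' d h)
    refine ⟨Wb_2, 1, u, v, Wb_lim2, ?_⟩
    funext τ
    have h1 := congrFun huv (Wb_2 τ)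
    rw [Wb_slash_m] at h1
    rw [hG, one_mul]
    refine Eq.trans ?_ h1
    have e1 : ((Wb_2 τ : ℍ) : ℂ) = 2 * τ := rfl
    rw [e1, hc']
    push_cast
    congr 2
    · ring_nf
    · ring_nf
  · rcases Int.even_or_odd' d with ⟨d', hd' | hd'⟩
    · have h : (2 * a) * d' - b * c = 1 := by rw [hd'] at hdet; linarith
      obtain ⟨u, v, huv⟩ := hm (Wb_m (2 * a) b c d' h)
      refine ⟨Wb_h, 1 / 4, u, v, Wb_limh, ?_⟩
      funext τ
      have h1 := congrFun huv (Wb_h τ)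
      rw [Wb_slash_m] at h1
      rw [hG]
      have h2 := hne τ
      have e1 : ((Wb_h τ : ℍ) : ℂ) = τ / 2 := rfl
      have e2 : (c : ℂ) * (τ / 2) + d' = (c * τ + d) / 2 := by
        rw [hd']
        push_cast
        ring
      have e3 : ((2 * a : ℤ) : ℂ) * (τ / 2) + b = a * τ + b := by
        push_cast
        ring
      rw [e1, e2, e3] at h1
      have e4 : (2 * ((a * (τ : ℂ) + b) / (c * (τ : ℂ) + d))) =
          (a * (τ : ℂ) + b) / ((c * (τ : ℂ) + d) / 2) := by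
        field_simp
      rw [e4]
      show _ = 1 / 4 * (u * TA ((τ : ℂ) / 2) + v * TB ((τ : ℂ) / 2))
      rw [← h1]
      generalize F ((a * (τ : ℂ) + b) / ((c * (τ : ℂ) + d) / 2)) = W
      field_simp
      try ring
    · have h : (2 * a) * (d' - c') - (b - a) * c = 1 := by
        rw [hd'] at hdet
        rw [hc'] at hdet ⊢
        linarith
      obtain ⟨u, v, huv⟩ := hm (Wb_m (2 * a) (b - a) c (d' - c') h)
      refine ⟨Wb_k, 1 / 4, u, v, Wb_limk, ?_⟩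
      funext τ
      have h1 := congrFun huv (Wb_k τ)
      rw [Wb_slash_m] at h1
      rw [hG]
      have h2 := hne τ
      have e1 : ((Wb_k τ : ℍ) : ℂ) = (τ + 1) / 2 := rfl
      have e2 : (c : ℂ) * ((τ + 1) / 2) + ((d' - c' : ℤ) : ℂ) = (c * τ + d) / 2 := by
        rw [hd', hc']
        push_cast
        ring
      have e3 : ((2 * a : ℤ) : ℂ) * ((τ + 1) / 2) + ((b - a : ℤ) : ℂ) = a * τ + b := by
        push_cast
        ring
      rw [e1, e2, e3] at h1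
      have e4 : (2 * ((a * (τ : ℂ) + b) / (c * (τ : ℂ) + d))) =
          (a * (τ : ℂ) + b) / ((c * (τ : ℂ) + d) / 2) := by
        field_simp
      rw [e4]
      show _ = 1 / 4 * (u * TA (((τ : ℂ) + 1) / 2) + v * TB (((τ : ℂ) + 1) / 2))
      rw [← h1]
      generalize F ((a * (τ : ℂ) + b) / ((c * (τ : ℂ) + d) / 2)) = W
      field_simp
      try ring

theorem Wb_inv (F : ℂ → ℂ)
    (hF : ∀ γ : SL(2, ℤ), γ ∈ Gamma 2 → (fun τ : ℍ => F τ) ∣[(2 : ℤ)] γ = fun τ : ℍ => F τ)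
    (γ : SL(2, ℤ)) (hγ : γ ∈ Gamma0 4) :
    (fun τ : ℍ => F (2 * τ)) ∣[(2 : ℤ)] γ = fun τ : ℍ => F (2 * τ) := by
  have hdet : γ 0 0 * γ 1 1 - γ 0 1 * γ 1 0 = 1 := by
    have := γ.det_coe
    rw [Matrix.det_fin_two] at this
    exact this
  rw [Gamma0_mem] at hγ
  obtain ⟨a, ha⟩ : ∃ a, γ 0 0 = a := ⟨_, rfl⟩
  obtain ⟨b, hb⟩ : ∃ b, γ 0 1 = b := ⟨_, rfl⟩
  obtain ⟨c, hc⟩ : ∃ c, γ 1 0 = c := ⟨_, rfl⟩
  obtain ⟨d, hd⟩ : ∃ d, γ 1 1 = d := ⟨_, rfl⟩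
  rw [ha, hb, hc, hd] at hdet
  rw [hc] at hγ
  obtain ⟨c', hc'⟩ := (ZMod.intCast_zmod_eq_zero_iff_dvd c 4).1 hγ
  push_cast at hc'
  have h : a * d - (2 * b) * (2 * c') = 1 := by rw [hc'] at hdet; linarith
  have hodd : Odd a ∧ Odd d := by
    have h1 : Odd (a * d) := ⟨2 * b * c', by linarith⟩
    exact Int.odd_mul.1 h1
  have hmem : Wb_m a (2 * b) (2 * c') d h ∈ Gamma 2 := by
    rw [Gamma_mem]
    refine ⟨?_, ?_, ?_, ?_⟩
    · show ((a : ℤ) : ZMod 2) = 1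
      obtain ⟨k, hk⟩ := hodd.1
      rw [hk]
      push_cast
      rw [show (2 : ZMod 2) = 0 from rfl]
      ring
    · show ((2 * b : ℤ) : ZMod 2) = 0
      push_cast
      rw [show (2 : ZMod 2) = 0 from rfl]
      ring
    · show ((2 * c' : ℤ) : ZMod 2) = 0
      push_cast
      rw [show (2 : ZMod 2) = 0 from rfl]
      ring
    · show ((d : ℤ) : ZMod 2) = 1
      obtain ⟨k, hk⟩ := hodd.2
      rw [hk]
      push_cast
      rw [show (2 : ZMod 2) = 0 from rfl]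
      ring
  have huv := hF _ hmem
  funext τ
  have h1 := congrFun huv (Wb_2 τ)
  rw [Wb_slash_m] at h1
  rw [Wb_slash (fun z => F (2 * z)), ha, hb, hc, hd]
  refine Eq.trans ?_ h1
  have e1 : ((Wb_2 τ : ℍ) : ℂ) = 2 * τ := rfl
  rw [e1, hc']
  push_cast
  congr 2
  · ring_nf
  · ring_nf

theorem Wb_form (F : ℂ → ℂ)
    (hF : ∀ γ : SL(2, ℤ), γ ∈ Gamma 2 → (fun τ : ℍ => F τ) ∣[(2 : ℤ)] γ = fun τ : ℍ => F τ)
    (hm : ∀ γ : SL(2, ℤ), ∃ a b : ℂ, (fun τ : ℍ => F τ) ∣[(2 : ℤ)] γ =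
      fun τ : ℍ => a * TA τ + b * TB τ)
    (hd : ∀ τ : ℂ, 0 < τ.im → DifferentiableAt ℂ F τ) :
    ∃ g : ModularForm G04 2, ∀ τ : ℍ, g τ = F (2 * τ) := by
  refine ⟨{ toFun := fun τ : ℍ => F (2 * τ)
            slash_action_eq' := ?_
            holo' := ?_
            bdd_at_cusps' := ?_ }, fun τ => rfl⟩
  · rintro _ ⟨γ, hγ, rfl⟩
    exact Wb_inv F hF γ hγ
  · rw [UpperHalfPlane.mdifferentiable_iff]
    refine .congr (f := fun z => F (2 * z)) (fun z hz => ?_) fun z hz => ?_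
    · have h1 : 0 < (2 * z).im := by
        have : (2 * z).im = 2 * z.im := by simp
        rw [this]
        have hz' : 0 < z.im := hz
        linarith
      exact (DifferentiableAt.comp (f := fun z : ℂ => 2 * z) (g := F) z (hd _ h1)
        (by fun_prop)).differentiableWithinAt
    · simp [ofComplex_apply_of_im_pos hz]
  · intro c hc
    rw [Subgroup.IsArithmetic.isCusp_iff_isCusp_SL2Z] at hc
    rw [OnePoint.isBoundedAt_iff_forall_SL2Z hc]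
    intro γ _
    obtain ⟨U, κ, u, v, hU, hγ⟩ := Wb_cusp F hm γ
    rw [hγ]
    have h1 := (((Vmf_TA.comp hU).const_mul u).add ((Vmf_TB.comp hU).const_mul v)).const_mul κ
    exact h1.isBigO_one ℝ

theorem Wb_cv {P : ℤ⟦X⟧} {θ : ℂ → ℂ}
    (h : ∀ τ : ℂ, 0 < τ.im → Cv (PowerSeries.map (Int.castRingHom ℂ) P)
      (Complex.exp (Real.pi * Complex.I * τ)) (θ τ))
    (g : ModularForm G04 2) (hg : ∀ τ : ℍ, g τ = θ (2 * τ) ^ 4) :
    qExpansion 1 (g : ℍ → ℂ) = tR ℂ (P ^ 4) := by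
  have h1 : (1 : ℝ) ∈ (G04).strictPeriods := by
    simp [strictPeriods_Gamma0]
  ext m
  symm
  refine ModularFormClass.qExpansion_coeff_unique one_pos h1 (f := g) (c := fun m => PowerSeries.coeff m (tR ℂ (P ^ 4)))
    (fun τ => ?_) m
  have h2 : 0 < (2 * (τ : ℂ)).im := by
    have : (2 * (τ : ℂ)).im = 2 * τ.im := by simp
    rw [this]
    have := τ.im_pos
    linarith
  have h3 := ((h _ h2).pow 4).2
  have h4 : Complex.exp (Real.pi * Complex.I * (2 * τ)) = Function.Periodic.qParam 1 τ := by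
    rw [Function.Periodic.qParam]
    congr 1
    push_cast
    ring
  rw [h4] at h3
  rw [hg, tR, map_pow]
  exact h3

theorem exists_ga : ∃ g : ModularForm G04 2, (∀ τ : ℍ, g τ = TA (2 * τ)) ∧
    qExpansion 1 (g : ℍ → ℂ) = tR ℂ (th3 ^ 4) := by
  obtain ⟨g, hg⟩ := Wb_form TA (fun γ hγ => (slash_Gamma2 γ hγ).1) (fun γ => (slash_mem γ).1) Vmf_dA
  exact ⟨g, hg, Wb_cv cv_th3 g hg⟩

theorem exists_gb : ∃ g : ModularForm G04 2, (∀ τ : ℍ, g τ = TB (2 * τ)) ∧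
    qExpansion 1 (g : ℍ → ℂ) = tR ℂ (th4 ^ 4) := by
  obtain ⟨g, hg⟩ := Wb_form TB (fun γ hγ => (slash_Gamma2 γ hγ).2) (fun γ => (slash_mem γ).2) Vmf_dB
  exact ⟨g, hg, Wb_cv cv_th4 g hg⟩

end Pool.Agent.H85.OT
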