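import Pool.Agent.H85.OT.WDef

/-!
# Row WD (project OT): index of `Γ₀(4)` and the Sturm bound for `Γ₀(4)`

* `index_le`: the coset `h Γ₀(4)` of `h = [[a,b],[c,d]] ∈ SL₂(ℤ)` depends only on the class of the first column `(a : c)` in the
  projective line over `ZMod 4`, which has `6` points `(1:0),(1:1),(1:2),(1:3),(0:1),(2:1)` (every `γ ∈ SL₂(ℤ)` is `h_i g` with `g ∈ Γ₀(4)`
  for one of six explicit `h_i`: `[[1,0],[j,1]]` for `j = 0,1,2,3` if `a` is odd (`j = c a⁻¹ mod 4`), and for `a` even, `c` odd: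
  `[[0,-1],[1,0]]` if `a = 0 mod 4`, `[[2,1],[1,1]]` if `a = 2 mod 4`.)
  So the quotient of `𝒮ℒ` by `Γ₀(4)` has at most `6` elements.
* `sturm4`: let `g ∈ M_(2w)(Γ₀(4))` have vanishing coefficients `0..w`.  `N = ModularForm.norm 𝒮ℒ g` has level one and weight
  `2w · card ≤ 12 w`.  As `im τ → ∞`, `g(τ) = O(exp(-2π (w+1) im τ))` (`hasSum_qExpansion`; `g = q^(w+1) × bounded`), and the other factors of the
  norm are bounded (`translate`, `bdd_at_cusps'`), so `N(τ) = O(exp(-2π (w+1) im τ))` and the coefficients `0..w` of `qExpansion 1 N` vanish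
  (`ModularFormClass.qExpansion_coeff_eq_intervalIntegral`, let `im τ → ∞`).  `w ≥ (weight of N)/12`, so `N = 0` by `sturm_bound_levelOne`, and
  `g = 0` by `ModularForm.norm_eq_zero_iff`.
-/

open PowerSeries UpperHalfPlane ModularForm MatrixGroups CongruenceSubgroup

namespace Pool.Agent.H85.OT

theorem Wd_fin : ∀ a b c d : ZMod 4, a * d - b * c = 1 →
    c = 0 ∨ c - a = 0 ∨ c - 2 * a = 0 ∨ c - 3 * a = 0 ∨ a = 0 ∨ 2 * c - a = 0 := by
  decide

/-- the inverses of the six coset representatives -/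
def Wd_u : Fin 6 → SL(2, ℤ) :=
  ![⟨!![1, 0; 0, 1], by simp [Matrix.det_fin_two]⟩, ⟨!![1, 0; -1, 1], by simp [Matrix.det_fin_two]⟩,
    ⟨!![1, 0; -2, 1], by simp [Matrix.det_fin_two]⟩, ⟨!![1, 0; -3, 1], by simp [Matrix.det_fin_two]⟩,
    ⟨!![0, 1; -1, 0], by simp [Matrix.det_fin_two]⟩, ⟨!![1, -1; -1, 2], by simp [Matrix.det_fin_two]⟩]

theorem Wd_cover (γ : SL(2, ℤ)) : ∃ i : Fin 6, Wd_u i * γ ∈ Gamma0 4 := by
  have hdet : γ 0 0 * γ 1 1 - γ 0 1 * γ 1 0 = 1 := by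
    rw [← Matrix.det_fin_two]
    exact γ.2
  have h4 : ((γ 0 0 : ℤ) : ZMod 4) * ((γ 1 1 : ℤ) : ZMod 4) -
      ((γ 0 1 : ℤ) : ZMod 4) * ((γ 1 0 : ℤ) : ZMod 4) = 1 := by
    have := congrArg (Int.cast : ℤ → ZMod 4) hdet
    push_cast at this
    exact this
  have key : ∀ i : Fin 6, ((((Wd_u i) 1 0 : ℤ) : ZMod 4) * ((γ 0 0 : ℤ) : ZMod 4) +
      (((Wd_u i) 1 1 : ℤ) : ZMod 4) * ((γ 1 0 : ℤ) : ZMod 4) = 0) → Wd_u i * γ ∈ Gamma0 4 := by
    intro i hi
    rw [Gamma0_mem, Matrix.SpecialLinearGroup.coe_mul, Matrix.mul_apply, Fin.sum_univ_two]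
    push_cast
    exact hi
  rcases Wd_fin _ _ _ _ h4 with h | h | h | h | h | h
  · exact ⟨0, key 0 (by rw [← h]; simp [Wd_u])⟩
  · exact ⟨1, key 1 (by rw [← h]; simp [Wd_u]; ring)⟩
  · exact ⟨2, key 2 (by rw [← h]; simp [Wd_u]; ring)⟩
  · exact ⟨3, key 3 (by rw [← h]; simp [Wd_u]; ring)⟩
  · exact ⟨4, key 4 (by simp [Wd_u, h])⟩
  · exact ⟨5, key 5 (by rw [← h]; simp [Wd_u]; ring)⟩

theorem index_le : Nat.card (𝒮ℒ ⧸ (G04.subgroupOf 𝒮ℒ)) ≤ 6 := by
  let f : Fin 6 → (𝒮ℒ ⧸ (G04.subgroupOf 𝒮ℒ)) := fun i =>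
    ((⟨Matrix.SpecialLinearGroup.mapGL ℝ (Wd_u i)⁻¹, ⟨_, rfl⟩⟩ : 𝒮ℒ) : 𝒮ℒ ⧸ (G04.subgroupOf 𝒮ℒ))
  have hf : Function.Surjective f := by
    intro q
    induction q using QuotientGroup.induction_on with
    | H z =>
      obtain ⟨_, γ, rfl⟩ := z
      obtain ⟨i, hi⟩ := Wd_cover γ
      refine ⟨i, ?_⟩
      rw [QuotientGroup.eq, Subgroup.mem_subgroupOf]
      refine ⟨Wd_u i * γ, hi, ?_⟩
      simp
  have h := Nat.card_le_card_of_surjective f hf
  rwa [Nat.card_eq_fintype_card (α := Fin 6), Fintype.card_fin] at h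

theorem Wd_period : (1 : ℝ) ∈ (G04).strictPeriods := by
  rw [strictPeriods_Gamma0]
  exact AddSubgroup.mem_zmultiples 1

theorem Wd_decay (w : ℕ) (g : ModularForm G04 ((2 * w : ℕ) : ℤ))
    (h : ∀ n ≤ w, PowerSeries.coeff n (qExpansion 1 (g : ℍ → ℂ)) = 0) :
    (g : ℍ → ℂ) =O[atImInfty] fun τ : ℍ => (Real.exp (-2 * Real.pi * τ.im) ^ (w + 1)) := by
  have hG := ModularFormClass.analyticAt_cuspFunction_zero g one_pos Wd_period
  have hs := fun τ : ℍ => ModularForm.hasSum_qExpansion (f := g) one_pos Wd_period τ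
  have h1 := (UpperHalfPlane.hasFPowerSeries_cuspFunction g one_pos hG
    (c := fun m => PowerSeries.coeff m (qExpansion 1 (g : ℍ → ℂ)))
    (fun τ => hs τ)).hasFPowerSeriesAt.isBigO_sub_partialSum_pow (w + 1)
  have h2 : ∀ y : ℂ, (qExpansionFormalMultilinearSeries 1 g).partialSum (w + 1) y = 0 := by
    intro y
    unfold FormalMultilinearSeries.partialSum
    refine Finset.sum_eq_zero fun n hn => ?_
    have hn' : n ≤ w := Nat.lt_succ_iff.1 (Finset.mem_range.1 hn)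
    unfold qExpansionFormalMultilinearSeries
    rw [FormalMultilinearSeries.ofScalars_eq_zero_of_scalar_zero _ (h n hn')]
    rfl
  simp only [h2, sub_zero, zero_add] at h1
  have h3 := h1.comp_tendsto (UpperHalfPlane.qParam_tendsto_atImInfty one_pos)
  refine (h3.congr' (Filter.Eventually.of_forall fun τ => ?_) (Filter.Eventually.of_forall fun τ => ?_))
  · exact SlashInvariantFormClass.eq_cuspFunction g τ Wd_period one_ne_zero
  · change ‖Function.Periodic.qParam 1 (τ : ℂ)‖ ^ (w + 1) = _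
    rw [Function.Periodic.norm_qParam, div_one]
    rfl

theorem Wd_coeff {k : ℤ} (w : ℕ) (N : ModularForm 𝒮ℒ k)
    (hN : (N : ℍ → ℂ) =O[atImInfty] fun τ : ℍ => (Real.exp (-2 * Real.pi * τ.im) ^ (w + 1)))
    (n : ℕ) (hn : n ≤ w) : PowerSeries.coeff n (qExpansion 1 (N : ℍ → ℂ)) = 0 := by
  obtain ⟨C, hC⟩ := hN.bound
  obtain ⟨A, hA⟩ := (UpperHalfPlane.atImInfty_mem _).1 hC
  have key : ∀ t : ℝ, max A 1 ≤ t → ‖PowerSeries.coeff n (qExpansion 1 (N : ℍ → ℂ))‖ ≤
      |C| * Real.exp (-(2 * Real.pi) * t) := by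
    intro t ht
    have ht0 : 0 < t := lt_of_lt_of_le one_pos ((le_max_right _ _).trans ht)
    rw [ModularFormClass.qExpansion_coeff_eq_intervalIntegral N one_pos one_mem_strictPeriods_SL n ht0]
    rw [Complex.ofReal_one, div_one, one_mul]
    have hb := intervalIntegral.norm_integral_le_of_norm_le_const (a := (0 : ℝ)) (b := 1)
      (C := |C| * Real.exp (-(2 * Real.pi) * t))
      (f := fun u : ℝ => 1 / Function.Periodic.qParam 1 ((u : ℂ) + t * Complex.I) ^ n *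
        N ⟨(u : ℂ) + t * Complex.I, by simpa using ht0⟩) (fun u _ => ?_)
    · rw [sub_zero, abs_one, mul_one] at hb
      exact hb
    · set r : ℝ := Real.exp (-(2 * Real.pi) * t) with hr
      have hr0 : 0 < r := Real.exp_pos _
      have hr1 : r ≤ 1 := Real.exp_le_one_iff.2 (by
        have := Real.pi_pos
        nlinarith)
      have e1 : ‖Function.Periodic.qParam 1 ((u : ℂ) + t * Complex.I)‖ = r := by
        rw [Function.Periodic.norm_qParam, hr]
        congr 1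
        simp
      have e2 : ‖N ⟨(u : ℂ) + t * Complex.I, by simpa using ht0⟩‖ ≤ C * r ^ (w + 1) := by
        have h5 := hA ⟨(u : ℂ) + t * Complex.I, by simpa using ht0⟩ (by
          change A ≤ ((u : ℂ) + t * Complex.I).im
          simpa using (le_max_left _ _).trans ht)
        simp only [Set.mem_ofPred_eq] at h5
        refine h5.trans (le_of_eq ?_)
        rw [Real.norm_of_nonneg (by positivity)]
        congr 2
        rw [hr]
        congr 1
        change -2 * Real.pi * ((u : ℂ) + t * Complex.I).im = _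
        simp
      rw [norm_mul, norm_div, norm_one, norm_pow, e1]
      calc 1 / r ^ n * ‖N ⟨(u : ℂ) + t * Complex.I, by simpa using ht0⟩‖
          ≤ 1 / r ^ n * (C * r ^ (w + 1)) := by gcongr
        _ ≤ 1 / r ^ n * (|C| * r ^ (w + 1)) := by
          gcongr
          exact le_abs_self C
        _ = |C| * r ^ (w + 1 - n) := by
          rw [pow_sub₀ r hr0.ne' (by omega)]
          field_simp
        _ ≤ |C| * r := by
          gcongr
          calc r ^ (w + 1 - n) ≤ r ^ 1 := pow_le_pow_of_le_one hr0.le hr1 (by omega)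
            _ = r := pow_one r
  have hlim : Filter.Tendsto (fun t : ℝ => |C| * Real.exp (-(2 * Real.pi) * t)) Filter.atTop
      (nhds (|C| * 0)) := by
    refine Filter.Tendsto.const_mul _ ?_
    refine Real.tendsto_exp_atBot.comp ?_
    exact Filter.tendsto_id.const_mul_atTop_of_neg (by
      have := Real.pi_pos
      linarith)
  rw [mul_zero] at hlim
  have h0 := ge_of_tendsto hlim (Filter.eventually_atTop.2 ⟨max A 1, key⟩)
  exact norm_le_zero_iff.1 h0

theorem sturm4 (w : ℕ) (g : ModularForm G04 ((2 * w : ℕ) : ℤ))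
    (h : ∀ n ≤ w, PowerSeries.coeff n (qExpansion 1 (g : ℍ → ℂ)) = 0) : g = 0 := by
  classical
  have hcard := index_le
  rw [← DFunLike.coe_injective.eq_iff]
  change (g : ℍ → ℂ) = 0
  rw [← ModularForm.norm_eq_zero_iff 𝒮ℒ]
  apply ModularForm.sturm_bound_levelOne
  have hO : (ModularForm.norm 𝒮ℒ g : ℍ → ℂ) =O[atImInfty]
      fun τ : ℍ => (Real.exp (-2 * Real.pi * τ.im) ^ (w + 1)) := by
    rw [ModularForm.coe_norm]
    let _ := Fintype.ofFinite (𝒮ℒ ⧸ G04.subgroupOf 𝒮ℒ)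
    have hb : ∀ q : 𝒮ℒ ⧸ G04.subgroupOf 𝒮ℒ, IsBoundedAtImInfty (SlashInvariantForm.quotientFunc g q) := by
      intro q
      induction q using QuotientGroup.induction_on with
      | H z =>
        obtain ⟨_, γ, rfl⟩ := z
        have := ModularFormClass.bdd_at_infty_slash g γ⁻¹
        rw [ModularForm.SL_slash] at this
        have e : Matrix.SpecialLinearGroup.toGL
            ((Matrix.SpecialLinearGroup.map (Int.castRingHom ℝ)) γ⁻¹) =
            ((Matrix.SpecialLinearGroup.mapGL ℝ) γ)⁻¹ := by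
          rw [← map_inv]
          simp [Matrix.SpecialLinearGroup.mapGL]
        exact (congrArg (fun x : GL (Fin 2) ℝ => IsBoundedAtImInfty ((g : ℍ → ℂ) ∣[((2 * w : ℕ) : ℤ)] x)) e).mp this
    have h1 := Asymptotics.IsBigO.finsetProd (l := atImInfty) (s := Finset.univ)
      (f := fun (q : 𝒮ℒ ⧸ G04.subgroupOf 𝒮ℒ) => SlashInvariantForm.quotientFunc g q)
      (g := fun q τ => if q = ((1 : 𝒮ℒ) : 𝒮ℒ ⧸ G04.subgroupOf 𝒮ℒ) then
        (Real.exp (-2 * Real.pi * τ.im) ^ (w + 1)) else (1 : ℝ)) (fun q _ => ?_)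
    · refine h1.congr (fun τ => ?_) (fun τ => ?_)
      · rw [Finset.prod_apply]
      · rw [Finset.prod_ite_eq' Finset.univ]
        simp
    · by_cases hq : q = ((1 : 𝒮ℒ) : 𝒮ℒ ⧸ G04.subgroupOf 𝒮ℒ)
      · subst hq
        simp only [if_true]
        have h2 := Wd_decay w g h
        have h3 : SlashInvariantForm.quotientFunc g ((1 : 𝒮ℒ) : 𝒮ℒ ⧸ G04.subgroupOf 𝒮ℒ) = (g : ℍ → ℂ) := by
          change (g : ℍ → ℂ) ∣[_] ((1 : 𝒮ℒ) : GL (Fin 2) ℝ)⁻¹ = _
          simp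
        rw [h3]
        exact h2
      · simp only [if_neg hq]
        exact hb q
  have hc := Wd_coeff w _ hO
  refine lt_of_lt_of_le ?_ (PowerSeries.nat_le_order _ (w + 1) fun i hi => hc i (Nat.lt_succ_iff.1 hi))
  have h12 : ((((2 * w : ℕ) : ℤ) * (Nat.card (𝒮ℒ ⧸ G04.subgroupOf 𝒮ℒ) : ℤ)).toNat) / 12 ≤ w := by
    rw [← Nat.cast_mul, Int.toNat_natCast]
    have : 2 * w * Nat.card (𝒮ℒ ⧸ G04.subgroupOf 𝒮ℒ) ≤ 2 * w * 6 := Nat.mul_le_mul_left _ hcard
    omega
  exact_mod_cast Nat.lt_succ_of_le h12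

end Pool.Agent.H85.OT
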