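import Pool.Agent.H85.OT.Wb
import Pool.Agent.H85.OT.Wd
import Pool.Agent.H85.OT.Vpsi

/-!
# Row WE (project OT): modular forms on `Γ₀(4)` with coefficients in `R` are polynomials in `θ₃⁴, θ₄⁴`

`R` a commutative ring, `ρ : R →+* ℂ` injective, `g ∈ M_(2w)(Γ₀(4))` with `qExpansion 1 g = map ρ F`, `F ∈ R⟦X⟧`.
1. `exists_c16`: there is `c16 = X W ∈ ℤ⟦X⟧`, `W_0 = 1`, with `16 c16 = th3^4 - th4^4`: `psi = 2 ψ0` (coefficients `0, 2`), so `two_X_psi` gives
   `th3² - th4² = 8 X (dbl ψ0)²`, and `th3² + th4² = 2 dbl(th3²)` (`two_dbl_U`); multiply: `th3^4 - th4^4 = 16 X (dbl ψ0)² dbl(th3²)`.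
2. For `j ≤ w` let `b_j = (th3^4)^(w-j) c16^j = X^j (1 + ...)`.  There are `e_0, .., e_w ∈ R` such that `F - ∑ e_j tR b_j` has vanishing
   coefficients `0..w` (determine `e_0, e_1, ..` successively).
3. With `ga, gb` from `Wb`: the form `g - ∑ ρ(e_j) ga^(w-j) ((ga - gb)/16)^j` of weight `2w` on `Γ₀(4)` has q-expansion
   `map ρ (F - ∑ e_j tR b_j)`, so it is zero by `sturm4`.  As `ρ` is injective, `F = ∑ e_j tR b_j`.
4. `16^w F = ∑ e_j 16^(w-j) a^(w-j) (a - b)^j`, `a = th3^4`, `b = th4^4`: expand `(a-b)^j`; this is of the shape required by `IsFormR` with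
   `M = 16^w`.
-/

open PowerSeries UpperHalfPlane ModularForm MatrixGroups CongruenceSubgroup

namespace Pool.Agent.H85.OT

/-- half of `psi` -/
noncomputable def We_psi0 : ℤ⟦X⟧ := PowerSeries.mk fun n => if IsSquare (4 * n + 1) then 1 else 0

theorem We_psi : psi = 2 * We_psi0 := by
  ext n
  have e : (2 : ℤ⟦X⟧) = PowerSeries.C (2 : ℤ) := (map_ofNat _ 2).symm
  rw [e, PowerSeries.coeff_C_mul, psi, We_psi0, PowerSeries.coeff_mk, PowerSeries.coeff_mk]
  split_ifs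
  · norm_num
  · norm_num

theorem exists_c16 : ∃ W : ℤ⟦X⟧, PowerSeries.coeff 0 W = 1 ∧
    16 * (PowerSeries.X * W) = th3 ^ 4 - th4 ^ 4 := by
  refine ⟨(dbl ℤ We_psi0) ^ 2 * dbl ℤ (th3 ^ 2), ?_, ?_⟩
  · have h1 : PowerSeries.constantCoeff (dbl ℤ We_psi0) = 1 := by
      unfold dbl
      rw [PowerSeries.constantCoeff_expand, ← PowerSeries.coeff_zero_eq_constantCoeff_apply, We_psi0,
        PowerSeries.coeff_mk]
      simp
    have h2 : PowerSeries.constantCoeff (dbl ℤ (th3 ^ 2)) = 1 := by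
      unfold dbl
      rw [PowerSeries.constantCoeff_expand, map_pow, ← PowerSeries.coeff_zero_eq_constantCoeff_apply, th3,
        PowerSeries.coeff_mk]
      simp
    rw [PowerSeries.coeff_zero_eq_constantCoeff_apply, map_mul, map_pow, h1, h2]
    norm_num
  · have h1 := two_X_psi
    have h2 := two_dbl_U
    rw [We_psi, map_mul, map_ofNat] at h1
    have e : th3 ^ 4 - th4 ^ 4 = (th3 ^ 2 - th4 ^ 2) * (th3 ^ 2 + th4 ^ 2) := by ring
    rw [e, ← h1, ← h2]
    ring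

/-- successive determination of coefficients -/
theorem We_det {R : Type*} [CommRing R] (F : R⟦X⟧) (b : ℕ → R⟦X⟧)
    (h0 : ∀ j n, n < j → PowerSeries.coeff n (b j) = 0) (h1 : ∀ j, PowerSeries.coeff j (b j) = 1) (k : ℕ) :
    ∃ e : ℕ → R, ∀ n < k, PowerSeries.coeff n (F - ∑ j ∈ Finset.range k, PowerSeries.C (e j) * b j) = 0 := by
  induction k with
  | zero => exact ⟨fun _ => 0, fun n hn => absurd hn (Nat.not_lt_zero n)⟩
  | succ k ih =>
    obtain ⟨e, he⟩ := ih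
    refine ⟨Function.update e k
      (PowerSeries.coeff k (F - ∑ j ∈ Finset.range k, PowerSeries.C (e j) * b j)), fun n hn => ?_⟩
    have e1 : ∑ j ∈ Finset.range k, PowerSeries.C (Function.update e k
        (PowerSeries.coeff k (F - ∑ j ∈ Finset.range k, PowerSeries.C (e j) * b j)) j) * b j =
        ∑ j ∈ Finset.range k, PowerSeries.C (e j) * b j := by
      refine Finset.sum_congr rfl fun j hj => ?_
      rw [Function.update_of_ne (Finset.mem_range.1 hj).ne]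
    rw [Finset.sum_range_succ, e1, Function.update_self, ← sub_sub, map_sub (PowerSeries.coeff n),
      PowerSeries.coeff_C_mul]
    rcases Nat.lt_succ_iff_lt_or_eq.1 hn with h | h
    · rw [he n h, h0 k n h, mul_zero, sub_zero]
    · subst h
      rw [h1, mul_one, sub_self]

theorem We_b {R : Type*} [CommRing R] (A Wr : R⟦X⟧) (hA : PowerSeries.constantCoeff A = 1)
    (hW : PowerSeries.constantCoeff Wr = 1) (w : ℕ) :
    (∀ j n, n < j → PowerSeries.coeff n (A ^ (w - j) * (PowerSeries.X * Wr) ^ j) = 0) ∧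
      ∀ j, PowerSeries.coeff j (A ^ (w - j) * (PowerSeries.X * Wr) ^ j) = 1 := by
  have e : ∀ j, A ^ (w - j) * (PowerSeries.X * Wr) ^ j = PowerSeries.X ^ j * (A ^ (w - j) * Wr ^ j) := by
    intro j
    ring
  refine ⟨fun j n hn => ?_, fun j => ?_⟩
  · rw [e, PowerSeries.coeff_X_pow_mul', if_neg (not_le.2 hn)]
  · rw [e, PowerSeries.coeff_X_pow_mul', if_pos le_rfl, Nat.sub_self,
      PowerSeries.coeff_zero_eq_constantCoeff_apply, map_mul, map_pow, map_pow, hA, hW, one_pow, one_pow,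
      one_mul]

/-- expansion in terms of `A`, `B`, `16 c = A - B` -/
theorem We_exp {S : Type*} [CommRing S] (A B c : S) (hc : 16 * c = A - B) (w j : ℕ) (hj : j ≤ w) :
    16 ^ w * (A ^ (w - j) * c ^ j) = ∑ i ∈ Finset.range (w + 1),
      (16 ^ (w - j) * (-1) ^ i * (j.choose i : S)) * A ^ (w - i) * B ^ i := by
  have e1 : (16 : S) ^ w * (A ^ (w - j) * c ^ j) = 16 ^ (w - j) * A ^ (w - j) * (-B + A) ^ j := by
    have e2 : (16 : S) ^ w = 16 ^ (w - j) * 16 ^ j := by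
      rw [← pow_add, Nat.sub_add_cancel hj]
    have e3 : -B + A = 16 * c := by rw [hc]; ring
    rw [e2, e3, mul_pow]
    ring
  have e4 : ∑ i ∈ Finset.range (w + 1), (16 ^ (w - j) * (-1) ^ i * (j.choose i : S)) * A ^ (w - i) * B ^ i =
      ∑ i ∈ Finset.range (j + 1), (16 ^ (w - j) * (-1) ^ i * (j.choose i : S)) * A ^ (w - i) * B ^ i := by
    symm
    refine Finset.sum_subset (Finset.range_subset_range.2 (by omega)) ?_
    intro i _ hi
    have hji : j < i := by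
      by_contra h
      exact hi (Finset.mem_range.2 (by omega))
    rw [Nat.choose_eq_zero_of_lt hji]
    simp
  rw [e1, e4, add_pow, Finset.mul_sum]
  refine Finset.sum_congr rfl fun i hi => ?_
  have hij : i ≤ j := Nat.lt_succ_iff.1 (Finset.mem_range.1 hi)
  have e5 : A ^ (w - i) = A ^ (w - j) * A ^ (j - i) := by
    rw [← pow_add]
    congr 1
    omega
  rw [e5, neg_pow]
  ring

theorem We_one : (1 : ℝ) ∈ G04.strictPeriods := by
  unfold G04
  rw [strictPeriods_Gamma0]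
  exact AddSubgroup.mem_zmultiples 1

theorem We_form {A Cc : ℂ⟦X⟧} (ga gc : ModularForm G04 2) (ha : qExpansion 1 (ga : ℍ → ℂ) = A)
    (hc : qExpansion 1 (gc : ℍ → ℂ) = Cc) (w j : ℕ) (hj : j ≤ w) :
    ∃ h : ModularForm G04 ((2 * w : ℕ) : ℤ), qExpansion 1 (h : ℍ → ℂ) = A ^ (w - j) * Cc ^ j := by
  have ew : ((w - j : ℕ) : ℤ) * 2 + (j : ℤ) * 2 = ((2 * w : ℕ) : ℤ) := by
    omega
  refine ⟨ModularForm.mcast ew ((ga.pow (w - j)).mul (gc.pow j)) rfl, ?_⟩
  rw [ModularForm.qExpansion_mcast, ModularForm.qExpansion_mul one_pos We_one,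
    ModularForm.qExpansion_pow one_pos We_one, ModularForm.qExpansion_pow one_pos We_one, ha, hc]

theorem isFormR_of_qExpansion (R : Type*) [CommRing R] (ρ : R →+* ℂ) (hρ : Function.Injective ρ)
    (w : ℕ) (g : ModularForm G04 ((2 * w : ℕ) : ℤ)) (F : R⟦X⟧)
    (hF : qExpansion 1 (g : ℍ → ℂ) = PowerSeries.map ρ F) : IsFormR R w F := by
  obtain ⟨W, hW0, hW⟩ := exists_c16
  obtain ⟨ga, -, hga⟩ := exists_ga
  obtain ⟨gb, -, hgb⟩ := exists_gb
  have hmap : ∀ G : ℤ⟦X⟧, PowerSeries.map ρ (tR R G) = tR ℂ G := by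
    intro G
    ext n
    simp only [tR, PowerSeries.coeff_map, Int.coe_castRingHom, map_intCast]
  have hA1 : PowerSeries.constantCoeff (tR R (th3 ^ 4)) = 1 := by
    rw [map_pow, map_pow, ← PowerSeries.coeff_zero_eq_constantCoeff_apply, tR, PowerSeries.coeff_map, th3,
      PowerSeries.coeff_mk]
    simp
  have hW1 : PowerSeries.constantCoeff (tR R W) = 1 := by
    rw [← PowerSeries.coeff_zero_eq_constantCoeff_apply, tR, PowerSeries.coeff_map, hW0]
    simp
  have hX : ∀ (S : Type _) [CommRing S], tR S (PowerSeries.X * W) = PowerSeries.X * tR S W := by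
    intro S _
    rw [map_mul]
    congr 1
    exact PowerSeries.map_X _
  obtain ⟨hb0, hb1⟩ := We_b (tR R (th3 ^ 4)) (tR R W) hA1 hW1 w
  obtain ⟨e, he⟩ := We_det F (fun j => tR R (th3 ^ 4) ^ (w - j) * (PowerSeries.X * tR R W) ^ j)
    (fun j n h => hb0 j n h) (fun j => hb1 j) (w + 1)
  obtain ⟨gc, hgc⟩ : ∃ gc : ModularForm G04 2, qExpansion 1 (gc : ℍ → ℂ) = tR ℂ (PowerSeries.X * W) := by
    refine ⟨(1 / 16 : ℂ) • (ga - gb), ?_⟩
    have h1 : qExpansion 1 ((ga - gb : ModularForm G04 2) : ℍ → ℂ) = tR ℂ (th3 ^ 4) - tR ℂ (th4 ^ 4) := by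
      rw [← hga, ← hgb]
      exact ModularForm.qExpansion_sub one_pos We_one ga gb
    have h2 : qExpansion 1 (((1 / 16 : ℂ) • (ga - gb) : ModularForm G04 2) : ℍ → ℂ) =
        (1 / 16 : ℂ) • qExpansion 1 ((ga - gb : ModularForm G04 2) : ℍ → ℂ) :=
      ModularForm.qExpansion_smul one_pos We_one _ (ga - gb)
    rw [h2, h1, ← map_sub, ← hW, map_mul, map_ofNat]
    have h3 : (16 : ℂ⟦X⟧) = PowerSeries.C (16 : ℂ) := (map_ofNat _ 16).symm
    rw [h3, ← PowerSeries.smul_eq_C_mul, smul_smul]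
    norm_num
  have hex : ∀ j : ℕ, ∃ h : ModularForm G04 ((2 * w : ℕ) : ℤ), j ≤ w → qExpansion 1 (h : ℍ → ℂ) =
      tR ℂ (th3 ^ 4) ^ (w - j) * tR ℂ (PowerSeries.X * W) ^ j := by
    intro j
    by_cases hj : j ≤ w
    · obtain ⟨h, hh⟩ := We_form ga gc hga hgc w j hj
      exact ⟨h, fun _ => hh⟩
    · exact ⟨0, fun h => absurd h hj⟩
  choose hf hhf using hex
  obtain ⟨φ, hφ⟩ : ∃ φ : ModularForm G04 ((2 * w : ℕ) : ℤ) →+ ℂ⟦X⟧, ∀ f, φ f = qExpansion 1 (f : ℍ → ℂ) :=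
    ⟨ModularForm.qExpansionAddHom one_pos We_one _, fun _ => rfl⟩
  have hsm : ∀ (c : ℂ) (f : ModularForm G04 ((2 * w : ℕ) : ℤ)), φ (c • f) = PowerSeries.C c * φ f := by
    intro c f
    rw [hφ, hφ, ← PowerSeries.smul_eq_C_mul]
    exact ModularForm.qExpansion_smul one_pos We_one c f
  have hkey : φ (g - ∑ j ∈ Finset.range (w + 1), ρ (e j) • hf j) = PowerSeries.map ρ
      (F - ∑ j ∈ Finset.range (w + 1), PowerSeries.C (e j) *
        (tR R (th3 ^ 4) ^ (w - j) * (PowerSeries.X * tR R W) ^ j)) := by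
    rw [map_sub, map_sum, map_sub, map_sum, hφ g, hF]
    congr 1
    refine Finset.sum_congr rfl fun j hj => ?_
    have e3 : PowerSeries.map ρ (PowerSeries.C (e j) *
        (tR R (th3 ^ 4) ^ (w - j) * (PowerSeries.X * tR R W) ^ j)) =
        PowerSeries.C (ρ (e j)) * (tR ℂ (th3 ^ 4) ^ (w - j) * tR ℂ (PowerSeries.X * W) ^ j) := by
      rw [← hX R, map_mul (PowerSeries.map ρ), map_mul (PowerSeries.map ρ), map_pow (PowerSeries.map ρ),
        map_pow (PowerSeries.map ρ), PowerSeries.map_C, hmap, hmap]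
    rw [hsm, hφ, hhf j (Nat.lt_succ_iff.1 (Finset.mem_range.1 hj))]
    exact e3.symm
  have hzero : g - ∑ j ∈ Finset.range (w + 1), ρ (e j) • hf j = 0 := by
    refine sturm4 w _ fun n hn => ?_
    rw [← hφ, hkey, PowerSeries.coeff_map, he n (Nat.lt_succ_iff.2 hn), map_zero]
  rw [hzero, map_zero] at hkey
  have hFe : F = ∑ j ∈ Finset.range (w + 1), PowerSeries.C (e j) *
        (tR R (th3 ^ 4) ^ (w - j) * (PowerSeries.X * tR R W) ^ j) := by
    rw [← sub_eq_zero]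
    ext n
    apply hρ
    rw [← PowerSeries.coeff_map, ← hkey, map_zero, map_zero, map_zero]
  have hcr : 16 * (PowerSeries.X * tR R W) = tR R (th3 ^ 4) - tR R (th4 ^ 4) := by
    have h1 := congrArg (tR R) hW
    rw [map_mul, map_ofNat, map_sub, hX R] at h1
    exact h1
  refine ⟨16 ^ w, fun i => ∑ j ∈ Finset.range (w + 1),
    e j * (16 ^ (w - j) * (-1) ^ i * (j.choose i : R)), by positivity, ?_⟩
  have hC : PowerSeries.C (((16 ^ w : ℤ)) : R) = (16 : R⟦X⟧) ^ w := by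
    rw [Int.cast_pow, Int.cast_ofNat, map_pow, map_ofNat]
  rw [hC]
  conv_lhs => rw [hFe]
  rw [Finset.mul_sum]
  have h1 : ∀ j ∈ Finset.range (w + 1), (16 : R⟦X⟧) ^ w * (PowerSeries.C (e j) *
      (tR R (th3 ^ 4) ^ (w - j) * (PowerSeries.X * tR R W) ^ j)) =
      ∑ i ∈ Finset.range (w + 1), PowerSeries.C (e j * (16 ^ (w - j) * (-1) ^ i * (j.choose i : R))) *
        tR R (th3 ^ 4) ^ (w - i) * tR R (th4 ^ 4) ^ i := by
    intro j hj
    have h2 := We_exp (tR R (th3 ^ 4)) (tR R (th4 ^ 4)) (PowerSeries.X * tR R W) hcr w j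
      (Nat.lt_succ_iff.1 (Finset.mem_range.1 hj))
    rw [mul_left_comm, h2, Finset.mul_sum]
    refine Finset.sum_congr rfl fun i _ => ?_
    have e5 : PowerSeries.C (e j * (16 ^ (w - j) * (-1) ^ i * (j.choose i : R))) =
        PowerSeries.C (e j) * (16 ^ (w - j) * (-1) ^ i * (j.choose i : R⟦X⟧)) := by
      rw [map_mul, map_mul, map_mul, map_pow, map_pow, map_neg, map_one, map_natCast, map_ofNat]
    rw [e5]
    ring
  rw [Finset.sum_congr rfl h1, Finset.sum_comm]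
  refine Finset.sum_congr rfl fun i _ => ?_
  rw [map_sum, Finset.sum_mul, Finset.sum_mul]

end Pool.Agent.H85.OT
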