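import Pool.Agent.H85.OT.Dup

/-!
# Row WRON (project OT): the Wronskian of `θ₃²`, `θ₄²`

Notation `u = th3^2`, `v = th4^2`, `D = Dq ℤ` and `F~ = dbl ℤ F` (so `F~(q) = F(q²)`).
Rules: `D (F~) = 2 (D F)~`; `2 u~ = u + v` (`two_dbl_U`); `v~² = u v` (square of `dbl_th4_sq`:
`v~ = (dbl th4)^2 = th3 * th4`, so `v~² = u v`).
First coefficients: `u = 1 + 4 q + ..`, `v = 1 - 4 q + ..`.

Put `W = 2 (u Dv - v Du) + u v (u² - v²)`.  Then
`2 v~ (D v~) = D(uv) = u Dv + v Du`, and `2 (Dv)~ = D(v~)`, so (all over `ℤ`, after clearing `2`)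
`W~ = u~ D(v~) - v~ D(u~) + u~ v~ (u~² - v~²)` and
`8 v~ W~ = 2 (u+v)(u Dv + v Du) - 4 u v (Du + Dv) + (u+v) u v (u-v)²`
        `= 2 (u-v)(u Dv - v Du) + (u-v) u v (u² - v²) = (u - v) W`.
(`8 u~ v~² (u~² - v~²) = 4 (u+v) u v ((u+v)²/4 - u v) = (u+v) u v (u-v)²`.)
The coefficients `0, 1` of `W` vanish (`2(-4-4) + 16 = 0`), and `u - v = 8 q + ..` has order
exactly `1`.  If `W ≠ 0` had order `N ≥ 2`, the left side has order `2 N` (`v~` has constant
term `1`), the right side `N + 1 < 2 N`; contradiction.  So `W = 0`.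
(Or: by strong induction all coefficients of `W` vanish: if the coefficients `< N` of `W` vanish
and `N ≥ 2`, look at coefficient `N + 1 < 2 N` of both sides.)
-/

open PowerSeries

namespace Pool.Agent.H85.OT

lemma Wron_c0 (f g : ℤ⟦X⟧) : coeff 0 (f * g) = coeff 0 f * coeff 0 g := by
  rw [PowerSeries.coeff_mul]
  simp

lemma Wron_c1 (f g : ℤ⟦X⟧) : coeff 1 (f * g) = coeff 0 f * coeff 1 g + coeff 1 f * coeff 0 g := by
  rw [PowerSeries.coeff_mul, Finset.Nat.antidiagonal_succ]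
  simp

lemma Wron_dbl (F : ℤ⟦X⟧) : Dq ℤ (dbl ℤ F) = 2 * dbl ℤ (Dq ℤ F) := by
  ext n
  have h2 : (2 : ℤ⟦X⟧) * dbl ℤ (Dq ℤ F) = dbl ℤ (Dq ℤ F) + dbl ℤ (Dq ℤ F) := by ring
  rw [coeff_Dq, h2, map_add]
  unfold dbl
  rw [PowerSeries.coeff_expand, PowerSeries.coeff_expand]
  split_ifs with h
  · obtain ⟨m, rfl⟩ := h
    rw [Nat.mul_div_cancel_left _ two_pos, coeff_Dq]
    push_cast
    ring
  · ring

lemma Wron_t30 : coeff 0 th3 = 1 := by
  simp [th3]

lemma Wron_t31 : coeff 1 th3 = 2 := by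
  simp [th3]

lemma Wron_t40 : coeff 0 th4 = 1 := by
  unfold th4
  rw [PowerSeries.coeff_mk, Wron_t30]
  norm_num

lemma Wron_t41 : coeff 1 th4 = -2 := by
  unfold th4
  rw [PowerSeries.coeff_mk, Wron_t31]
  norm_num

theorem wron :
    2 * (th3 ^ 2 * Dq ℤ (th4 ^ 2) - th4 ^ 2 * Dq ℤ (th3 ^ 2)) =
      -(th3 ^ 2 * th4 ^ 2 * (th3 ^ 4 - th4 ^ 4)) := by
  set u : ℤ⟦X⟧ := th3 ^ 2 with hu
  set v : ℤ⟦X⟧ := th4 ^ 2 with hv
  have hu4 : th3 ^ 4 = u ^ 2 := by rw [hu]; ring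
  have hv4 : th4 ^ 4 = v ^ 2 := by rw [hv]; ring
  rw [hu4, hv4]
  have u0 : coeff 0 u = 1 := by rw [hu, sq, Wron_c0, Wron_t30]; norm_num
  have v0 : coeff 0 v = 1 := by rw [hv, sq, Wron_c0, Wron_t40]; norm_num
  have u1 : coeff 1 u = 4 := by rw [hu, sq, Wron_c1, Wron_t30, Wron_t31]; norm_num
  have v1 : coeff 1 v = -4 := by rw [hv, sq, Wron_c1, Wron_t40, Wron_t41]; norm_num
  set a : ℤ⟦X⟧ := dbl ℤ u with ha
  set b : ℤ⟦X⟧ := dbl ℤ v with hb
  have h1 : 2 * a = u + v := two_dbl_U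
  have h2 : b ^ 2 = u * v := by
    rw [hb, hv, map_pow, dbl_th4_sq, hu]
    ring
  set W : ℤ⟦X⟧ := 2 * (u * Dq ℤ v - v * Dq ℤ u) + u * v * (u ^ 2 - v ^ 2) with hW
  have hD2 : ∀ f g : ℤ⟦X⟧, Dq ℤ (f * g) = f * Dq ℤ g + g * Dq ℤ f := by
    intro f g
    rw [Derivation.leibniz, smul_eq_mul, smul_eq_mul]
  have h3 : dbl ℤ W = a * Dq ℤ b - b * Dq ℤ a + a * b * (a ^ 2 - b ^ 2) := by
    rw [ha, hb, Wron_dbl, Wron_dbl, hW]
    simp only [map_add, map_sub, map_mul, map_pow]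
    rw [show dbl ℤ (2 : ℤ⟦X⟧) = 2 from map_ofNat _ 2]
    ring
  have h4 : 2 * (b * Dq ℤ b) = u * Dq ℤ v + v * Dq ℤ u := by
    rw [← hD2, ← h2, sq, hD2]
    ring
  have h5 : 2 * Dq ℤ a = Dq ℤ u + Dq ℤ v := by
    have := congrArg (Dq ℤ) h1
    rw [map_add, two_mul, map_add] at this
    rw [two_mul]
    exact this
  have key : 8 * b * dbl ℤ W = (u - v) * W := by
    have e1 : 8 * b * dbl ℤ W = 2 * (2 * a) * (2 * (b * Dq ℤ b)) - 4 * b ^ 2 * (2 * Dq ℤ a) +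
        (2 * a) * b ^ 2 * ((2 * a) ^ 2 - 4 * b ^ 2) := by
      rw [h3]; ring
    rw [e1, h1, h2, h4, h5, hW]
    ring
  have hW0 : W = 0 := by
    by_contra hne
    have ho := congrArg PowerSeries.order key
    rw [PowerSeries.order_mul (8 * b), PowerSeries.order_mul (u - v)] at ho
    have o1 : (8 * b).order = 0 := by
      have : coeff 0 (8 * b) ≠ 0 := by
        have h8 : coeff 0 b = 1 := by
          rw [hb]
          unfold dbl
          rw [PowerSeries.coeff_expand]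
          simpa using v0
        rw [Wron_c0, h8, mul_one, PowerSeries.coeff_zero_eq_constantCoeff_apply, map_ofNat]
        norm_num
      exact le_antisymm (by exact_mod_cast PowerSeries.order_le 0 this) bot_le
    have o2 : (u - v).order = 1 := by
      have : (u - v).order = ((1 : ℕ) : ℕ∞) := by
        rw [PowerSeries.order_eq_nat]
        constructor
        · rw [map_sub, u1, v1]; norm_num
        · intro i hi
          have : i = 0 := by omega
          subst this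
          rw [map_sub, u0, v0]; norm_num
      exact_mod_cast this
    have o3 : (dbl ℤ W).order = 2 • W.order := PowerSeries.order_expand 2 two_ne_zero W
    rw [o1, o2, o3, zero_add] at ho
    obtain ⟨N, hN⟩ := ENat.ne_top_iff_exists.1 (PowerSeries.order_eq_top.not.2 hne)
    rw [← hN] at ho
    have ho' : 2 * N = 1 + N := by
      rw [nsmul_eq_mul] at ho
      exact_mod_cast ho
    have hN1 : N = 1 := by omega
    subst hN1
    have hc := (PowerSeries.order_eq_nat.1 hN.symm).1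
    apply hc
    rw [hW]
    have t2 : (2 : ℤ⟦X⟧) * (u * Dq ℤ v - v * Dq ℤ u) = (u * Dq ℤ v - v * Dq ℤ u) +
      (u * Dq ℤ v - v * Dq ℤ u) := by ring
    rw [t2]
    simp only [map_add, map_sub, sq, Wron_c1, Wron_c0, coeff_Dq, u0, u1, v0, v1]
    norm_num
  have h6 : 2 * (u * Dq ℤ v - v * Dq ℤ u) + u * v * (u ^ 2 - v ^ 2) = 0 := hW0
  linear_combination h6

end Pool.Agent.H85.OT
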