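import Pool.Agent.H85.OT.OrdL

/-!
# Definitions for part III of the project OT (zero estimate)

* `Dv R`: derivations of a commutative ring (a light-weight version, only over `ℤ`).
* `del K = U^(-2) q d/dq`, a derivation of `K⟦X⟧`.
* `dext d g`: the extension of a derivation `d` of `R` to `R[X]` with `X ↦ g`.
* `ZD K R`: a ring with derivation, evaluation in `K⟦X⟧` commuting with the derivations
  (`del K` on the right), and a size filtration `B n e`.
* `ZD.Zest`: the zero estimate.
* `NS d α β`: the equation `q dp - p dq = α q² + β p q` has no solution with `q ≠ 0`.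
* `dX0, dX1`: the derivations of `K[x]` and `K[x][z]`.
-/

open PowerSeries

namespace Pool.Agent.H85.OT

/-- derivations of a commutative ring -/
structure Dv (R : Type*) [CommRing R] where
  toFun : R → R
  add' : ∀ a b, toFun (a + b) = toFun a + toFun b
  mul' : ∀ a b, toFun (a * b) = toFun a * b + a * toFun b

namespace Dv
variable {R : Type*} [CommRing R]

instance : CoeFun (Dv R) (fun _ => R → R) := ⟨Dv.toFun⟩

variable (d : Dv R)

theorem map_add (a b : R) : d (a + b) = d a + d b := d.add' a b
theorem map_mul (a b : R) : d (a * b) = d a * b + a * d b := d.mul' a b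

theorem map_zero : d 0 = 0 := by
  have := d.map_add 0 0
  rw [add_zero] at this
  have h : d 0 + 0 = d 0 + d 0 := by rw [add_zero]; exact this
  exact (add_left_cancel h).symm

theorem map_neg (a : R) : d (-a) = -d a := by
  have := d.map_add a (-a)
  rw [add_neg_cancel, d.map_zero] at this
  exact (neg_eq_of_add_eq_zero_right this.symm).symm

theorem map_sub (a b : R) : d (a - b) = d a - d b := by
  rw [sub_eq_add_neg, d.map_add, d.map_neg, sub_eq_add_neg]

theorem map_one : d 1 = 0 := by
  have := d.map_mul 1 1
  rw [mul_one, mul_one, one_mul] at this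
  have h : d 1 + 0 = d 1 + d 1 := by rw [add_zero]; exact this
  exact (add_left_cancel h).symm

theorem map_natCast (n : ℕ) : d (n : R) = 0 := by
  induction n with
  | zero => simpa using d.map_zero
  | succ n ih => rw [Nat.cast_succ, d.map_add, ih, d.map_one, add_zero]

theorem map_sum {ι : Type*} (s : Finset ι) (g : ι → R) : d (∑ i ∈ s, g i) = ∑ i ∈ s, d (g i) := by
  classical
  induction s using Finset.induction_on with
  | empty => simpa using d.map_zero
  | insert a s ha ih => rw [Finset.sum_insert ha, Finset.sum_insert ha, d.map_add, ih]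

theorem map_pow (a : R) (n : ℕ) : d (a ^ (n + 1)) = ((n : R) + 1) * a ^ n * d a := by
  induction n with
  | zero => simp
  | succ n ih =>
    rw [pow_succ, d.map_mul, ih]
    push_cast
    ring

end Dv

/-- `δ = U^(-2) q d/dq` -/
noncomputable def del (K : Type*) [Field K] : Dv K⟦X⟧ where
  toFun f := (U K)⁻¹ ^ 2 * Dq K f
  add' a b := by rw [_root_.map_add, mul_add]
  mul' a b := by
    rw [Derivation.leibniz, smul_eq_mul, smul_eq_mul]
    ring

theorem del_apply {K : Type*} [Field K] (f : K⟦X⟧) : del K f = (U K)⁻¹ ^ 2 * Dq K f := rfl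

section dext
variable {R : Type*} [CommRing R]

/-- coefficientwise application of `d` -/
noncomputable def mapc (d : Dv R) (P : Polynomial R) : Polynomial R :=
  P.sum fun i a => Polynomial.monomial i (d a)

theorem coeff_mapc (d : Dv R) (P : Polynomial R) (i : ℕ) :
    (mapc d P).coeff i = d (P.coeff i) := by
  unfold mapc
  rw [Polynomial.sum_def, Polynomial.finset_sum_coeff]
  simp only [Polynomial.coeff_monomial]
  rw [Finset.sum_ite_eq' P.support i (fun j => d (P.coeff j))]
  split_ifs with h
  · rfl
  · rw [Polynomial.notMem_support_iff.1 h, d.map_zero]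

theorem mapc_add (d : Dv R) (P Q : Polynomial R) : mapc d (P + Q) = mapc d P + mapc d Q := by
  ext i
  simp only [coeff_mapc, Polynomial.coeff_add, d.map_add]

theorem mapc_mul (d : Dv R) (P Q : Polynomial R) :
    mapc d (P * Q) = mapc d P * Q + P * mapc d Q := by
  ext i
  simp only [coeff_mapc, Polynomial.coeff_add, Polynomial.coeff_mul, d.map_sum, d.map_mul,
    Finset.sum_add_distrib]

/-- extension of the derivation `d` of `R` to `R[X]` with `X ↦ g` -/
noncomputable def dext (d : Dv R) (g : Polynomial R) : Dv (Polynomial R) where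
  toFun P := mapc d P + g * Polynomial.derivative P
  add' P Q := by rw [mapc_add, Polynomial.derivative_add]; ring
  mul' P Q := by rw [mapc_mul, Polynomial.derivative_mul]; ring

theorem dext_apply (d : Dv R) (g P : Polynomial R) :
    dext d g P = mapc d P + g * Polynomial.derivative P := rfl

theorem coeff_dext (d : Dv R) (g P : Polynomial R) (i : ℕ) :
    (dext d g P).coeff i = d (P.coeff i) + (g * Polynomial.derivative P).coeff i := by
  rw [dext_apply, Polynomial.coeff_add, coeff_mapc]

theorem mapc_C (d : Dv R) (a : R) : mapc d (Polynomial.C a) = Polynomial.C (d a) := by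
  ext i
  rw [coeff_mapc, Polynomial.coeff_C, Polynomial.coeff_C]
  split_ifs
  · rfl
  · exact d.map_zero

theorem dext_C (d : Dv R) (g : Polynomial R) (a : R) :
    dext d g (Polynomial.C a) = Polynomial.C (d a) := by
  rw [dext_apply, mapc_C]; simp

theorem mapc_X (d : Dv R) : mapc d (Polynomial.X : Polynomial R) = 0 := by
  ext i
  rw [coeff_mapc, Polynomial.coeff_X]
  split_ifs
  · simpa using d.map_one
  · simpa using d.map_zero

theorem dext_X (d : Dv R) (g : Polynomial R) :
    dext d g (Polynomial.X : Polynomial R) = g := by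
  rw [dext_apply, mapc_X]; simp

/-- coefficients for a linear equation `dX = α + β X` -/
theorem coeff_dext_lin (d : Dv R) (α β : R) (P : Polynomial R) (i : ℕ) :
    (dext d (Polynomial.C α + Polynomial.C β * Polynomial.X) P).coeff i =
      d (P.coeff i) + ((i : R) + 1) * α * P.coeff (i + 1) + (i : R) * β * P.coeff i := by
  rw [coeff_dext]
  have : (Polynomial.C α + Polynomial.C β * Polynomial.X) * Polynomial.derivative P =
    Polynomial.C α * Polynomial.derivative P +
      Polynomial.C β * (Polynomial.X * Polynomial.derivative P) := by ring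
  rw [this, Polynomial.coeff_add, Polynomial.coeff_C_mul, Polynomial.coeff_C_mul]
  rcases i with _ | i
  · simp [Polynomial.coeff_derivative, mul_comm]
  · rw [Polynomial.coeff_X_mul, Polynomial.coeff_derivative, Polynomial.coeff_derivative]
    push_cast; ring

end dext

/-- differential ring with evaluation in `K⟦X⟧` and a size filtration -/
structure ZD (K : Type*) [Field K] (R : Type*) [CommRing R] where
  ev : R →+* K⟦X⟧
  d : Dv R
  ev_d : ∀ r, ev (d r) = del K (ev r)
  B : ℕ → ℕ → R → Prop
  c : ℕ
  B_mono : ∀ {n n' e e' : ℕ} {r : R}, n ≤ n' → e ≤ e' → B n e r → B n' e' r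
  B_zero : B 0 0 0
  B_one : B 0 0 1
  B_add : ∀ {n e : ℕ} {r s : R}, B n e r → B n e s → B n e (r + s)
  B_neg : ∀ {n e : ℕ} {r : R}, B n e r → B n e (-r)
  B_mul : ∀ {n e n' e' : ℕ} {r s : R}, B n e r → B n' e' s → B (n + n') (e + e') (r * s)
  B_d : ∀ {n e : ℕ} {r : R}, B n e r → B (n + c) (e + c) (d r)

/-- the coefficients of index at most `N` vanish -/
def Van {K : Type*} [Field K] (N : ℕ) (f : K⟦X⟧) : Prop := ∀ l ≤ N, PowerSeries.coeff l f = 0

theorem Van.add {K : Type*} [Field K] {N : ℕ} {f g : K⟦X⟧} (hf : Van N f) (hg : Van N g) :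
    Van N (f + g) := fun l hl => by rw [_root_.map_add, hf l hl, hg l hl, add_zero]

theorem Van.sub {K : Type*} [Field K] {N : ℕ} {f g : K⟦X⟧} (hf : Van N f) (hg : Van N g) :
    Van N (f - g) := fun l hl => by rw [_root_.map_sub, hf l hl, hg l hl, sub_zero]

theorem Van.mul {K : Type*} [Field K] {N : ℕ} {f : K⟦X⟧} (g : K⟦X⟧) (hf : Van N f) :
    Van N (g * f) := fun l hl => by
  rw [PowerSeries.coeff_mul]
  refine Finset.sum_eq_zero fun x hx => ?_
  have h1 : x.1 + x.2 = l := Finset.HasAntidiagonal.mem_antidiagonal.1 hx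
  rw [hf x.2 (by omega), mul_zero]

theorem Van.del {K : Type*} [Field K] {N : ℕ} {f : K⟦X⟧} (hf : Van N f) :
    Van N (del K f) := by
  rw [del_apply]
  refine Van.mul _ fun l hl => ?_
  rw [coeff_Dq, hf l hl, mul_zero]

/-- the zero estimate: an element of size `(n, e)` has a nonzero coefficient of index at most
`C(e) (n+1)` -/
def ZD.Zest {K : Type*} [Field K] {R : Type*} [CommRing R] (Z : ZD K R) : Prop :=
  ∀ e : ℕ, ∃ C : ℕ, ∀ (n : ℕ) (r : R), Z.B n e r → r ≠ 0 →
    ∃ l ≤ C * (n + 1), PowerSeries.coeff l (Z.ev r) ≠ 0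

/-- `q dp - p dq = α q² + β p q` has no solution with `q ≠ 0` -/
def NS {R : Type*} [CommRing R] (d : Dv R) (α β : R) : Prop :=
  ∀ p q : R, q ≠ 0 → q * d p - p * d q ≠ α * q ^ 2 + β * (p * q)

section tower
variable (K : Type*) [Field K]

/-- derivation of `K[x]`: `x ↦ -(1/2) x (1 - x²)` -/
noncomputable def dX0 : Dv (Polynomial K) where
  toFun P := Polynomial.C (-1/2 : K) * Polynomial.X * (1 - Polynomial.X ^ 2) *
    Polynomial.derivative P
  add' P Q := by rw [Polynomial.derivative_add]; ring
  mul' P Q := by rw [Polynomial.derivative_mul]; ring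

theorem dX0_apply (P : Polynomial K) :
    dX0 K P = Polynomial.C (-1/2 : K) * Polynomial.X * (1 - Polynomial.X ^ 2) *
      Polynomial.derivative P := rfl

/-- `x²(1-x²)/4` -/
noncomputable def g0 : Polynomial K :=
  Polynomial.C (1/4 : K) * Polynomial.X ^ 2 * (1 - Polynomial.X ^ 2)

/-- derivation of `K[x][z]`: `z ↦ -z² + x²(1-x²)/4` -/
noncomputable def dX1 : Dv (Polynomial (Polynomial K)) :=
  dext (dX0 K) (Polynomial.C (g0 K) - Polynomial.X ^ 2)

/-- coefficient formula in `z` -/
theorem coeff_dX1 (P : Polynomial (Polynomial K)) (j : ℕ) :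
    (dX1 K P).coeff (j + 1) = dX0 K (P.coeff (j + 1)) + ((j : Polynomial K) + 2) * g0 K *
      P.coeff (j + 2) - (j : Polynomial K) * P.coeff j := by
  unfold dX1
  rw [coeff_dext]
  have : (Polynomial.C (g0 K) - Polynomial.X ^ 2) * Polynomial.derivative P =
    Polynomial.C (g0 K) * Polynomial.derivative P -
      Polynomial.X * (Polynomial.X * Polynomial.derivative P) := by ring
  rw [this, Polynomial.coeff_sub, Polynomial.coeff_C_mul, Polynomial.coeff_X_mul]
  rcases j with _ | j
  · simp [Polynomial.coeff_derivative]; ring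
  · rw [Polynomial.coeff_X_mul, Polynomial.coeff_derivative, Polynomial.coeff_derivative]
    push_cast; ring

theorem coeff_dX1_zero (P : Polynomial (Polynomial K)) :
    (dX1 K P).coeff 0 = dX0 K (P.coeff 0) + g0 K * P.coeff 1 := by
  unfold dX1
  rw [coeff_dext]
  have : (Polynomial.C (g0 K) - Polynomial.X ^ 2) * Polynomial.derivative P =
    Polynomial.C (g0 K) * Polynomial.derivative P -
      Polynomial.X * (Polynomial.X * Polynomial.derivative P) := by ring
  rw [this, Polynomial.coeff_sub, Polynomial.coeff_C_mul, Polynomial.coeff_X_mul_zero]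
  simp [Polynomial.coeff_derivative]

/-- `-κ z` as an element of `K[x][z]` -/
noncomputable def bz (κ : ℕ) : Polynomial (Polynomial K) :=
  -((κ : Polynomial (Polynomial K)) * Polynomial.X)

end tower

end Pool.Agent.H85.OT
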