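import Pool.Agent.H85.OT.ZDef

/-!
# Row ZBASE (project OT): the base of the tower

`R = K[x]`, `ev P = P(xx)`, `d = dX0`, `B n e P := natDegree P ≤ n` (independent of `e`), `c = 2`.
* `ev (dX0 P) = del (ev P)`: `del(P(x)) = P'(x) U^(-2) D x` and `U^(-2) D x = -(1/2) x (1-x²)` (`Dq_xx`,
  `Derivation.map_aeval` for `Dq`).
* `natDegree (dX0 P) ≤ natDegree P + 2`.
* the zero estimate is `ord_xx` with `N = n`, `C = 1`.
-/

open PowerSeries

namespace Pool.Agent.H85.OT

private theorem Zbase_ev (K : Type*) [Field K] (h2 : (2 : K) ≠ 0) (P : Polynomial K) :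
    Polynomial.aeval (xx K) (dX0 K P) = del K (Polynomial.aeval (xx K) P) := by
  have h2' : (2 : K⟦X⟧) ≠ 0 := by
    have h3 : (2 : K⟦X⟧) = algebraMap K K⟦X⟧ 2 := by rw [map_ofNat]
    rw [h3]
    exact fun h => h2 ((map_eq_zero_iff _ (PowerSeries.C_injective)).1 h)
  have ha : 2 * algebraMap K K⟦X⟧ (-1/2) = -1 := by
    have h3 : (2 : K⟦X⟧) = algebraMap K K⟦X⟧ 2 := by rw [map_ofNat]
    rw [h3, ← map_mul]
    have h4 : (2 : K) * (-1/2) = -1 := by field_simp
    rw [h4, map_neg, map_one]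
  have hU := U_mul_inv K
  have hD := Dq_xx K h2
  rw [dX0_apply, del_apply, Derivation.map_aeval, smul_eq_mul]
  simp only [map_mul, map_sub, map_one, map_pow, Polynomial.aeval_X, Polynomial.aeval_C]
  apply mul_left_cancel₀ h2'
  generalize Polynomial.aeval (xx K) (Polynomial.derivative P) = Q
  linear_combination (xx K * (1 - xx K ^ 2) * Q) * ha - ((U K)⁻¹ ^ 2 * Q) * hD +
    (xx K * (1 - xx K ^ 2) * Q * (U K * (U K)⁻¹ + 1)) * hU

private theorem Zbase_deg (K : Type*) [Field K] {n : ℕ} {P : Polynomial K} (h : P.natDegree ≤ n) :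
    (dX0 K P).natDegree ≤ n + 2 := by
  rw [dX0_apply]
  by_cases h0 : P.natDegree = 0
  · rw [Polynomial.natDegree_eq_zero.1 h0 |>.choose_spec.symm, Polynomial.derivative_C, mul_zero,
      Polynomial.natDegree_zero]
    exact Nat.zero_le _
  · have h1 : (Polynomial.C (-1/2 : K) * Polynomial.X * (1 - Polynomial.X ^ 2)).natDegree ≤ 3 := by
      compute_degree
    have h3 : (Polynomial.derivative P).natDegree ≤ P.natDegree - 1 :=
      Polynomial.natDegree_derivative_le P
    refine Polynomial.natDegree_mul_le.trans ?_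
    omega

theorem exists_Z0 (K : Type*) [Field K] (h2 : (2 : K) ≠ 0) :
    ∃ Z : ZD K (Polynomial K), Z.Zest ∧ Z.d = dX0 K ∧
      (∀ P, Z.ev P = Polynomial.aeval (xx K) P) ∧
      (∀ n e P, Z.B n e P ↔ P.natDegree ≤ n) := by
  refine ⟨
    { ev := (Polynomial.aeval (xx K) : Polynomial K →ₐ[K] K⟦X⟧).toRingHom
      d := dX0 K
      ev_d := fun P => Zbase_ev K h2 P
      B := fun n _ P => P.natDegree ≤ n
      c := 2
      B_mono := fun hn _ h => le_trans h hn
      B_zero := by rw [Polynomial.natDegree_zero]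
      B_one := by rw [Polynomial.natDegree_one]
      B_add := fun hr hs => (Polynomial.natDegree_add_le _ _).trans (max_le hr hs)
      B_neg := fun hr => by rw [Polynomial.natDegree_neg]; exact hr
      B_mul := fun hr hs => Polynomial.natDegree_mul_le.trans (add_le_add hr hs)
      B_d := fun h => Zbase_deg K h }, ?_, rfl, fun P => rfl, fun n e P => Iff.rfl⟩
  intro e
  refine ⟨1, fun n P hB hP => ?_⟩
  have hB' : P.natDegree ≤ n := hB
  exact ord_xx h2 P hP (1 * (n + 1)) (by omega)

end Pool.Agent.H85.OT
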