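import Pool.Agent.H85.OT.Ztop

/-!
# Row ZDL (project OT): Darboux polynomials of the Riccati equation

`K` of characteristic `0`.  Let `P ≠ 0` in `K[x][z]`, `c ≠ 0` in `K[x]`, `P ∣ c · dX1 P`.  Then `P` has
`z`-degree `0`.

1. Primitive part: `P = C a * Q`, `Q` primitive, `a ≠ 0` (`Polynomial.eq_C_content_mul_primPart`;
   `K[x]` is a normalized GCD domain).  `dX1 P = C (dX0 a) Q + C a dX1 Q`, so
   `Q ∣ C (c a) * dX1 Q`, and by Gauss (`Polynomial.IsPrimitive.dvd_primPart_iff_dvd` or:
   `C b * G = Q * H` gives content `H` divisible by `b`) `Q ∣ dX1 Q`.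
   `natDegree Q = natDegree P =: d`.  Suppose `d ≥ 1`.
2. `dX1 Q = Q L`.  `natDegree_z (dX1 Q) ≤ d + 1` with coefficient `- d q_d` of `z^(d+1)` (`coeff_dX1`), so
   `L = - d z + C λ0`, `λ0 ∈ K[x]`.
3. `natDegree λ0 ≤ 2`: coefficients of `z^j` (`j ≥ 1`; for `j = 0` drop the `q_(j-1)` term):
   `λ0 q_j = dX0 q_j + (d - j + 1) q_(j-1) + (j+1) g0 q_(j+1)`.  Let
   `N = max { natDegree q_j + 2j : q_j ≠ 0 }`, attained at `j`.  The right side has degree
   `≤ N - 2j + 2`, the left side `natDegree λ0 + N - 2j`.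
4. `λ0(x0) = 0` for `x0 ∈ {0, 1, -1}`: map `K[x][z] → K[z]`, `x ↦ x0`
   (`Polynomial.map (Polynomial.evalRingHom x0)`), `σ` = image of `Q`, `σ ≠ 0` as `Q` is primitive
   (otherwise `X - C x0` divides all coefficients of `Q`).  `dX0 q` and `g0` vanish at `x0`
   (`x0 (1 - x0²) = 0`), so `- z² σ' = (- d z + λ0(x0)) σ`.  If `λ0(x0) ≠ 0` the lowest nonzero
   coefficient `σ_a` gives (coefficient of `z^a`) `0 = λ0(x0) σ_a`, contradiction.
5. `λ0` has degree `≤ 2` and the three roots `0, 1, -1` (distinct, `2 ≠ 0`): `λ0 = 0`.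
6. `dX1 Q + d z Q = 0 = C 0`: `top_lemma` with `k = d`, `g = 0`: `2 d ≤ d`, contradiction.
-/

namespace Pool.Agent.H85.OT

open Polynomial in
theorem zdl_gauss {K : Type*} [Field K] (Q : Polynomial (Polynomial K)) (hQ : Q.IsPrimitive)
    (b : Polynomial K) (hb : b ≠ 0) (G : Polynomial (Polynomial K)) (h : Q ∣ C b * G) : Q ∣ G := by
  classical
  by_cases hG : G = 0
  · rw [hG]; exact dvd_zero _
  have hne : C b * G ≠ 0 := mul_ne_zero (by simpa using hb) hG
  have h1 := (hQ.dvd_primPart_iff_dvd hne).2 h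
  rw [Polynomial.primPart_mul hne] at h1
  have hu : IsUnit (C b : Polynomial (Polynomial K)).primPart := Polynomial.isUnit_primPart_C b
  have h2 : Q ∣ G.primPart := (hu.dvd_mul_left).1 h1
  exact (hQ.dvd_primPart_iff_dvd hG).1 h2

open Polynomial in
theorem zdl_dX0_natDegree {K : Type*} [Field K] (f : Polynomial K) :
    (dX0 K f).natDegree ≤ f.natDegree + 2 := by
  rw [dX0_apply]
  rcases Nat.eq_zero_or_pos f.natDegree with h0 | h0
  · rw [Polynomial.eq_C_of_natDegree_eq_zero h0]
    simp
  have h1 : (derivative f).natDegree ≤ f.natDegree - 1 := Polynomial.natDegree_derivative_le f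
  have h2 : (C (-1/2 : K) * X * (1 - X ^ 2)).natDegree ≤ 3 := by compute_degree
  calc _ ≤ (C (-1/2 : K) * X * (1 - X ^ 2)).natDegree + (derivative f).natDegree :=
        Polynomial.natDegree_mul_le
    _ ≤ 3 + (f.natDegree - 1) := Nat.add_le_add h2 h1
    _ ≤ f.natDegree + 2 := by omega

open Polynomial in
theorem zdl_g0_natDegree {K : Type*} [Field K] : (g0 K).natDegree ≤ 4 := by
  unfold g0
  compute_degree

open Polynomial in
theorem zdl_dX0_eval {K : Type*} [Field K] (f : Polynomial K) (x0 : K) (hx : x0 * (1 - x0 ^ 2) = 0) :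
    (dX0 K f).eval x0 = 0 := by
  rw [dX0_apply]
  simp only [eval_mul, eval_C, eval_X, eval_sub, eval_one, eval_pow]
  linear_combination (-1/2 : K) * (eval x0 (derivative f)) * hx

open Polynomial in
theorem zdl_g0_eval {K : Type*} [Field K] (x0 : K) (hx : x0 * (1 - x0 ^ 2) = 0) :
    (g0 K).eval x0 = 0 := by
  unfold g0
  simp only [eval_mul, eval_C, eval_X, eval_sub, eval_one, eval_pow]
  linear_combination (1/4 : K) * x0 * hx

/-- the cofactor vanishes at the three points -/
theorem zdl_root {K : Type*} [Field K] (Q : Polynomial (Polynomial K)) (hQ : Q.IsPrimitive)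
    (b : Polynomial K) (d : ℕ)
    (e0 : b * Q.coeff 0 = dX0 K (Q.coeff 0) + g0 K * Q.coeff 1)
    (e1 : ∀ j, b * Q.coeff (j + 1) = dX0 K (Q.coeff (j + 1)) +
      ((j : Polynomial K) + 2) * g0 K * Q.coeff (j + 2) + ((d : Polynomial K) - j) * Q.coeff j)
    (x0 : K) (hx : x0 * (1 - x0 ^ 2) = 0) : b.eval x0 = 0 := by
  by_contra hb
  have h0 : ∀ j, (Q.coeff j).eval x0 = 0 := by
    intro j
    induction j with
    | zero =>
      have := congrArg (Polynomial.eval x0) e0
      rw [Polynomial.eval_mul, Polynomial.eval_add, Polynomial.eval_mul, zdl_dX0_eval _ _ hx,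
        zdl_g0_eval _ hx, zero_mul, add_zero] at this
      exact (mul_eq_zero.1 this).resolve_left hb
    | succ j ih =>
      have := congrArg (Polynomial.eval x0) (e1 j)
      rw [Polynomial.eval_mul, Polynomial.eval_add, Polynomial.eval_add, Polynomial.eval_mul,
        Polynomial.eval_mul, Polynomial.eval_mul, zdl_dX0_eval _ _ hx,
        zdl_g0_eval _ hx, ih, mul_zero, mul_zero, zero_mul, add_zero, add_zero] at this
      exact (mul_eq_zero.1 this).resolve_left hb
  have h1 : Polynomial.C (Polynomial.X - Polynomial.C x0) ∣ Q := by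
    rw [Polynomial.C_dvd_iff_dvd_coeff]
    intro j
    exact Polynomial.dvd_iff_isRoot.2 (h0 j)
  exact Polynomial.not_isUnit_X_sub_C x0 (hQ _ h1)

/-- the cofactor has degree at most two -/
theorem zdl_deg {K : Type*} [Field K] (Q : Polynomial (Polynomial K)) (hQ : Q ≠ 0)
    (b : Polynomial K) (d : ℕ)
    (e0 : b * Q.coeff 0 = dX0 K (Q.coeff 0) + g0 K * Q.coeff 1)
    (e1 : ∀ j, b * Q.coeff (j + 1) = dX0 K (Q.coeff (j + 1)) +
      ((j : Polynomial K) + 2) * g0 K * Q.coeff (j + 2) + ((d : Polynomial K) - j) * Q.coeff j) :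
    b.natDegree ≤ 2 := by
  by_cases hb : b = 0
  · rw [hb]; simp
  obtain ⟨j, hj, hmax⟩ := Finset.exists_max_image Q.support
    (fun j => (Q.coeff j).natDegree + 2 * j) (Polynomial.nonempty_support_iff.2 hQ)
  have hjne : Q.coeff j ≠ 0 := Polynomial.mem_support_iff.1 hj
  have hM : ∀ i, Q.coeff i ≠ 0 → (Q.coeff i).natDegree + 2 * i ≤ (Q.coeff j).natDegree + 2 * j :=
    fun i hi => hmax i (Polynomial.mem_support_iff.2 hi)
  have hcast : ∀ (u : ℤ), ((u : Polynomial K)).natDegree = 0 := fun u => Polynomial.natDegree_intCast u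
  have hsucc : ∀ (u : ℤ), (((u : Polynomial K)) * g0 K * Q.coeff (j + 1)).natDegree ≤
      (Q.coeff j).natDegree + 2 := by
    intro u
    by_cases h : Q.coeff (j + 1) = 0
    · rw [h, mul_zero]; simp
    have h1 := hM _ h
    have h2 : (((u : Polynomial K)) * g0 K * Q.coeff (j + 1)).natDegree ≤
        (0 + 4) + (Q.coeff (j + 1)).natDegree := by
      refine Polynomial.natDegree_mul_le.trans (Nat.add_le_add_right ?_ _)
      refine Polynomial.natDegree_mul_le.trans (Nat.add_le_add ?_ zdl_g0_natDegree)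
      exact (hcast u).le
    omega
  have hL : (b * Q.coeff j).natDegree = b.natDegree + (Q.coeff j).natDegree :=
    Polynomial.natDegree_mul hb hjne
  have hle : (b * Q.coeff j).natDegree ≤ (Q.coeff j).natDegree + 2 := by
    rcases j with _ | j
    · rw [e0]
      refine Polynomial.natDegree_add_le_of_degree_le (zdl_dX0_natDegree _) ?_
      have := hsucc 1
      simpa using this
    · rw [e1 j]
      refine Polynomial.natDegree_add_le_of_degree_le
        (Polynomial.natDegree_add_le_of_degree_le (zdl_dX0_natDegree _) ?_) ?_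
      · have := hsucc ((j : ℤ) + 2)
        push_cast at this
        exact this
      · by_cases h : Q.coeff j = 0
        · rw [h, mul_zero]; simp
        have h1 := hM _ h
        have h2 : (((d : Polynomial K) - j) * Q.coeff j).natDegree ≤ 0 + (Q.coeff j).natDegree := by
          refine Polynomial.natDegree_mul_le.trans (Nat.add_le_add_right ?_ _)
          have h3 := hcast ((d : ℤ) - j)
          push_cast at h3
          exact h3.le
        omega
  omega

theorem zdl_prim {K : Type*} [Field K] [CharZero K] (Q : Polynomial (Polynomial K))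
    (hQp : Q.IsPrimitive) (hdvd : Q ∣ dX1 K Q) : Q.natDegree = 0 := by
  classical
  have hQ0 : Q ≠ 0 := hQp.ne_zero
  obtain ⟨L, hL⟩ := hdvd
  by_contra hd
  have hd1 : 1 ≤ Q.natDegree := Nat.one_le_iff_ne_zero.2 hd
  set d := Q.natDegree with hddef
  have hqd : Q.coeff d ≠ 0 := by
    rw [hddef]; exact Polynomial.leadingCoeff_ne_zero.2 hQ0
  have hdc : (d : Polynomial K) ≠ 0 := by
    rw [Ne, Nat.cast_eq_zero]; omega
  have htop : (dX1 K Q).coeff (d + 1) = - (d : Polynomial K) * Q.coeff d := by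
    rw [coeff_dX1, Polynomial.coeff_eq_zero_of_natDegree_lt (p := Q) (n := d + 1) (by omega),
      Polynomial.coeff_eq_zero_of_natDegree_lt (p := Q) (n := d + 2) (by omega), Dv.map_zero]
    ring
  have hL0 : L ≠ 0 := by
    rintro rfl
    rw [mul_zero] at hL
    rw [hL, Polynomial.coeff_zero] at htop
    exact (mul_ne_zero (neg_ne_zero.2 hdc) hqd) htop.symm
  have hnat : (dX1 K Q).natDegree ≤ d + 1 := by
    rw [Polynomial.natDegree_le_iff_coeff_eq_zero]
    intro n hn
    obtain ⟨j, rfl⟩ : ∃ j, n = j + 1 := ⟨n - 1, by omega⟩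
    rw [coeff_dX1, Polynomial.coeff_eq_zero_of_natDegree_lt (p := Q) (n := j + 1) (by omega),
      Polynomial.coeff_eq_zero_of_natDegree_lt (p := Q) (n := j + 2) (by omega),
      Polynomial.coeff_eq_zero_of_natDegree_lt (p := Q) (n := j) (by omega), Dv.map_zero]
    ring
  have hLdeg : L.natDegree ≤ 1 := by
    rw [hL, Polynomial.natDegree_mul hQ0 hL0] at hnat
    omega
  obtain ⟨a, b, hab⟩ := Polynomial.exists_eq_X_add_C_of_natDegree_le_one hLdeg
  have hco : ∀ j, (dX1 K Q).coeff (j + 1) = a * Q.coeff j + b * Q.coeff (j + 1) := by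
    intro j
    rw [hL, hab]
    have : Q * (Polynomial.C a * Polynomial.X + Polynomial.C b) =
      Polynomial.C a * (Polynomial.X * Q) + Polynomial.C b * Q := by ring
    rw [this, Polynomial.coeff_add, Polynomial.coeff_C_mul, Polynomial.coeff_C_mul,
      Polynomial.coeff_X_mul]
  have hco0 : (dX1 K Q).coeff 0 = b * Q.coeff 0 := by
    rw [hL, hab]
    have : Q * (Polynomial.C a * Polynomial.X + Polynomial.C b) =
      Polynomial.C a * (Polynomial.X * Q) + Polynomial.C b * Q := by ring
    rw [this, Polynomial.coeff_add, Polynomial.coeff_C_mul, Polynomial.coeff_C_mul,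
      Polynomial.coeff_X_mul_zero, mul_zero, zero_add]
  have haval : a = - (d : Polynomial K) := by
    have h1 := hco d
    rw [htop, Polynomial.coeff_eq_zero_of_natDegree_lt (p := Q) (n := d + 1) (by omega), mul_zero,
      add_zero] at h1
    exact (mul_right_cancel₀ hqd h1).symm
  have e0 : b * Q.coeff 0 = dX0 K (Q.coeff 0) + g0 K * Q.coeff 1 := by
    rw [← hco0, coeff_dX1_zero]
  have e1 : ∀ j, b * Q.coeff (j + 1) = dX0 K (Q.coeff (j + 1)) +
      ((j : Polynomial K) + 2) * g0 K * Q.coeff (j + 2) +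
      ((d : Polynomial K) - j) * Q.coeff j := by
    intro j
    have h1 := hco j
    rw [coeff_dX1, haval] at h1
    linear_combination -h1
  have hb2 : b.natDegree ≤ 2 := zdl_deg Q hQ0 b d e0 e1
  have hb0 : b = 0 := by
    refine Polynomial.eq_zero_of_natDegree_lt_card_of_eval_eq_zero' b ({0, 1, -1} : Finset K) ?_ ?_
    · intro x hx
      refine zdl_root Q hQp b d e0 e1 x ?_
      simp only [Finset.mem_insert, Finset.mem_singleton] at hx
      rcases hx with rfl | rfl | rfl <;> ring
    · have h2 : (1 : K) ≠ -1 := by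
        intro h
        have h3 : (2 : K) = 0 := by linear_combination h
        exact two_ne_zero h3
      have h3 : ({0, 1, -1} : Finset K).card = 3 := by
        rw [Finset.card_eq_three]
        refine ⟨0, 1, -1, zero_ne_one, ?_, h2, rfl⟩
        intro h
        exact one_ne_zero (neg_eq_zero.1 h.symm)
      omega
  have hfin := top_lemma Q hQ0 d 0 (by
    rw [hL, hab, hb0, haval, Polynomial.C_neg]
    simp only [map_natCast, Polynomial.C_0]
    ring) (by simp)
  omega

theorem zdl_split {K : Type*} [Field K] [CharZero K] (Q : Polynomial (Polynomial K))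
    (hQp : Q.IsPrimitive) (a c : Polynomial K) (ha : a ≠ 0) (hc : c ≠ 0)
    (h : Polynomial.C a * Q ∣ Polynomial.C c * dX1 K (Polynomial.C a * Q)) : Q ∣ dX1 K Q := by
  have h1 : Q ∣ Polynomial.C c * dX1 K (Polynomial.C a * Q) :=
    (Dvd.intro_left _ rfl).trans h
  have h2 : dX1 K (Polynomial.C a * Q) =
      Polynomial.C (dX0 K a) * Q + Polynomial.C a * dX1 K Q := by
    have h3 : dX1 K (Polynomial.C a) = Polynomial.C (dX0 K a) := dext_C _ _ _
    rw [Dv.map_mul, h3]
  rw [h2, mul_add] at h1
  have h3 : Q ∣ Polynomial.C c * (Polynomial.C (dX0 K a) * Q) := by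
    rw [← mul_assoc]
    exact dvd_mul_left _ _
  have h4 := (dvd_add_right h3).1 h1
  have h5 : Q ∣ Polynomial.C (c * a) * dX1 K Q := by
    rw [Polynomial.C_mul, mul_assoc]; exact h4
  exact zdl_gauss Q hQp _ (mul_ne_zero hc ha) _ h5

theorem dl {K : Type*} [Field K] [CharZero K] (P : Polynomial (Polynomial K)) (hP : P ≠ 0)
    (c : Polynomial K) (hc : c ≠ 0) (h : P ∣ Polynomial.C c * dX1 K P) : P.natDegree = 0 := by
  classical
  have ha : P.content ≠ 0 := by
    intro h0
    exact hP (Polynomial.content_eq_zero_iff.1 h0)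
  have hQp : P.primPart.IsPrimitive := Polynomial.isPrimitive_primPart P
  rw [← Polynomial.natDegree_primPart P]
  refine zdl_prim _ hQp (zdl_split P.primPart hQp P.content c ha hc ?_)
  rw [← Polynomial.eq_C_content_mul_primPart P]
  exact h

end Pool.Agent.H85.OT
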