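import Pool.Agent.H85.OT.Zdl

/-!
# Row ZNS1 (project OT): no solution of the first linear equation

`K` of characteristic `0`, `κ ≥ 1`, `φ ≠ 0` in `K[x]`, `natDegree φ ≤ 2κ + 1`, `δ = dX1 K`.  Claim: there are no
`p, q ∈ K[x][z]`, `q ≠ 0`, with `q δp - p δq = φ q² - κ z p q`.

1. WLOG `p, q` relatively prime (`K[x][z]` is a UFD,
   `UniqueFactorizationMonoid.exists_reduced_factors` applied to `q, p`: `q = g q'`, `p = g p'`;
   `q δp - p δq = g² (q' δp' - p' δq')`).
2. `q ∣ p δq`, so `q ∣ δq` (`IsRelPrime.dvd_of_dvd_mul_left`), so by `dl` (`c = 1`) `q = C q0`; and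
   `C q0 ∣ C (dX0 q0)` gives `dX0 q0 = s q0`, `s ∈ K[x]`.  Cancel `q`:
   (*) `δp = (s - κ z) p + φ q0`  (`s, φ q0` in `K[x]`, embedded by `C`).
   `p ≠ 0` because `φ q0 ≠ 0`.
3. `z`-degree of `p` is `κ`: let `d = natDegree p`, coefficient of `z^(d+1)` in (*):
   `- d p_d = - κ p_d` (`coeff_dX1`; `φ q0` only contributes to `z^0`).  So `d = κ ≥ 1`.
4. `q0` is constant.  Suppose first that `q0(x0) = 0` for some `x0 ∈ {0, 1, -1}`, and write
   `q0 = (x - x0)^μ r`, `μ ≥ 1`, `r(x0) ≠ 0`.  From `s q0 = -(1/2) x(1-x²) q0'`, dividing by `(x-x0)^μ` and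
   evaluating at `x0`: `s(x0) r(x0) = -(1/2) μ w r(x0)` with `w` = value at `x0` of `x(1-x²)/(x-x0)`
   (`w = 1, -2, -2` for `x0 = 0, 1, -1`), so `s(x0) ≠ 0`.  Put `x = x0` in (*)
   (`Polynomial.map (Polynomial.evalRingHom x0)`), `σ(z)` = image of `p`; `dX0 p_j` and `g0` vanish at `x0`:
   `- z² σ' = (s(x0) - κ z) σ`; the lowest coefficient of `σ` shows `σ = 0`.  So `x - x0` divides `p` and
   `q = C q0`, contradicting relative primality.
   So `q0` is coprime to `x (1-x²)`, and `q0 ∣ x(1-x²) q0'` gives `q0 ∣ q0'`, `q0' = 0`, `q0` constant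
   (`char 0`), and `s q0 = 0`, so `s = 0`.
5. `δp + κ z p = C (φ q0)`, `natDegree (φ q0) ≤ 2κ + 1 = 2 natDegree p + 1`; `top_lemma`: `2κ ≤ κ`,
   contradiction.
-/

namespace Pool.Agent.H85.OT

theorem Zns1_eval_dX0 {K : Type*} [Field K] (f : Polynomial K) (x0 : K) (h0 : x0 * (1 - x0 ^ 2) = 0) :
    (dX0 K f).eval x0 = 0 := by
  rw [dX0_apply]
  simp only [Polynomial.eval_mul, Polynomial.eval_C, Polynomial.eval_X, Polynomial.eval_sub,
    Polynomial.eval_one, Polynomial.eval_pow]
  linear_combination (-1/2 * Polynomial.eval x0 (Polynomial.derivative f)) * h0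

theorem Zns1_eval_g0 {K : Type*} [Field K] (x0 : K) (h0 : x0 * (1 - x0 ^ 2) = 0) :
    (g0 K).eval x0 = 0 := by
  unfold g0
  simp only [Polynomial.eval_mul, Polynomial.eval_C, Polynomial.eval_X, Polynomial.eval_sub,
    Polynomial.eval_one, Polynomial.eval_pow]
  linear_combination (1/4 * x0) * h0

/-- coefficients of the equation (*) -/
theorem Zns1_coeff {K : Type*} [Field K] {κ : ℕ} {s f : Polynomial K} {p : Polynomial (Polynomial K)}
    (h : dX1 K p = (Polynomial.C s - (κ : Polynomial (Polynomial K)) * Polynomial.X) * p + Polynomial.C f) :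
    (dX0 K (p.coeff 0) + g0 K * p.coeff 1 = s * p.coeff 0 + f) ∧
    ∀ j, dX0 K (p.coeff (j + 1)) + ((j : Polynomial K) + 2) * g0 K * p.coeff (j + 2) -
      (j : Polynomial K) * p.coeff j = s * p.coeff (j + 1) - (κ : Polynomial K) * p.coeff j := by
  have e : (Polynomial.C s - (κ : Polynomial (Polynomial K)) * Polynomial.X) * p =
      Polynomial.C s * p - Polynomial.C (κ : Polynomial K) * (Polynomial.X * p) := by
    rw [map_natCast (Polynomial.C : Polynomial K →+* Polynomial (Polynomial K))]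
    ring
  constructor
  · have h1 := congrArg (fun P => Polynomial.coeff P 0) h
    simp only [coeff_dX1_zero, e, Polynomial.coeff_add, Polynomial.coeff_sub, Polynomial.coeff_C_mul,
      Polynomial.coeff_X_mul_zero, Polynomial.coeff_C_zero, mul_zero, sub_zero] at h1
    exact h1
  · intro j
    have h1 := congrArg (fun P => Polynomial.coeff P (j + 1)) h
    simp only [coeff_dX1, e, Polynomial.coeff_add, Polynomial.coeff_sub, Polynomial.coeff_C_mul,
      Polynomial.coeff_X_mul, Polynomial.coeff_C_succ, add_zero] at h1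
    exact h1

/-- the value of `s` at a zero of `q0` -/
theorem Zns1_s {K : Type*} [Field K] [CharZero K] {q0 s : Polynomial K} (hq0 : q0 ≠ 0)
    (hs : dX0 K q0 = q0 * s) (x0 : K) {W : Polynomial K}
    (hW : Polynomial.X * (1 - Polynomial.X ^ 2) = (Polynomial.X - Polynomial.C x0) * W)
    (hW0 : W.eval x0 ≠ 0) (h0 : q0.eval x0 = 0) : s.eval x0 ≠ 0 := by
  obtain ⟨r, hr, hnd⟩ := Polynomial.exists_eq_pow_rootMultiplicity_mul_and_not_dvd q0 hq0 x0
  have hmu : 0 < q0.rootMultiplicity x0 := (Polynomial.rootMultiplicity_pos hq0).2 h0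
  obtain ⟨m, hm⟩ : ∃ m, q0.rootMultiplicity x0 = m + 1 := ⟨q0.rootMultiplicity x0 - 1, by omega⟩
  rw [hm] at hr
  have hr0 : r.eval x0 ≠ 0 := by
    intro h
    exact hnd (Polynomial.dvd_iff_isRoot.2 h)
  have hne : (Polynomial.X - Polynomial.C x0 : Polynomial K) ^ (m + 1) ≠ 0 :=
    pow_ne_zero _ (Polynomial.X_sub_C_ne_zero x0)
  have hd : Polynomial.derivative q0 = (Polynomial.X - Polynomial.C x0) ^ m *
      (((m : Polynomial K) + 1) * r + (Polynomial.X - Polynomial.C x0) * Polynomial.derivative r) := by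
    rw [hr, Polynomial.derivative_mul, Polynomial.derivative_X_sub_C_pow]
    push_cast
    rw [map_add, map_one, map_natCast (Polynomial.C : K →+* Polynomial K)]
    ring
  have h1 : r * s = Polynomial.C (-1/2 : K) * W *
      (((m : Polynomial K) + 1) * r + (Polynomial.X - Polynomial.C x0) * Polynomial.derivative r) := by
    apply mul_left_cancel₀ hne
    have h2 : (Polynomial.X - Polynomial.C x0) ^ (m + 1) * (r * s) = dX0 K q0 := by
      rw [hs]
      conv_rhs => rw [hr]
      ring
    rw [h2, dX0_apply, hd]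
    linear_combination (Polynomial.C (-1/2 : K) * (Polynomial.X - Polynomial.C x0) ^ m *
      (((m : Polynomial K) + 1) * r + (Polynomial.X - Polynomial.C x0) * Polynomial.derivative r)) * hW
  have h2 := congrArg (Polynomial.eval x0) h1
  simp only [Polynomial.eval_mul, Polynomial.eval_add, Polynomial.eval_sub, Polynomial.eval_X,
    Polynomial.eval_C, Polynomial.eval_natCast, Polynomial.eval_one, sub_self, zero_mul, add_zero] at h2
  intro hs0
  rw [hs0, mul_zero] at h2
  have h3 : (-1/2 : K) * Polynomial.eval x0 W * (((m : K) + 1) * Polynomial.eval x0 r) ≠ 0 := by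
    refine mul_ne_zero (mul_ne_zero (by norm_num) hW0) (mul_ne_zero ?_ hr0)
    exact_mod_cast Nat.succ_ne_zero m
  exact h3 h2.symm

theorem Zns1_noroot {K : Type*} [Field K] [CharZero K] {κ : ℕ} {s φ q0 : Polynomial K}
    {p : Polynomial (Polynomial K)} (hq0 : q0 ≠ 0) (hs : dX0 K q0 = q0 * s)
    (hrel : IsRelPrime (Polynomial.C q0) p)
    (h : dX1 K p = (Polynomial.C s - (κ : Polynomial (Polynomial K)) * Polynomial.X) * p +
      Polynomial.C (φ * q0)) (x0 : K) {W : Polynomial K}
    (hW : Polynomial.X * (1 - Polynomial.X ^ 2) = (Polynomial.X - Polynomial.C x0) * W)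
    (hW0 : W.eval x0 ≠ 0) : q0.eval x0 ≠ 0 := by
  intro h0
  have hs0 := Zns1_s hq0 hs x0 hW hW0 h0
  have hx0 : x0 * (1 - x0 ^ 2) = 0 := by
    have := congrArg (Polynomial.eval x0) hW
    simpa using this
  obtain ⟨c0, c1⟩ := Zns1_coeff h
  have hall : ∀ j, (p.coeff j).eval x0 = 0 := by
    intro j
    induction j with
    | zero =>
      have h1 := congrArg (Polynomial.eval x0) c0
      simp only [Polynomial.eval_mul, Polynomial.eval_add, Zns1_eval_dX0 _ x0 hx0,
        Zns1_eval_g0 x0 hx0, h0, zero_mul, mul_zero, add_zero] at h1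
      rcases mul_eq_zero.1 h1.symm with h2 | h2
      · exact absurd h2 hs0
      · exact h2
    | succ j ih =>
      have h1 := congrArg (Polynomial.eval x0) (c1 j)
      simp only [Polynomial.eval_mul, Polynomial.eval_add, Polynomial.eval_sub, Zns1_eval_dX0 _ x0 hx0,
        Zns1_eval_g0 x0 hx0, ih, zero_mul, mul_zero, add_zero, sub_zero] at h1
      rcases mul_eq_zero.1 h1.symm with h2 | h2
      · exact absurd h2 hs0
      · exact h2
  have hdp : Polynomial.C (Polynomial.X - Polynomial.C x0) ∣ p := by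
    rw [Polynomial.C_dvd_iff_dvd_coeff]
    intro j
    exact Polynomial.dvd_iff_isRoot.2 (hall j)
  have hdq : Polynomial.C (Polynomial.X - Polynomial.C x0) ∣ Polynomial.C q0 :=
    map_dvd Polynomial.C (Polynomial.dvd_iff_isRoot.2 h0)
  have hu := hrel hdq hdp
  rw [Polynomial.isUnit_C] at hu
  exact (Polynomial.irreducible_X_sub_C x0).not_isUnit hu

theorem Zns1_core {K : Type*} [Field K] [CharZero K] (κ : ℕ) (hκ : 0 < κ) (φ : Polynomial K)
    (hφ : φ ≠ 0) (hd : φ.natDegree ≤ 2 * κ + 1) (p q : Polynomial (Polynomial K)) (hq : q ≠ 0)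
    (hrel : IsRelPrime q p)
    (h : q * dX1 K p - p * dX1 K q = Polynomial.C φ * q ^ 2 + bz K κ * (p * q)) : False := by
  have hdvd : q ∣ dX1 K q := by
    refine hrel.dvd_of_dvd_mul_left ⟨dX1 K p - Polynomial.C φ * q - bz K κ * p, ?_⟩
    linear_combination -h
  have hdeg : q.natDegree = 0 := dl q hq 1 one_ne_zero (by rwa [map_one, one_mul])
  obtain ⟨q0, hqq⟩ : ∃ q0, q = Polynomial.C q0 := ⟨_, Polynomial.eq_C_of_natDegree_eq_zero hdeg⟩
  subst hqq
  have hq0 : q0 ≠ 0 := fun h0 => hq (by rw [h0, map_zero])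
  have hdC : dX1 K (Polynomial.C q0) = Polynomial.C (dX0 K q0) := dext_C _ _ _
  obtain ⟨s, hs⟩ : q0 ∣ dX0 K q0 := by
    rw [hdC, Polynomial.C_dvd_iff_dvd_coeff] at hdvd
    have := hdvd 0
    rwa [Polynomial.coeff_C_zero] at this
  have hstar : dX1 K p = (Polynomial.C s - (κ : Polynomial (Polynomial K)) * Polynomial.X) * p +
      Polynomial.C (φ * q0) := by
    apply mul_left_cancel₀ hq
    rw [hdC, hs] at h
    unfold bz at h
    rw [map_mul] at h ⊢
    linear_combination h
  have hp : p ≠ 0 := by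
    intro hp0
    rw [hp0, mul_zero, zero_add, (dX1 K).map_zero] at hstar
    exact mul_ne_zero hφ hq0 (Polynomial.C_eq_zero.1 hstar.symm)
  obtain ⟨c0, c1⟩ := Zns1_coeff hstar
  have hpd : p.natDegree = κ := by
    have h1 := c1 p.natDegree
    rw [Polynomial.coeff_eq_zero_of_natDegree_lt (Nat.lt_succ_self _),
      Polynomial.coeff_eq_zero_of_natDegree_lt (by omega : p.natDegree < p.natDegree + 2),
      (dX0 K).map_zero, mul_zero, mul_zero, add_zero, zero_sub, zero_sub, neg_inj] at h1
    have h2 : p.coeff p.natDegree ≠ 0 := by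
      rw [Polynomial.coeff_natDegree]
      exact Polynomial.leadingCoeff_ne_zero.2 hp
    have h3 := mul_right_cancel₀ h2 h1
    exact_mod_cast h3
  have hr0 : q0.eval 0 ≠ 0 := by
    refine Zns1_noroot hq0 hs hrel hstar 0 (W := 1 - Polynomial.X ^ 2) ?_ ?_
    · rw [map_zero, sub_zero]
    · simp
  have hr1 : q0.eval 1 ≠ 0 := by
    refine Zns1_noroot hq0 hs hrel hstar 1 (W := - Polynomial.X * (1 + Polynomial.X)) ?_ ?_
    · rw [map_one]
      ring
    · simp only [Polynomial.eval_mul, Polynomial.eval_neg, Polynomial.eval_X, Polynomial.eval_add,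
        Polynomial.eval_one]
      norm_num
  have hr2 : q0.eval (-1) ≠ 0 := by
    refine Zns1_noroot hq0 hs hrel hstar (-1) (W := Polynomial.X * (1 - Polynomial.X)) ?_ ?_
    · rw [map_neg, map_one]
      ring
    · simp only [Polynomial.eval_mul, Polynomial.eval_X, Polynomial.eval_sub, Polynomial.eval_one]
      norm_num
  have hcop : ∀ x0 : K, q0.eval x0 ≠ 0 → IsCoprime q0 (Polynomial.X - Polynomial.C x0) := by
    intro x0 hx
    rw [isCoprime_comm]
    refine ((Polynomial.irreducible_X_sub_C x0).coprime_iff_not_dvd).2 ?_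
    intro hd
    exact hx (Polynomial.dvd_iff_isRoot.1 hd)
  have hder : q0 ∣ Polynomial.derivative q0 := by
    have h1 : q0 ∣ (Polynomial.X - Polynomial.C 0) * ((Polynomial.X - Polynomial.C 1) *
        ((Polynomial.X - Polynomial.C (-1)) * Polynomial.derivative q0)) := by
      have h2 : (Polynomial.X - Polynomial.C 0) * ((Polynomial.X - Polynomial.C 1) *
          ((Polynomial.X - Polynomial.C (-1)) * Polynomial.derivative q0)) =
          Polynomial.C (2 : K) * dX0 K q0 := by
        have h3 : Polynomial.C (2 : K) * Polynomial.C (-1/2 : K) = -1 := by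
          rw [← map_mul]
          norm_num
        rw [dX0_apply]
        simp only [map_zero, map_one, map_neg, sub_zero]
        linear_combination (- (Polynomial.X * (1 - Polynomial.X ^ 2) * Polynomial.derivative q0)) * h3
      rw [h2, hs]
      exact ⟨Polynomial.C 2 * s, by ring⟩
    exact (hcop (-1) hr2).dvd_of_dvd_mul_left ((hcop 1 hr1).dvd_of_dvd_mul_left
      ((hcop 0 hr0).dvd_of_dvd_mul_left h1))
  have hder0 : Polynomial.derivative q0 = 0 :=
    Polynomial.eq_zero_of_dvd_of_degree_lt hder (Polynomial.degree_derivative_lt hq0)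
  have hqd : q0.natDegree = 0 := Polynomial.derivative_eq_zero.1 hder0
  have hs0 : s = 0 := by
    rw [dX0_apply, hder0, mul_zero] at hs
    rcases mul_eq_zero.1 hs.symm with h1 | h1
    · exact absurd h1 hq0
    · exact h1
  have htop := top_lemma p hp κ (φ * q0) (by
    rw [hstar, hs0, map_zero]
    ring) (by
    rw [Polynomial.natDegree_mul hφ hq0, hqd, hpd]
    omega)
  omega

theorem ns1 {K : Type*} [Field K] [CharZero K] (κ : ℕ) (hκ : 0 < κ) (φ : Polynomial K)
    (hφ : φ ≠ 0) (hd : φ.natDegree ≤ 2 * κ + 1) :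
    NS (dX1 K) (Polynomial.C φ) (bz K κ) := by
  intro p q hq h
  obtain ⟨q', p', g, hrel, hgq, hgp⟩ := UniqueFactorizationMonoid.exists_reduced_factors q hq p
  have hg : g ≠ 0 := fun h0 => hq (by rw [← hgq, h0, zero_mul])
  have hq' : q' ≠ 0 := fun h0 => hq (by rw [← hgq, h0, mul_zero])
  refine Zns1_core κ hκ φ hφ hd p' q' hq' hrel ?_
  apply mul_left_cancel₀ (pow_ne_zero 2 hg)
  rw [← hgq, ← hgp, (dX1 K).map_mul, (dX1 K).map_mul] at h
  linear_combination h

end Pool.Agent.H85.OT
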