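import Pool.Agent.H85.OT.ZDef

/-!
# Row ZTOP (project OT): the top weighted form (weights: `x ↦ 1`, `z ↦ 2`)

`K` of characteristic `0`, `p ≠ 0` in `K[x][z]`, `p = ∑_j p_j(x) z^j`, `d = natDegree p` (degree in `z`),
`dX1 p + k z p = g(x)` with `natDegree g ≤ 2 d + 1`.  Claim: `2 d ≤ k`.

Let `N = max { natDegree p_j + 2 j : p_j ≠ 0 } ≥ 2 d`, and `c_j` = coefficient of `x^(N-2j)` in `p_j` if
`2 j ≤ N`, `c_j = 0` otherwise (then `p_j = 0`).  Some `c_j ≠ 0`.  (Convenient: put `c_j` = coefficient of
`x^(N-2j)` with the convention `0` if `2j > N`; in Lean maybe use the polynomial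
`σ = ∑_(j ≤ d) C c_j X^j`.)
Coefficient of `z^j` of the equation (`coeff_dX1`, `coeff_dX1_zero`):
`j ≥ 1`: `dX0 p_j + (j+1) g0 p_(j+1) - (j-1) p_(j-1) + k p_(j-1) = 0`; `j = 0`: `dX0 p_0 + g0 p_1 = g`.
Take the coefficient of `x^M`, `M = N + 2 - 2j`:
* `dX0 p_j = -(1/2) x p_j' + (1/2) x³ p_j'` gives `-(1/2) M [x^M]p_j + (1/2)(M-2)[x^(M-2)]p_j`
  `= (1/2)(N-2j) c_j` (`deg p_j ≤ N - 2j < M`);
* `g0 p_(j+1) = (1/4)(x² - x⁴) p_(j+1)` gives `(1/4)[x^(M-2)]p_(j+1) - (1/4)[x^(M-4)]p_(j+1) = -(1/4) c_(j+1)`;
* `p_(j-1)` gives `c_(j-1)`; `g` gives `0` (`natDegree g ≤ 2d + 1 ≤ N + 1`).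
So for all `j ≥ 0` (`c_(-1) = 0`): `(N/2 - j) c_j - (1/4)(j+1) c_(j+1) + (k - (j-1)) c_(j-1) = 0`
(for `2 j > N + 2` all terms are `0`; `2j = N+1, N+2` are covered by the computation).
For `σ(w) = ∑ c_j w^j ≠ 0` this says `(w + 1/2)² σ' = (k w + N/2) σ`.
Write `σ = (w+1/2)^a τ` with `τ(-1/2) ≠ 0` (`Polynomial.exists_eq_pow_rootMultiplicity_mul_and_not_dvd`).
Dividing by `(w+1/2)^a`: `a (w+1/2) τ + (w+1/2)² τ' = (k (w+1/2) + (N-k)/2) τ`; at `w = -1/2`: `(N-k)/2 τ(-1/2) = 0`,
so `N = k` and `2 d ≤ N = k`.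
-/

namespace Pool.Agent.H85.OT

section aux
variable {K : Type*} [Field K] [CharZero K]

theorem ztop_dX0 (q : Polynomial K) (m : ℕ) :
    (dX0 K q).coeff (m + 2) = -(1 / 2) * ((m : K) + 2) * q.coeff (m + 2) +
      1 / 2 * (m : K) * q.coeff m := by
  have e : dX0 K q = Polynomial.C (-1 / 2 : K) * (Polynomial.X * Polynomial.derivative q) +
      Polynomial.C (1 / 2 : K) * (Polynomial.X * (Polynomial.X *
        (Polynomial.X * Polynomial.derivative q))) := by
    rw [dX0_apply, neg_div, Polynomial.C_neg]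
    ring
  rw [e, Polynomial.coeff_add, Polynomial.coeff_C_mul, Polynomial.coeff_C_mul,
    Polynomial.coeff_X_mul, Polynomial.coeff_X_mul, Polynomial.coeff_X_mul,
    Polynomial.coeff_derivative]
  rcases m with _ | m
  · rw [Polynomial.coeff_X_mul_zero]
    push_cast
    ring
  · rw [Polynomial.coeff_X_mul, Polynomial.coeff_derivative]
    push_cast
    ring

theorem ztop_g0 (q : Polynomial K) (m : ℕ) :
    (g0 K * q).coeff (m + 4) = 1 / 4 * q.coeff (m + 2) - 1 / 4 * q.coeff m := by
  have e : g0 K * q = Polynomial.C (1 / 4 : K) * (Polynomial.X * (Polynomial.X * q)) -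
      Polynomial.C (1 / 4 : K) * (Polynomial.X * (Polynomial.X * (Polynomial.X *
        (Polynomial.X * q)))) := by
    rw [g0]
    ring
  rw [e, Polynomial.coeff_sub, Polynomial.coeff_C_mul, Polynomial.coeff_C_mul,
    Polynomial.coeff_X_mul, Polynomial.coeff_X_mul, Polynomial.coeff_X_mul,
    Polynomial.coeff_X_mul, Polynomial.coeff_X_mul, Polynomial.coeff_X_mul]

/-- solutions of `(w + 1/2)² σ' = (k w + N/2) σ` -/
theorem ztop_ode (σ : Polynomial K) (hσ : σ ≠ 0) (k N : ℕ)
    (h : (Polynomial.X + Polynomial.C (1 / 2 : K)) ^ 2 * Polynomial.derivative σ =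
      (Polynomial.C (k : K) * Polynomial.X + Polynomial.C ((N : K) / 2)) * σ) : N = k := by
  set τ := σ.comp (Polynomial.X - Polynomial.C (1 / 2 : K)) with hτ
  have hτ0 : τ ≠ 0 := by
    intro h0
    apply hσ
    have h1 := congrArg (fun P => P.comp (Polynomial.X + Polynomial.C (1 / 2 : K))) h0
    simp only [hτ, Polynomial.comp_assoc, Polynomial.sub_comp, Polynomial.X_comp,
      Polynomial.C_comp, add_sub_cancel_right, Polynomial.comp_X, Polynomial.zero_comp] at h1
    exact h1
  have hd : Polynomial.derivative τ =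
      (Polynomial.derivative σ).comp (Polynomial.X - Polynomial.C (1 / 2 : K)) := by
    rw [hτ, Polynomial.derivative_comp, Polynomial.derivative_sub, Polynomial.derivative_X,
      Polynomial.derivative_C, sub_zero, one_mul]
  have h1 := congrArg (fun P => P.comp (Polynomial.X - Polynomial.C (1 / 2 : K))) h
  simp only [Polynomial.mul_comp, Polynomial.pow_comp, Polynomial.add_comp, Polynomial.X_comp,
    Polynomial.C_comp, sub_add_cancel] at h1
  rw [← hd, ← hτ] at h1
  have e1 : Polynomial.X ^ 2 * Polynomial.derivative τ =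
      Polynomial.X * (Polynomial.X * Polynomial.derivative τ) := by ring
  have e2 : (Polynomial.C (k : K) * (Polynomial.X - Polynomial.C (1 / 2 : K)) +
      Polynomial.C ((N : K) / 2)) * τ = Polynomial.C (k : K) * (Polynomial.X * τ) +
        Polynomial.C (((N : K) - k) / 2) * τ := by
    have : Polynomial.C (((N : K) - k) / 2) = Polynomial.C ((N : K) / 2) -
        Polynomial.C (k : K) * Polynomial.C (1 / 2 : K) := by
      rw [← Polynomial.C_mul, ← Polynomial.C_sub]
      congr 1
      ring
    rw [this]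
    ring
  rw [e1, e2] at h1
  set a := τ.natTrailingDegree with ha
  have h2 := congrArg (fun P => P.coeff a) h1
  simp only [Polynomial.coeff_add, Polynomial.coeff_C_mul] at h2
  have hlow : ∀ b, b < a → τ.coeff b = 0 := fun b hb =>
    Polynomial.coeff_eq_zero_of_lt_natTrailingDegree hb
  have hne : τ.coeff a ≠ 0 := Polynomial.trailingCoeff_nonzero_iff_nonzero.2 hτ0
  have h3 : (Polynomial.X * τ).coeff a = 0 := by
    rcases a with _ | b
    · exact Polynomial.coeff_X_mul_zero _
    · rw [Polynomial.coeff_X_mul]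
      exact hlow b (Nat.lt_succ_self b)
  have h4 : (Polynomial.X * (Polynomial.X * Polynomial.derivative τ)).coeff a = 0 := by
    rcases a with _ | _ | b
    · exact Polynomial.coeff_X_mul_zero _
    · rw [Polynomial.coeff_X_mul, Polynomial.coeff_X_mul_zero]
    · rw [Polynomial.coeff_X_mul, Polynomial.coeff_X_mul, Polynomial.coeff_derivative,
        hlow (b + 1) (Nat.lt_succ_self _), zero_mul]
  rw [h3, h4, mul_zero, zero_add] at h2
  have h5 : ((N : K) - k) / 2 = 0 := by
    rcases mul_eq_zero.1 h2.symm with h5 | h5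
    · exact h5
    · exact absurd h5 hne
  have h6 : (N : K) = k := by linear_combination 2 * h5
  exact_mod_cast h6

end aux

theorem top_lemma {K : Type*} [Field K] [CharZero K] (p : Polynomial (Polynomial K)) (hp : p ≠ 0)
    (k : ℕ) (g : Polynomial K)
    (h : dX1 K p + (k : Polynomial (Polynomial K)) * Polynomial.X * p = Polynomial.C g)
    (hg : g.natDegree ≤ 2 * p.natDegree + 1) : 2 * p.natDegree ≤ k := by
  classical
  set N : ℕ := p.support.sup (fun j => (p.coeff j).natDegree + 2 * j) with hN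
  have hle : ∀ j, p.coeff j ≠ 0 → (p.coeff j).natDegree + 2 * j ≤ N := fun j hj =>
    Finset.le_sup (f := fun j => (p.coeff j).natDegree + 2 * j) (Polynomial.mem_support_iff.2 hj)
  obtain ⟨j0, hj0, hj0N⟩ := Finset.exists_mem_eq_sup p.support
    (Polynomial.support_nonempty.2 hp) (fun j => (p.coeff j).natDegree + 2 * j)
  have hd : 2 * p.natDegree ≤ N := by
    have h1 := hle p.natDegree (by
      rw [Polynomial.coeff_natDegree, Ne, Polynomial.leadingCoeff_eq_zero]
      exact hp)
    omega
  have F1 : ∀ j m, N < m + 2 * j → (p.coeff j).coeff m = 0 := by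
    intro j m hm
    by_cases h0 : p.coeff j = 0
    · rw [h0, Polynomial.coeff_zero]
    · apply Polynomial.coeff_eq_zero_of_natDegree_lt
      have := hle j h0
      omega
  have F0 : ∀ j, N < 2 * j → p.coeff j = 0 := by
    intro j hj
    ext m
    rw [F1 j m (by omega), Polynomial.coeff_zero]
  let c : ℕ → K := fun j => if 2 * j ≤ N then (p.coeff j).coeff (N - 2 * j) else 0
  have hc : ∀ j, c j = if 2 * j ≤ N then (p.coeff j).coeff (N - 2 * j) else 0 := fun j => rfl
  have hc0 : ∀ j, N < 2 * j → c j = 0 := by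
    intro j hj
    rw [hc, if_neg (by omega)]
  have hc1 : ∀ j m, m + 2 * j = N → (p.coeff j).coeff m = c j := by
    intro j m hm
    rw [hc, if_pos (by omega)]
    congr 1
    omega
  have L1 : ∀ j M, M + 2 * j = N + 2 →
      (dX0 K (p.coeff j)).coeff M = ((N : K) / 2 - j) * c j := by
    intro j M hM
    by_cases hM2 : M < 2
    · rw [F0 j (by omega), hc0 j (by omega), Dv.map_zero, Polynomial.coeff_zero, mul_zero]
    · obtain ⟨m, rfl⟩ : ∃ m, M = m + 2 := ⟨M - 2, by omega⟩
      have hmN : m + 2 * j = N := by omega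
      rw [ztop_dX0, F1 j (m + 2) (by omega), hc1 j m hmN, ← hmN]
      push_cast
      ring
  have L2 : ∀ j M, M + 2 * j = N + 4 →
      (g0 K * p.coeff j).coeff M = -(1 / 4) * c j := by
    intro j M hM
    by_cases hM2 : M < 4
    · rw [F0 j (by omega), hc0 j (by omega), mul_zero, Polynomial.coeff_zero, mul_zero]
    · obtain ⟨m, rfl⟩ : ∃ m, M = m + 4 := ⟨M - 4, by omega⟩
      have hmN : m + 2 * j = N := by omega
      rw [ztop_g0, F1 j (m + 2) (by omega), hc1 j m hmN]
      ring
  -- the equations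
  have E0 : (N : K) / 2 * c 0 - 1 / 4 * c 1 = 0 := by
    have h1 := congrArg (fun P => (P.coeff 0).coeff (N + 2)) h
    simp only [Polynomial.coeff_add, mul_assoc, Polynomial.coeff_C_zero] at h1
    rw [coeff_dX1_zero, Polynomial.coeff_add, L1 0 (N + 2) (by omega), L2 1 (N + 2) (by omega),
      Polynomial.coeff_eq_zero_of_natDegree_lt (p := g) (n := N + 2) (by omega)] at h1
    have h2 : ((k : Polynomial (Polynomial K)) * (Polynomial.X * p)).coeff 0 = 0 := by
      rw [← Polynomial.C_eq_natCast, Polynomial.coeff_C_mul, Polynomial.coeff_X_mul_zero, mul_zero]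
    rw [h2, Polynomial.coeff_zero] at h1
    push_cast at h1
    linear_combination h1
  have E1 : ∀ i : ℕ, ((N : K) / 2 - (i + 1)) * c (i + 1) - 1 / 4 * (i + 2) * c (i + 2) +
      ((k : K) - i) * c i = 0 := by
    intro i
    by_cases hi : 2 * i ≤ N
    · have h1 := congrArg (fun P => (P.coeff (i + 1)).coeff (N - 2 * i)) h
      have h2 : ((k : Polynomial (Polynomial K)) * (Polynomial.X * p)).coeff (i + 1) =
          (k : Polynomial K) * p.coeff i := by
        rw [← Polynomial.C_eq_natCast, Polynomial.coeff_C_mul, Polynomial.coeff_X_mul]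
      simp only [Polynomial.coeff_add, mul_assoc, Polynomial.coeff_C_succ] at h1
      rw [coeff_dX1, h2, Polynomial.coeff_zero] at h1
      have h3 : ((i : Polynomial K) + 2) * g0 K * p.coeff (i + 2) =
          Polynomial.C ((i : K) + 2) * (g0 K * p.coeff (i + 2)) := by
        rw [Polynomial.C_add, Polynomial.C_eq_natCast]
        have : (Polynomial.C (2 : K)) = 2 := by
          exact_mod_cast Polynomial.C_ofNat (R := K) 2
        rw [this]
        ring
      rw [Polynomial.coeff_sub, Polynomial.coeff_add, h3, ← Polynomial.C_eq_natCast,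
        ← Polynomial.C_eq_natCast, Polynomial.coeff_C_mul, Polynomial.coeff_C_mul,
        Polynomial.coeff_C_mul, L1 (i + 1) (N - 2 * i) (by omega),
        L2 (i + 2) (N - 2 * i) (by omega), hc1 i (N - 2 * i) (by omega)] at h1
      push_cast at h1
      linear_combination h1
    · rw [hc0 i (by omega), hc0 (i + 1) (by omega), hc0 (i + 2) (by omega)]
      ring
  -- the polynomial
  set σ : Polynomial K := ∑ j ∈ Finset.range (N + 1), Polynomial.monomial j (c j) with hσ
  have hcσ : ∀ j, σ.coeff j = c j := by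
    intro j
    rw [hσ, Polynomial.finsetSum_coeff]
    simp only [Polynomial.coeff_monomial]
    rw [Finset.sum_ite_eq' (Finset.range (N + 1)) j (fun j => c j)]
    split_ifs with h1
    · rfl
    · rw [Finset.mem_range] at h1
      exact (hc0 j (by omega)).symm
  have hσ0 : σ ≠ 0 := by
    intro h0
    have h1 := hcσ j0
    rw [h0, Polynomial.coeff_zero] at h1
    have h2 : (p.coeff j0).natDegree + 2 * j0 = N := hj0N.symm
    rw [← hc1 j0 _ h2, Polynomial.coeff_natDegree] at h1
    exact (Polynomial.mem_support_iff.1 hj0) (Polynomial.leadingCoeff_eq_zero.1 h1.symm)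
  have hode : (Polynomial.X + Polynomial.C (1 / 2 : K)) ^ 2 * Polynomial.derivative σ =
      (Polynomial.C (k : K) * Polynomial.X + Polynomial.C ((N : K) / 2)) * σ := by
    have e1 : (Polynomial.X + Polynomial.C (1 / 2 : K)) ^ 2 * Polynomial.derivative σ =
        Polynomial.X * (Polynomial.X * Polynomial.derivative σ) +
          Polynomial.X * Polynomial.derivative σ +
          Polynomial.C (1 / 4 : K) * Polynomial.derivative σ := by
      have e2 : (Polynomial.C (1 / 4 : K)) = Polynomial.C (1 / 2 : K) * Polynomial.C (1 / 2 : K) := by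
        rw [← Polynomial.C_mul]; congr 1; ring
      have e3 : Polynomial.C (1 / 2 : K) + Polynomial.C (1 / 2 : K) = 1 := by
        rw [← Polynomial.C_add]
        norm_num
      rw [e2]
      linear_combination (Polynomial.X * Polynomial.derivative σ) * e3
    have e2 : (Polynomial.C (k : K) * Polynomial.X + Polynomial.C ((N : K) / 2)) * σ =
        Polynomial.C (k : K) * (Polynomial.X * σ) + Polynomial.C ((N : K) / 2) * σ := by ring
    rw [e1, e2]
    ext n
    rw [Polynomial.coeff_add, Polynomial.coeff_add, Polynomial.coeff_add, Polynomial.coeff_C_mul,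
      Polynomial.coeff_C_mul, Polynomial.coeff_C_mul, Polynomial.coeff_derivative]
    rcases n with _ | n
    · rw [Polynomial.coeff_X_mul_zero, Polynomial.coeff_X_mul_zero, Polynomial.coeff_X_mul_zero,
        hcσ, hcσ]
      push_cast
      linear_combination -E0
    · rw [Polynomial.coeff_X_mul, Polynomial.coeff_X_mul, Polynomial.coeff_X_mul,
        Polynomial.coeff_derivative]
      have h1 : (Polynomial.X * Polynomial.derivative σ).coeff n = n * σ.coeff n := by
        rcases n with _ | n
        · rw [Polynomial.coeff_X_mul_zero]; push_cast; ring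
        · rw [Polynomial.coeff_X_mul, Polynomial.coeff_derivative]; push_cast; ring
      rw [h1, hcσ, hcσ, hcσ]
      push_cast
      linear_combination -(E1 n)
  have := ztop_ode σ hσ0 k N hode
  omega

end Pool.Agent.H85.OT
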